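import Pool.Agent.R222.GH.Stm

/-! # The supports exist -/

set_option autoImplicit false

namespace Pool.Agent.R222.GH.Cor

open MeasureTheory Set Filter Topology
open Pool.Agent.R222.GH

theorem hw_hom (p : ℝ) (φ : ℝ → ℝ) {l s v : ℝ} (hl : 0 < l) (hv : 0 < v) :
    hw p φ (l * s) (l * v) = l ^ p * hw p φ s v := by
  unfold hw
  rw [Real.mul_rpow hl.le hv.le, mul_div_mul_left _ _ hl.ne']
  ring

/-- scaling of the supporting inequality -/
theorem scale (hE : S_MEE) {p : ℝ} {φ : ℝ → ℝ} {l s v A C D : ℝ} (hl : 0 < l) (hv : 0 < v)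
    (h : ∀ t, min l 1 ≤ t → t ≤ max l 1 →
      0 ≤ (l - t) * (-(p * D) + (1 - p) * (A * (s + v)) * t + (2 - p) * (C * (s * v)) * t ^ 2))
    (h2 : A * (l * s + l * v) + C * (l * s * (l * v)) + D ≤ hw p φ (l * s) (l * v)) :
    A * (s + v) + C * (s * v) + D ≤ hw p φ s v := by
  have h3 := hE p l D (A * (s + v)) (C * (s * v)) hl h
  rw [hw_hom p φ hl hv] at h2
  have h4 : 0 < l ^ (-p) := Real.rpow_pos_of_pos hl _
  have h5 : l ^ (-p) * l ^ p = 1 := by
    rw [← Real.rpow_add hl]; simp
  have h6 : l ^ (-p) * (D + A * (s + v) * l + C * (s * v) * l ^ 2)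
      ≤ l ^ (-p) * (l ^ p * hw p φ s v) := by
    apply mul_le_mul_of_nonneg_left _ h4.le
    linarith
  have h7 : l ^ (-p) * (l ^ p * hw p φ s v) = hw p φ s v := by
    rw [← mul_assoc, h5, one_mul]
  rw [h7] at h6
  linarith

section

variable {p K0 A C D κ : ℝ} {φ : ℝ → ℝ}

/-- the quadratic function -/
theorem qform (hκ : (2 - p) * (-C) * κ = (1 - p) * A)
    (hD : -(p * D) = -((1 - p) * A * (K0 + 1)) - (2 - p) * C * K0) (s v t : ℝ) :
    -(p * D) + (1 - p) * (A * (s + v)) * t + (2 - p) * (C * (s * v)) * t ^ 2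
      = (2 - p) * (-C) * (-((K0 - κ) * (κ - 1)) - (t * s - κ) * (t * v - κ)) := by
  rw [hD]
  linear_combination (K0 + 1 - t * (s + v)) * hκ

/-- the supporting inequality where the large singular value is larger than one -/
theorem glob (hE : S_MEE) (hp : p < 0) (hC : C < 0) (hκ : (2 - p) * (-C) * κ = (1 - p) * A)
    (hD : -(p * D) = -((1 - p) * A * (K0 + 1)) - (2 - p) * C * K0) (h1κ : 1 < κ) (hκ0 : κ < K0)
    (hm : ∀ s v, 0 < v → v ≤ s → 0 ≤ (s - K0) * (v - 1) → v ≤ K0 → 1 ≤ s →
      A * (s + v) + C * (s * v) + D ≤ hw p φ s v) {s v : ℝ} (hv : 0 < v) (hs : v ≤ s)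
    (hs1 : 1 < s) : A * (s + v) + C * (s * v) + D ≤ hw p φ s v := by
  have hcc : 0 < (2 - p) * (-C) := mul_pos (by linarith) (by linarith)
  have hsp : 0 < s := by linarith
  have hθ : 0 < (K0 - κ) * (κ - 1) := mul_pos (by linarith) (by linarith)
  rcases le_or_gt K0 v with h1 | h1
  · -- both are large
    have hl : 0 < K0 / v := div_pos (by linarith) hv
    have hl1 : K0 / v ≤ 1 := by rw [div_le_one hv]; exact h1
    have e : K0 / v * v = K0 := div_mul_cancel₀ _ hv.ne'
    have e2 : K0 ≤ K0 / v * s := by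
      have := mul_le_mul_of_nonneg_left hs hl.le
      linarith
    refine scale hE hl hv (fun t ht ht' => ?_) (hm _ _ (mul_pos hl hv)
      (mul_le_mul_of_nonneg_left hs hl.le) ?_ (by rw [e]) (by linarith))
    · rw [min_eq_left hl1] at ht
      rw [max_eq_right hl1] at ht'
      rw [qform hκ hD]
      have h2 : K0 ≤ t * v := by
        have := mul_le_mul_of_nonneg_right ht hv.le
        linarith
      have h3 : t * v ≤ t * s := mul_le_mul_of_nonneg_left hs (hl.le.trans ht)
      have h4 : 0 ≤ (t * s - κ) * (t * v - κ) := mul_nonneg (by linarith) (by linarith)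
      apply mul_nonneg_of_nonpos_of_nonpos (by linarith)
      apply mul_nonpos_of_nonneg_of_nonpos hcc.le
      linarith
    · rw [e]
      exact mul_nonneg (by linarith) (by linarith)
  rcases le_or_gt 0 ((s - K0) * (v - 1)) with h2 | h2
  · exact hm s v hv hs h2 h1.le hs1.le
  rcases lt_or_ge K0 s with h3 | h3
  · -- `s > K0`, `v < 1`
    have h4 : v < 1 := by
      by_contra hcon
      push Not at hcon
      have := mul_nonneg (show 0 ≤ s - K0 by linarith) (show 0 ≤ v - 1 by linarith)
      linarith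
    have hl : 0 < 1 / v := by positivity
    have hl1 : 1 ≤ 1 / v := by rw [le_div_iff₀ hv]; linarith
    have e : 1 / v * v = 1 := div_mul_cancel₀ _ hv.ne'
    have e2 : s ≤ 1 / v * s := by
      have := mul_le_mul_of_nonneg_right hl1 hsp.le
      linarith
    refine scale hE hl hv (fun t ht ht' => ?_) (hm _ _ (mul_pos hl hv)
      (mul_le_mul_of_nonneg_left hs hl.le) ?_ (by rw [e]; linarith) (by linarith))
    · rw [min_eq_right hl1] at ht
      rw [max_eq_left hl1] at ht'
      rw [qform hκ hD]
      have h5 : t * v ≤ 1 := by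
        have := mul_le_mul_of_nonneg_right ht' hv.le
        linarith
      have h6 : s ≤ t * s := by nlinarith
      have h7 : (K0 - κ) * (κ - 1) ≤ (t * s - κ) * (κ - t * v) :=
        mul_le_mul (by linarith) (by linarith) (by linarith) (by linarith)
      apply mul_nonneg (by linarith)
      apply mul_nonneg hcc.le
      linarith
    · rw [e]; simp
  · -- `s ≤ K0`, `v > 1`
    have h4 : 1 < v := by
      by_contra hcon
      push Not at hcon
      have := mul_nonneg_of_nonpos_of_nonpos (show s - K0 ≤ 0 by linarith) (show v - 1 ≤ 0 by linarith)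
      linarith
    have hl : 0 < 1 / v := by positivity
    have hl1 : 1 / v ≤ 1 := by rw [div_le_one hv]; linarith
    have e : 1 / v * v = 1 := div_mul_cancel₀ _ hv.ne'
    have e2 : 1 ≤ 1 / v * s := by
      have := mul_le_mul_of_nonneg_left hs hl.le
      linarith
    refine scale hE hl hv (fun t ht ht' => ?_) (hm _ _ (mul_pos hl hv)
      (mul_le_mul_of_nonneg_left hs hl.le) ?_ (by rw [e]; linarith) (by linarith))
    · rw [min_eq_left hl1] at ht
      rw [max_eq_right hl1] at ht'
      rw [qform hκ hD]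
      have h5 : 1 ≤ t * v := by
        have := mul_le_mul_of_nonneg_right ht hv.le
        linarith
      have h6 : t * s ≤ K0 := by nlinarith
      have h3 : t * v ≤ t * s := mul_le_mul_of_nonneg_left hs (hl.le.trans ht)
      have h7 : (t * s - κ) * (κ - t * v) ≤ (K0 - κ) * (κ - 1) := by
        rcases le_total (t * s) κ with h8 | h8
        · have := mul_nonneg (show 0 ≤ κ - t * s by linarith) (show 0 ≤ κ - t * v by linarith)
          linarith
        · rcases le_total κ (t * v) with h9 | h9
          · have := mul_nonneg (show 0 ≤ t * s - κ by linarith) (show 0 ≤ t * v - κ by linarith)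
            linarith
          · exact mul_le_mul (by linarith) (by linarith) (by linarith) (by linarith)
      apply mul_nonneg_of_nonpos_of_nonpos (by linarith)
      apply mul_nonpos_of_nonneg_of_nonpos hcc.le
      linarith
    · rw [e]; simp

/-- the supporting inequality where the large singular value is at most one -/
theorem small (hE : S_MEE) (hp : p < 0) (hC : C < 0) (hκ : (2 - p) * (-C) * κ = (1 - p) * A)
    (hD : -(p * D) = -((1 - p) * A * (K0 + 1)) - (2 - p) * C * K0) (h1κ : 1 < κ) (hκ0 : κ < K0)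
    {v1 : ℝ} (hv1 : 0 < v1) (hm : ∀ s, v1 ≤ s → A * (s + v1) + C * (s * v1) + D ≤ hw p φ s v1)
    {s v : ℝ} (hv : v1 ≤ v) (hs : v ≤ s) (hs1 : s ≤ 1) :
    A * (s + v) + C * (s * v) + D ≤ hw p φ s v := by
  have hcc : 0 < (2 - p) * (-C) := mul_pos (by linarith) (by linarith)
  have hvp : 0 < v := by linarith
  have hsp : 0 < s := by linarith
  have hθ : 0 < (K0 - κ) * (κ - 1) := mul_pos (by linarith) (by linarith)
  have hl : 0 < v1 / v := by positivity
  have hl1 : v1 / v ≤ 1 := by rw [div_le_one hvp]; exact hv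
  have e : v1 / v * v = v1 := div_mul_cancel₀ _ hvp.ne'
  have e2 : v1 ≤ v1 / v * s := by
    have := mul_le_mul_of_nonneg_left hs hl.le
    linarith
  refine scale hE hl hvp (fun t ht ht' => ?_) ?_
  · rw [min_eq_left hl1] at ht
    rw [max_eq_right hl1] at ht'
    rw [qform hκ hD]
    have ht0 : 0 ≤ t := hl.le.trans ht
    have h5 : t * v ≤ 1 := by nlinarith
    have h6 : t * s ≤ 1 := by nlinarith
    have h4 : 0 ≤ (κ - t * s) * (κ - t * v) := mul_nonneg (by linarith) (by linarith)
    apply mul_nonneg_of_nonpos_of_nonpos (by linarith)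
    apply mul_nonpos_of_nonneg_of_nonpos hcc.le
    linarith
  · rw [e]
    exact hm _ e2

end

/-- the third kind of supports -/
theorem third (hF : S_FCT) (hM : S_MIR) (hE : S_MEE) {p K0 a : ℝ} {φ : ℝ → ℝ} (hp1 : p ≤ 1)
    (hR : RC (iso (hw p φ))) (hK : 1 < K0) (ha : SG φ K0 a)
    (h3 : (2 - p) * a - p * (φ K0 - a * K0) < 0) : Spt p φ K0 := by
  obtain ⟨-, hmono, hsl, hsub⟩ := hF p φ hR
  obtain ⟨hBE, hSA⟩ := hsub K0 a hK ha
  have hK1 : 0 < K0 - 1 := by linarith
  -- `a > 0`
  have ha0 : 0 < a := by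
    have : 0 < (2 - p) * (a * (K0 - 1)) := by nlinarith
    have h4 := (mul_pos_iff_of_pos_left (show 0 < 2 - p by linarith)).1 this
    exact (mul_pos_iff_of_pos_right hK1).1 h4
  have hφ1 : φ K0 + a * (1 - K0) ≤ φ 1 := ha 1 le_rfl
  -- `p < 0`
  have hp : p < 0 := by
    by_contra hcon
    push Not at hcon
    have : p * (φ K0 + a * (1 - K0)) ≤ p * φ 1 := mul_le_mul_of_nonneg_left hφ1 hcon
    nlinarith
  -- the lower bound
  set θ : ℝ := max 0 (-(φ 1) / 2) with hθ
  have hlow : ∀ K, 1 ≤ K → θ * (-p * K - (2 - p)) ≤ φ K := by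
    intro K hK'
    rcases le_or_gt 0 (φ 1) with h | h
    · have : θ = 0 := by rw [hθ]; exact max_eq_left (by linarith)
      rw [this, zero_mul]
      have h4 := hmono (mem_Ici.2 (le_refl (1 : ℝ))) (mem_Ici.2 hK') hK'
      simp only [Real.one_rpow, one_mul] at h4
      have h5 : 0 < K ^ (-(p / 2)) := Real.rpow_pos_of_pos (by linarith) _
      by_contra hcon
      push Not at hcon
      have := mul_neg_of_pos_of_neg h5 hcon
      linarith
    · have : θ = -(φ 1) / 2 := by rw [hθ]; exact max_eq_right (by linarith)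
      rw [this]
      have := hsl K hK'
      linarith
  have hθ0 : 0 ≤ θ := le_max_left _ _
  have hθa : -p * θ ≤ a := by
    rcases le_or_gt 0 (φ 1) with h | h
    · have : θ = 0 := by rw [hθ]; exact max_eq_left (by linarith)
      rw [this]; linarith
    · have : θ = -(φ 1) / 2 := by rw [hθ]; exact max_eq_right (by linarith)
      rw [this]; linarith
  have hsp : -p * φ K0 < a * (-p * K0 - (2 - p)) := by linarith
  have hlK := hlow K0 hK.le
  have hlK' := mul_le_mul_of_nonneg_left hlK (show 0 ≤ -p by linarith)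
  have he1 : 0 < -p * K0 - (2 - p) := by
    by_contra hcon
    push Not at hcon
    have := mul_le_mul_of_nonpos_right hθa hcon
    linarith
  have hφ0 : 0 ≤ φ K0 := (mul_nonneg hθ0 he1.le).trans hlK
  have hθa' : -p * θ < a := by
    by_contra hcon
    push Not at hcon
    have := mul_le_mul_of_nonneg_right hcon he1.le
    linarith
  -- the coefficients
  set A : ℝ := (2 * K0 * a - p * φ K0) / (K0 - 1) with hA
  set C : ℝ := (p * φ K0 - K0 * a - a) / (K0 - 1) with hC
  set D : ℝ := φ K0 - A * (K0 + 1) - C * K0 with hD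
  have hA1 : A * (K0 - 1) = 2 * K0 * a - p * φ K0 := by rw [hA]; exact div_mul_cancel₀ _ hK1.ne'
  have hC1 : C * (K0 - 1) = p * φ K0 - K0 * a - a := by rw [hC]; exact div_mul_cancel₀ _ hK1.ne'
  have hpφ : 0 ≤ -p * φ K0 := mul_nonneg (by linarith) hφ0
  have hK0a : 0 < K0 * a := by positivity
  have hAp : 0 < A := by rw [hA]; apply div_pos _ hK1; linarith
  have hCn : C < 0 := by rw [hC]; apply div_neg_of_neg_of_pos _ hK1; linarith
  have hAC : A + C = a := by
    have : (A + C) * (K0 - 1) = a * (K0 - 1) := by rw [add_mul, hA1, hC1]; ring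
    exact mul_right_cancel₀ hK1.ne' this
  have hEu : A * (K0 + 1) + 2 * C * K0 = p * φ K0 := by
    have : (A * (K0 + 1) + 2 * C * K0) * (K0 - 1) = p * φ K0 * (K0 - 1) := by
      linear_combination (K0 + 1) * hA1 + 2 * K0 * hC1
    exact mul_right_cancel₀ hK1.ne' this
  have hD' : -(p * D) = -((1 - p) * A * (K0 + 1)) - (2 - p) * C * K0 := by
    rw [hD]; linear_combination hEu
  set κ : ℝ := (1 - p) * A / ((2 - p) * (-C)) with hκ
  have hcc : 0 < (2 - p) * (-C) := mul_pos (by linarith) (by linarith)
  have hκ1 : (2 - p) * (-C) * κ = (1 - p) * A := by rw [hκ]; exact mul_div_cancel₀ _ hcc.ne'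
  have hκ2 : 1 < κ := by
    rw [hκ, lt_div_iff₀ hcc, one_mul]
    -- `(1-p) A + (2-p) C > 0`
    have : 0 < ((1 - p) * A + (2 - p) * C) * (K0 - 1) := by
      have e : ((1 - p) * A + (2 - p) * C) * (K0 - 1) = p * (φ K0 - a * K0) - (2 - p) * a := by
        linear_combination (1 - p) * hA1 + (2 - p) * hC1
      rw [e]; linarith
    have := (mul_pos_iff_of_pos_right hK1).1 this
    linarith
  have hκ3 : κ < K0 := by
    rw [hκ, div_lt_iff₀ hcc]
    have : ((1 - p) * A + (2 - p) * C * K0) * (K0 - 1) < 0 := by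
      have e : ((1 - p) * A + (2 - p) * C * K0) * (K0 - 1)
          = -(K0 * a * ((2 - p) * K0 + p)) - (-p * φ K0) * ((2 - p) * K0 - (1 - p)) := by
        linear_combination (1 - p) * hA1 + (2 - p) * K0 * hC1
      rw [e]
      have h4 : 0 < K0 * a * ((2 - p) * K0 + p) := by
        apply mul_pos hK0a
        nlinarith
      have h5 : 0 ≤ (-p * φ K0) * ((2 - p) * K0 - (1 - p)) := by
        apply mul_nonneg hpφ
        nlinarith
      linarith
    have h6 : (1 - p) * A + (2 - p) * C * K0 < 0 := by
      by_contra hcon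
      push Not at hcon
      have := mul_nonneg hcon hK1.le
      linarith
    linarith
  have hmir : ∀ s v, 0 < v → v ≤ s → 0 ≤ (s - K0) * (v - 1) → v ≤ K0 → 1 ≤ s →
      A * (s + v) + C * (s * v) + D ≤ hw p φ s v := by
    intro s v hv hs h4 h5 h6
    have := hM p φ K0 a s v hR ha hK hv hs h4 h5 h6
    rw [← hA, ← hC] at this
    rw [hD]
    linarith
  have hEE : ∀ s v, 0 < v → v ≤ s → θ * (-p * s * v ^ (p - 1) - (2 - p) * v ^ p) ≤ hw p φ s v := by
    intro s v hv hs
    have h4 := hlow (s / v) (by rw [le_div_iff₀ hv]; linarith)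
    have h5 : 0 < v ^ p := Real.rpow_pos_of_pos hv _
    have h6 := mul_le_mul_of_nonneg_left h4 h5.le
    unfold hw
    refine le_trans (le_of_eq ?_) h6
    rw [Real.rpow_sub_one hv.ne']
    ring
  rcases eq_or_lt_of_le hθ0 with h0 | h0
  · -- no cut
    right; left
    refine ⟨A, C, D, 1, hAp.le, Or.inl rfl, by rw [hD]; ring, fun s v hv hs => ?_⟩
    rw [one_mul]
    rcases lt_or_ge 1 s with hs1 | hs1
    · exact glob hE hp hCn hκ1 hD' hκ2 hκ3 hmir hv hs hs1
    · have h4 := hEE s v hv hs
      rw [← h0, zero_mul] at h4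
      refine le_trans ?_ h4
      have h5 := qform hκ1 hD' s v 1
      have hv1 : v ≤ 1 := hs.trans hs1
      have h6 : 0 ≤ (κ - s) * (κ - v) := mul_nonneg (by linarith) (by linarith)
      have h7 : 0 < (K0 - κ) * (κ - 1) := mul_pos (by linarith) (by linarith)
      have h8 : 0 ≤ (2 - p) * (-C) * ((K0 - κ) * (κ - 1) + (κ - s) * (κ - v)) :=
        mul_nonneg hcc.le (by linarith)
      have hCs : 0 ≤ A + C * s := by nlinarith
      have hCv : 0 ≤ A + C * v := by nlinarith
      have h9 : 0 ≤ s * (A + C * v) + v * (A + C * s) :=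
        add_nonneg (mul_nonneg (by linarith) hCv) (mul_nonneg hv.le hCs)
      have h10 : 0 ≤ p * (A * (s + v) + C * (s * v) + D) := by nlinarith
      by_contra hcon
      push Not at hcon
      have := mul_neg_of_neg_of_pos hp hcon
      linarith
  · -- the cut
    right; right
    have hcont : ContinuousOn (fun v : ℝ => (A + C * v) * v ^ (1 - p)) (Icc 0 1) := by
      apply ContinuousOn.mul
      · exact Continuous.continuousOn (by fun_prop)
      · apply ContinuousOn.rpow_const continuousOn_id
        intro x _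
        right; linarith
    obtain ⟨v1, hv1, hv1e⟩ := intermediate_value_Ioo (zero_le_one' ℝ) hcont
      (show -p * θ ∈ Ioo ((fun v : ℝ => (A + C * v) * v ^ (1 - p)) 0)
        ((fun v : ℝ => (A + C * v) * v ^ (1 - p)) 1) by
        simp only [mul_zero, add_zero, mul_one, Real.one_rpow]
        rw [Real.zero_rpow (by linarith), mul_zero, hAC]
        exact ⟨mul_pos (by linarith) h0, hθa'⟩)
    have hv10 : 0 < v1 := hv1.1
    have hv11 : v1 < 1 := hv1.2
    simp only at hv1e
    have hcut : A + C * v1 = θ * (-p) * v1 ^ (p - 1) := by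
      have h4 : v1 ^ (1 - p) * v1 ^ (p - 1) = 1 := by
        rw [← Real.rpow_add hv10]; simp
      have h5 : (A + C * v1) * v1 ^ (1 - p) * v1 ^ (p - 1) = -p * θ * v1 ^ (p - 1) := by
        rw [hv1e]
      rw [mul_assoc, h4, mul_one] at h5
      rw [h5]; ring
    have hvp : v1 ^ p = v1 ^ (p - 1) * v1 := by
      rw [Real.rpow_sub_one hv10.ne']; field_simp
    set c : ℝ := A * v1 + D + θ * (2 - p) * v1 ^ p with hc
    have hc0 : c ≤ 0 := by
      have h4 := qform hκ1 hD' v1 v1 1
      have h5 : -p * c = -(p * D) + (1 - p) * (A * (v1 + v1)) * 1 + (2 - p) * (C * (v1 * v1)) * 1 ^ 2 := by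
        rw [hc, hvp]
        linear_combination -(2 - p) * v1 * hcut
      have h6 : 0 ≤ (2 - p) * (-C) * ((K0 - κ) * (κ - 1) + (v1 - κ) * (v1 - κ)) := by
        apply mul_nonneg hcc.le
        have : 0 < (K0 - κ) * (κ - 1) := mul_pos (by linarith) (by linarith)
        nlinarith [mul_self_nonneg (v1 - κ)]
      have h7 : -p * c ≤ 0 := by
        rw [h5, h4]
        simp only [one_mul]
        linarith
      by_contra hcon
      push Not at hcon
      have := mul_pos (show 0 < -p by linarith) hcon
      linarith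
    have hline : ∀ s, v1 ≤ s → A * (s + v1) + C * (s * v1) + D ≤ hw p φ s v1 := by
      intro s hs
      have h4 := hEE s v1 hv10 hs
      have e : A * (s + v1) + C * (s * v1) + D
          = θ * (-p * s * v1 ^ (p - 1) - (2 - p) * v1 ^ p) + c := by
        rw [hc]
        linear_combination s * hcut
      rw [e]; linarith
    refine ⟨hp, A, C, D, θ, c, v1, hv10, hv11, hAp.le, h0, hcut, by rw [hc]; ring, ?_,
      by rw [hD]; ring, fun s v hv hs => ?_, fun s v hv0 _ hs => ?_⟩
    · have : 0 ≤ (2 - p) * (-C) * (κ - v1) := mul_nonneg hcc.le (by linarith)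
      linarith
    · rcases lt_or_ge 1 s with hs1 | hs1
      · exact glob hE hp hCn hκ1 hD' hκ2 hκ3 hmir (by linarith) hs hs1
      · exact small hE hp hCn hκ1 hD' hκ2 hκ3 hv10 hline hv hs hs1
    · have := hEE s v hv0 hs
      linarith

theorem main (hF : S_FCT) (hM : S_MIR) (hE : S_MEE) (hN : S_NIN) : S_COR := by
  intro p φ hp hR K0 hK
  obtain ⟨hcv, hmono, hsl, hsub⟩ := hF p φ hR
  have hV : ∀ a, SG φ K0 a → |p * (φ K0 - a * K0)| ≤ (2 - p) * a → Spt p φ K0 := by
    intro a ha hab
    left
    refine ⟨a, φ K0 - a * K0, hab, by ring, fun s v hv hs => ?_⟩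
    have h4 := ha (s / v) (by rw [le_div_iff₀ hv]; linarith)
    have h5 : 0 < v ^ p := Real.rpow_pos_of_pos hv _
    have h6 := mul_le_mul_of_nonneg_left h4 h5.le
    unfold hw
    refine le_trans (le_of_eq ?_) h6
    rw [Real.rpow_sub_one hv.ne']
    ring
  rcases eq_or_lt_of_le hK with h1 | h1
  · subst h1
    rcases le_or_gt 0 (p * φ 1) with h2 | h2
    · refine hV (p / 2 * φ 1) (fun K hK => ?_) ?_
      · have := hsl K hK
        linarith
      · have e : p * (φ 1 - p / 2 * φ 1 * 1) = (2 - p) * (p / 2 * φ 1) := by ring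
        rw [e, abs_of_nonneg]
        apply mul_nonneg (by linarith)
        linarith
    · -- the tangent of the determinant term
      right; left
      refine ⟨0, p / 2 * φ 1, φ 1 - p / 2 * φ 1, 1, le_rfl, Or.inl rfl, by ring,
        fun s v hv hs => ?_⟩
      have hsp : 0 < s := by linarith
      have hK1 : 1 ≤ s / v := by rw [le_div_iff₀ hv]; linarith
      have h4 := hmono (mem_Ici.2 (le_refl (1 : ℝ))) (mem_Ici.2 hK1) hK1
      simp only [Real.one_rpow, one_mul] at h4
      have hsv : 0 < s * v := by positivity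
      have h5 : 0 < (s * v) ^ (p / 2) := Real.rpow_pos_of_pos hsv _
      have h6 : (s * v) ^ (p / 2) * φ 1 ≤ hw p φ s v := by
        have h7 := mul_le_mul_of_nonneg_left h4 h5.le
        refine h7.trans (le_of_eq ?_)
        unfold hw
        rw [← mul_assoc]
        congr 1
        rw [Real.div_rpow hsp.le hv.le, Real.mul_rpow hsp.le hv.le, Real.rpow_neg hsp.le,
          Real.rpow_neg hv.le]
        have h8 : s ^ (p / 2) ≠ 0 := (Real.rpow_pos_of_pos hsp _).ne'
        have h9 : v ^ p = v ^ (p / 2) * v ^ (p / 2) := by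
          rw [← Real.rpow_add hv]; congr 1; ring
        rw [h9]
        field_simp
      refine le_trans ?_ h6
      -- convexity
      have h10 : 0 ≤ ((s * v) ^ (p / 2) - 1 - p / 2 * (s * v - 1)) * φ 1 := by
        rcases lt_or_ge p 0 with hp0 | hp0
        · have hφ : 0 < φ 1 := by
            by_contra hcon
            push Not at hcon
            have := mul_nonneg_of_nonpos_of_nonpos hp0.le hcon
            linarith
          apply mul_nonneg _ hφ.le
          have h11 := Real.add_one_le_exp (Real.log (s * v) * (p / 2))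
          rw [← Real.rpow_def_of_pos hsv] at h11
          have h12 := Real.log_le_sub_one_of_pos hsv
          nlinarith
        · have hφ : φ 1 < 0 := by
            by_contra hcon
            push Not at hcon
            have := mul_nonneg hp0 hcon
            linarith
          apply mul_nonneg_of_nonpos_of_nonpos _ hφ.le
          have h11 := _root_.rpow_one_add_le_one_add_mul_self (s := s * v - 1) (by linarith)
            (show 0 ≤ p / 2 by linarith) (show p / 2 ≤ 1 by linarith)
          have e : 1 + (s * v - 1) = s * v := by ring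
          rw [e] at h11
          linarith
      linarith
  · obtain ⟨a, ha⟩ := subg hcv h1
    have ha' : SG φ K0 a := ha
    rcases le_or_gt |p * (φ K0 - a * K0)| ((2 - p) * a) with h2 | h2
    · exact hV a ha' h2
    rcases lt_or_ge ((2 - p) * a) (-(p * (φ K0 - a * K0))) with h3 | h3
    · right; left
      have h4 := (hsub K0 a h1 ha').1
      have h5 : 0 ≤ 2 * K0 * a - p * φ K0 := by linarith
      refine ⟨(2 * K0 * a - p * φ K0) / (K0 + 1), (a + p * φ K0 - K0 * a) / (K0 + 1),
        φ K0 - (2 * K0 * a - p * φ K0) / (K0 + 1) * (K0 - 1)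
          - (a + p * φ K0 - K0 * a) / (K0 + 1) * K0, -1, div_nonneg h5 (by linarith),
        Or.inr rfl, by ring, fun s v hv hs => ?_⟩
      have := hN p φ K0 a hp hR ha' h1 (by linarith) h5 s v hv hs
      linarith
    · refine third hF hM hE hp hR h1 ha' ?_
      rcases abs_cases (p * (φ K0 - a * K0)) with h4 | h4
      · linarith
      · linarith

end Pool.Agent.R222.GH.Cor
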