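import Pool.Agent.R222.GH.Stm2
import Pool.Agent.R222.GH.Cor
import Pool.Agent.W360.MQ.Qkb
import Pool.Agent.W557.HM.RC1
import Pool.Agent.W368.HM.Rc2
import Pool.Agent.W315.HM.Scl

/-! # The supports for the dual energy -/

set_option autoImplicit false

namespace Pool.Agent.R222.GH.Dul

open MeasureTheory Set Filter Topology
open Pool.Agent.R222.GH
open Pool.Agent.W978.MQ (G)

/-! ### the class `G` -/

theorem g_const (d : ℝ) : G (fun _ : ℂ × ℂ => d) :=
  ⟨continuous_const, Pool.Agent.W465.MQ.CVX.main _ (convexOn_const d convex_univ) continuous_const⟩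

theorem g_one : G (fun F : ℂ × ℂ => ‖F.1‖) :=
  ⟨continuous_fst.norm, Pool.Agent.W465.MQ.CVX.main _ Pool.Agent.W978.MQ.cvx1 continuous_fst.norm⟩

theorem g_two : G (fun F : ℂ × ℂ => ‖F.2‖) :=
  ⟨continuous_snd.norm, Pool.Agent.W465.MQ.CVX.main _ Pool.Agent.W978.MQ.cvx2 continuous_snd.norm⟩

theorem g_det (c : ℝ) : G (fun F : ℂ × ℂ => c * (‖F.1‖ ^ 2 - ‖F.2‖ ^ 2)) :=
  ⟨continuous_const.mul ((continuous_fst.norm.pow 2).sub (continuous_snd.norm.pow 2)),
    Pool.Agent.W925.MQ.Det.main c⟩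

theorem g_wf {α β : ℝ → ℝ} (h : Pool.Agent.W360.MQ.RC α β) : G (Pool.Agent.W360.MQ.wf α β) :=
  ⟨Pool.Agent.W215.MQ.Cont.main α β h, Pool.Agent.W360.MQ.Fin.qa α β h⟩

theorem g_congr {w w' : ℂ × ℂ → ℝ} (h : G w) (e : ∀ F, w F = w' F) : G w' := by
  have : w = w' := funext e
  rw [← this]; exact h

/-! ### reduction -/

/-- the dual of the scaled support -/
noncomputable def du (p l : ℝ) (S : ℝ → ℝ → ℝ) (s v : ℝ) : ℝ :=
  s * v * (l ^ p * S (1 / (l * v)) (1 / (l * s)))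

theorem core {p : ℝ} {φ : ℝ → ℝ} {K0 l : ℝ} (hK : 1 ≤ K0) (hl : 0 < l) (S : ℝ → ℝ → ℝ)
    (hS : ∀ s v, 0 < v → v ≤ s → S s v ≤ hw p φ s v) (hS0 : S K0 1 = φ K0) (w : ℂ × ℂ → ℝ)
    (hG : G w) (hw' : ∀ F : ℂ × ℂ, ∀ s v : ℝ, s = ‖F.1‖ + ‖F.2‖ → v = ‖F.1‖ - ‖F.2‖ →
      0 < v → v ≤ s → w F = du p l S s v) :
    ∃ w : ℂ × ℂ → ℝ, G w ∧
    (∀ F, Pos F → w F ≤ iso (fun s v => s * v * hw p φ (1 / v) (1 / s)) F) ∧
    (∀ F, ‖F.1‖ + ‖F.2‖ = 1 / l → ‖F.1‖ - ‖F.2‖ = 1 / (l * K0) →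
      w F = iso (fun s v => s * v * hw p φ (1 / v) (1 / s)) F) := by
  have hlp : 0 < l ^ p := Real.rpow_pos_of_pos hl _
  refine ⟨w, hG, fun F hF => ?_, fun F h1 h2 => ?_⟩
  · have hF' : ‖F.2‖ < ‖F.1‖ := hF
    have h2 := norm_nonneg F.2
    have hv : 0 < ‖F.1‖ - ‖F.2‖ := by linarith
    have hs : ‖F.1‖ - ‖F.2‖ ≤ ‖F.1‖ + ‖F.2‖ := by linarith
    rw [hw' F _ _ rfl rfl hv hs]
    unfold iso
    dsimp only
    generalize ‖F.1‖ + ‖F.2‖ = s at hs ⊢
    generalize ‖F.1‖ - ‖F.2‖ = v at hv hs ⊢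
    have hsp : 0 < s := by linarith
    unfold du
    apply mul_le_mul_of_nonneg_left _ (by positivity)
    have e1 : 1 / v = l * (1 / (l * v)) := by field_simp
    have e2 : 1 / s = l * (1 / (l * s)) := by field_simp
    rw [e1, e2, Cor.hw_hom p φ hl (by positivity)]
    apply mul_le_mul_of_nonneg_left _ hlp.le
    apply hS _ _ (by positivity)
    apply one_div_le_one_div_of_le (by positivity)
    exact mul_le_mul_of_nonneg_left hs hl.le
  · have hv : 0 < ‖F.1‖ - ‖F.2‖ := by rw [h2]; positivity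
    have hs : ‖F.1‖ - ‖F.2‖ ≤ ‖F.1‖ + ‖F.2‖ := by
      have := norm_nonneg F.2
      linarith
    rw [hw' F _ _ rfl rfl hv hs]
    unfold iso
    dsimp only
    rw [h1, h2]
    unfold du
    congr 1
    have e1 : 1 / (1 / (l * K0)) = l * K0 := by rw [one_div_one_div]
    have e2 : 1 / (1 / l) = l * 1 := by rw [one_div_one_div, mul_one]
    have e3 : 1 / (l * (1 / (l * K0))) = K0 := by field_simp
    have e4 : 1 / (l * (1 / l)) = 1 := by field_simp
    rw [e1, e2, e3, e4, Cor.hw_hom p φ hl one_pos, hS0]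
    unfold hw
    rw [Real.one_rpow, one_mul, div_one]

/-! ### the first case -/

theorem case1 {p : ℝ} {φ : ℝ → ℝ} {K0 l a b : ℝ} (hp : p ≤ 1) (hK : 1 ≤ K0) (hl : 0 < l)
    (hab : |p * b| ≤ (2 - p) * a) (he : a * K0 + b = φ K0)
    (hS : ∀ s v, 0 < v → v ≤ s → a * s * v ^ (p - 1) + b * v ^ p ≤ hw p φ s v) :
    ∃ w : ℂ × ℂ → ℝ, G w ∧
    (∀ F, Pos F → w F ≤ iso (fun s v => s * v * hw p φ (1 / v) (1 / s)) F) ∧
    (∀ F, ‖F.1‖ + ‖F.2‖ = 1 / l → ‖F.1‖ - ‖F.2‖ = 1 / (l * K0) →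
      w F = iso (fun s v => s * v * hw p φ (1 / v) (1 / s)) F) := by
  refine core hK hl (fun s v => a * s * v ^ (p - 1) + b * v ^ p) hS ?_
    (Pool.Agent.W360.MQ.wf (fun s => a * s ^ (2 - p)) (fun s => b * s ^ (2 - p - 2))) ?_ ?_
  · simp only [Real.one_rpow, mul_one]
    exact he
  · apply g_wf
    apply Pool.Agent.W557.HM.RC1.main (2 - p) a b (by linarith)
    have e : 2 - p - 2 = -p := by ring
    rw [e, abs_neg, ← abs_mul]
    exact hab
  · intro F s v hs hv hv0 hvs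
    have hsp : 0 < s := by linarith
    unfold Pool.Agent.W360.MQ.wf du
    have e1 : ‖F.1‖ ^ 2 - ‖F.2‖ ^ 2 = s * v := by rw [hs, hv]; ring
    rw [e1, ← hs]
    have hls : 0 < l * s := by positivity
    have e2 : (1 / (l * s)) ^ p = (l ^ p)⁻¹ * s ^ (-p) := by
      rw [one_div, Real.inv_rpow hls.le, Real.mul_rpow hl.le hsp.le, Real.rpow_neg hsp.le, mul_inv]
    have e3 : (1 / (l * s)) ^ (p - 1) = (l ^ p)⁻¹ * s ^ (-p) * (l * s) := by
      rw [Real.rpow_sub_one (by positivity), e2]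
      field_simp
    have e4 : s ^ (2 - p) = s ^ (-p) * s * s := by
      have : (2 : ℝ) - p = -p + 1 + 1 := by ring
      rw [this, Real.rpow_add_one hsp.ne', Real.rpow_add_one hsp.ne']
    have e5 : s ^ (2 - p - 2) = s ^ (-p) := by
      congr 1; ring
    dsimp only
    rw [e4, e5, e3, e2]
    have hlp : l ^ p ≠ 0 := (Real.rpow_pos_of_pos hl _).ne'
    field_simp

/-! ### the second case -/

theorem case2 {p : ℝ} {φ : ℝ → ℝ} {K0 l A C D e : ℝ} (hK : 1 ≤ K0) (hl : 0 < l)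
    (hA : 0 ≤ A) (he : e = 1 ∨ e = -1) (hE : A * (K0 + e) + C * K0 + D = φ K0)
    (hS : ∀ s v, 0 < v → v ≤ s → A * (s + e * v) + C * (s * v) + D ≤ hw p φ s v) :
    ∃ w : ℂ × ℂ → ℝ, G w ∧
    (∀ F, Pos F → w F ≤ iso (fun s v => s * v * hw p φ (1 / v) (1 / s)) F) ∧
    (∀ F, ‖F.1‖ + ‖F.2‖ = 1 / l → ‖F.1‖ - ‖F.2‖ = 1 / (l * K0) →
      w F = iso (fun s v => s * v * hw p φ (1 / v) (1 / s)) F) := by
  have hlp : 0 < l ^ p := Real.rpow_pos_of_pos hl _
  refine core hK hl (fun s v => A * (s + e * v) + C * (s * v) + D) hS ?_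
    (fun F => (l ^ p * A / l * ((1 + e) * ‖F.1‖) + l ^ p * A / l * ((1 - e) * ‖F.2‖)) +
      l ^ p * C / l ^ 2 + l ^ p * D * (‖F.1‖ ^ 2 - ‖F.2‖ ^ 2)) ?_ ?_
  · simp only [mul_one]
    exact hE
  · have h1 : 0 ≤ 1 + e := by rcases he with h | h <;> rw [h] <;> norm_num
    have h2 : 0 ≤ 1 - e := by rcases he with h | h <;> rw [h] <;> norm_num
    have h3 : 0 ≤ l ^ p * A / l := by positivity
    exact ((((g_one.smul h1).smul h3).add ((g_two.smul h2).smul h3)).add (g_const _)).add (g_det _)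
  · intro F s v hs hv hv0 hvs
    have hsp : 0 < s := by linarith
    unfold du
    have e1 : ‖F.1‖ ^ 2 - ‖F.2‖ ^ 2 = s * v := by rw [hs, hv]; ring
    have e2 : ‖F.1‖ = (s + v) / 2 := by rw [hs, hv]; ring
    have e3 : ‖F.2‖ = (s - v) / 2 := by rw [hs, hv]; ring
    have e4 : (1 + e) * ‖F.1‖ + (1 - e) * ‖F.2‖ = s + e * v := by rw [e2, e3]; ring
    dsimp only
    rw [e1]
    rw [← mul_add, e4]
    field_simp

/-! ### the third case -/

theorem case3 {p : ℝ} {φ : ℝ → ℝ} {K0 l : ℝ} (hK : 1 ≤ K0) (hl : 0 < l) (hp : p < 0)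
    {A C D θ c v1 : ℝ} (hv1 : 0 < v1) (hv11 : v1 < 1) (hA : 0 ≤ A) (hθ : 0 < θ)
    (hm1 : A + C * v1 = θ * (-p) * v1 ^ (p - 1)) (hm2 : A * v1 + D = c - θ * (2 - p) * v1 ^ p)
    (hm3 : 0 ≤ (1 - p) * A + (2 - p) * C * v1) (hE : A * (K0 + 1) + C * K0 + D = φ K0)
    (hS1 : ∀ s v, v1 ≤ v → v ≤ s → A * (s + v) + C * (s * v) + D ≤ hw p φ s v)
    (hS2 : ∀ s v, 0 < v → v < v1 → v ≤ s →
      θ * (-p * s * v ^ (p - 1) - (2 - p) * v ^ p) + c ≤ hw p φ s v) :
    ∃ w : ℂ × ℂ → ℝ, G w ∧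
    (∀ F, Pos F → w F ≤ iso (fun s v => s * v * hw p φ (1 / v) (1 / s)) F) ∧
    (∀ F, ‖F.1‖ + ‖F.2‖ = 1 / l → ‖F.1‖ - ‖F.2‖ = 1 / (l * K0) →
      w F = iso (fun s v => s * v * hw p φ (1 / v) (1 / s)) F) := by
  have hlp : 0 < l ^ p := Real.rpow_pos_of_pos hl _
  have hvp : v1 ^ p = v1 ^ (p - 1) * v1 := by
    rw [Real.rpow_sub_one hv1.ne']; field_simp
  have hv1p : 0 < v1 ^ p := Real.rpow_pos_of_pos hv1 _
  set t1 : ℝ := θ * v1 ^ p with ht1
  have ht0 : 0 < t1 := mul_pos hθ hv1p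
  set a1 : ℝ := A * v1 with ha1
  set c1 : ℝ := C * v1 ^ 2 with hc1
  have k1 : a1 + c1 = t1 * (-p) := by
    rw [ha1, hc1, ht1, hvp]
    linear_combination v1 * hm1
  have k2 : a1 + D = c - t1 * (2 - p) := by
    rw [ht1]; linarith
  have k3 : 0 ≤ (1 - p) * a1 + (2 - p) * c1 := by
    have := mul_nonneg hm3 hv1.le
    rw [ha1, hc1]
    linarith
  have hP : 0 < 2 - p := by linarith
  -- the functions
  have hRC : Pool.Agent.W360.MQ.RC
      (fun s => if s < 1 then c1 else t1 * (-p) * s ^ (2 - p) - a1 * s)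
      (fun s => if s < 1 then -(-D) else (-(t1 * (2 - p)) * s ^ (1 - p) + c * s - a1) / s) := by
    refine Pool.Agent.W368.HM.main (fun s => t1 * (-p) * s ^ (2 - p) - a1 * s)
      (fun s => -(t1 * (2 - p)) * s ^ (1 - p) + c * s - a1)
      (fun s => t1 * (2 - p) * (1 - p) * s ^ (-p) - c) c1 (-D) ?_ ?_ ?_ ?_ ?_ ?_
    · intro s hs
      have hsp : 0 < s := by linarith
      have h1 := (Real.hasDerivAt_rpow_const (x := s) (p := 1 - p) (Or.inl hsp.ne')).const_mul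
        (-(t1 * (2 - p)))
      have h2 := (hasDerivAt_id s).const_mul c
      have h3 := ((h1.add h2).sub_const a1).hasDerivWithinAt (s := Ici 1)
      refine h3.congr_deriv ?_
      have e : 1 - p - 1 = -p := by ring
      rw [e]
      ring
    · intro s hs
      have hsp : 0 < s := by linarith
      have h1 := (Real.hasDerivAt_rpow_const (x := s) (p := 2 - p) (Or.inl hsp.ne')).const_mul
        (t1 * (-p))
      have h2 := (hasDerivAt_id s).const_mul a1
      have h3 := (h1.sub h2).hasDerivWithinAt (s := Ici 1)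
      refine h3.congr_deriv ?_
      have e : 2 - p - 1 = 1 - p := by ring
      have e' : s ^ (1 - p) = s * s ^ (-p) := by
        have : 1 - p = -p + 1 := by ring
        rw [this, Real.rpow_add_one hsp.ne', mul_comm]
      rw [e, e']
      ring
    · intro s hs t ht hst
      have hs' : (1 : ℝ) ≤ s := hs
      have h1 : s ^ (-p) ≤ t ^ (-p) := Real.rpow_le_rpow (by linarith) hst (by linarith)
      have h2 : 0 ≤ t1 * (2 - p) * (1 - p) := by
        apply mul_nonneg (mul_nonneg ht0.le hP.le)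
        linarith
      have := mul_le_mul_of_nonneg_left h1 h2
      dsimp only
      linarith
    · simp only [Real.one_rpow, mul_one]
      nlinarith
    · simp only [Real.one_rpow, mul_one]
      linarith
    · simp only [Real.one_rpow, mul_one]
      linarith
  have hm : 0 < l * v1 := by positivity
  set k : ℝ := l ^ p / (l * v1) ^ 2 with hk
  have hk0 : 0 < k := by positivity
  have hRC2 := Pool.Agent.W315.HM.Scl.main _ _ k 1 (l * v1) hRC hk0.le (by norm_num) hm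
  refine core hK hl (fun s v => if v1 < v then A * (s + v) + C * (s * v) + D
    else θ * (-p * s * v ^ (p - 1) - (2 - p) * v ^ p) + c) ?_ ?_
    (fun F => k * a1 * (l * v1) * 2 * ‖F.1‖ + Pool.Agent.W360.MQ.wf _ _ F)
    ((g_one.smul (by positivity)).add (g_wf hRC2)) ?_
  · intro s v hv hvs
    split_ifs with h
    · exact hS1 s v h.le hvs
    · push Not at h
      rcases eq_or_lt_of_le h with h1 | h1
      · have := hS1 s v (by linarith) hvs
        refine le_trans (le_of_eq ?_) this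
        rw [h1]
        linear_combination -s * hm1 - hm2
      · exact hS2 s v hv h1 hvs
  · rw [if_pos hv11]
    linarith
  · intro F s v hs hv hv0 hvs
    have hsp : 0 < s := by linarith
    unfold du Pool.Agent.W360.MQ.wf
    have e1 : ‖F.1‖ ^ 2 - ‖F.2‖ ^ 2 = s * v := by rw [hs, hv]; ring
    have e2 : ‖F.1‖ = (s + v) / 2 := by rw [hs, hv]; ring
    dsimp only
    rw [e1, ← hs, e2]
    by_cases h : l * v1 * s < 1
    · have h' : v1 < 1 / (l * s) := by
        rw [lt_div_iff₀ (by positivity)]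
        linarith
      rw [if_pos h, if_pos h, if_pos h', hk, ha1, hc1]
      field_simp
      ring
    · have h' : ¬ v1 < 1 / (l * s) := by
        rw [lt_div_iff₀ (by positivity)]
        intro h2
        apply h
        linarith
      rw [if_neg h, if_neg h, if_neg h']
      have hls : 0 < l * s := by positivity
      have f2 : (1 / (l * s)) ^ p = (l ^ p)⁻¹ * s ^ (-p) := by
        rw [one_div, Real.inv_rpow hls.le, Real.mul_rpow hl.le hsp.le, Real.rpow_neg hsp.le,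
          mul_inv]
      have f3 : (1 / (l * s)) ^ (p - 1) = (l ^ p)⁻¹ * s ^ (-p) * (l * s) := by
        rw [Real.rpow_sub_one (by positivity), f2]
        field_simp
      have hmp : (l * v1 * s) ^ (-p) = (l ^ p)⁻¹ * (v1 ^ p)⁻¹ * s ^ (-p) := by
        rw [Real.mul_rpow hm.le hsp.le, Real.rpow_neg hm.le, Real.mul_rpow hl.le hv1.le, mul_inv]
      have hms : 0 < l * v1 * s := by positivity
      have f4 : (l * v1 * s) ^ (2 - p) = (l ^ p)⁻¹ * (v1 ^ p)⁻¹ * s ^ (-p) * (l * v1 * s) *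
          (l * v1 * s) := by
        have : (2 : ℝ) - p = -p + 1 + 1 := by ring
        rw [this, Real.rpow_add_one hms.ne', Real.rpow_add_one hms.ne', hmp]
      have f5 : (l * v1 * s) ^ (1 - p) = (l ^ p)⁻¹ * (v1 ^ p)⁻¹ * s ^ (-p) * (l * v1 * s) := by
        have : (1 : ℝ) - p = -p + 1 := by ring
        rw [this, Real.rpow_add_one hms.ne', hmp]
      rw [f2, f3, f4, f5, hk, ht1]
      field_simp
      ring

theorem main : S_DUL := by
  intro p φ K0 l hp hK hl h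
  rcases h with ⟨a, b, hab, he, hS⟩ | ⟨A, C, D, e, hA, he, hE, hS⟩ |
    ⟨hp0, A, C, D, θ, c, v1, h1, h2, h3, h4, h5, h6, h7, h8, h9, h10⟩
  · exact case1 hp hK hl hab he hS
  · exact case2 hK hl hA he hE hS
  · exact case3 hK hl hp0 h1 h2 h3 h4 h5 h6 h7 h8 h9 h10

end Pool.Agent.R222.GH.Dul
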