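import Pool.Agent.R222.GH.Stm2

/-! Project GL (helper222), part RCL: logarithmic functions of the class `RC`. -/

set_option autoImplicit false

namespace Pool.Agent.R222.GH.Rcl

open Set Filter Topology
open Pool.Agent.W360.MQ (RC)

/-- the derivative -/
noncomputable def hh (a c T σ t : ℝ) : ℝ := 2 * a * t - 2 * c * σ * (Real.log t - Real.log T + 1)

/-- the outer part minus the affine function -/
noncomputable def gg (a c T σ t : ℝ) : ℝ :=
  a * t ^ 2 - a * T ^ 2 - 2 * c * σ * (t * (Real.log t - Real.log T))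

theorem gg_T {a c T σ : ℝ} : gg a c T σ T = 0 := by
  unfold gg
  ring

theorem gg_deriv {a c T σ t : ℝ} (ht : 0 < t) :
    HasDerivAt (gg a c T σ) (hh a c T σ t) t := by
  unfold gg hh
  have h1 := ((hasDerivAt_pow 2 t).const_mul a).sub_const (a * T ^ 2)
  have h2 := ((hasDerivAt_id t).mul ((Real.hasDerivAt_log ht.ne').sub_const (Real.log T))).const_mul
    (2 * c * σ)
  have h3 := h1.sub h2
  have e : 2 * a * t - 2 * c * σ * (Real.log t - Real.log T + 1) =
      a * (((2 : ℕ) : ℝ) * t ^ (2 - 1)) - 2 * c * σ *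
        (1 * (Real.log t - Real.log T) + id t * t⁻¹) := by
    have h4 : id t * t⁻¹ = 1 := mul_inv_cancel₀ ht.ne'
    rw [h4]
    push_cast
    ring
  rw [e]
  exact h3

theorem hh_deriv {a c T σ t : ℝ} (ht : 0 < t) :
    HasDerivAt (hh a c T σ) (2 * a - 2 * c * σ * t⁻¹) t := by
  unfold hh
  have h1 := (hasDerivAt_id t).const_mul (2 * a)
  have h2 := (((Real.hasDerivAt_log ht.ne').sub_const (Real.log T)).add_const 1).const_mul
    (2 * c * σ)
  have h3 := h1.sub h2
  rw [mul_one] at h3
  exact h3

theorem key {a c T σ t : ℝ} (hc : |c| ≤ a) (hσ : |σ| = T) (ht : T ≤ t) :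
    c * σ ≤ a * t := by
  have hT : 0 ≤ T := hσ ▸ abs_nonneg σ
  have h1 : |c * σ| ≤ a * T := by
    rw [abs_mul, hσ]
    exact mul_le_mul_of_nonneg_right hc hT
  have h2 := le_abs_self (c * σ)
  have ha : 0 ≤ a := (abs_nonneg c).trans hc
  have h3 : a * T ≤ a * t := mul_le_mul_of_nonneg_left ht ha
  linarith

theorem hh_mono {a c T σ : ℝ} (hc : |c| ≤ a) (hσ : |σ| = T) (hT : 0 < T) :
    MonotoneOn (hh a c T σ) (Ici T) := by
  refine monotoneOn_of_deriv_nonneg (convex_Ici T) ?_ ?_ ?_
  · intro t ht
    exact (hh_deriv (hT.trans_le ht)).continuousAt.continuousWithinAt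
  · intro t ht
    rw [interior_Ici] at ht
    exact (hh_deriv (hT.trans ht)).differentiableAt.differentiableWithinAt
  · intro t ht
    rw [interior_Ici] at ht
    have ht' : T < t := ht
    have h0 : 0 < t := hT.trans ht'
    rw [(hh_deriv h0).deriv]
    have h2 := key hc hσ ht'.le
    have h3 : 2 * a - 2 * c * σ * t⁻¹ = 2 * t⁻¹ * (a * t - c * σ) := by
      field_simp
    rw [h3]
    have h4 : 0 ≤ a * t - c * σ := by linarith
    positivity

theorem gg_convex {a c T σ : ℝ} (hc : |c| ≤ a) (hσ : |σ| = T) (hT : 0 < T) :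
    ConvexOn ℝ (Ici T) (gg a c T σ) := by
  refine MonotoneOn.convexOn_of_deriv (convex_Ici T) ?_ ?_ ?_
  · intro t ht
    exact (gg_deriv (hT.trans_le ht)).continuousAt.continuousWithinAt
  · intro t ht
    rw [interior_Ici] at ht
    exact (gg_deriv (hT.trans ht)).differentiableAt.differentiableWithinAt
  · intro s hs t ht hst
    rw [interior_Ici] at hs ht
    rw [(gg_deriv (hT.trans hs)).deriv, (gg_deriv (hT.trans ht)).deriv]
    exact hh_mono hc hσ hT (mem_Ici.2 (le_of_lt hs)) (mem_Ici.2 (le_of_lt ht)) hst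

theorem gg_mono {a c T σ : ℝ} (hc : |c| ≤ a) (hσ : |σ| = T) (hT : 0 < T) :
    MonotoneOn (gg a c T σ) (Ici T) := by
  refine monotoneOn_of_deriv_nonneg (convex_Ici T) ?_ ?_ ?_
  · intro t ht
    exact (gg_deriv (hT.trans_le ht)).continuousAt.continuousWithinAt
  · intro t ht
    rw [interior_Ici] at ht
    exact (gg_deriv (hT.trans ht)).differentiableAt.differentiableWithinAt
  · intro t ht
    rw [interior_Ici] at ht
    have ht' : T < t := ht
    rw [(gg_deriv (hT.trans ht')).deriv]
    have h1 := hh_mono hc hσ hT (mem_Ici.2 le_rfl) (mem_Ici.2 ht'.le) ht'.le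
    have h2 := key hc hσ (le_refl T)
    have h3 : hh a c T σ T = 2 * (a * T - c * σ) := by
      unfold hh
      ring
    linarith

theorem ext_convex {a c T σ : ℝ} (hc : |c| ≤ a) (hσ : |σ| = T) (hT : 0 < T) :
    ConvexOn ℝ univ (fun t : ℝ => gg a c T σ (max t T)) := by
  refine ⟨convex_univ, ?_⟩
  intro x _ y _ u v hu hv huv
  have hx : T ≤ max x T := le_max_right _ _
  have hy : T ≤ max y T := le_max_right _ _
  have h1 : max (u • x + v • y) T ≤ u • max x T + v • max y T := by
    simp only [smul_eq_mul]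
    apply max_le
    · have := mul_le_mul_of_nonneg_left (le_max_left x T) hu
      have := mul_le_mul_of_nonneg_left (le_max_left y T) hv
      linarith
    · have h2 := mul_le_mul_of_nonneg_left hx hu
      have h3 := mul_le_mul_of_nonneg_left hy hv
      have h4 : u * T + v * T = T := by rw [← add_mul, huv, one_mul]
      linarith
  have h2 : T ≤ u • max x T + v • max y T := le_trans (le_max_right _ _) h1
  exact (gg_mono hc hσ hT (mem_Ici.2 (le_max_right _ _)) (mem_Ici.2 h2) h1).trans
    ((gg_convex hc hσ hT).2 (mem_Ici.2 hx) (mem_Ici.2 hy) hu hv huv)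

theorem main : S_RCL := by
  intro a c γ hc τ
  have ha : 0 ≤ a := (abs_nonneg c).trans hc
  rcases (abs_nonneg τ).eq_or_lt with h0 | hT
  · -- `τ = 0`
    have hτ : τ = 0 := abs_eq_zero.1 h0.symm
    subst hτ
    refine ⟨convex_univ, ?_⟩
    intro x _ y _ u v hu hv huv
    simp only [abs_zero, mul_zero, add_zero, smul_eq_mul]
    rw [max_eq_left (abs_nonneg _), max_eq_left (abs_nonneg _), max_eq_left (abs_nonneg _),
      sq_abs, sq_abs, sq_abs]
    have h1 : v = 1 - u := by linarith
    have h2 : 0 ≤ a * (u * (1 - u) * (x - y) ^ 2) := by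
      rw [h1] at hv
      positivity
    subst h1
    nlinarith [h2]
  · set T := |τ| with hTdef
    have e : (fun t : ℝ => a * (max |t| T) ^ 2 + (γ - 2 * c * Real.log (max |t| T)) * (t * τ)) =
        fun t : ℝ => (a * T ^ 2 + (γ - 2 * c * Real.log T) * τ * t) + (gg a c T τ (max t T) +
          gg a c T (-τ) (max (-t) T)) := by
      funext t
      rcases le_or_gt |t| T with h | h
      · rw [max_eq_right h, max_eq_right ((le_abs_self t).trans h),
          max_eq_right ((neg_le_abs t).trans h), gg_T, gg_T]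
        ring
      · rcases le_or_gt 0 t with h1 | h1
        · rw [abs_of_nonneg h1] at h
          rw [abs_of_nonneg h1, max_eq_left h.le, max_eq_right (by linarith : -t ≤ T), gg_T]
          unfold gg
          ring
        · rw [abs_of_neg h1] at h
          rw [abs_of_neg h1, max_eq_left h.le, max_eq_right (by linarith : t ≤ T), gg_T]
          unfold gg
          ring
    have h1 : ConvexOn ℝ univ (fun t : ℝ => a * T ^ 2 + (γ - 2 * c * Real.log T) * τ * t) := by
      refine ⟨convex_univ, ?_⟩
      intro x _ y _ u v hu hv huv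
      simp only [smul_eq_mul]
      have : v = 1 - u := by linarith
      subst this
      apply le_of_eq
      ring
    have h2 := ext_convex (a := a) (c := c) (T := T) (σ := τ) hc hTdef.symm hT
    have h3 := ext_convex (a := a) (c := c) (T := T) (σ := -τ) hc (by rw [abs_neg]) hT
    have h4 : ConvexOn ℝ univ (fun t : ℝ => gg a c T (-τ) (max (-t) T)) := by
      refine ⟨convex_univ, ?_⟩
      intro x _ y _ u v hu hv huv
      have := h3.2 (mem_univ (-x)) (mem_univ (-y)) hu hv huv
      simp only [smul_eq_mul] at this ⊢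
      have h5 : -(u * x + v * y) = u * -x + v * -y := by ring
      rw [h5]
      exact this
    have h5 := h1.add (h2.add h4)
    change ConvexOn ℝ univ
      (fun t : ℝ => a * (max |t| T) ^ 2 + (γ - 2 * c * Real.log (max |t| T)) * (t * τ))
    rw [e]
    exact h5

end Pool.Agent.R222.GH.Rcl
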