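import Pool.Agent.R222.GH.Stm2

/-! # Explicit supports in the logarithmic case -/

set_option autoImplicit false

namespace Pool.Agent.R222.GH.Spe

open MeasureTheory Set Filter Topology
open Pool.Agent.R222.VI (wv sub_ge log_sv mono_h subg u_conv sub_neg nineq)
open Pool.Agent.Y273.VI (RCp)

variable {h : ℝ → ℝ} {c : ℝ}

theorem sptV {a s0 v0 : ℝ} (hv0 : 0 < v0) (hs0 : v0 ≤ s0) (hac : |c| ≤ a)
    (ha : ∀ K, 1 ≤ K → h (s0 / v0) + c * Real.log (s0 / v0) + a * (K - s0 / v0)
      ≤ h K + c * Real.log K) : SptL h c s0 v0 := by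
  left
  refine ⟨a, h (s0 / v0) + c * Real.log (s0 / v0) - a * (s0 / v0), hac, ?_, ?_⟩
  · intro s v hv hs
    have h1 := ha (s / v) (by rw [le_div_iff₀ hv]; linarith)
    rw [log_sv hv hs]
    linarith
  · rw [log_sv hv0 hs0]
    ring

theorem main : S_SPE := by
  intro h c s0 v0 hR hv0 hs0
  have hK0 : 1 ≤ s0 / v0 := by rw [le_div_iff₀ hv0]; linarith
  rcases le_or_gt 0 c with hc | hc
  · obtain ⟨a, ha1, ha2⟩ := sub_ge hR hc hK0
    exact sptV hv0 hs0 (by rwa [abs_of_nonneg hc]) ha2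
  rcases eq_or_lt_of_le hs0 with h1 | h1
  · -- the point is conformal
    subst h1
    have hvv : v0 / v0 = 1 := div_self hv0.ne'
    right
    refine ⟨0, c / (v0 * v0), h 1 + c * Real.log (v0 * v0) - c, le_rfl, ?_, ?_⟩
    · intro s v hv hs
      have h2 : h 1 ≤ h (s / v) := mono_h hR (mem_Ici.2 le_rfl)
        (mem_Ici.2 (by rw [le_div_iff₀ hv]; linarith)) (by rw [le_div_iff₀ hv]; linarith)
      have hsp : 0 < s := by linarith
      have h3 := Real.log_le_sub_one_of_pos (x := s * v / (v0 * v0)) (by positivity)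
      rw [Real.log_div (by positivity) (by positivity)] at h3
      have h4 : c * (s * v / (v0 * v0) - 1) ≤ c * (Real.log (s * v) - Real.log (v0 * v0)) :=
        mul_le_mul_of_nonpos_left h3 hc.le
      have h5 : c / (v0 * v0) * (s * v) = c * (s * v / (v0 * v0)) := by ring
      rw [h5]
      linarith
    · rw [hvv]
      field_simp
      ring
  have hK1 : 1 < s0 / v0 := by rw [lt_div_iff₀ hv0]; linarith
  obtain ⟨a, ha⟩ := subg (u_conv hR) hK1
  rcases le_or_gt (-c) a with h2 | h2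
  · exact sptV hv0 hs0 (by rwa [abs_of_neg hc]) ha
  have ha0 : 0 ≤ a * s0 - c * v0 := by
    have h1 := sub_neg hR hc hK1 ha
    have h2 := mul_nonneg h1 hv0.le
    have e : (a * (s0 / v0) - c) * v0 = a * s0 - c * v0 := by field_simp
    rwa [e] at h2
  have hs0p : 0 < s0 := by linarith
  right
  refine ⟨2 * (a * s0 - c * v0) / (v0 * (s0 + v0)),
    -(a * (s0 - v0) - 2 * c * v0) / (v0 ^ 2 * (s0 + v0)),
    h (s0 / v0) + c * Real.log (s0 * v0)
      - 2 * (a * s0 - c * v0) / (v0 * (s0 + v0)) * (s0 - v0)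
      - -(a * (s0 - v0) - 2 * c * v0) / (v0 ^ 2 * (s0 + v0)) * (s0 * v0), ?_, ?_, ?_⟩
  · positivity
  · intro s v hv hs
    have := nineq hR hc hv0 h1 h2 ha hv hs
    linarith
  · ring

end Pool.Agent.R222.GH.Spe
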