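import Pool.Agent.R222.GH.Stm

/-! # Continuity of `g` and `f` -/

set_option autoImplicit false

namespace Pool.Agent.R222.GH.Ctg

open MeasureTheory Set Filter Topology

open Pool.Agent.R222.GH

theorem iso_eq {q : ℝ} {g f : ℝ → ℝ} {F : ℂ × ℂ} :
    iso (ew q g f) F = (Dt F) ^ q * g (Rt F) + f (Dt F) := by
  have e : (‖F.1‖ + ‖F.2‖) * (‖F.1‖ - ‖F.2‖) = Dt F := by unfold Dt; ring
  unfold iso ew
  rw [e]
  rfl

/-- `g` is continuous -/
theorem cont_g {q : ℝ} {g f : ℝ → ℝ} (hR : RC (iso (ew q g f))) : ContinuousOn g (Ici 1) := by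
  have hc := shear_conv hR (x := 1) (y := 0) (by norm_num)
  have hcont : Continuous (fun t : ℝ => iso (ew q g f) ((((1 : ℝ) : ℂ), ((0 : ℝ) : ℂ))
      + t • ((Complex.I, Complex.I) : ℂ × ℂ))) :=
    continuousOn_univ.1 (hc.continuousOn isOpen_univ)
  have hg : ContinuousOn (fun k : ℝ => (Real.sqrt k - (Real.sqrt k)⁻¹) / 2) (Ici 1) := by
    apply ContinuousOn.div_const
    apply ContinuousOn.sub (Real.continuous_sqrt.continuousOn)
    apply ContinuousOn.inv₀ (Real.continuous_sqrt.continuousOn)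
    intro k hk
    have hk' : (1 : ℝ) ≤ k := hk
    exact (Real.sqrt_pos.2 (by linarith)).ne'
  have h1 := (hcont.comp_continuousOn hg).sub (continuousOn_const (c := f 1))
  refine h1.congr fun k hk => ?_
  have hk' : (1 : ℝ) ≤ k := hk
  change g k = iso (ew q g f) _ - f 1
  rw [iso_eq, (shear_Rt hk').2, shear_Dt]
  norm_num

/-- `f` is continuous -/
theorem cont_f {q : ℝ} {g f : ℝ → ℝ} (hR : RC (iso (ew q g f))) : ContinuousOn f (Ioi 0) := by
  intro z hz
  have hz0 : (0 : ℝ) < z := hz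
  set v : ℝ := Real.sqrt z / 2 with hv
  have hsz : 0 < Real.sqrt z := Real.sqrt_pos.2 hz0
  have hv0 : 0 < v := by positivity
  have hvz : v ^ 2 < z := by
    rw [hv, div_pow, Real.sq_sqrt hz0.le]; linarith
  have hvz' : v < z / v := by rw [lt_div_iff₀ hv0, ← sq]; exact hvz
  have h1 := (diag_conv hR hv0).subset Ioi_subset_Ici_self (convex_Ioi v)
  have h2 : ContinuousAt (fun s : ℝ => iso (ew q g f) ((((s + v) / 2 : ℝ) : ℂ),
      (((s - v) / 2 : ℝ) : ℂ))) (z / v) :=
    (h1.continuousOn isOpen_Ioi).continuousAt (Ioi_mem_nhds hvz')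
  have h3 : ContinuousAt (fun y : ℝ => y / v) z := by fun_prop
  have h4 : ContinuousAt (fun y : ℝ => iso (ew q g f) (((((y / v) + v) / 2 : ℝ) : ℂ),
      ((((y / v) - v) / 2 : ℝ) : ℂ))) z := ContinuousAt.comp (g := fun s : ℝ => iso (ew q g f)
        ((((s + v) / 2 : ℝ) : ℂ), (((s - v) / 2 : ℝ) : ℂ))) h2 h3
  have h5 : ContinuousAt (fun y : ℝ => y ^ q * g (y / v ^ 2)) z := by
    have h6 : (1 : ℝ) < z / v ^ 2 := by rw [lt_div_iff₀ (by positivity), one_mul]; exact hvz
    have h7 : ContinuousAt g (z / v ^ 2) := (cont_g hR).continuousAt (Ici_mem_nhds h6)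
    have h8 : ContinuousAt (fun y : ℝ => g (y / v ^ 2)) z :=
      ContinuousAt.comp (g := g) (f := fun y : ℝ => y / v ^ 2) h7 (by fun_prop)
    exact (Real.continuousAt_rpow_const z q (Or.inl hz0.ne')).mul h8
  have h8 : ContinuousAt f z := by
    refine (h4.sub h5).congr ?_
    filter_upwards [Ioi_mem_nhds hvz] with y hy
    have hy' : v ^ 2 < y := hy
    have hy2 : v ≤ y / v := by rw [le_div_iff₀ hv0, ← sq]; exact hy'.le
    have hd := diag_val hv0 hy2
    simp only [Pi.sub_apply]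
    rw [iso_eq, hd.2.1, hd.2.2, div_div, ← sq, div_mul_cancel₀ _ hv0.ne']
    ring
  exact h8.continuousWithinAt

theorem main : S_CTG := fun _ _ _ hR => ⟨cont_g hR, cont_f hR⟩

end Pool.Agent.R222.GH.Ctg
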