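import Pool.Agent.R222.GH.Stm

/-! # Duality -/

set_option autoImplicit false

namespace Pool.Agent.R222.GH.Dua

open MeasureTheory Set Filter Topology ComplexConjugate

/-- the inverse transposed, in complex notation -/
noncomputable def G (F : ℂ × ℂ) : ℂ × ℂ := ((Dt F)⁻¹ • conj F.1, -((Dt F)⁻¹ • F.2))

theorem norm1 {F : ℂ × ℂ} (h : 0 < Dt F) : ‖(G F).1‖ = (Dt F)⁻¹ * ‖F.1‖ := by
  unfold G
  rw [norm_smul, Real.norm_of_nonneg (by positivity), RCLike.norm_conj]

theorem norm2 {F : ℂ × ℂ} (h : 0 < Dt F) : ‖(G F).2‖ = (Dt F)⁻¹ * ‖F.2‖ := by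
  unfold G
  rw [norm_neg, norm_smul, Real.norm_of_nonneg (by positivity)]

theorem pos_G {F : ℂ × ℂ} (h : Pos F) : Pos (G F) := by
  have hD := Dt_pos.1 h
  unfold Pos
  rw [norm1 hD, norm2 hD]
  exact mul_lt_mul_of_pos_left h (by positivity)

theorem Dt_eq (F : ℂ × ℂ) : Dt F = (‖F.1‖ + ‖F.2‖) * (‖F.1‖ - ‖F.2‖) := by
  unfold Dt
  ring

theorem iso_dual (Ψ : ℝ → ℝ → ℝ) {F : ℂ × ℂ} (h : Pos F) :
    iso (fun s v => s * v * Ψ (1 / v) (1 / s)) F = Dt F * iso Ψ (G F) := by
  have hD := Dt_pos.1 h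
  unfold iso
  rw [norm1 hD, norm2 hD]
  simp only
  have hv : 0 < ‖F.1‖ - ‖F.2‖ := sub_pos.2 h
  have hs : 0 < ‖F.1‖ + ‖F.2‖ := by
    have := norm_nonneg F.2
    linarith
  rw [← Dt_eq, ← mul_add, ← mul_sub, Dt_eq]
  congr 2
  · field_simp
  · field_simp

theorem Dt_re (F : ℂ × ℂ) : Dt F = F.1.re ^ 2 + F.1.im ^ 2 - (F.2.re ^ 2 + F.2.im ^ 2) := by
  unfold Dt
  rw [Complex.sq_norm, Complex.sq_norm, Complex.normSq_apply, Complex.normSq_apply]
  ring

theorem main : S_DUA := by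
  intro Ψ hR F H hH hF hFH t ht0 ht1
  have hd0 : 0 < Dt F := Dt_pos.1 hF
  have hd1 : 0 < Dt (F + H) := Dt_pos.1 hFH
  have hline := Dt_line F H hH t
  have hd : 0 < Dt (F + t • H) := by
    rw [hline]
    rcases ht0.lt_or_eq with h | h
    · have : 0 < t * Dt (F + H) := mul_pos h hd1
      have : 0 ≤ (1 - t) * Dt F := mul_nonneg (by linarith) hd0.le
      linarith
    · rw [← h]
      linarith
  have hFt : Pos (F + t • H) := Dt_pos.2 hd
  rw [iso_dual Ψ hFt, iso_dual Ψ hF, iso_dual Ψ hFH]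
  set r : ℝ := t * Dt (F + H) / Dt (F + t • H) with hr
  have hHsq : H.1.re ^ 2 + H.1.im ^ 2 = H.2.re ^ 2 + H.2.im ^ 2 := by
    have h1 : ‖H.1‖ ^ 2 = ‖H.2‖ ^ 2 := by rw [hH]
    rw [Complex.sq_norm, Complex.sq_norm, Complex.normSq_apply, Complex.normSq_apply] at h1
    linarith
  have hJ : ‖(G (F + H) - G F).1‖ = ‖(G (F + H) - G F).2‖ := by
    have h0 : ‖(G (F + H) - G F).1‖ ^ 2 = ‖(G (F + H) - G F).2‖ ^ 2 := by
      rw [Complex.sq_norm, Complex.sq_norm, Complex.normSq_apply, Complex.normSq_apply]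
      have e1 : Dt (F + H) = Dt F + 2 * (F.1.re * H.1.re + F.1.im * H.1.im
          - F.2.re * H.2.re - F.2.im * H.2.im) := by
        rw [Dt_re, Dt_re]
        simp only [Prod.fst_add, Prod.snd_add, Complex.add_re, Complex.add_im]
        linarith
      have e0 := Dt_re F
      have e2 := Dt_re (F + H)
      simp only [Prod.fst_add, Prod.snd_add, Complex.add_re, Complex.add_im] at e2
      simp only [G, Prod.fst_sub, Prod.snd_sub, Prod.fst_add, Prod.snd_add, Complex.sub_re,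
        Complex.sub_im, Complex.smul_re, Complex.smul_im, Complex.neg_re, Complex.neg_im,
        Complex.conj_re, Complex.conj_im, Complex.add_re, Complex.add_im, smul_eq_mul]
      generalize Dt (F + H) = d1 at *
      generalize Dt F = d0 at *
      have hn1 : d1 ≠ 0 := hd1.ne'
      have hn0 : d0 ≠ 0 := hd0.ne'
      rw [← sub_eq_zero]
      have key : d1⁻¹ ^ 2 * d1 + d0⁻¹ ^ 2 * d0 - 2 * d1⁻¹ * d0⁻¹ *
          (d0 + (F.1.re * H.1.re + F.1.im * H.1.im - F.2.re * H.2.re - F.2.im * H.2.im)) = 0 := by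
        field_simp
        linarith
      linear_combination key - d1⁻¹ ^ 2 * e2 - d0⁻¹ ^ 2 * e0 + 2 * d1⁻¹ * d0⁻¹ * e0
    exact (pow_left_inj₀ (norm_nonneg _) (norm_nonneg _) two_ne_zero).1 h0
  have hr0 : 0 ≤ r := by
    rw [hr]
    positivity
  have hr1 : r ≤ 1 := by
    rw [hr, div_le_one hd, hline]
    have : 0 ≤ (1 - t) * Dt F := mul_nonneg (by linarith) hd0.le
    linarith
  have h1r : 1 - r = (1 - t) * Dt F / Dt (F + t • H) := by
    rw [hr, eq_div_iff hd.ne', sub_mul, div_mul_cancel₀ _ hd.ne', one_mul, hline]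
    ring
  have hlin : G (F + t • H) = G F + r • (G (F + H) - G F) := by
    have e1 : ∀ a b d0 d1 d : ℝ, d0 ≠ 0 → d1 ≠ 0 → d ≠ 0 → r = t * d1 / d →
        1 - r = (1 - t) * d0 / d →
        d⁻¹ * (a + t * b) = d0⁻¹ * a + r * (d1⁻¹ * (a + b) - d0⁻¹ * a) := by
      intro a b d0 d1 d h0 h1 h2 h3 h4
      have h5 : d0⁻¹ * a + r * (d1⁻¹ * (a + b) - d0⁻¹ * a) =
          (1 - r) * (d0⁻¹ * a) + r * (d1⁻¹ * (a + b)) := by ring
      rw [h5, h4, h3]
      field_simp
      ring
    have e1' := fun a b => e1 a b (Dt F) (Dt (F + H)) (Dt (F + t • H)) hd0.ne' hd1.ne' hd.ne'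
      hr h1r
    unfold G
    apply Prod.ext
    · apply Complex.ext
      · have := e1' F.1.re H.1.re
        simp only [Prod.fst_add, Prod.fst_sub, Prod.smul_fst, Complex.add_re, Complex.sub_re,
          Complex.smul_re, Complex.conj_re, smul_eq_mul]
        linarith
      · have := e1' F.1.im H.1.im
        simp only [Prod.fst_add, Prod.fst_sub, Prod.smul_fst, Complex.add_im, Complex.sub_im,
          Complex.smul_im, Complex.conj_im, smul_eq_mul]
        linarith
    · apply Complex.ext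
      · have := e1' F.2.re H.2.re
        simp only [Prod.snd_add, Prod.snd_sub, Prod.smul_snd, Complex.add_re, Complex.sub_re,
          Complex.smul_re, Complex.neg_re, smul_eq_mul]
        linarith
      · have := e1' F.2.im H.2.im
        simp only [Prod.snd_add, Prod.snd_sub, Prod.smul_snd, Complex.add_im, Complex.sub_im,
          Complex.smul_im, Complex.neg_im, smul_eq_mul]
        linarith
  have hGG : G F + (G (F + H) - G F) = G (F + H) := by abel
  have hconv := hR (G F) (G (F + H) - G F) hJ (pos_G hF) (by rw [hGG]; exact pos_G hFH) r hr0 hr1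
  rw [hGG, ← hlin] at hconv
  calc Dt (F + t • H) * iso Ψ (G (F + t • H))
      ≤ Dt (F + t • H) * ((1 - r) * iso Ψ (G F) + r * iso Ψ (G (F + H))) :=
        mul_le_mul_of_nonneg_left hconv hd.le
    _ = (1 - t) * (Dt F * iso Ψ (G F)) + t * (Dt (F + H) * iso Ψ (G (F + H))) := by
        rw [h1r, hr]
        field_simp

end Pool.Agent.R222.GH.Dua
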