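import Pool.Agent.R222.GH.Stm

/-! # Planar energies: facts on the profile -/

set_option autoImplicit false

namespace Pool.Agent.R222.GH.Fct

open MeasureTheory Set Filter Topology

/-- the value on the diagonal line -/
theorem iso_diag (Ψ : ℝ → ℝ → ℝ) {s v : ℝ} (hv : 0 < v) (hs : v ≤ s) :
    iso Ψ ((((s + v) / 2 : ℝ) : ℂ), (((s - v) / 2 : ℝ) : ℂ)) = Ψ s v := by
  obtain ⟨h1, h2⟩ := diag_norm hv.le hs
  unfold iso
  simp only
  rw [h1, h2]
  congr 1 <;> ring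

/-- the value on the shear line at the ratio `k` -/
theorem iso_shear (Ψ : ℝ → ℝ → ℝ) {k : ℝ} (hk : 1 ≤ k) :
    iso Ψ ((((1 : ℝ) : ℂ), ((0 : ℝ) : ℂ)) + ((Real.sqrt k - (Real.sqrt k)⁻¹) / 2) •
      ((Complex.I, Complex.I) : ℂ × ℂ)) = Ψ (Real.sqrt k) ((Real.sqrt k)⁻¹) := by
  unfold iso
  rw [(shear_norm 1 0 _).1, (shear_norm 1 0 _).2]
  have hk0 : 0 < k := by linarith
  have hs : 0 < Real.sqrt k := Real.sqrt_pos.2 hk0
  have h1s : 1 ≤ Real.sqrt k := by rw [Real.one_le_sqrt]; exact hk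
  have hi : (Real.sqrt k)⁻¹ ≤ 1 := inv_le_one_of_one_le₀ h1s
  set r := Real.sqrt k with hr
  have hri : r * r⁻¹ = 1 := mul_inv_cancel₀ hs.ne'
  have e1 : Real.sqrt (1 ^ 2 + ((r - r⁻¹) / 2) ^ 2) = (r + r⁻¹) / 2 := by
    rw [Real.sqrt_eq_iff_mul_self_eq (by positivity) (by positivity)]
    nlinarith
  have e2 : Real.sqrt (0 ^ 2 + ((r - r⁻¹) / 2) ^ 2) = (r - r⁻¹) / 2 := by
    rw [zero_pow two_ne_zero, zero_add, Real.sqrt_sq (by linarith)]
  rw [e1, e2]
  congr 1 <;> ring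

theorem hw_sqrt (p : ℝ) (φ : ℝ → ℝ) {k : ℝ} (hk : 1 ≤ k) :
    hw p φ (Real.sqrt k) ((Real.sqrt k)⁻¹) = k ^ (-(p / 2)) * φ k := by
  have hk0 : 0 < k := by linarith
  have hs : 0 < Real.sqrt k := Real.sqrt_pos.2 hk0
  unfold hw
  rw [div_inv_eq_mul, Real.mul_self_sqrt hk0.le, Real.sqrt_eq_rpow, ← Real.rpow_neg hk0.le,
    ← Real.rpow_mul hk0.le]
  congr 2
  ring

theorem conv {p : ℝ} {φ : ℝ → ℝ} (hR : RC (iso (hw p φ))) : ConvexOn ℝ (Ici 1) φ := by
  refine (diag_conv hR (v := 1) one_pos).congr fun s hs => ?_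
  have hs' : (1 : ℝ) ≤ s := hs
  simp only
  rw [iso_diag _ one_pos hs']
  unfold hw
  rw [Real.one_rpow, one_mul, div_one]

theorem mono {p : ℝ} {φ : ℝ → ℝ} (hR : RC (iso (hw p φ))) :
    MonotoneOn (fun K => K ^ (-(p / 2)) * φ K) (Ici 1) := by
  have hc := shear_conv hR (x := 1) (y := 0) (by norm_num)
  set ψ : ℝ → ℝ := fun t : ℝ => iso (hw p φ) ((((1 : ℝ) : ℂ), ((0 : ℝ) : ℂ))
      + t • ((Complex.I, Complex.I) : ℂ × ℂ)) with hψ
  have heven : ∀ t, ψ (-t) = ψ t := by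
    intro t
    simp only [hψ]
    unfold iso
    rw [(shear_norm 1 0 _).1, (shear_norm 1 0 _).2, (shear_norm 1 0 _).1, (shear_norm 1 0 _).2,
      neg_sq]
  have hmono : ∀ a b, 0 ≤ a → a ≤ b → ψ a ≤ ψ b := by
    intro a b ha hab
    rcases eq_or_lt_of_le (ha.trans hab) with hb | hb
    · have : a = b := le_antisymm hab (by linarith)
      rw [this]
    have h1 := hc.2 (mem_univ (-b)) (mem_univ b)
      (show 0 ≤ (b - a) / (2 * b) by apply div_nonneg <;> linarith)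
      (show 0 ≤ (b + a) / (2 * b) by apply div_nonneg <;> linarith)
      (by field_simp; ring)
    have e : ((b - a) / (2 * b)) • (-b) + ((b + a) / (2 * b)) • b = a := by
      simp only [smul_eq_mul]; field_simp; ring
    rw [e, heven] at h1
    simp only [smul_eq_mul] at h1
    have e2 : (b - a) / (2 * b) * ψ b + (b + a) / (2 * b) * ψ b = ψ b := by
      field_simp; ring
    linarith
  intro k hk l hl hkl
  have hk' : (1 : ℝ) ≤ k := hk
  have hl' : (1 : ℝ) ≤ l := hl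
  have hsk : 1 ≤ Real.sqrt k := by rw [Real.one_le_sqrt]; exact hk'
  have hskl : Real.sqrt k ≤ Real.sqrt l := Real.sqrt_le_sqrt hkl
  have h1 : 0 ≤ (Real.sqrt k - (Real.sqrt k)⁻¹) / 2 := by
    have : (Real.sqrt k)⁻¹ ≤ 1 := inv_le_one_of_one_le₀ hsk
    linarith
  have h2 : (Real.sqrt k - (Real.sqrt k)⁻¹) / 2 ≤ (Real.sqrt l - (Real.sqrt l)⁻¹) / 2 := by
    have : (Real.sqrt l)⁻¹ ≤ (Real.sqrt k)⁻¹ := inv_anti₀ (by linarith) hskl
    linarith
  have h3 := hmono _ _ h1 h2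
  simp only [hψ] at h3
  rw [iso_shear _ hk', iso_shear _ hl', hw_sqrt p φ hk', hw_sqrt p φ hl'] at h3
  exact h3

theorem low {p : ℝ} {φ : ℝ → ℝ} (hR : RC (iso (hw p φ))) {K : ℝ} (hK : 1 ≤ K) :
    φ 1 + p / 2 * φ 1 * (K - 1) ≤ φ K := by
  rcases eq_or_lt_of_le hK with h1 | h1
  · subst h1; simp
  have hc := conv hR
  have hm := mono hR
  have hd : HasDerivAt (fun e : ℝ => (1 - e) * φ 1 + e * φ K
      - (1 + e * (K - 1)) ^ (p / 2) * φ 1) (φ K - φ 1 - p / 2 * (K - 1) * φ 1) 0 := by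
    have h2 : HasDerivAt (fun e : ℝ => 1 + e * (K - 1)) (K - 1) 0 := by
      have := ((hasDerivAt_id (0 : ℝ)).mul_const (K - 1)).const_add 1
      simpa using this
    have h3 := h2.rpow_const (p := p / 2) (Or.inl (by norm_num))
    have h4 := h3.mul_const (φ 1)
    have h5 : HasDerivAt (fun e : ℝ => (1 - e) * φ 1 + e * φ K) (φ K - φ 1) 0 := by
      have h6 := ((hasDerivAt_id (0 : ℝ)).const_sub 1).mul_const (φ 1)
      have h7 := (hasDerivAt_id (0 : ℝ)).mul_const (φ K)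
      have h8 := h6.add h7
      exact h8.congr_deriv (by simp only [neg_mul, one_mul]; linarith)
    have h9 := h5.sub h4
    refine h9.congr_deriv ?_
    rw [zero_mul, add_zero, Real.one_rpow]
    ring
  have h0 := deriv_nonneg' hd (by simp) (by
    filter_upwards [Ioc_mem_nhdsGT (show (0 : ℝ) < 1 by norm_num)] with e he
    have hx : 1 ≤ 1 + e * (K - 1) := by
      have := mul_nonneg he.1.le (show 0 ≤ K - 1 by linarith)
      linarith
    have h2 := hc.2 (mem_Ici.2 (le_refl (1 : ℝ))) (mem_Ici.2 hK) (show 0 ≤ 1 - e by linarith [he.2])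
      he.1.le (by ring)
    have e2 : (1 - e) • (1 : ℝ) + e • K = 1 + e * (K - 1) := by
      simp only [smul_eq_mul]; ring
    rw [e2] at h2
    simp only [smul_eq_mul] at h2
    have h3 := hm (mem_Ici.2 (le_refl (1 : ℝ))) (mem_Ici.2 hx) hx
    simp only at h3
    rw [Real.one_rpow, one_mul] at h3
    have hx0 : 0 < 1 + e * (K - 1) := by linarith
    have hpos : 0 < (1 + e * (K - 1)) ^ (p / 2) := Real.rpow_pos_of_pos hx0 _
    have h4 : (1 + e * (K - 1)) ^ (p / 2) * φ 1 ≤ φ (1 + e * (K - 1)) := by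
      have h5 := mul_le_mul_of_nonneg_left h3 hpos.le
      rw [← mul_assoc, ← Real.rpow_add hx0, add_neg_cancel, Real.rpow_zero, one_mul] at h5
      exact h5
    linarith)
  linarith

theorem slope_lb {p : ℝ} {φ : ℝ → ℝ} (hR : RC (iso (hw p φ))) {K0 a : ℝ} (hK : 1 < K0)
    (ha : SG φ K0 a) : p * φ K0 ≤ 2 * a * K0 := by
  have hm := mono hR
  have hK0 : 0 < K0 := by linarith
  have hd : HasDerivAt (fun δ : ℝ => (K0 - δ) ^ (p / 2) * (K0 ^ (-(p / 2)) * φ K0) - φ K0 + a * δ)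
      (a - p / 2 * φ K0 / K0) 0 := by
    have h2 : HasDerivAt (fun e : ℝ => K0 - e) (-1) 0 := by
      have := (hasDerivAt_id (0 : ℝ)).const_sub K0
      simpa using this
    have h3 := h2.rpow_const (p := p / 2) (Or.inl (by simpa using hK0.ne'))
    have h4 := h3.mul_const (K0 ^ (-(p / 2)) * φ K0)
    have h5 := (h4.sub_const (φ K0)).add ((hasDerivAt_id (0 : ℝ)).const_mul a)
    refine h5.congr_deriv ?_
    rw [sub_zero, mul_one]
    have e1 : K0 ^ (p / 2 - 1) * K0 ^ (-(p / 2)) = K0⁻¹ := by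
      rw [← Real.rpow_add hK0, ← Real.rpow_neg_one]
      congr 1
      ring
    have e2 : -1 * (p / 2) * K0 ^ (p / 2 - 1) * (K0 ^ (-(p / 2)) * φ K0)
        = -1 * (p / 2) * (K0 ^ (p / 2 - 1) * K0 ^ (-(p / 2))) * φ K0 := by ring
    rw [e2, e1, div_eq_mul_inv]
    ring
  have h0 := deriv_nonneg' hd (by
    simp only [sub_zero, mul_zero, add_zero]
    rw [← mul_assoc, ← Real.rpow_add hK0, add_neg_cancel, Real.rpow_zero, one_mul, sub_self]) (by
    filter_upwards [Ioc_mem_nhdsGT (show (0 : ℝ) < K0 - 1 by linarith)] with e he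
    have hx : 1 ≤ K0 - e := by linarith [he.2]
    have h3 := hm (mem_Ici.2 hx) (mem_Ici.2 hK.le) (by linarith [he.1])
    simp only at h3
    have hx0 : 0 < K0 - e := by linarith
    have hpos : 0 < (K0 - e) ^ (p / 2) := Real.rpow_pos_of_pos hx0 _
    have h4 := mul_le_mul_of_nonneg_left h3 hpos.le
    rw [← mul_assoc, ← Real.rpow_add hx0, add_neg_cancel, Real.rpow_zero, one_mul] at h4
    have h5 := ha (K0 - e) hx
    have e3 : a * (K0 - e - K0) = -(a * e) := by ring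
    rw [e3] at h5
    linarith)
  have h6 : p / 2 * φ K0 / K0 ≤ a := by linarith
  rw [div_le_iff₀ hK0] at h6
  linarith

theorem main : S_FCT := by
  intro p φ hR
  refine ⟨conv hR, mono hR, fun K hK => low hR hK, fun K0 a hK ha => ⟨slope_lb hR hK ha, ?_⟩⟩
  have h1 := ha 1 le_rfl
  have h2 := low hR hK.le
  have h3 : p / 2 * φ 1 * (K0 - 1) ≤ a * (K0 - 1) := by linarith
  exact le_of_mul_le_mul_right h3 (by linarith)

end Pool.Agent.R222.GH.Fct
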