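import Pool.Agent.R222.GH.Stm

/-! # Monotonicity in the scaling -/

set_option autoImplicit false

namespace Pool.Agent.R222.GH.Mee

open MeasureTheory Set Filter Topology

theorem hasDeriv (p M P R : ℝ) {t : ℝ} (ht : 0 < t) :
    HasDerivAt (fun t : ℝ => t ^ (-p) * (M + P * t + R * t ^ 2))
      (t ^ (-p - 1) * (-(p * M) + (1 - p) * P * t + (2 - p) * R * t ^ 2)) t := by
  have h1 : HasDerivAt (fun t : ℝ => t ^ (-p)) (-p * t ^ (-p - 1)) t :=
    Real.hasDerivAt_rpow_const (Or.inl ht.ne')
  have h2 : HasDerivAt (fun t : ℝ => M + P * t + R * t ^ 2) (P + R * (2 * t)) t := by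
    have h3 : HasDerivAt (fun t : ℝ => P * t) P t := by
      simpa using (hasDerivAt_id t).const_mul P
    have h4 : HasDerivAt (fun t : ℝ => R * t ^ 2) (R * (2 * t)) t := by
      simpa using (hasDerivAt_pow 2 t).const_mul R
    exact (h3.const_add M).add h4
  have h5 := h1.mul h2
  refine h5.congr_deriv ?_
  have h6 : t ^ (-p) = t ^ (-p - 1) * t := by
    rw [← Real.rpow_add_one ht.ne']
    congr 1
    ring
  rw [h6]
  ring

theorem main : S_MEE := by
  intro p l M P R hl h
  have h1 : (1 : ℝ) ^ (-p) * (M + P * 1 + R * 1 ^ 2) = M + P + R := by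
    rw [Real.one_rpow]
    ring
  rw [← h1]
  rcases le_total 1 l with h1l | hl1
  · have hmono : MonotoneOn (fun t : ℝ => t ^ (-p) * (M + P * t + R * t ^ 2)) (Icc 1 l) := by
      apply monotoneOn_of_deriv_nonneg (convex_Icc 1 l)
      · intro t ht
        exact (hasDeriv p M P R (lt_of_lt_of_le one_pos ht.1)).continuousAt.continuousWithinAt
      · intro t ht
        rw [interior_Icc] at ht
        exact (hasDeriv p M P R (lt_trans one_pos ht.1)).differentiableAt.differentiableWithinAt
      · intro t ht
        rw [interior_Icc] at ht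
        have ht0 : 0 < t := lt_trans one_pos ht.1
        rw [(hasDeriv p M P R ht0).deriv]
        have h2 := h t (by rw [min_eq_right h1l]; exact ht.1.le) (by rw [max_eq_left h1l]; exact ht.2.le)
        have h3 : 0 < l - t := by linarith [ht.2]
        have h4 : 0 ≤ -(p * M) + (1 - p) * P * t + (2 - p) * R * t ^ 2 :=
          nonneg_of_mul_nonneg_right h2 h3
        positivity
    exact hmono (left_mem_Icc.2 h1l) (right_mem_Icc.2 h1l) h1l
  · have hanti : AntitoneOn (fun t : ℝ => t ^ (-p) * (M + P * t + R * t ^ 2)) (Icc l 1) := by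
      apply antitoneOn_of_deriv_nonpos (convex_Icc l 1)
      · intro t ht
        exact (hasDeriv p M P R (lt_of_lt_of_le hl ht.1)).continuousAt.continuousWithinAt
      · intro t ht
        rw [interior_Icc] at ht
        exact (hasDeriv p M P R (lt_trans hl ht.1)).differentiableAt.differentiableWithinAt
      · intro t ht
        rw [interior_Icc] at ht
        have ht0 : 0 < t := lt_trans hl ht.1
        rw [(hasDeriv p M P R ht0).deriv]
        have h2 := h t (by rw [min_eq_left hl1]; exact ht.1.le) (by rw [max_eq_right hl1]; exact ht.2.le)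
        have h3 : l - t < 0 := by linarith [ht.1]
        have h4 : -(p * M) + (1 - p) * P * t + (2 - p) * R * t ^ 2 ≤ 0 := by
          by_contra hc
          rw [not_le] at hc
          have := mul_neg_of_neg_of_pos h3 hc
          linarith
        have h5 : 0 ≤ t ^ (-p - 1) := by positivity
        exact mul_nonpos_of_nonneg_of_nonpos h5 h4
    exact hanti (left_mem_Icc.2 hl1) (right_mem_Icc.2 hl1) hl1

end Pool.Agent.R222.GH.Mee
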