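import Pool.Agent.R222.GH.Stm

/-! # The mirror rank-one line -/

set_option autoImplicit false

namespace Pool.Agent.R222.GH.Mir

open MeasureTheory Set Filter Topology
open Pool.Agent.R222.GH

/-- the mirror segment -/
theorem mseg_ex {x0 y0 x1 y1 : ℝ} (hy0 : 0 < y0) (hy1 : 0 ≤ y1)
    (hA : (y1 - y0) ^ 2 ≤ (x1 - x0) ^ 2) (hB : (x1 - x0) ^ 2 ≤ (y1 + y0) ^ 2) :
    ∃ H : ℂ × ℂ, ‖H.1‖ = ‖H.2‖ ∧ H.1 = ((x1 - x0 : ℝ) : ℂ) ∧ ‖((y0 : ℝ) : ℂ) + H.2‖ = y1 := by
  set d := x1 - x0 with hd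
  set p := (y1 ^ 2 + y0 ^ 2 - d ^ 2) / (2 * y0) with hp
  have hp2 : 2 * y0 * p = y1 ^ 2 + y0 ^ 2 - d ^ 2 := by
    rw [hp]; field_simp
  have hpx : p ^ 2 ≤ y1 ^ 2 := by
    have h1 : p ≤ y1 := by nlinarith
    have h2 : -y1 ≤ p := by nlinarith
    nlinarith
  set q := Real.sqrt (y1 ^ 2 - p ^ 2) with hq
  have hq2 : q ^ 2 = y1 ^ 2 - p ^ 2 := Real.sq_sqrt (by linarith)
  refine ⟨(((d : ℝ) : ℂ), ⟨p - y0, q⟩), ?_, rfl, ?_⟩
  · simp only
    rw [Complex.norm_real, Real.norm_eq_abs, Complex.norm_def, Complex.normSq_mk,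
      ← Real.sqrt_sq_eq_abs]
    congr 1
    nlinarith
  · rw [Complex.norm_def, Complex.normSq_apply]
    simp only [Complex.add_re, Complex.ofReal_re, Complex.add_im, Complex.ofReal_im]
    rw [Real.sqrt_eq_iff_mul_self_eq (by nlinarith [mul_self_nonneg (y0 + (p - y0)), mul_self_nonneg (0 + q)])
      hy1]
    nlinarith

theorem main : S_MIR := by
  intro p φ K0 a s v hR hSG hK0 hv hvs hopp hvK hs1
  have hs : 0 < s := by linarith
  set x0 := (K0 + 1) / 2 with hx0
  set y0 := (K0 - 1) / 2 with hy0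
  set x1 := (s + v) / 2 with hx1
  set y1 := (s - v) / 2 with hy1
  have hx0p : 0 < x0 := by rw [hx0]; linarith
  have hy0p : 0 < y0 := by rw [hy0]; linarith
  have hx1p : 0 < x1 := by rw [hx1]; linarith
  have hy1n : 0 ≤ y1 := by rw [hy1]; linarith
  have hA : (y1 - y0) ^ 2 ≤ (x1 - x0) ^ 2 := by
    have e : (x1 - x0) ^ 2 - (y1 - y0) ^ 2 = (s - K0) * (v - 1) := by
      rw [hx0, hx1, hy0, hy1]; ring
    linarith
  have hB : (x1 - x0) ^ 2 ≤ (y1 + y0) ^ 2 := by
    have h1 : |x1 - x0| ≤ y1 + y0 := by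
      rw [abs_le]
      constructor
      · rw [hx0, hx1, hy0, hy1]; linarith
      · rw [hx0, hx1, hy0, hy1]; linarith
    have := pow_le_pow_left₀ (abs_nonneg (x1 - x0)) h1 2
    rwa [sq_abs] at this
  obtain ⟨H, hH, hH1, hH2⟩ := mseg_ex hy0p hy1n hA hB
  set d := x1 - x0 with hd
  set F : ℂ × ℂ := (((x0 : ℝ) : ℂ), ((y0 : ℝ) : ℂ)) with hF
  have nF1 : ‖F.1‖ = x0 := by
    rw [hF]; simp only; rw [Complex.norm_real, Real.norm_of_nonneg hx0p.le]
  have nF2 : ‖F.2‖ = y0 := by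
    rw [hF]; simp only; rw [Complex.norm_real, Real.norm_of_nonneg hy0p.le]
  have hFt1 : ∀ t : ℝ, (F + t • H).1 = ((x0 + t * d : ℝ) : ℂ) := by
    intro t
    simp only [Prod.fst_add, Prod.smul_fst, hH1, Complex.real_smul, hF]
    push_cast
    ring
  have hXn : ∀ t : ℝ, 0 ≤ t → t ≤ 1 → 0 ≤ x0 + t * d := by
    intro t h0 h1
    have e : x0 + t * d = (1 - t) * x0 + t * x1 := by rw [hd]; ring
    rw [e]
    have := mul_nonneg (sub_nonneg.2 h1) hx0p.le
    have := mul_nonneg h0 hx1p.le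
    linarith
  have hn1 : ∀ t : ℝ, 0 ≤ t → t ≤ 1 → ‖(F + t • H).1‖ = x0 + t * d := by
    intro t h0 h1
    rw [hFt1, Complex.norm_real, Real.norm_of_nonneg (hXn t h0 h1)]
  have hFH1 : ‖(F + H).1‖ = x1 := by
    have := hn1 1 zero_le_one le_rfl
    rw [one_smul] at this
    rw [this, hd]; ring
  have hFH2 : ‖(F + H).2‖ = y1 := hH2
  have hDF : Dt F = K0 := by
    unfold Dt
    rw [nF1, nF2, hx0, hy0]; ring
  have hDFH : Dt (F + H) = s * v := by
    unfold Dt
    rw [hFH1, hFH2, hx1, hy1]; ring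
  have hPF : Pos F := by rw [Dt_pos, hDF]; linarith
  have hPFH : Pos (F + H) := by rw [Dt_pos, hDFH]; positivity
  -- the tangent curve
  set g : ℝ → ℝ := fun t => (x0 + t * d) ^ 2 - ((1 - t) * K0 + t * (s * v)) with hg
  set X : ℝ → ℝ := fun t => x0 + t * d with hX
  set Y : ℝ → ℝ := fun t => Real.sqrt (g t) with hY
  have hg0 : g 0 = y0 ^ 2 := by simp only [hg, hx0, hy0]; ring
  have hY0 : Y 0 = y0 := by simp only [hY]; rw [hg0, Real.sqrt_sq hy0p.le]
  have hX0 : X 0 = x0 := by simp only [hX]; ring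
  set b := φ K0 - a * K0 with hb
  set T : ℝ → ℝ := fun t => a * ((X t + Y t) * (X t - Y t) ^ (p - 1)) + b * (X t - Y t) ^ p with hT
  have hxy : x0 - y0 = 1 := by rw [hx0, hy0]; ring
  have hxy' : x0 + y0 = K0 := by rw [hx0, hy0]; ring
  have hT0 : T 0 = φ K0 := by
    simp only [hT]
    rw [hX0, hY0, hxy, hxy', Real.one_rpow, Real.one_rpow, hb]
    ring
  have hDtt : ∀ t : ℝ, Dt (F + t • H) = (1 - t) * K0 + t * (s * v) := by
    intro t
    rw [Dt_line F H hH, hDF, hDFH]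
  have hn2 : ∀ t : ℝ, 0 ≤ t → t ≤ 1 → ‖(F + t • H).2‖ = Y t := by
    intro t h0 h1
    have h2 := hDtt t
    unfold Dt at h2
    rw [hn1 t h0 h1] at h2
    simp only [hY, hg]
    symm
    rw [Real.sqrt_eq_iff_mul_self_eq (by nlinarith [sq_nonneg ‖(F + t • H).2‖]) (norm_nonneg _)]
    linarith [h2]
  have hlow : ∀ t : ℝ, 0 ≤ t → t ≤ 1 → T t ≤ iso (hw p φ) (F + t • H) := by
    intro t h0 h1
    have hD : 0 < Dt (F + t • H) := by
      rw [hDtt]
      rcases eq_or_lt_of_le h0 with h3 | h3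
      · rw [← h3]
        linarith
      · have := mul_pos h3 (mul_pos hs hv)
        have := mul_nonneg (sub_nonneg.2 h1) (show (0 : ℝ) ≤ K0 by linarith)
        linarith
    have hP := Dt_pos.2 hD
    have hP' : ‖(F + t • H).2‖ < ‖(F + t • H).1‖ := hP
    have h2 := hSG (Rt (F + t • H)) (Rt_ge hP)
    have h5 : Rt (F + t • H) = (X t + Y t) / (X t - Y t) := by
      unfold Rt
      rw [hn1 t h0 h1, hn2 t h0 h1]
    have hvt : 0 < X t - Y t := by
      have := hP'
      rw [hn1 t h0 h1, hn2 t h0 h1] at this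
      simp only [hX]
      linarith
    have h6 : iso (hw p φ) (F + t • H) = (X t - Y t) ^ p * φ ((X t + Y t) / (X t - Y t)) := by
      unfold iso hw
      rw [hn1 t h0 h1, hn2 t h0 h1]
    rw [h6]
    rw [h5] at h2
    have hvp : 0 < (X t - Y t) ^ p := Real.rpow_pos_of_pos hvt p
    have h7 := mul_le_mul_of_nonneg_left h2 hvp.le
    have h8 : (X t - Y t) ^ p * ((X t + Y t) / (X t - Y t)) = (X t + Y t) * (X t - Y t) ^ (p - 1) := by
      rw [Real.rpow_sub_one hvt.ne']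
      field_simp
    have h9 : T t = (X t - Y t) ^ p * (φ K0 + a * ((X t + Y t) / (X t - Y t) - K0)) := by
      simp only [hT]
      rw [← h8, hb]
      ring
    rw [h9]
    exact h7
  -- the derivative
  have hXd : HasDerivAt X d 0 := by
    have := ((hasDerivAt_id (0 : ℝ)).mul_const d).const_add x0
    exact this.congr_deriv (by ring)
  have hgd : HasDerivAt g (2 * x0 * d - (s * v - K0)) 0 := by
    have h1 : HasDerivAt (fun t : ℝ => (1 - t) * K0) (-K0) 0 := by
      have := ((hasDerivAt_id (0 : ℝ)).const_sub 1).mul_const K0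
      exact this.congr_deriv (by ring)
    have h2 : HasDerivAt (fun t : ℝ => t * (s * v)) (s * v) 0 := by
      have := (hasDerivAt_id (0 : ℝ)).mul_const (s * v)
      exact this.congr_deriv (by ring)
    have h4 := hXd.pow 2
    refine (h4.sub (h1.add h2)).congr_deriv ?_
    rw [hX0]
    norm_num
    ring
  have hYd : HasDerivAt Y ((2 * x0 * d - (s * v - K0)) / (2 * y0)) 0 := by
    have h1 := hgd.sqrt (by rw [hg0]; positivity)
    rw [hg0, Real.sqrt_sq hy0p.le] at h1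
    exact h1
  set Y' := (2 * x0 * d - (s * v - K0)) / (2 * y0) with hY'
  have hXY0 : X 0 - Y 0 = 1 := by rw [hX0, hY0, hxy]
  have hXY0' : X 0 + Y 0 = K0 := by rw [hX0, hY0, hxy']
  have hTd : HasDerivAt T (a * ((d + Y') + K0 * ((d - Y') * (p - 1))) + b * ((d - Y') * p)) 0 := by
    have hsub := hXd.sub hYd
    have hadd := hXd.add hYd
    have hne : (X - Y) 0 ≠ 0 := by
      change X 0 - Y 0 ≠ 0
      rw [hXY0]; exact one_ne_zero
    have h1 := hsub.rpow_const (p := p - 1) (Or.inl hne)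
    have h2 := hsub.rpow_const (p := p) (Or.inl hne)
    have h3 := ((hadd.mul h1).const_mul a).add (h2.const_mul b)
    refine h3.congr_deriv ?_
    simp only [Pi.add_apply, Pi.sub_apply]
    rw [hXY0, hXY0']
    simp only [Real.one_rpow]
    ring
  have hw0 : iso (hw p φ) F = φ K0 := by
    unfold iso hw
    rw [nF1, nF2, hxy, hxy', Real.one_rpow, div_one, one_mul]
  have hw1 : iso (hw p φ) (F + H) = hw p φ s v := by
    unfold iso
    rw [hFH1, hFH2]
    congr 1
    · rw [hx1, hy1]; ring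
    · rw [hx1, hy1]; ring
  have hfin := deriv_nonneg' (Φ := fun t => t * (iso (hw p φ) (F + H)
      - iso (hw p φ) F) - (T t - T 0))
    (((hasDerivAt_id (0 : ℝ)).mul_const _).sub (hTd.sub_const (T 0))) (by simp) (by
      filter_upwards [Ioc_mem_nhdsGT (zero_lt_one' ℝ)] with t ht
      have h1 := hlow t ht.1.le ht.2
      have h2 := hR F H hH hPF hPFH t ht.1.le ht.2
      have h3 : T 0 = iso (hw p φ) F := by rw [hT0, hw0]
      rw [h3]
      linarith)
  rw [hw0, hw1] at hfin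
  have halg : a * ((d + Y') + K0 * ((d - Y') * (p - 1))) + b * ((d - Y') * p)
      = (2 * K0 * a - p * φ K0) / (K0 - 1) * ((s + v) - (K0 + 1))
        + (p * φ K0 - K0 * a - a) / (K0 - 1) * (s * v - K0) := by
    have hK1 : K0 - 1 ≠ 0 := by linarith
    have hd2 : (s + v) - (K0 + 1) = 2 * d := by rw [hd, hx1, hx0]; ring
    have hYe : Y' = ((K0 + 1) * d - (s * v - K0)) / (K0 - 1) := by
      rw [hY', hx0, hy0]
      congr 1 <;> ring
    rw [hd2, hYe, hb]
    field_simp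
    ring
  linarith

end Pool.Agent.R222.GH.Mir
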