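import Pool.Agent.R222.GH.Stm

/-!
# Planar energies `(det A)^q g(K) + f(det A)`: the first supporting inequality
-/

set_option autoImplicit false

namespace Pool.Agent.R222.GH.Nin

open MeasureTheory Set Filter Topology

theorem hw_scale (p : ℝ) (φ : ℝ → ℝ) {l s v : ℝ} (hl : 0 < l) (hv : 0 < v) :
    hw p φ (l * s) (l * v) = l ^ p * hw p φ s v := by
  unfold hw
  rw [mul_div_mul_left _ _ hl.ne', Real.mul_rpow hl.le hv.le]
  ring

theorem main (hS : S_SPC) (hM : S_MEE) : S_NIN := by
  intro p φ K0 a hp hR hG hK hY0 hA0 s v hv hs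
  have hsp : 0 < s := by linarith
  have hK0p : 0 < K0 := by linarith
  have hK1 : K0 + 1 ≠ 0 := by linarith
  set A := (2 * K0 * a - p * φ K0) / (K0 + 1) with hA
  set C := (a + p * φ K0 - K0 * a) / (K0 + 1) with hC
  have hAn : 0 ≤ A := by rw [hA]; exact div_nonneg hA0 (by linarith)
  have hE : A * (K0 - 1) + 2 * C * K0 = p * φ K0 := by
    rw [hA, hC]
    field_simp
    ring
  have hYe : (1 - p) * A + (2 - p) * C = ((2 - p) * a + p * (φ K0 - a * K0)) / (K0 + 1) := by
    rw [hA, hC]
    field_simp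
    ring
  have hY : (1 - p) * A + (2 - p) * C < 0 := by
    rw [hYe]
    exact div_neg_of_neg_of_pos hY0 (by linarith)
  have hpA : 0 ≤ (1 - p) * A := mul_nonneg (by linarith) hAn
  have hpC : (2 - p) * C < 0 := by linarith
  set D := φ K0 - A * (K0 - 1) - C * K0 with hD
  have hq0e : -(p * D) = -K0 * ((1 - p) * A + (2 - p) * C) + (1 - p) * A := by
    rw [hD]
    linear_combination hE
  have hq0 : 0 < -(p * D) := by
    rw [hq0e]
    nlinarith
  set q : ℝ → ℝ := fun t => -(p * D) + (1 - p) * (A * (s - v)) * t + (2 - p) * (C * (s * v)) * t ^ 2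
    with hq
  have hqc : Continuous q := by fun_prop
  have hq1 : q (K0 / s) = (v * (K0 / s) - 1) * (-((1 - p) * A) + (2 - p) * C * K0) := by
    have h1 : (K0 / s) * s = K0 := div_mul_cancel₀ _ hsp.ne'
    have h2 : q (K0 / s) = -(p * D) + (1 - p) * (A * ((K0 / s) * s - v * (K0 / s)))
        + (2 - p) * (C * (((K0 / s) * s) * (v * (K0 / s)))) := by simp only [hq]; ring
    rw [h2, h1, hq0e]
    ring
  have hq2 : q (1 / v) = (1 / v * s - K0) * ((1 - p) * A + (2 - p) * C) := by
    have h1 : (1 / v) * v = 1 := div_mul_cancel₀ _ hv.ne'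
    have h2 : q (1 / v) = -(p * D) + (1 - p) * (A * (1 / v * s - 1 / v * v))
        + (2 - p) * (C * ((1 / v * v) * (1 / v * s))) := by simp only [hq]; ring
    rw [h2, h1, hq0e]
    ring
  have hneg : -((1 - p) * A) + (2 - p) * C * K0 < 0 := by nlinarith
  obtain ⟨l, hl0, hlo, hlq⟩ : ∃ l : ℝ, 0 < l ∧ (l * s - K0) * (l * v - 1) ≤ 0 ∧ q l = 0 := by
    rcases le_total (K0 / s) (1 / v) with hle | hle
    · have h1 : 0 ≤ q (K0 / s) := by
        rw [hq1]
        apply mul_nonneg_of_nonpos_of_nonpos _ hneg.le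
        rw [le_div_iff₀ hv] at hle
        linarith
      have h2 : q (1 / v) ≤ 0 := by
        rw [hq2]
        apply mul_nonpos_of_nonneg_of_nonpos _ hY.le
        rw [div_le_iff₀ hsp] at hle
        linarith
      obtain ⟨l, hl, hlq⟩ := intermediate_value_Icc' hle hqc.continuousOn ⟨h2, h1⟩
      refine ⟨l, (div_pos hK0p hsp).trans_le hl.1, ?_, hlq⟩
      have h3 := hl.1
      have h4 := hl.2
      rw [div_le_iff₀ hsp] at h3
      rw [le_div_iff₀ hv] at h4
      exact mul_nonpos_of_nonneg_of_nonpos (by linarith) (by linarith)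
    · have h1 : q (K0 / s) ≤ 0 := by
        rw [hq1]
        apply mul_nonpos_of_nonneg_of_nonpos _ hneg.le
        rw [div_le_iff₀ hv] at hle
        linarith
      have h2 : 0 ≤ q (1 / v) := by
        rw [hq2]
        apply mul_nonneg_of_nonpos_of_nonpos _ hY.le
        rw [le_div_iff₀ hsp] at hle
        linarith
      obtain ⟨l, hl, hlq⟩ := intermediate_value_Icc' hle hqc.continuousOn ⟨h1, h2⟩
      refine ⟨l, (div_pos one_pos hv).trans_le hl.1, ?_, hlq⟩
      have h3 := hl.1
      have h4 := hl.2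
      rw [div_le_iff₀ hv] at h3
      rw [le_div_iff₀ hsp] at h4
      exact mul_nonpos_of_nonpos_of_nonneg (by linarith) (by linarith)
  have hsp1 := hS p φ K0 a (l * s) (l * v) hR hG hK.le (mul_pos hl0 hv)
    (mul_le_mul_of_nonneg_left hs hl0.le) hlo
  rw [← hA, ← hC, hw_scale p φ hl0 hv] at hsp1
  have hmee := hM p l D (A * (s - v)) (C * (s * v)) hl0 (by
    intro t ht1 _
    have ht0 : 0 ≤ t := (le_min hl0.le zero_le_one).trans ht1
    have hlq' : -(p * D) + (1 - p) * (A * (s - v)) * l + (2 - p) * (C * (s * v)) * l ^ 2 = 0 := hlq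
    have e : (l - t) * (-(p * D) + (1 - p) * (A * (s - v)) * t + (2 - p) * (C * (s * v)) * t ^ 2)
        = (l - t) ^ 2 * (-(p * D) / l - (2 - p) * C * (s * v) * t) := by
      have h1 : (1 - p) * (A * (s - v)) = -(-(p * D) + (2 - p) * (C * (s * v)) * l ^ 2) / l := by
        field_simp
        linear_combination hlq'
      rw [h1]
      field_simp
      ring
    rw [e]
    apply mul_nonneg (sq_nonneg _)
    have h1 : 0 < -(p * D) / l := div_pos hq0 hl0
    have h2 : 0 ≤ -((2 - p) * C) * (s * v) * t :=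
      mul_nonneg (mul_nonneg (by linarith) (mul_pos hsp hv).le) ht0
    linarith)
  have hlp : 0 < l ^ (-p) := Real.rpow_pos_of_pos hl0 _
  have hlpp : l ^ (-p) * l ^ p = 1 := by
    rw [← Real.rpow_add hl0]
    simp
  have h1 : D + A * (s - v) * l + C * (s * v) * l ^ 2 ≤ l ^ p * hw p φ s v := by
    have e : D + A * (s - v) * l + C * (s * v) * l ^ 2
        = φ K0 + A * ((l * s - l * v) - (K0 - 1)) + C * (l * s * (l * v) - K0) := by
      rw [hD]; ring
    rw [e]
    exact hsp1
  have h2 := mul_le_mul_of_nonneg_left h1 hlp.le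
  have h3 : l ^ (-p) * (l ^ p * hw p φ s v) = hw p φ s v := by
    rw [← mul_assoc, hlpp, one_mul]
  rw [h3] at h2
  have e2 : φ K0 + A * ((s - v) - (K0 - 1)) + C * (s * v - K0) = D + A * (s - v) + C * (s * v) := by
    rw [hD]; ring
  rw [e2]
  exact hmee.trans h2

end Pool.Agent.R222.GH.Nin
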