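import Pool.Agent.R222.GH.Stm

/-! # The supports in the class treated directly -/

set_option autoImplicit false

namespace Pool.Agent.R222.GH.Pri

open MeasureTheory Set Filter Topology
open Pool.Agent.R222.GH

theorem hda {p x : ℝ} (hx : 0 < x) : HasDerivAt (fun v : ℝ => v ^ p) (p * x ^ (p - 1)) x := by
  have := Real.hasDerivAt_rpow_const (x := x) (p := p) (Or.inl hx.ne')
  exact this

/-- the basic convexity -/
theorem cvx (p α β γ s : ℝ)
    (h : ∀ v, 0 < v → v < s → 0 ≤ (p - 1) * (p - 2) * α * s + p * (p - 1) * β * v) :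
    ConvexOn ℝ (Ioc 0 s) (fun v => α * v ^ (p - 1) * s + (β * v ^ p + γ)) := by
  have hd : ∀ x : ℝ, 0 < x → HasDerivAt (fun v : ℝ => α * v ^ (p - 1) * s + (β * v ^ p + γ))
      (α * ((p - 1) * x ^ (p - 1 - 1)) * s + β * (p * x ^ (p - 1))) x := by
    intro x hx
    exact (((hda hx).const_mul α).mul_const s).add (((hda hx).const_mul β).add_const γ)
  have hd2 : ∀ x : ℝ, 0 < x → HasDerivAt
      (fun v : ℝ => α * ((p - 1) * v ^ (p - 1 - 1)) * s + β * (p * v ^ (p - 1)))
      (α * ((p - 1) * ((p - 1 - 1) * x ^ (p - 1 - 1 - 1))) * s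
        + β * (p * ((p - 1) * x ^ (p - 1 - 1)))) x := by
    intro x hx
    exact ((((hda hx).const_mul (p - 1)).const_mul α).mul_const s).add
      (((hda hx).const_mul p).const_mul β)
  refine convexOn_of_hasDerivWithinAt2_nonneg
    (f' := fun x => α * ((p - 1) * x ^ (p - 1 - 1)) * s + β * (p * x ^ (p - 1)))
    (f'' := fun x => α * ((p - 1) * ((p - 1 - 1) * x ^ (p - 1 - 1 - 1))) * s
        + β * (p * ((p - 1) * x ^ (p - 1 - 1)))) (convex_Ioc 0 s) ?_ ?_ ?_ ?_
  · intro x hx
    exact (hd x hx.1).continuousAt.continuousWithinAt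
  · intro x hx
    rw [interior_Ioc] at hx
    exact (hd x hx.1).hasDerivWithinAt
  · intro x hx
    rw [interior_Ioc] at hx
    exact (hd2 x hx.1).hasDerivWithinAt
  · intro x hx
    rw [interior_Ioc] at hx
    have hx0 : 0 < x := hx.1
    have e : x ^ (p - 1 - 1) = x ^ (p - 1 - 1 - 1) * x := by
      rw [Real.rpow_sub_one hx0.ne' (p - 1 - 1)]
      field_simp
    have e2 : α * ((p - 1) * ((p - 1 - 1) * x ^ (p - 1 - 1 - 1))) * s
        + β * (p * ((p - 1) * x ^ (p - 1 - 1)))
        = x ^ (p - 1 - 1 - 1) * ((p - 1) * (p - 2) * α * s + p * (p - 1) * β * x) := by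
      rw [e]; ring
    rw [e2]
    exact mul_nonneg (Real.rpow_nonneg hx0.le _) (h x hx0 hx.2)

theorem sc {p l s v : ℝ} (φ : ℝ → ℝ) (hl : 0 < l) (hv : 0 < v) :
    l ^ p * hw p φ (s / l) (v / l) = hw p φ s v := by
  unfold hw
  rw [Real.div_rpow hv.le hl.le, div_div_div_cancel_right₀ hl.ne']
  have := (Real.rpow_pos_of_pos hl p).ne'
  field_simp

theorem val {p l K0 : ℝ} (φ : ℝ → ℝ) (hl : 0 < l) :
    hw p φ (l * K0) l = l ^ p * φ K0 := by
  unfold hw
  rw [mul_div_cancel_left₀ _ hl.ne']

theorem pw1 {p l : ℝ} (hl : 0 < l) : l ^ p = l ^ (p - 1) * l := by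
  rw [Real.rpow_sub_one hl.ne' p]
  field_simp

theorem pw2 {p l : ℝ} (hl : 0 < l) : l ^ (p - 1) = l ^ (p - 2) * l := by
  have := pw1 (p := p - 1) hl
  have e : p - 1 - 1 = p - 2 := by ring
  rwa [e] at this

/-- gluing -/
theorem glue {s V : ℝ} {r : ℝ → ℝ} (hV0 : 0 < V) (hVs : V ≤ s) (hc : ConvexOn ℝ (Ioc 0 V) r)
    (h0 : ∀ v, V ≤ v → r v = 0) (hp : ∀ v, 0 < v → v ≤ V → 0 ≤ r v) : ConvexOn ℝ (Ioc 0 s) r := by
  refine LinearOrder.convexOn_of_lt (convex_Ioc 0 s) ?_
  intro x hx y hy hxy p q hp' hq hpq
  simp only [smul_eq_mul]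
  have hq' : q = 1 - p := by linarith
  have hz1 : x < p * x + q * y := by
    have h1 : p * x + q * y = x + q * (y - x) := by rw [hq']; ring
    have h2 : 0 < q * (y - x) := mul_pos hq (by linarith)
    linarith
  have hz2 : p * x + q * y < y := by
    have h1 : p * x + q * y = y - p * (y - x) := by rw [hq']; ring
    have h2 : 0 < p * (y - x) := mul_pos hp' (by linarith)
    linarith
  have hpos : ∀ v, 0 < v → 0 ≤ r v := by
    intro v hv
    rcases le_or_gt v V with h | h
    · exact hp v hv h
    · rw [h0 v h.le]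
  rcases le_or_gt y V with hyV | hyV
  · have := hc.2 ⟨hx.1, hxy.le.trans hyV⟩ ⟨hy.1, hyV⟩ hp'.le hq.le hpq
    simpa only [smul_eq_mul] using this
  · rcases le_or_gt V (p * x + q * y) with hz | hz
    · rw [h0 _ hz]
      have := hpos x hx.1
      have := hpos y hy.1
      positivity
    · have hxV : x < V := hz1.trans hz
      set z := p * x + q * y with hzdef
      set q' := (z - x) / (V - x) with hq'def
      have hVx : 0 < V - x := by linarith
      have hq0 : 0 ≤ q' := div_nonneg (by linarith) hVx.le
      have hq1 : q' ≤ 1 := by rw [hq'def, div_le_one hVx]; linarith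
      have hzz : q' * (V - x) = z - x := by rw [hq'def]; field_simp
      have h1 := hc.2 (x := x) ⟨hx.1, hxV.le⟩ (y := V) ⟨hV0, le_rfl⟩ (sub_nonneg.2 hq1) hq0 (by ring)
      simp only [smul_eq_mul] at h1
      have e : (1 - q') * x + q' * V = z := by linarith
      rw [e, h0 V le_rfl, mul_zero, add_zero] at h1
      refine h1.trans ?_
      rw [h0 y hyV.le, mul_zero, add_zero]
      refine mul_le_mul_of_nonneg_right ?_ (hpos x hx.1)
      -- 1 - q' ≤ p
      have h2 : q * (y - x) = z - x := by rw [hzdef, hq']; ring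
      have h3 : q * (V - x) ≤ q * (y - x) := mul_le_mul_of_nonneg_left (by linarith) hq.le
      have h4 : q * (V - x) ≤ q' * (V - x) := by linarith
      have h5 : q ≤ q' := le_of_mul_le_mul_right h4 hVx
      linarith

theorem main : S_PRI := by
  intro p φ K0 l hp hK0 hl hS
  have hlp : 0 < l ^ p := Real.rpow_pos_of_pos hl p
  have hl1 : 0 < l ^ (p - 1) := Real.rpow_pos_of_pos hl _
  have hl2 : 0 < l ^ (p - 2) := Real.rpow_pos_of_pos hl _
  have e1 : l ^ (p - 1) = l ^ (p - 2) * l := pw2 hl
  have e0 : l ^ p = l ^ (p - 2) * l * l := by rw [pw1 hl, e1]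
  rcases hS with ⟨a, b, hab, hK, hin⟩ | ⟨A, C, D, e, hA, he, hK, hin⟩ |
    ⟨hp0, A, C, D, θ, c, v1, hv0, hv1, hA, hθ, hm1, hm2, hJ, hK, hin1, hin2⟩
  · -- first case
    have ha : 0 ≤ a := by
      have h1 : 0 ≤ (2 - p) * a := (abs_nonneg _).trans hab
      have h2 : 0 < 2 - p := by linarith
      exact nonneg_of_mul_nonneg_right h1 h2
    refine ⟨fun v => a * v ^ (p - 1), fun v => b * v ^ p, ?_, ?_, ?_, ?_⟩
    · intro s
      have h1 := cvx p a b 0 s (by
        intro v hv hvs
        have h2 : p * b ≤ (2 - p) * a := (le_abs_self _).trans hab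
        have h3 : p * b * v ≤ (2 - p) * a * v := mul_le_mul_of_nonneg_right h2 hv.le
        have h4 : (2 - p) * a * v ≤ (2 - p) * a * s :=
          mul_le_mul_of_nonneg_left hvs.le (mul_nonneg (by linarith) ha)
        have h5 : (p - 1) * (p - 2) * a * s + p * (p - 1) * b * v
            = (1 - p) * ((2 - p) * a * s - p * b * v) := by ring
        rw [h5]
        exact mul_nonneg (by linarith) (by linarith))
      simpa only [add_zero] using h1
    · refine ⟨l / 2, by linarith, by linarith, fun ρ hρ _ => ?_⟩
      have hρ0 : 0 < ρ := by linarith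
      refine ⟨a * ((p - 1) * ρ ^ (p - 1 - 1)), b * (p * ρ ^ (p - 1)), (hda hρ0).const_mul a,
        (hda hρ0).const_mul b, ?_⟩
      have h1 : ρ ^ (p - 1) = ρ ^ (p - 1 - 1) * ρ := by
        rw [Real.rpow_sub_one hρ0.ne' (p - 1)]
        field_simp
      have h2 : 0 < ρ ^ (p - 1) := Real.rpow_pos_of_pos hρ0 _
      have h3 : a * ρ ^ (p - 1) - ρ * (a * ((p - 1) * ρ ^ (p - 1 - 1))) = (2 - p) * a * ρ ^ (p - 1) := by
        rw [h1]; ring
      have h4 : b * (p * ρ ^ (p - 1)) = (p * b) * ρ ^ (p - 1) := by ring
      rw [h3, h4, abs_mul, abs_of_pos h2]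
      exact mul_le_mul_of_nonneg_right hab h2.le
    · simp only
      rw [val φ hl, ← hK, e0, e1]
      ring
    · intro s v hv hs
      have := hin s v hv hs
      simp only
      have e : a * v ^ (p - 1) * s = a * s * v ^ (p - 1) := by ring
      rw [e]
      exact this
  · -- second case
    refine ⟨fun v => A * l ^ (p - 1) + C * l ^ (p - 2) * v,
      fun v => e * A * l ^ (p - 1) * v + D * l ^ p, ?_, ?_, ?_, ?_⟩
    · intro s
      refine ⟨convex_Ioc 0 s, fun x _ y _ q r _ _ hqr => le_of_eq ?_⟩
      simp only [smul_eq_mul]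
      have : r = 1 - q := by linarith
      subst this
      ring
    · refine ⟨l / 2, by linarith, by linarith, fun ρ hρ _ => ?_⟩
      refine ⟨C * l ^ (p - 2), e * A * l ^ (p - 1), ?_, ?_, ?_⟩
      · have := ((hasDerivAt_id ρ).const_mul (C * l ^ (p - 2))).const_add (A * l ^ (p - 1))
        exact this.congr_deriv (by ring)
      · have := ((hasDerivAt_id ρ).const_mul (e * A * l ^ (p - 1))).add_const (D * l ^ p)
        exact this.congr_deriv (by ring)
      · have h1 : A * l ^ (p - 1) + C * l ^ (p - 2) * ρ - ρ * (C * l ^ (p - 2))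
            = A * l ^ (p - 1) := by ring
        rw [h1]
        have h2 : 0 ≤ A * l ^ (p - 1) := mul_nonneg hA hl1.le
        rcases he with he | he
        · rw [he, one_mul, abs_of_nonneg h2]
        · have h3 : e * A * l ^ (p - 1) = -(A * l ^ (p - 1)) := by rw [he]; ring
          rw [h3, abs_neg, abs_of_nonneg h2]
    · simp only
      rw [val φ hl, ← hK, e0, e1]
      ring
    · intro s v hv hs
      have h1 := hin (s / l) (v / l) (div_pos hv hl) (div_le_div_of_nonneg_right hs hl.le)
      have h2 := mul_le_mul_of_nonneg_left h1 hlp.le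
      rw [sc φ hl hv] at h2
      refine le_trans (le_of_eq ?_) h2
      simp only
      rw [e0, e1]
      field_simp
      ring
  · -- third case
    set V := l * v1 with hV
    have hV0 : 0 < V := mul_pos hl hv0
    have hVl : V < l := by rw [hV]; nlinarith
    have hVp : V ^ p = l ^ p * v1 ^ p := Real.mul_rpow hl.le hv0.le
    have hVp1 : V ^ (p - 1) = l ^ (p - 1) * v1 ^ (p - 1) := Real.mul_rpow hl.le hv0.le
    -- matching
    have hMa : θ * (-p) * V ^ (p - 1) = A * l ^ (p - 1) + C * l ^ (p - 2) * V := by
      rw [hVp1]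
      have : θ * (-p) * (l ^ (p - 1) * v1 ^ (p - 1)) = l ^ (p - 1) * (θ * (-p) * v1 ^ (p - 1)) := by
        ring
      rw [this, ← hm1, e1, hV]
      ring
    have hMb : -θ * (2 - p) * V ^ p + c * l ^ p = A * l ^ (p - 1) * V + D * l ^ p := by
      rw [hVp]
      have : -θ * (2 - p) * (l ^ p * v1 ^ p) + c * l ^ p = l ^ p * (c - θ * (2 - p) * v1 ^ p) := by
        ring
      rw [this, ← hm2, e0, e1, hV]
      ring
    -- the outer function
    have hEc : ∀ s, ConvexOn ℝ (Ioc 0 s)
        (fun v => θ * (-p) * v ^ (p - 1) * s + (-θ * (2 - p) * v ^ p + c * l ^ p)) := by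
      intro s
      refine cvx p (θ * (-p)) (-θ * (2 - p)) (c * l ^ p) s ?_
      intro v hv hvs
      have e : (p - 1) * (p - 2) * (θ * -p) * s + p * (p - 1) * (-θ * (2 - p)) * v
          = θ * (-p) * (1 - p) * (2 - p) * (s - v) := by ring
      rw [e]
      have h1 : 0 ≤ -p := by linarith
      have h2 : 0 ≤ 1 - p := by linarith
      have h3 : 0 ≤ 2 - p := by linarith
      have h4 : 0 ≤ s - v := by linarith
      positivity
    refine ⟨fun v => if v < V then θ * (-p) * v ^ (p - 1) else A * l ^ (p - 1) + C * l ^ (p - 2) * v,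
      fun v => if v < V then -θ * (2 - p) * v ^ p + c * l ^ p else A * l ^ (p - 1) * v + D * l ^ p,
      ?_, ?_, ?_, ?_⟩
    · intro s
      rcases le_or_gt s V with hs | hs
      · refine (hEc s).congr ?_
        intro v hv
        simp only
        rcases lt_or_eq_of_le (hv.2.trans hs) with h | h
        · rw [if_pos h, if_pos h]
        · have h' : ¬ v < V := by rw [h]; exact lt_irrefl _
          rw [if_neg h', if_neg h', h, hMa, hMb]
      · -- the glued function
        set L : ℝ → ℝ := fun v => (A * l ^ (p - 1) + C * l ^ (p - 2) * v) * s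
          + (A * l ^ (p - 1) * v + D * l ^ p) with hL
        set E : ℝ → ℝ := fun v => θ * (-p) * v ^ (p - 1) * s
          + (-θ * (2 - p) * v ^ p + c * l ^ p) with hE
        have hLc : ∀ s', ConvexOn ℝ (Ioc 0 s') L ∧ ConcaveOn ℝ (Ioc 0 s') L := by
          intro s'
          constructor
          · refine ⟨convex_Ioc 0 s', fun x _ y _ q r _ _ hqr => le_of_eq ?_⟩
            simp only [smul_eq_mul, hL]
            have : r = 1 - q := by linarith
            subst this
            ring
          · refine ⟨convex_Ioc 0 s', fun x _ y _ q r _ _ hqr => le_of_eq ?_⟩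
            simp only [smul_eq_mul, hL]
            have : r = 1 - q := by linarith
            subst this
            ring
        have hEL : E V = L V := by
          simp only [hE, hL]
          rw [hMa, hMb]
        have hELc : ConvexOn ℝ (Ioc 0 s) (E - L) := (hEc s).sub (hLc s).2
        -- derivative at V
        have hder : HasDerivAt (E - L) (θ * (-p) * ((p - 1) * V ^ (p - 1 - 1)) * s
            + (-θ * (2 - p)) * (p * V ^ (p - 1)) - (C * l ^ (p - 2) * s + A * l ^ (p - 1))) V := by
          have h1 : HasDerivAt E (θ * (-p) * ((p - 1) * V ^ (p - 1 - 1)) * s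
              + (-θ * (2 - p)) * (p * V ^ (p - 1))) V :=
            (((hda hV0).const_mul (θ * (-p))).mul_const s).add
              (((hda hV0).const_mul (-θ * (2 - p))).add_const (c * l ^ p))
          have h2 : HasDerivAt L (C * l ^ (p - 2) * s + A * l ^ (p - 1)) V := by
            have h3 := (((hasDerivAt_id V).const_mul (C * l ^ (p - 2))).const_add
              (A * l ^ (p - 1))).mul_const s
            have h4 := ((hasDerivAt_id V).const_mul (A * l ^ (p - 1))).add_const (D * l ^ p)
            exact (h3.add h4).congr_deriv (by ring)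
          exact h1.sub h2
        have hneg : θ * (-p) * ((p - 1) * V ^ (p - 1 - 1)) * s
            + (-θ * (2 - p)) * (p * V ^ (p - 1)) - (C * l ^ (p - 2) * s + A * l ^ (p - 1)) ≤ 0 := by
          have h1 : V ^ (p - 1) = V ^ (p - 1 - 1) * V := by
            rw [Real.rpow_sub_one hV0.ne' (p - 1)]
            field_simp
          have h2 : (θ * (-p) * ((p - 1) * V ^ (p - 1 - 1)) * s
            + (-θ * (2 - p)) * (p * V ^ (p - 1)) - (C * l ^ (p - 2) * s + A * l ^ (p - 1))) * V
            = (p - 1) * s * (θ * (-p) * V ^ (p - 1)) + (2 - p) * V * (θ * (-p) * V ^ (p - 1))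
              - C * l ^ (p - 2) * s * V - A * l ^ (p - 1) * V := by
            rw [h1]; ring
          rw [hMa] at h2
          have h3 : (p - 1) * s * (A * l ^ (p - 1) + C * l ^ (p - 2) * V)
              + (2 - p) * V * (A * l ^ (p - 1) + C * l ^ (p - 2) * V)
              - C * l ^ (p - 2) * s * V - A * l ^ (p - 1) * V
              = -(l ^ (p - 1) * ((1 - p) * A + (2 - p) * C * v1)) * (s - V) := by
            rw [e1, hV]; ring
          rw [h3] at h2
          have h4 : 0 ≤ l ^ (p - 1) * ((1 - p) * A + (2 - p) * C * v1) := mul_nonneg hl1.le hJ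
          have h5 : -(l ^ (p - 1) * ((1 - p) * A + (2 - p) * C * v1)) * (s - V) ≤ 0 := by
            have : 0 ≤ s - V := by linarith
            nlinarith [mul_nonneg h4 this]
          rw [← h2] at h5
          by_contra hcon
          push Not at hcon
          have := mul_pos hcon hV0
          linarith
        have hnn : ∀ v, 0 < v → v ≤ V → 0 ≤ (E - L) v := by
          intro v hv hvV
          rcases eq_or_lt_of_le hvV with h | h
          · rw [h, Pi.sub_apply, hEL, sub_self]
          · have h1 := hELc.slope_le_of_hasDerivAt (x := v) (y := V) ⟨hv, (h.trans hs).le⟩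
              ⟨hV0, hs.le⟩ h hder
            rw [slope_def_field] at h1
            have h2 : (E - L) V = 0 := by rw [Pi.sub_apply, hEL, sub_self]
            rw [h2] at h1
            have h3 : (0 - (E - L) v) / (V - v) ≤ 0 := h1.trans hneg
            rw [div_le_iff₀ (by linarith)] at h3
            linarith
        set r : ℝ → ℝ := fun v => if v < V then (E - L) v else 0 with hr
        have hrc : ConvexOn ℝ (Ioc 0 s) r := by
          refine glue hV0 hs.le ?_ ?_ ?_
          · refine (hELc.subset (Ioc_subset_Ioc_right hs.le) (convex_Ioc 0 V)).congr ?_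
            intro v hv
            simp only [hr]
            rcases lt_or_eq_of_le hv.2 with h | h
            · rw [if_pos h]
            · rw [if_neg (by rw [h]; exact lt_irrefl _), h, Pi.sub_apply, hEL, sub_self]
          · intro v hv
            simp only [hr]
            rw [if_neg (not_lt.2 hv)]
          · intro v hv hvV
            simp only [hr]
            split_ifs with h
            · exact hnn v hv hvV
            · exact le_rfl
        refine ((hLc s).1.add hrc).congr ?_
        intro v hv
        simp only [hr, Pi.add_apply, Pi.sub_apply]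
        split_ifs with h
        · simp only [hE]; ring
        · simp only [hL]; ring
    · refine ⟨V, hV0, hVl, fun ρ hρ _ => ?_⟩
      refine ⟨C * l ^ (p - 2), A * l ^ (p - 1), ?_, ?_, ?_⟩
      · have h1 := ((hasDerivAt_id ρ).const_mul (C * l ^ (p - 2))).const_add (A * l ^ (p - 1))
        refine (h1.congr_deriv (by ring)).congr_of_eventuallyEq ?_
        filter_upwards [Ioi_mem_nhds hρ] with v hv
        simp only [id]
        rw [if_neg (not_lt.2 (mem_Ioi.1 hv).le)]
      · have h1 := ((hasDerivAt_id ρ).const_mul (A * l ^ (p - 1))).add_const (D * l ^ p)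
        refine (h1.congr_deriv (by ring)).congr_of_eventuallyEq ?_
        filter_upwards [Ioi_mem_nhds hρ] with v hv
        simp only [id]
        rw [if_neg (not_lt.2 (mem_Ioi.1 hv).le)]
      · simp only
        rw [if_neg (not_lt.2 hρ.le), abs_of_nonneg (mul_nonneg hA hl1.le)]
        have : A * l ^ (p - 1) + C * l ^ (p - 2) * ρ - ρ * (C * l ^ (p - 2))
          = A * l ^ (p - 1) := by ring
        rw [this]
    · simp only
      rw [if_neg (not_lt.2 hVl.le), if_neg (not_lt.2 hVl.le), val φ hl, ← hK, e0, e1]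
      ring
    · intro s v hv hs
      simp only
      split_ifs with h
      · have hvl : v / l < v1 := by rw [div_lt_iff₀ hl, mul_comm]; exact h
        have h1 := hin2 (s / l) (v / l) (div_pos hv hl) hvl (div_le_div_of_nonneg_right hs hl.le)
        have h2 := mul_le_mul_of_nonneg_left h1 hlp.le
        rw [sc φ hl hv] at h2
        refine le_trans (le_of_eq ?_) h2
        rw [Real.div_rpow hv.le hl.le, Real.div_rpow hv.le hl.le]
        have e3 : v ^ p = v ^ (p - 1) * v := pw1 hv
        have h3 : 0 < v ^ (p - 1) := Real.rpow_pos_of_pos hv _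
        rw [e3, e0, e1]
        field_simp
        ring
      · have hvl : v1 ≤ v / l := by rw [le_div_iff₀ hl, mul_comm]; exact not_lt.1 h
        have h1 := hin1 (s / l) (v / l) hvl (div_le_div_of_nonneg_right hs hl.le)
        have h2 := mul_le_mul_of_nonneg_left h1 hlp.le
        rw [sc φ hl hv] at h2
        refine le_trans (le_of_eq ?_) h2
        rw [e0, e1]
        field_simp
        ring

end Pool.Agent.R222.GH.Pri
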