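import Pool.Agent.R222.GH.Stm

/-! # The special rank-one line through `(K0, 1)` -/

set_option autoImplicit false

namespace Pool.Agent.R222.GH.Spc

open MeasureTheory Set Filter Topology Pool.Agent.R222.GH

theorem main : S_SPC := by
  intro p φ K0 a s1 v1 hR ha hK0 hv1 hs1 hopp
  have hv0 : (0 : ℝ) < 1 := one_pos
  obtain ⟨H, hH, hH2, hH1⟩ := seg_ex (s0 := K0) (v0 := 1) hv0 hK0 hv1 hs1 hopp
  set F : ℂ × ℂ := ((((K0 + 1) / 2 : ℝ) : ℂ), (((K0 - 1) / 2 : ℝ) : ℂ)) with hF
  have n1 : ‖F.1‖ = (K0 + 1) / 2 := by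
    simp only [hF]
    rw [Complex.norm_real, Real.norm_of_nonneg (by linarith)]
  have n2 : ‖F.2‖ = (K0 - 1) / 2 := by
    simp only [hF]
    rw [Complex.norm_real, Real.norm_of_nonneg (by linarith)]
  have hF0 := val_of_norm (F := F) n1 n2
  have hFH1 : ‖(F + H).1‖ = (s1 + v1) / 2 := hH1
  have hFt2 : ∀ t : ℝ, (F + t • H).2
      = (((K0 - 1) / 2 + t * ((s1 - v1) / 2 - (K0 - 1) / 2) : ℝ) : ℂ) := by
    intro t
    simp only [Prod.snd_add, Prod.smul_snd, hH2, Complex.real_smul, hF]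
    push_cast
    ring
  have hYn : ∀ t : ℝ, 0 ≤ t → t ≤ 1 →
      0 ≤ (K0 - 1) / 2 + t * ((s1 - v1) / 2 - (K0 - 1) / 2) := by
    intro t h0 h1
    have e : (K0 - 1) / 2 + t * ((s1 - v1) / 2 - (K0 - 1) / 2)
        = (1 - t) * ((K0 - 1) / 2) + t * ((s1 - v1) / 2) := by ring
    rw [e]
    have := mul_nonneg (sub_nonneg.2 h1) (show 0 ≤ (K0 - 1) / 2 by linarith)
    have := mul_nonneg h0 (show 0 ≤ (s1 - v1) / 2 by linarith)
    linarith
  have hn2 : ∀ t : ℝ, 0 ≤ t → t ≤ 1 → ‖(F + t • H).2‖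
      = (K0 - 1) / 2 + t * ((s1 - v1) / 2 - (K0 - 1) / 2) := by
    intro t h0 h1
    rw [hFt2, Complex.norm_real, Real.norm_of_nonneg (hYn t h0 h1)]
  have hFH2 : ‖(F + H).2‖ = (s1 - v1) / 2 := by
    have := hn2 1 zero_le_one le_rfl
    rw [one_smul] at this
    rw [this]; ring
  have hF1 := val_of_norm (F := F + H) hFH1 hFH2
  have hs1p : 0 < s1 := by linarith
  have hPF : Pos F := by rw [Dt_pos, hF0.2]; linarith
  have hPFH : Pos (F + H) := by rw [Dt_pos, hF1.2]; positivity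
  -- the tangent curve
  set x0 := (K0 + 1) / 2 with hx0
  set y0 := (K0 - 1) / 2 with hy0
  set d := (s1 - v1) / 2 - y0 with hd
  have hx0p : 0 < x0 := by rw [hx0]; linarith
  set g : ℝ → ℝ := fun t => (1 - t) * (K0 * 1) + t * (s1 * v1) + (y0 + t * d) ^ 2 with hg
  set X : ℝ → ℝ := fun t => Real.sqrt (g t) with hX
  set Y : ℝ → ℝ := fun t => y0 + t * d with hY
  have hg0 : g 0 = x0 ^ 2 := by simp only [hg, hx0, hy0]; ring
  have hX0 : X 0 = x0 := by simp only [hX]; rw [hg0, Real.sqrt_sq hx0p.le]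
  have hY0 : Y 0 = y0 := by simp only [hY]; ring
  set b := φ K0 - a * K0 with hb
  set T : ℝ → ℝ := fun t => a * ((X t + Y t) * (X t - Y t) ^ (p - 1))
    + b * (X t - Y t) ^ p with hT
  have hxy : x0 - y0 = 1 := by rw [hx0, hy0]; ring
  have hxy' : x0 + y0 = K0 := by rw [hx0, hy0]; ring
  have hT0 : T 0 = φ K0 := by
    simp only [hT]
    rw [hX0, hY0, hxy, hxy', Real.one_rpow, Real.one_rpow, hb]
    ring
  -- the norms along the segment
  have hDtt : ∀ t : ℝ, Dt (F + t • H) = (1 - t) * (K0 * 1) + t * (s1 * v1) := by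
    intro t
    rw [Dt_line F H hH, hF0.2, hF1.2]
  have hn1 : ∀ t : ℝ, 0 ≤ t → t ≤ 1 → ‖(F + t • H).1‖ = X t := by
    intro t h0 h1
    have h2 := hDtt t
    unfold Dt at h2
    rw [hn2 t h0 h1] at h2
    simp only [hX, hg]
    rw [← h2]
    symm
    rw [Real.sqrt_eq_iff_mul_self_eq (by nlinarith [sq_nonneg ‖(F + t • H).1‖]) (norm_nonneg _)]
    ring
  have hlow : ∀ t : ℝ, 0 ≤ t → t ≤ 1 → T t ≤ iso (hw p φ) (F + t • H) := by
    intro t h0 h1
    have hD : 0 < Dt (F + t • H) := by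
      rw [hDtt]
      rcases eq_or_lt_of_le h0 with h3 | h3
      · rw [← h3]
        linarith
      · have := mul_pos h3 (mul_pos hs1p hv1)
        have := mul_nonneg (sub_nonneg.2 h1) (show 0 ≤ K0 * 1 by linarith)
        linarith
    have hP := Dt_pos.2 hD
    have hP' : ‖(F + t • H).2‖ < ‖(F + t • H).1‖ := hP
    unfold iso hw
    rw [hn1 t h0 h1, hn2 t h0 h1] at *
    have hvp : 0 < X t - Y t := by
      have e : Y t = y0 + t * d := rfl
      rw [e]
      linarith
    have hYp : 0 ≤ Y t := hYn t h0 h1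
    have hK : 1 ≤ (X t + Y t) / (X t - Y t) := by
      rw [le_div_iff₀ hvp]; linarith
    have h2 := ha _ hK
    have h3 : 0 < (X t - Y t) ^ p := Real.rpow_pos_of_pos hvp p
    have h4 := mul_le_mul_of_nonneg_left h2 h3.le
    have h5 : (X t + Y t) * (X t - Y t) ^ (p - 1)
        = (X t - Y t) ^ p * ((X t + Y t) / (X t - Y t)) := by
      rw [Real.rpow_sub_one hvp.ne']
      ring
    have h6 : T t = (X t - Y t) ^ p * (φ K0 + a * ((X t + Y t) / (X t - Y t) - K0)) := by
      simp only [hT]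
      rw [h5, hb]
      ring
    rw [h6]
    exact h4
  -- the derivative
  have hgd : HasDerivAt g (s1 * v1 - K0 * 1 + 2 * y0 * d) 0 := by
    have h1 : HasDerivAt (fun t : ℝ => (1 - t) * (K0 * 1)) (-(K0 * 1)) 0 := by
      have := ((hasDerivAt_id (0 : ℝ)).const_sub 1).mul_const (K0 * 1)
      exact this.congr_deriv (by ring)
    have h2 : HasDerivAt (fun t : ℝ => t * (s1 * v1)) (s1 * v1) 0 := by
      have := (hasDerivAt_id (0 : ℝ)).mul_const (s1 * v1)
      exact this.congr_deriv (by ring)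
    have h3 : HasDerivAt (fun t : ℝ => y0 + t * d) d 0 := by
      have := ((hasDerivAt_id (0 : ℝ)).mul_const d).const_add y0
      exact this.congr_deriv (by ring)
    have h4 := h3.pow 2
    refine ((h1.add h2).add h4).congr_deriv ?_
    norm_num
    ring
  have hXd : HasDerivAt X ((s1 * v1 - K0 * 1 + 2 * y0 * d) / (2 * x0)) 0 := by
    have h1 := hgd.sqrt (by rw [hg0]; positivity)
    rw [hg0, Real.sqrt_sq hx0p.le] at h1
    exact h1
  have hYd : HasDerivAt Y d 0 := by
    have := ((hasDerivAt_id (0 : ℝ)).mul_const d).const_add y0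
    exact this.congr_deriv (by ring)
  set X' := (s1 * v1 - K0 * 1 + 2 * y0 * d) / (2 * x0) with hX'
  have hXY0 : X 0 - Y 0 = 1 := by rw [hX0, hY0, hxy]
  have hXY0' : X 0 + Y 0 = K0 := by rw [hX0, hY0, hxy']
  have hTd : HasDerivAt T (a * ((X' + d) + K0 * ((X' - d) * (p - 1)))
      + b * ((X' - d) * p)) 0 := by
    have h1 := (hXd.add hYd)
    have h2 := (hXd.sub hYd)
    have h2a := h2.rpow_const (p := p - 1) (Or.inl (by
      change X 0 - Y 0 ≠ 0
      rw [hXY0]; exact one_ne_zero))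
    have h2b := h2.rpow_const (p := p) (Or.inl (by
      change X 0 - Y 0 ≠ 0
      rw [hXY0]; exact one_ne_zero))
    have h4 := ((h1.mul h2a).const_mul a).add (h2b.const_mul b)
    refine h4.congr_deriv ?_
    simp only [Pi.add_apply, Pi.sub_apply]
    rw [hXY0, hXY0', Real.one_rpow, Real.one_rpow]
    ring
  have hfin := deriv_nonneg' (Φ := fun t => t * (iso (hw p φ) (F + H)
      - iso (hw p φ) F) - (T t - T 0))
    (((hasDerivAt_id (0 : ℝ)).mul_const _).sub (hTd.sub_const (T 0))) (by simp) (by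
      filter_upwards [Ioc_mem_nhdsGT (zero_lt_one' ℝ)] with t ht
      have h1 := hlow t ht.1.le ht.2
      have h2 := hR F H hH hPF hPFH t ht.1.le ht.2
      have h3 : T 0 = iso (hw p φ) F := by
        rw [hT0]
        unfold iso hw
        rw [n1, n2, hxy, hxy', Real.one_rpow, div_one, one_mul]
      rw [h3]
      linarith)
  have hw0 : iso (hw p φ) F = φ K0 := by
    unfold iso hw
    rw [n1, n2, hxy, hxy', Real.one_rpow, div_one, one_mul]
  have hw1 : iso (hw p φ) (F + H) = hw p φ s1 v1 := by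
    unfold iso
    rw [hFH1, hFH2]
    congr 1 <;> ring
  rw [hw0, hw1] at hfin
  have halg : a * ((X' + d) + K0 * ((X' - d) * (p - 1))) + b * ((X' - d) * p)
      = (2 * K0 * a - p * φ K0) / (K0 + 1) * ((s1 - v1) - (K0 - 1))
        + (a + p * φ K0 - K0 * a) / (K0 + 1) * (s1 * v1 - K0) := by
    have hsv : K0 + 1 ≠ 0 := by linarith
    rw [hX', hd, hx0, hy0, hb]
    field_simp
    ring
  linarith

end Pool.Agent.R222.GH.Spc
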