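import Pool.Agent.R222.GH.Stm

/-! # The splitting `f = c z^q + convex` -/

set_option autoImplicit false

namespace Pool.Agent.R222.GH.Spl

open MeasureTheory Set Filter Topology
open Pool.Agent.R222.GH

theorem sv_eq (F : ℂ × ℂ) : (‖F.1‖ + ‖F.2‖) * (‖F.1‖ - ‖F.2‖) = Dt F := by
  unfold Dt; ring

theorem iso_gw (q : ℝ) (g : ℝ → ℝ) (F : ℂ × ℂ) : iso (gw q g) F = Dt F ^ q * g (Rt F) := by
  unfold iso gw
  rw [sv_eq]
  rfl

theorem iso_ew (q : ℝ) (g f : ℝ → ℝ) (F : ℂ × ℂ) :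
    iso (ew q g f) F = Dt F ^ q * g (Rt F) + f (Dt F) := by
  unfold iso ew
  rw [sv_eq]
  rfl

theorem cont_gw {q : ℝ} {g : ℝ → ℝ} (hg : ContinuousOn g (Ici 1)) :
    ContinuousOn (iso (gw q g)) {F | Pos F} := by
  have h1 : ContinuousOn Rt {F | Pos F} := by
    unfold Rt
    apply ContinuousOn.div
    · exact Continuous.continuousOn (by fun_prop)
    · exact Continuous.continuousOn (by fun_prop)
    · intro F hF
      have hF' : ‖F.2‖ < ‖F.1‖ := hF
      linarith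
  have h2 : ContinuousOn Dt {F | Pos F} := by
    unfold Dt
    exact Continuous.continuousOn (by fun_prop)
  have h3 : ContinuousOn (fun F => Dt F ^ q * g (Rt F)) {F | Pos F} :=
    (h2.rpow_const fun F hF => Or.inl (Dt_pos.1 hF).ne').mul
      (hg.comp h1 fun F hF => Rt_ge hF)
  exact h3.congr fun F _ => iso_gw q g F

theorem dich (hC : S_CTG) {q : ℝ} {g f : ℝ → ℝ} (hR : RC (iso (ew q g f))) (c : ℝ) :
    ConvexOn ℝ (Ioi 0) (fun z => f z - c * z ^ q) ∨ RC (iso (gw q (fun K => g K + c))) := by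
  by_cases hcx : ∀ x ∈ Ioi (0 : ℝ), ∀ y ∈ Ioi (0 : ℝ), x < y → ∀ a b : ℝ, 0 < a → 0 < b →
      a + b = 1 → (fun z => f z - c * z ^ q) (a • x + b • y)
        ≤ a • (fun z => f z - c * z ^ q) x + b • (fun z => f z - c * z ^ q) y
  · left
    exact LinearOrder.convexOn_of_lt (convex_Ioi 0) fun x hx y hy hxy a b ha hb hab =>
      hcx x hx y hy hxy a b ha hb hab
  right
  push Not at hcx
  obtain ⟨x, hx, y, hy, hxy, a, b, ha, hb, hab, hlt⟩ := hcx
  have hx0 : (0 : ℝ) < x := hx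
  simp only [smul_eq_mul] at hlt
  obtain ⟨g0, hg0⟩ : ∃ g0 : ℝ → ℝ, ∀ z, g0 z = f z - c * z ^ q := ⟨_, fun _ => rfl⟩
  have hlt' : a * g0 x + b * g0 y < g0 (a * x + b * y) := by
    rw [hg0, hg0, hg0]; exact hlt
  -- the chord
  obtain ⟨k, hk⟩ : ∃ k : ℝ, k = (g0 y - g0 x) / (y - x) := ⟨_, rfl⟩
  have hky : k * (y - x) = g0 y - g0 x := by
    rw [hk]; exact div_mul_cancel₀ _ (by linarith)
  obtain ⟨φ, hφ⟩ : ∃ φ : ℝ → ℝ, ∀ z, φ z = g0 z - (g0 x + k * (z - x)) := ⟨_, fun _ => rfl⟩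
  have hfc := (hC q g f hR).2
  have hgc : ContinuousOn g0 (Ioi 0) := by
    have h1 : ContinuousOn (fun z => f z - c * z ^ q) (Ioi 0) := by
      refine hfc.sub (continuousOn_const.mul ?_)
      exact continuousOn_id.rpow_const fun z hz => Or.inl (ne_of_gt (mem_Ioi.1 hz))
    exact h1.congr fun z _ => hg0 z
  have hIcc : Icc x y ⊆ Ioi 0 := fun z hz => mem_Ioi.2 (hx0.trans_le hz.1)
  have hφc : ContinuousOn φ (Icc x y) := by
    have h1 : ContinuousOn (fun z => g0 z - (g0 x + k * (z - x))) (Icc x y) :=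
      (hgc.mono hIcc).sub (Continuous.continuousOn (by fun_prop))
    exact h1.congr fun z _ => hφ z
  obtain ⟨z, hz, hmax⟩ := isCompact_Icc.exists_isMaxOn (⟨x, ⟨le_rfl, hxy.le⟩⟩ : (Icc x y).Nonempty)
    hφc
  have hφx : φ x = 0 := by rw [hφ]; ring
  have hφy : φ y = 0 := by rw [hφ, hky]; ring
  have ha' : a = 1 - b := by linarith
  have hp : a * x + b * y ∈ Icc x y := by
    rw [ha']
    constructor <;> nlinarith
  have hφp : 0 < φ (a * x + b * y) := by
    rw [hφ]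
    have e : k * (a * x + b * y - x) = b * (g0 y - g0 x) := by
      rw [← hky, ha']; ring
    rw [e]
    rw [ha'] at hlt' ⊢
    linarith
  have hφz : 0 < φ z := hφp.trans_le (hmax hp)
  have hzx : x < z := by
    rcases eq_or_lt_of_le hz.1 with h1 | h1
    · rw [← h1, hφx] at hφz; exact absurd hφz (lt_irrefl 0)
    · exact h1
  have hzy : z < y := by
    rcases eq_or_lt_of_le hz.2 with h1 | h1
    · rw [h1, hφy] at hφz; exact absurd hφz (lt_irrefl 0)
    · exact h1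
  have hz0 : 0 < z := hx0.trans hzx
  obtain ⟨ρ0, hρ0, hρ1, hρx, hρy⟩ : ∃ ρ0 : ℝ, 0 < ρ0 ∧ ρ0 < 1 ∧ x ≤ z * (1 - ρ0) ∧
      z * (1 + ρ0) ≤ y := by
    refine ⟨min ((z - x) / z) ((y - z) / z), lt_min (div_pos (by linarith) hz0)
      (div_pos (by linarith) hz0), ?_, ?_, ?_⟩
    · refine (min_le_left _ _).trans_lt ?_
      rw [div_lt_one hz0]; linarith
    · have := mul_le_mul_of_nonneg_left (min_le_left ((z - x) / z) ((y - z) / z)) hz0.le
      rw [mul_div_cancel₀ _ hz0.ne'] at this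
      linarith
    · have := mul_le_mul_of_nonneg_left (min_le_right ((z - x) / z) ((y - z) / z)) hz0.le
      rw [mul_div_cancel₀ _ hz0.ne'] at this
      linarith
  have key : ∀ ρ : ℝ, |ρ| ≤ ρ0 → g0 (z * (1 - ρ)) + g0 (z * (1 + ρ)) ≤ 2 * g0 z := by
    intro ρ hρ
    rw [abs_le] at hρ
    have h1 : z * (1 - ρ) ∈ Icc x y := by constructor <;> nlinarith
    have h2 : z * (1 + ρ) ∈ Icc x y := by constructor <;> nlinarith
    have h3 : φ (z * (1 - ρ)) ≤ φ z := hmax h1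
    have h4 : φ (z * (1 + ρ)) ≤ φ z := hmax h2
    rw [hφ, hφ] at h3 h4
    linarith
  -- rank-one convexity
  intro F H hH hF hFH t ht0 ht1
  have hPos : ∀ τ ∈ Icc (0 : ℝ) 1, Pos (F + τ • H) := by
    intro τ hτ
    rw [Dt_pos, Dt_line F H hH]
    have h1 := Dt_pos.1 (show Pos F from hF)
    have h2 := Dt_pos.1 (show Pos (F + H) from hFH)
    rcases eq_or_lt_of_le hτ.1 with h3 | h3
    · rw [← h3]; linarith
    · have := mul_pos h3 h2
      have := mul_nonneg (sub_nonneg.2 hτ.2) h1.le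
      linarith
  obtain ⟨w, hw⟩ : ∃ w : ℂ × ℂ → ℝ, w = iso (gw q (fun K => g K + c)) := ⟨_, rfl⟩
  rw [← hw]
  have hwc : ContinuousOn w {F | Pos F} := by
    rw [hw]
    exact cont_gw ((hC q g f hR).1.add continuousOn_const)
  have hmp := max_princ (ψ := fun τ => w (F + τ • H) - ((1 - τ) * w F + τ * w (F + H))) ?_ ?_ ?_ ?_
    t ⟨ht0, ht1⟩
  · linarith
  · refine ContinuousOn.sub ?_ (Continuous.continuousOn (by fun_prop))
    exact hwc.comp (Continuous.continuousOn (by fun_prop)) hPos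
  · simp
  · simp
  · intro τ hτ0 hτ1
    have hτm : τ ∈ Icc (0 : ℝ) 1 := ⟨hτ0.le, hτ1.le⟩
    have hDτ := Dt_pos.1 (hPos τ hτm)
    obtain ⟨D, hD⟩ : ∃ D, D = Dt (F + τ • H) := ⟨_, rfl⟩
    obtain ⟨D', hD'⟩ : ∃ D', D' = Dt (F + H) - Dt F := ⟨_, rfl⟩
    rw [← hD] at hDτ
    obtain ⟨r, hr⟩ : ∃ r, r = min (min τ (1 - τ)) (ρ0 * D / (|D'| + 1)) := ⟨_, rfl⟩
    have hr0 : 0 < r := by
      rw [hr]; exact lt_min (lt_min hτ0 (by linarith)) (by positivity)
    have hr1 : r ≤ τ := by rw [hr]; exact (min_le_left _ _).trans (min_le_left _ _)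
    have hr2 : r ≤ 1 - τ := by rw [hr]; exact (min_le_left _ _).trans (min_le_right _ _)
    have hr3 : r ≤ ρ0 * D / (|D'| + 1) := by rw [hr]; exact min_le_right _ _
    have hr4 : r * (|D'| + 1) ≤ ρ0 * D := by
      rw [le_div_iff₀ (by positivity)] at hr3; exact hr3
    refine ⟨r, hr0, by linarith, by linarith, ?_⟩
    obtain ⟨ρ, hρ⟩ : ∃ ρ, ρ = r * D' / D := ⟨_, rfl⟩
    have hρa : |ρ| ≤ ρ0 := by
      rw [hρ, abs_div, abs_mul, abs_of_pos hDτ, abs_of_pos hr0, div_le_iff₀ hDτ]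
      have := abs_nonneg D'
      linarith
    have hρD : ρ * D = r * D' := by rw [hρ]; exact div_mul_cancel₀ _ hDτ.ne'
    have hm1 : τ - r ∈ Icc (0 : ℝ) 1 := ⟨by linarith, by linarith⟩
    have hm2 : τ + r ∈ Icc (0 : ℝ) 1 := ⟨by linarith, by linarith⟩
    have hDm : Dt (F + (τ - r) • H) = D * (1 - ρ) := by
      have : D * (1 - ρ) = D - r * D' := by rw [← hρD]; ring
      rw [this, hD, Dt_line F H hH, Dt_line F H hH, hD']; ring
    have hDp : Dt (F + (τ + r) • H) = D * (1 + ρ) := by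
      have : D * (1 + ρ) = D + r * D' := by rw [← hρD]; ring
      rw [this, hD, Dt_line F H hH, Dt_line F H hH, hD']; ring
    -- scaling
    obtain ⟨l, hl⟩ : ∃ l, l = Real.sqrt (z / D) := ⟨_, rfl⟩
    have hl0 : 0 < l := by rw [hl]; exact Real.sqrt_pos.2 (div_pos hz0 hDτ)
    have hl2 : l ^ 2 = z / D := by rw [hl]; exact Real.sq_sqrt (div_pos hz0 hDτ).le
    have hl3 : l ^ 2 * D = z := by rw [hl2]; exact div_mul_cancel₀ _ hDτ.ne'
    have e1 : l • (F + τ • H) - (l * r) • H = l • (F + (τ - r) • H) := by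
      simp only [smul_add, sub_smul, smul_sub, smul_smul]
      abel
    have e2 : l • (F + τ • H) + (l * r) • H = l • (F + (τ + r) • H) := by
      simp only [smul_add, add_smul, smul_smul]
      abel
    have hmid := mid hR (F := l • (F + τ • H)) (H := (l * r) • H)
      (by simp only [Prod.smul_fst, Prod.smul_snd, norm_smul, hH])
      (by rw [e1]; exact Pos_smul hl0 (hPos _ hm1)) (by rw [e2]; exact Pos_smul hl0 (hPos _ hm2))
    rw [e1, e2] at hmid
    rw [iso_ew, iso_ew, iso_ew, Rt_smul hl0, Rt_smul hl0, Rt_smul hl0, Dt_smul, Dt_smul, Dt_smul,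
      hDm, hDp, ← hD, ← mul_assoc, ← mul_assoc, hl3] at hmid
    have hkey := key ρ hρa
    rw [hg0, hg0, hg0] at hkey
    rw [abs_le] at hρa
    have hρm : (0 : ℝ) < 1 - ρ := by linarith
    have hρp : (0 : ℝ) < 1 + ρ := by linarith
    rw [Real.mul_rpow hz0.le hρm.le, Real.mul_rpow hz0.le hρp.le] at hkey hmid
    show 2 * (w (F + τ • H) - ((1 - τ) * w F + τ * w (F + H))) ≤
      (w (F + (τ - r) • H) - ((1 - (τ - r)) * w F + (τ - r) * w (F + H))) +
      (w (F + (τ + r) • H) - ((1 - (τ + r)) * w F + (τ + r) * w (F + H)))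
    have hmain : 2 * w (F + τ • H) ≤ w (F + (τ - r) • H) + w (F + (τ + r) • H) := by
      rw [hw, iso_gw, iso_gw, iso_gw, hDm, hDp, ← hD, Real.mul_rpow hDτ.le hρm.le,
        Real.mul_rpow hDτ.le hρp.le]
      have hzq : 0 < z ^ q := Real.rpow_pos_of_pos hz0 q
      have hDq : 0 < D ^ q := Real.rpow_pos_of_pos hDτ q
      have h1 : z ^ q * (2 * (g (Rt (F + τ • H)) + c)) ≤
          z ^ q * ((1 - ρ) ^ q * (g (Rt (F + (τ - r) • H)) + c) +
            (1 + ρ) ^ q * (g (Rt (F + (τ + r) • H)) + c)) := by linarith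
      have h2 := le_of_mul_le_mul_left h1 hzq
      have h3 := mul_le_mul_of_nonneg_left h2 hDq.le
      linarith
    linarith

theorem gap {q : ℝ} (h0 : q ≠ 0) (h1 : q ≠ 1) : (1 : ℝ) + 3 ^ q - 2 * 2 ^ q ≠ 0 := by
  have e : (1 / 2 : ℝ) • (1 : ℝ) + (1 / 2 : ℝ) • (3 : ℝ) = 2 := by norm_num
  rcases lt_or_gt_of_ne h0 with hq | hq
  · have h4 : (4 : ℝ) ^ q < 3 ^ q := Real.rpow_lt_rpow_of_neg (by norm_num) (by norm_num) hq
    have h5 : (4 : ℝ) ^ q = 2 ^ q * 2 ^ q := by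
      rw [← Real.mul_rpow (by norm_num) (by norm_num)]; norm_num
    intro h6
    have h7 : (3 : ℝ) ^ q = 2 * 2 ^ q - 1 := by linarith
    rw [h5, h7] at h4
    nlinarith [sq_nonneg ((2 : ℝ) ^ q - 1)]
  · rcases lt_or_gt_of_ne h1 with hq1 | hq1
    · have h := (Real.strictConcaveOn_rpow hq hq1).2 (show (1 : ℝ) ∈ Ici 0 by norm_num)
        (show (3 : ℝ) ∈ Ici 0 by norm_num) (by norm_num) (show (0 : ℝ) < 1 / 2 by norm_num)
        (show (0 : ℝ) < 1 / 2 by norm_num) (by norm_num)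
      rw [e] at h
      simp only [Real.one_rpow, smul_eq_mul] at h
      intro h6
      linarith
    · have h := (strictConvexOn_rpow hq1).2 (show (1 : ℝ) ∈ Ici 0 by norm_num)
        (show (3 : ℝ) ∈ Ici 0 by norm_num) (by norm_num) (show (0 : ℝ) < 1 / 2 by norm_num)
        (show (0 : ℝ) < 1 / 2 by norm_num) (by norm_num)
      rw [e] at h
      simp only [Real.one_rpow, smul_eq_mul] at h
      intro h6
      linarith

theorem no_lin {A κ : ℝ} (hκ : κ ≠ 0) (h : ∀ c : ℝ, 0 ≤ A + κ * c) : False := by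
  have := h (-(A + 1) / κ)
  rw [mul_div_cancel₀ _ hκ] at this
  linarith

theorem main (hC : S_CTG) : S_SPL := by
  intro q g f hq0 hq1 hR
  have hgap := gap hq0 hq1
  obtain ⟨S, hS⟩ : ∃ S : Set ℝ, S = {c | ConvexOn ℝ (Ioi 0) (fun z => f z - c * z ^ q)} :=
    ⟨_, rfl⟩
  obtain ⟨R, hRR⟩ : ∃ R : Set ℝ, R = {c | RC (iso (gw q (fun K => g K + c)))} := ⟨_, rfl⟩
  have hcov : (univ : Set ℝ) ⊆ S ∪ R := by
    intro c _
    rcases dich hC hR c with h | h
    · left; rw [hS]; exact h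
    · right; rw [hRR]; exact h
  have hSc : IsClosed S := by
    have h1 : S = ⋂ x ∈ Ioi (0 : ℝ), ⋂ y ∈ Ioi (0 : ℝ), ⋂ a : ℝ, ⋂ b : ℝ, ⋂ _ : 0 ≤ a, ⋂ _ : 0 ≤ b,
        ⋂ _ : a + b = 1, {c : ℝ | f (a • x + b • y) - c * (a • x + b • y) ^ q
        ≤ a • (f x - c * x ^ q) + b • (f y - c * y ^ q)} := by
      ext c
      rw [hS]
      simp only [mem_iInter, mem_ofPred_eq]
      constructor
      · intro h x hx y hy a b ha hb hab
        exact h.2 hx hy ha hb hab
      · intro h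
        exact ⟨convex_Ioi 0, fun x hx y hy a b ha hb hab => h x hx y hy a b ha hb hab⟩
    rw [h1]
    refine isClosed_biInter fun x _ => isClosed_biInter fun y _ => isClosed_iInter fun a =>
      isClosed_iInter fun b => isClosed_iInter fun _ => isClosed_iInter fun _ =>
      isClosed_iInter fun _ => ?_
    simp only [smul_eq_mul]
    exact isClosed_le (by fun_prop) (by fun_prop)
  have hRc : IsClosed R := by
    have h1 : R = ⋂ F : ℂ × ℂ, ⋂ H : ℂ × ℂ, ⋂ _ : ‖H.1‖ = ‖H.2‖, ⋂ _ : ‖F.2‖ < ‖F.1‖,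
        ⋂ _ : ‖(F + H).2‖ < ‖(F + H).1‖, ⋂ t : ℝ, ⋂ _ : 0 ≤ t, ⋂ _ : t ≤ 1,
        {c : ℝ | Dt (F + t • H) ^ q * (g (Rt (F + t • H)) + c) ≤
          (1 - t) * (Dt F ^ q * (g (Rt F) + c)) + t * (Dt (F + H) ^ q * (g (Rt (F + H)) + c))} := by
      ext c
      rw [hRR]
      simp only [mem_iInter, mem_ofPred_eq]
      constructor
      · intro h F H hH hF hFH t ht0 ht1
        have := h F H hH hF hFH t ht0 ht1
        rw [iso_gw, iso_gw, iso_gw] at this
        exact this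
      · intro h F H hH hF hFH t ht0 ht1
        have := h F H hH hF hFH t ht0 ht1
        rw [iso_gw, iso_gw, iso_gw]
        exact this
    rw [h1]
    refine isClosed_iInter fun F => isClosed_iInter fun H => isClosed_iInter fun _ =>
      isClosed_iInter fun _ => isClosed_iInter fun _ => isClosed_iInter fun t =>
      isClosed_iInter fun _ => isClosed_iInter fun _ => ?_
    exact isClosed_le (by fun_prop) (by fun_prop)
  have e : (1 / 2 : ℝ) • (1 : ℝ) + (1 / 2 : ℝ) • (3 : ℝ) = 2 := by norm_num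
  have hSn : S.Nonempty := by
    by_contra hcon
    rw [Set.not_nonempty_iff_eq_empty] at hcon
    refine no_lin (A := g 1 + 3 ^ q * g 3 - 2 * (2 ^ q * g 2)) hgap fun c => ?_
    have hc : RC (iso (gw q (fun K => g K + c))) := by
      rcases hcov (mem_univ c) with h | h
      · rw [hcon] at h; exact absurd h (Set.notMem_empty c)
      · rw [hRR] at h; exact h
    have h1 := (diag_conv hc (v := 1) one_pos).2 (mem_Ici.2 (le_refl (1 : ℝ)))
      (mem_Ici.2 (show (1 : ℝ) ≤ 3 by norm_num)) (show (0 : ℝ) ≤ 1 / 2 by norm_num)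
      (show (0 : ℝ) ≤ 1 / 2 by norm_num) (by norm_num)
    rw [e] at h1
    have d1 := diag_val (s := 1) (v := 1) one_pos le_rfl
    have d2 := diag_val (s := 2) (v := 1) one_pos (by norm_num)
    have d3 := diag_val (s := 3) (v := 1) one_pos (by norm_num)
    simp only [iso_gw] at h1
    rw [d1.2.1, d1.2.2, d2.2.1, d2.2.2, d3.2.1, d3.2.2] at h1
    simp only [div_one, mul_one, Real.one_rpow, one_mul, smul_eq_mul] at h1
    linarith
  have hRn : R.Nonempty := by
    by_contra hcon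
    rw [Set.not_nonempty_iff_eq_empty] at hcon
    refine no_lin (A := f 1 + f 3 - 2 * f 2) (neg_ne_zero.2 hgap) fun c => ?_
    have hc : ConvexOn ℝ (Ioi 0) (fun z => f z - c * z ^ q) := by
      rcases hcov (mem_univ c) with h | h
      · rw [hS] at h; exact h
      · rw [hcon] at h; exact absurd h (Set.notMem_empty c)
    have h1 := hc.2 (mem_Ioi.2 (show (0 : ℝ) < 1 by norm_num))
      (mem_Ioi.2 (show (0 : ℝ) < 3 by norm_num)) (show (0 : ℝ) ≤ 1 / 2 by norm_num)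
      (show (0 : ℝ) ≤ 1 / 2 by norm_num) (by norm_num)
    rw [e] at h1
    simp only [Real.one_rpow, mul_one, smul_eq_mul] at h1
    linarith
  obtain ⟨c, -, hc1, hc2⟩ := isPreconnected_closed_iff.1 (isPreconnected_univ (α := ℝ)) S R hSc hRc
    hcov (by rwa [univ_inter]) (by rwa [univ_inter])
  rw [hS] at hc1
  rw [hRR] at hc2
  exact ⟨c, hc1, hc2⟩

end Pool.Agent.R222.GH.Spl
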