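import Pool.Agent.R222.GH.Mp
import Pool.Agent.R222.GH.Ctg
import Pool.Agent.R222.GH.Spl
import Pool.Agent.R222.GH.Dua
import Pool.Agent.R222.GH.Fct
import Pool.Agent.R222.GH.Spc
import Pool.Agent.R222.GH.Mir
import Pool.Agent.R222.GH.Pri
import Pool.Agent.R222.GH.Mee
import Pool.Agent.R222.GH.Nin
import Pool.Agent.R222.GH.Cor
import Pool.Agent.W360.MQ.Qkb

/-! # Assembly -/

set_option autoImplicit false

namespace Pool.Agent.R222.GH

open MeasureTheory Set Filter Topology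
open Pool.Agent.Y273.VI (Dat Tm T_meas meas_W pt_int pt_bd det_cab RCp)
open Pool.Agent.W360.MQ (cab)
open Pool.Agent.TH937.ZC (gf)
open Pool.Agent.W523.MQ.OM (T)
open Pool.Agent.W978.MQ (G)

theorem cor : S_COR :=
  Cor.main Fct.main Mir.main Mee.main (Nin.main Spc.main Mee.main)

theorem RC_congr {w w' : ℂ × ℂ → ℝ} (h : ∀ F, Pos F → w F = w' F) (hR : RC w) : RC w' := by
  intro F H hH hF hFH t h0 h1
  have hp : Pos (F + t • H) := by
    rw [Dt_pos, Dt_line F H hH]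
    have h2 := Dt_pos.1 (show Pos F from hF)
    have h3 := Dt_pos.1 (show Pos (F + H) from hFH)
    rcases eq_or_lt_of_le h0 with h4 | h4
    · rw [← h4]; linarith
    · have := mul_pos h4 h3
      have := mul_nonneg (sub_nonneg.2 h1) h2.le
      linarith
  rw [← h _ hp, ← h F hF, ← h (F + H) hFH]
  exact hR F H hH hF hFH t h0 h1

theorem sv_pos {F : ℂ × ℂ} (h : Pos F) : 0 < ‖F.1‖ - ‖F.2‖ ∧ ‖F.1‖ - ‖F.2‖ ≤ ‖F.1‖ + ‖F.2‖ := by
  have h' : ‖F.2‖ < ‖F.1‖ := h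
  exact ⟨by linarith, by linarith [norm_nonneg F.2]⟩

theorem sv_Dt (F : ℂ × ℂ) : (‖F.1‖ + ‖F.2‖) * (‖F.1‖ - ‖F.2‖) = Dt F := by unfold Dt; ring

theorem cont_Rt : ContinuousOn Rt {F | Pos F} := by
  unfold Rt
  apply ContinuousOn.div
  · exact Continuous.continuousOn (by fun_prop)
  · exact Continuous.continuousOn (by fun_prop)
  · intro F hF
    have hF' : ‖F.2‖ < ‖F.1‖ := hF
    linarith

theorem cont_ew {q : ℝ} {g f : ℝ → ℝ} (hR : RC (iso (ew q g f))) :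
    ContinuousOn (iso (ew q g f)) {F : ℂ × ℂ | ‖F.2‖ < ‖F.1‖} := by
  obtain ⟨hg, hf⟩ := Ctg.main q g f hR
  have h2 : ContinuousOn Dt {F | Pos F} := Dt_cont.continuousOn
  have h3 : ContinuousOn (fun F => Dt F ^ q * g (Rt F) + f (Dt F)) {F | Pos F} := by
    apply ContinuousOn.add
    · apply ContinuousOn.mul
      · exact h2.rpow_const fun F hF => Or.inl (Dt_pos.1 hF).ne'
      · exact hg.comp cont_Rt fun F hF => Rt_ge hF
    · exact hf.comp h2 fun F hF => Dt_pos.1 hF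
  refine h3.congr fun F _ => ?_
  unfold iso ew
  rw [sv_Dt]
  rfl

theorem gw_hw (q : ℝ) (g : ℝ → ℝ) {s v : ℝ} (hv : 0 < v) (hs : v ≤ s) :
    gw q g s v = hw (2 * q) (fun K => K ^ q * g K) s v := by
  unfold gw hw
  have hs0 : 0 < s := by linarith
  have e : v ^ (2 * q) = v ^ q * v ^ q := by rw [← Real.rpow_add hv]; congr 1; ring
  have h1 : v ^ q ≠ 0 := (Real.rpow_pos_of_pos hv q).ne'
  beta_reduce
  rw [Real.mul_rpow hs0.le hv.le, Real.div_rpow hs0.le hv.le, e]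
  field_simp

/-- the dual energy -/
theorem gw_dual (q : ℝ) (g : ℝ → ℝ) {s v : ℝ} (hv : 0 < v) (hs : v ≤ s) :
    s * v * gw q g (1 / v) (1 / s) = gw (1 - q) g s v := by
  unfold gw
  have hs0 : 0 < s := by linarith
  have e1 : 1 / v * (1 / s) = (s * v)⁻¹ := by field_simp
  have e2 : 1 / v / (1 / s) = s / v := by field_simp
  have hsv : 0 < s * v := by positivity
  rw [e1, e2, Real.inv_rpow hsv.le, Real.rpow_sub hsv, Real.rpow_one]
  field_simp

/-- a support of the homogeneous part gives the Morrey inequality -/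
theorem fin_add {q c : ℝ} {g f : ℝ → ℝ} (hR : RC (iso (ew q g f)))
    (hk : ConvexOn ℝ (Ioi 0) (fun z => f z - c * z ^ q)) {F₀ : Matrix (Fin 2) (Fin 2) ℝ}
    (hF : Pos (cab F₀)) {S : ℂ × ℂ → ℝ} (hS : MP S F₀)
    (hle : ∀ F, Pos F → S F ≤ iso (gw q (fun K => g K + c)) F)
    (heq : S (cab F₀) = iso (gw q (fun K => g K + c)) (cab F₀)) : MP (iso (ew q g f)) F₀ := by
  set z0 : ℝ := Dt (cab F₀) with hz0
  have hz0p : 0 < z0 := Dt_pos.1 hF
  obtain ⟨β, hβ⟩ := sub_grad_on hk isOpen_Ioi (mem_Ioi.2 hz0p)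
  have key : ∀ F, iso (ew q g f) F
      = iso (gw q (fun K => g K + c)) F + (f (Dt F) - c * Dt F ^ q) := by
    intro F
    unfold iso ew gw
    rw [sv_Dt]
    ring
  refine MP_le (MP_add hS β (f z0 - c * z0 ^ q - β * z0)) (cont_ew hR) (fun F hFp => ?_) ?_
  · have h1 := hle F hFp
    have h2 := hβ (Dt F) (mem_Ioi.2 (Dt_pos.1 hFp))
    rw [key]
    beta_reduce at h2 ⊢
    linarith
  · rw [key, heq, ← hz0]
    ring

/-- the case `q ≤ 1 / 2` -/
theorem case_low {q : ℝ} {g f : ℝ → ℝ} (hq : q ≠ 0) (hq1 : q ≤ 1 / 2) (hR : RC (iso (ew q g f)))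
    {F₀ : Matrix (Fin 2) (Fin 2) ℝ} (hF : Pos (cab F₀)) : MP (iso (ew q g f)) F₀ := by
  obtain ⟨c, hk, hRc⟩ := Spl.main Ctg.main q g f hq (by intro h; linarith) hR
  set φ : ℝ → ℝ := fun K => K ^ q * (g K + c) with hφ
  have hgh : ∀ F, Pos F → iso (gw q (fun K => g K + c)) F = iso (hw (2 * q) φ) F := by
    intro F hFp
    exact gw_hw q (fun K => g K + c) (sv_pos hFp).1 (sv_pos hFp).2
  have hRh : RC (iso (hw (2 * q) φ)) := RC_congr hgh hRc
  obtain ⟨hv0, hvs⟩ := sv_pos hF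
  set v0 : ℝ := ‖(cab F₀).1‖ - ‖(cab F₀).2‖ with hv0d
  set s0 : ℝ := ‖(cab F₀).1‖ + ‖(cab F₀).2‖ with hs0d
  have hK0 : 1 ≤ s0 / v0 := by rw [le_div_iff₀ hv0]; linarith
  have hspt := cor (2 * q) φ (by linarith) hRh (s0 / v0) hK0
  obtain ⟨a, b, hcv, ⟨r, hr, hrl, hd⟩, heq, hle⟩ :=
    Pri.main (2 * q) φ (s0 / v0) v0 (by linarith) hK0 hv0 hspt
  have hes : v0 * (s0 / v0) = s0 := by field_simp
  rw [hes] at heq
  refine fin_add hR hk hF (S := gf a b) (MP_dat hcv hr hrl hd) (fun F hFp => ?_) ?_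
  · rw [hgh F hFp]
    exact hle _ _ (sv_pos hFp).1 (sv_pos hFp).2
  · rw [hgh _ hF]
    exact heq

/-- the case `q > 1 / 2`, `q ≠ 1` -/
theorem case_high (hDUL : S_DUL) {q : ℝ} {g f : ℝ → ℝ} (hq : q ≠ 1) (hq1 : 1 / 2 < q)
    (hR : RC (iso (ew q g f))) {F₀ : Matrix (Fin 2) (Fin 2) ℝ} (hF : Pos (cab F₀)) :
    MP (iso (ew q g f)) F₀ := by
  obtain ⟨c, hk, hRc⟩ := Spl.main Ctg.main q g f (by intro h; linarith) hq hR
  set φ : ℝ → ℝ := fun K => K ^ (1 - q) * (g K + c) with hφ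
  have hd1 := Dua.main _ hRc
  have hgh : ∀ F, Pos F → iso (fun s v => s * v * gw q (fun K => g K + c) (1 / v) (1 / s)) F
      = iso (hw (2 * (1 - q)) φ) F := by
    intro F hFp
    unfold iso
    beta_reduce
    rw [gw_dual q _ (sv_pos hFp).1 (sv_pos hFp).2, gw_hw (1 - q) _ (sv_pos hFp).1 (sv_pos hFp).2]
  have hRh : RC (iso (hw (2 * (1 - q)) φ)) := RC_congr hgh hd1
  obtain ⟨hv0, hvs⟩ := sv_pos hF
  set v0 : ℝ := ‖(cab F₀).1‖ - ‖(cab F₀).2‖ with hv0d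
  set s0 : ℝ := ‖(cab F₀).1‖ + ‖(cab F₀).2‖ with hs0d
  have hs0p : 0 < s0 := by linarith
  have hK0 : 1 ≤ s0 / v0 := by rw [le_div_iff₀ hv0]; linarith
  have hspt := cor (2 * (1 - q)) φ (by linarith) hRh (s0 / v0) hK0
  obtain ⟨w, hG, hle, heq⟩ := hDUL (2 * (1 - q)) φ (s0 / v0) (1 / s0) (by linarith) hK0
    (by positivity) hspt
  -- the double dual
  have hdd : ∀ F, Pos F → iso (fun s v => s * v * hw (2 * (1 - q)) φ (1 / v) (1 / s)) F
      = iso (gw q (fun K => g K + c)) F := by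
    intro F hFp
    unfold iso
    beta_reduce
    obtain ⟨h1, h2⟩ := sv_pos hFp
    have h3 : 0 < ‖F.1‖ + ‖F.2‖ := by linarith
    rw [← gw_hw (1 - q) (fun K => g K + c) (show 0 < 1 / (‖F.1‖ + ‖F.2‖) by positivity)
      (one_div_le_one_div_of_le h1 h2), gw_dual (1 - q) _ h1 h2]
    congr 1
    ring
  refine fin_add hR hk hF (S := w) (MP_G hG F₀) (fun F hFp => ?_) ?_
  · rw [← hdd F hFp]
    exact hle F hFp
  · rw [← hdd _ hF]
    apply heq
    · rw [one_div_one_div]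
    · rw [← hv0d]
      field_simp

/-- the case `q = 1` -/
theorem case_one (hL : S_RCL) (hP : S_SPE) {g f : ℝ → ℝ}
    (hR : RC (iso (ew 1 g f))) {F₀ : Matrix (Fin 2) (Fin 2) ℝ} (hF : Pos (cab F₀)) :
    MP (iso (ew 1 g f)) F₀ := by
  have hd1 := Dua.main _ hR
  set f' : ℝ → ℝ := fun z => z * f (1 / z) with hf'
  have hgh : ∀ F, Pos F → iso (fun s v => s * v * ew 1 g f (1 / v) (1 / s)) F
      = Pool.Agent.R222.VI.wv g f' F := by
    intro F hFp
    rw [Pool.Agent.R222.VI.wv_sv]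
    unfold iso ew
    obtain ⟨h1, h2⟩ := sv_pos hFp
    set s := ‖F.1‖ + ‖F.2‖ with hs
    set v := ‖F.1‖ - ‖F.2‖ with hv
    have hs0 : 0 < s := by linarith
    have e1 : 1 / v * (1 / s) = 1 / (s * v) := by field_simp
    have e2 : 1 / v / (1 / s) = s / v := by field_simp
    beta_reduce
    rw [e1, e2, Real.rpow_one]
    simp only [hf']
    field_simp
  have hRv : RCp (Pool.Agent.R222.VI.wv g f') := RC_congr hgh hd1
  obtain ⟨c, hk, hRc⟩ := Pool.Agent.R222.VI.split hRv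
  obtain ⟨hv0, hvs⟩ := sv_pos hF
  set v0 : ℝ := ‖(cab F₀).1‖ - ‖(cab F₀).2‖ with hv0d
  set s0 : ℝ := ‖(cab F₀).1‖ + ‖(cab F₀).2‖ with hs0d
  have hs0p : 0 < s0 := by linarith
  have hz0 : s0 * v0 = Dt (cab F₀) := sv_Dt _
  set z0 : ℝ := Dt (cab F₀) with hz0d
  have hz0p : 0 < z0 := Dt_pos.1 hF
  have hspt := hP g c (1 / v0) (1 / s0) hRc (by positivity) (one_div_le_one_div_of_le hv0 hvs)
  obtain ⟨β, hβ⟩ := sub_grad_on hk isOpen_Ioi (mem_Ioi.2 (show 0 < 1 / z0 by positivity))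
  beta_reduce at hβ
  -- the supports of the homogeneous part
  have key : ∀ S : ℂ × ℂ → ℝ, MP S F₀ →
      (∀ F, Pos F → S F ≤ Dt F * (g (Rt F) + c * Real.log (1 / Dt F))) →
      S (cab F₀) = z0 * (g (Rt (cab F₀)) + c * Real.log (1 / z0)) → MP (iso (ew 1 g f)) F₀ := by
    intro S hS h1 h2
    have hval : ∀ F, Pos F → iso (ew 1 g f) F = Dt F * (g (Rt F) + c * Real.log (1 / Dt F))
        + Dt F * (f' (1 / Dt F) - c * Real.log (1 / Dt F)) := by
      intro F hFp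
      have hD := Dt_pos.1 hFp
      unfold iso ew
      rw [sv_Dt, Real.rpow_one]
      simp only [hf', one_div_one_div]
      unfold Rt
      field_simp
      ring
    refine MP_le (MP_add hS (f' (1 / z0) - c * Real.log (1 / z0) - β * (1 / z0)) β) (cont_ew hR)
      (fun F hFp => ?_) ?_
    · have hD := Dt_pos.1 hFp
      have h3 := hβ (1 / Dt F) (mem_Ioi.2 (by positivity))
      have h4 := mul_le_mul_of_nonneg_left h3 hD.le
      have h5 := h1 F hFp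
      rw [hval F hFp]
      refine le_trans (le_of_eq ?_) (add_le_add h5 h4)
      field_simp
      ring
    · rw [hval _ hF, h2]
      simp only [← hz0d]
      field_simp
      ring
  rcases hspt with ⟨a, γ, hac, hle, heq⟩ | ⟨A, C, D, hA, hle, heq⟩
  · -- the first kind
    have hrc := hL a c γ hac
    have hG : G (Pool.Agent.W360.MQ.wf (fun s => a * s ^ 2) (fun s => γ - 2 * c * Real.log s)) :=
      ⟨Pool.Agent.W215.MQ.Cont.main _ _ hrc, Pool.Agent.W360.MQ.Fin.qa _ _ hrc⟩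
    have hlog : ∀ s v : ℝ, 0 < v → v ≤ s → a * s ^ 2 + (γ - 2 * c * Real.log s) * (s * v)
        = s * v * (a * (1 / v / (1 / s)) + 2 * c * Real.log (1 / s) + γ) := by
      intro s v hv hs
      have hs0 : 0 < s := by linarith
      rw [one_div s, Real.log_inv]
      field_simp
      ring
    refine key _ (MP_G hG F₀) (fun F hFp => ?_) ?_
    · obtain ⟨h1, h2⟩ := sv_pos hFp
      unfold Pool.Agent.W360.MQ.wf
      have h3 : ‖F.1‖ ^ 2 - ‖F.2‖ ^ 2 = (‖F.1‖ + ‖F.2‖) * (‖F.1‖ - ‖F.2‖) := by ring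
      rw [h3]
      simp only
      rw [hlog _ _ h1 h2]
      have hs0 : 0 < ‖F.1‖ + ‖F.2‖ := by linarith
      have h4 := hle (1 / (‖F.1‖ - ‖F.2‖)) (1 / (‖F.1‖ + ‖F.2‖)) (by positivity)
        (one_div_le_one_div_of_le h1 h2)
      have h5 := mul_le_mul_of_nonneg_left h4 (mul_pos hs0 h1).le
      refine h5.trans (le_of_eq ?_)
      have e1 : 1 / (‖F.1‖ - ‖F.2‖) * (1 / (‖F.1‖ + ‖F.2‖)) = 1 / Dt F := by
        rw [← sv_Dt]; field_simp
      have e2 : 1 / (‖F.1‖ - ‖F.2‖) / (1 / (‖F.1‖ + ‖F.2‖)) = Rt F := by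
        unfold Rt; field_simp
      rw [e1, e2, sv_Dt]
    · unfold Pool.Agent.W360.MQ.wf
      have h3 : ‖(cab F₀).1‖ ^ 2 - ‖(cab F₀).2‖ ^ 2 = s0 * v0 := by rw [hs0d, hv0d]; ring
      rw [h3, ← hs0d]
      simp only
      rw [hlog _ _ hv0 hvs, heq]
      have e1 : 1 / v0 * (1 / s0) = 1 / z0 := by rw [← hz0]; field_simp
      have e2 : 1 / v0 / (1 / s0) = Rt (cab F₀) := by
        unfold Rt; rw [← hs0d, ← hv0d]; field_simp
      rw [e1, e2, hz0]
  · -- the second kind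
    have hG : G (fun F : ℂ × ℂ => C + (2 * A) * ‖F.2‖ + D * Dt F) := by
      have g0 : G (fun _ : ℂ × ℂ => C) :=
        ⟨continuous_const, Pool.Agent.W465.MQ.CVX.main _ (convexOn_const C convex_univ)
          continuous_const⟩
      have c2 : Continuous (fun F : ℂ × ℂ => ‖F.2‖) := continuous_snd.norm
      have g1 : G (fun F : ℂ × ℂ => ‖F.2‖) :=
        ⟨c2, Pool.Agent.W465.MQ.CVX.main _ Pool.Agent.W978.MQ.cvx2 c2⟩
      exact (g0.add (g1.smul (show 0 ≤ 2 * A by linarith))).add (Dt_G D)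
    have hval : ∀ s v : ℝ, 0 < v → v ≤ s → C + (2 * A) * ((s - v) / 2) + D * (s * v)
        = s * v * (A * (1 / v - 1 / s) + C * (1 / v * (1 / s)) + D) := by
      intro s v hv hs
      have hs0 : 0 < s := by linarith
      field_simp
      ring
    refine key _ (MP_G hG F₀) (fun F hFp => ?_) ?_
    · obtain ⟨h1, h2⟩ := sv_pos hFp
      have e0 : ‖F.2‖ = ((‖F.1‖ + ‖F.2‖) - (‖F.1‖ - ‖F.2‖)) / 2 := by ring
      have e3 : C + 2 * A * ‖F.2‖ + D * Dt F = C + (2 * A) * (((‖F.1‖ + ‖F.2‖)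
          - (‖F.1‖ - ‖F.2‖)) / 2) + D * ((‖F.1‖ + ‖F.2‖) * (‖F.1‖ - ‖F.2‖)) := by
        rw [sv_Dt, ← e0]
      rw [e3, hval _ _ h1 h2]
      have hs0 : 0 < ‖F.1‖ + ‖F.2‖ := by linarith
      have h4 := hle (1 / (‖F.1‖ - ‖F.2‖)) (1 / (‖F.1‖ + ‖F.2‖)) (by positivity)
        (one_div_le_one_div_of_le h1 h2)
      have h5 := mul_le_mul_of_nonneg_left h4 (mul_pos hs0 h1).le
      refine h5.trans (le_of_eq ?_)
      have e1 : 1 / (‖F.1‖ - ‖F.2‖) * (1 / (‖F.1‖ + ‖F.2‖)) = 1 / Dt F := by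
        rw [← sv_Dt]; field_simp
      have e2 : 1 / (‖F.1‖ - ‖F.2‖) / (1 / (‖F.1‖ + ‖F.2‖)) = Rt F := by
        unfold Rt; field_simp
      rw [e1, e2, sv_Dt]
    · have e0 : ‖(cab F₀).2‖ = (s0 - v0) / 2 := by rw [hs0d, hv0d]; ring
      rw [← hz0d, ← hz0, e0, hval _ _ hv0 hvs, heq]
      have e1 : 1 / v0 * (1 / s0) = 1 / z0 := by rw [← hz0]; field_simp
      have e2 : 1 / v0 / (1 / s0) = Rt (cab F₀) := by
        unfold Rt; rw [← hs0d, ← hv0d]; field_simp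
      rw [e1, e2, hz0]

/-- all the cases -/
theorem main_c (hDUL : S_DUL) (hL : S_RCL) (hP : S_SPE) {q : ℝ} {g f : ℝ → ℝ} (hq : q ≠ 0)
    (hR : RC (iso (ew q g f))) {F₀ : Matrix (Fin 2) (Fin 2) ℝ} (hF : Pos (cab F₀)) :
    MP (iso (ew q g f)) F₀ := by
  rcases le_or_gt q (1 / 2) with h1 | h1
  · exact case_low hq h1 hR hF
  by_cases h2 : q = 1
  · subst h2
    exact case_one hL hP hR hF
  · exact case_high hDUL h2 h1 hR hF

end Pool.Agent.R222.GH
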