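import Mathlib

/-!
# Planar energies `(det A)^q g(K) + f(det A)`: definitions

Notation: a matrix with positive determinant is a pair `F = (u_z, u_zbar)` of complex numbers with
`|F.2| < |F.1|`; its singular values are `s = |F.1| + |F.2|` and `v = |F.1| - |F.2|`.
-/

set_option autoImplicit false

namespace Pool.Agent.R222.GH

open MeasureTheory Set Filter Topology

/-- rank-one convexity on the matrices with positive determinant -/
def RC (w : ℂ × ℂ → ℝ) : Prop := ∀ F H : ℂ × ℂ, ‖H.1‖ = ‖H.2‖ → ‖F.2‖ < ‖F.1‖ →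
  ‖(F + H).2‖ < ‖(F + H).1‖ → ∀ t : ℝ, 0 ≤ t → t ≤ 1 →
  w (F + t • H) ≤ (1 - t) * w F + t * w (F + H)

/-- the domain -/
def Pos (F : ℂ × ℂ) : Prop := ‖F.2‖ < ‖F.1‖

/-- the determinant -/
noncomputable def Dt (F : ℂ × ℂ) : ℝ := ‖F.1‖ ^ 2 - ‖F.2‖ ^ 2

/-- the ratio of the singular values -/
noncomputable def Rt (F : ℂ × ℂ) : ℝ := (‖F.1‖ + ‖F.2‖) / (‖F.1‖ - ‖F.2‖)

/-- the isotropic energy with the value `Ψ s v` at the singular values `s ≥ v > 0` -/
noncomputable def iso (Ψ : ℝ → ℝ → ℝ) (F : ℂ × ℂ) : ℝ := Ψ (‖F.1‖ + ‖F.2‖) (‖F.1‖ - ‖F.2‖)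

/-- the energy, homogeneous of degree `p`, with profile `φ` -/
noncomputable def hw (p : ℝ) (φ : ℝ → ℝ) (s v : ℝ) : ℝ := v ^ p * φ (s / v)

/-- the energy, homogeneous of degree `2 q`, with profile `g` -/
noncomputable def gw (q : ℝ) (g : ℝ → ℝ) (s v : ℝ) : ℝ := (s * v) ^ q * g (s / v)

/-- the energy -/
noncomputable def ew (q : ℝ) (g f : ℝ → ℝ) (s v : ℝ) : ℝ := (s * v) ^ q * g (s / v) + f (s * v)

end Pool.Agent.R222.GH
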