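import Pool.Agent.R222.GH.Defs

/-! # The geometry of rank-one lines -/

set_option autoImplicit false

namespace Pool.Agent.R222.GH

open MeasureTheory Set Filter Topology

theorem Dt_pos {F : ℂ × ℂ} : Pos F ↔ 0 < Dt F := by
  unfold Dt Pos
  rw [sub_pos, sq_lt_sq₀ (norm_nonneg _) (norm_nonneg _)]

theorem Rt_ge {F : ℂ × ℂ} (h : Pos F) : 1 ≤ Rt F := by
  have h' : ‖F.2‖ < ‖F.1‖ := h
  unfold Rt
  rw [le_div_iff₀ (by linarith)]
  linarith [norm_nonneg F.2]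

theorem Dt_smul (l : ℝ) (F : ℂ × ℂ) : Dt (l • F) = l ^ 2 * Dt F := by
  unfold Dt
  simp only [Prod.smul_fst, Prod.smul_snd, norm_smul, Real.norm_eq_abs, mul_pow, sq_abs]
  ring

theorem Rt_smul {l : ℝ} (hl : 0 < l) (F : ℂ × ℂ) : Rt (l • F) = Rt F := by
  unfold Rt
  simp only [Prod.smul_fst, Prod.smul_snd, norm_smul, Real.norm_eq_abs, abs_of_pos hl]
  rw [← mul_add, ← mul_sub, mul_div_mul_left _ _ hl.ne']

theorem Pos_smul {l : ℝ} (hl : 0 < l) {F : ℂ × ℂ} (h : Pos F) : Pos (l • F) := by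
  rw [Dt_pos] at h ⊢
  rw [Dt_smul]
  positivity

theorem Dt_line (F H : ℂ × ℂ) (h : ‖H.1‖ = ‖H.2‖) (t : ℝ) :
    Dt (F + t • H) = (1 - t) * Dt F + t * Dt (F + H) := by
  have e : ‖H.1‖ ^ 2 = ‖H.2‖ ^ 2 := by rw [h]
  unfold Dt
  simp only [← Complex.normSq_eq_norm_sq, Complex.normSq_apply] at e ⊢
  simp only [Prod.fst_add, Prod.snd_add, Prod.smul_fst, Prod.smul_snd, Complex.add_re,
    Complex.add_im, Complex.real_smul, Complex.mul_re, Complex.mul_im, Complex.ofReal_re,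
    Complex.ofReal_im, zero_mul, sub_zero, add_zero]
  linear_combination (t ^ 2 - t) * e

theorem conv_line {w : ℂ × ℂ → ℝ} (hR : RC w) (F H : ℂ × ℂ) (hH : ‖H.1‖ = ‖H.2‖) {I : Set ℝ}
    (hI : Convex ℝ I) (hp : ∀ t ∈ I, Pos (F + t • H)) :
    ConvexOn ℝ I (fun t => w (F + t • H)) := by
  refine ⟨hI, fun x hx y hy p q hp' hq hpq => ?_⟩
  have hy' : F + x • H + (y - x) • H = F + y • H := by
    rw [add_assoc, ← add_smul]; congr 2; ring
  have hH' : ‖((y - x) • H).1‖ = ‖((y - x) • H).2‖ := by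
    simp only [Prod.smul_fst, Prod.smul_snd, norm_smul, hH]
  have h := hR (F + x • H) ((y - x) • H) hH' (hp x hx) (by rw [hy']; exact hp y hy) q hq
    (by linarith)
  rw [hy'] at h
  have e : F + x • H + q • (y - x) • H = F + (p • x + q • y) • H := by
    rw [add_assoc, smul_smul, ← add_smul]
    congr 2
    simp only [smul_eq_mul]
    have : p = 1 - q := by linarith
    subst this
    ring
  rw [e] at h
  have : p = 1 - q := by linarith
  subst this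
  simpa only [smul_eq_mul] using h

/-! ### the shear line -/

theorem norm_one_add (t : ℝ) : ‖(1 : ℂ) + t • Complex.I‖ = Real.sqrt (1 + t ^ 2) := by
  rw [Complex.norm_def]
  congr 1
  rw [Complex.normSq_apply]
  simp
  ring

theorem norm_add_I (x t : ℝ) : ‖(x : ℂ) + t • Complex.I‖ = Real.sqrt (x ^ 2 + t ^ 2) := by
  rw [Complex.norm_def]
  congr 1
  rw [Complex.normSq_apply]
  simp
  ring

/-- the points `(x + i t, y + i t)` -/
theorem shear_norm (x y t : ℝ) :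
    ‖(((x : ℂ), (y : ℂ)) + t • ((Complex.I, Complex.I) : ℂ × ℂ)).1‖ = Real.sqrt (x ^ 2 + t ^ 2) ∧
    ‖(((x : ℂ), (y : ℂ)) + t • ((Complex.I, Complex.I) : ℂ × ℂ)).2‖ = Real.sqrt (y ^ 2 + t ^ 2) :=
  ⟨norm_add_I x t, norm_add_I y t⟩

theorem shear_Dt (x y t : ℝ) :
    Dt (((x : ℂ), (y : ℂ)) + t • ((Complex.I, Complex.I) : ℂ × ℂ)) = x ^ 2 - y ^ 2 := by
  unfold Dt
  rw [(shear_norm x y t).1, (shear_norm x y t).2, Real.sq_sqrt (by positivity),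
    Real.sq_sqrt (by positivity)]
  ring

theorem shear_conv {w : ℂ × ℂ → ℝ} (hR : RC w) {x y : ℝ} (hxy : y ^ 2 < x ^ 2) :
    ConvexOn ℝ univ (fun t : ℝ => w (((x : ℂ), (y : ℂ)) + t • ((Complex.I, Complex.I) : ℂ × ℂ))) := by
  refine conv_line hR _ _ rfl convex_univ fun t _ => ?_
  rw [Dt_pos, shear_Dt]
  linarith

/-- the point with determinant one and ratio `k` -/
theorem shear_Rt {k : ℝ} (hk : 1 ≤ k) :
    Rt (((1 : ℝ) : ℂ), ((0 : ℝ) : ℂ)) = 1 ∧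
    Rt ((((1 : ℝ) : ℂ), ((0 : ℝ) : ℂ)) + ((Real.sqrt k - (Real.sqrt k)⁻¹) / 2) •
      ((Complex.I, Complex.I) : ℂ × ℂ)) = k := by
  constructor
  · unfold Rt; simp
  · unfold Rt
    rw [(shear_norm 1 0 _).1, (shear_norm 1 0 _).2]
    have hk0 : 0 < k := by linarith
    have hs : 0 < Real.sqrt k := Real.sqrt_pos.2 hk0
    have hsq : Real.sqrt k ^ 2 = k := Real.sq_sqrt hk0.le
    have h1s : 1 ≤ Real.sqrt k := by rw [Real.one_le_sqrt]; exact hk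
    have hi : (Real.sqrt k)⁻¹ ≤ 1 := inv_le_one_of_one_le₀ h1s
    set r := Real.sqrt k with hr
    have hri : r * r⁻¹ = 1 := mul_inv_cancel₀ hs.ne'
    have e1 : Real.sqrt (1 ^ 2 + ((r - r⁻¹) / 2) ^ 2) = (r + r⁻¹) / 2 := by
      rw [Real.sqrt_eq_iff_mul_self_eq (by positivity) (by positivity)]
      nlinarith
    have e2 : Real.sqrt (0 ^ 2 + ((r - r⁻¹) / 2) ^ 2) = (r - r⁻¹) / 2 := by
      rw [zero_pow two_ne_zero, zero_add, Real.sqrt_sq (by linarith)]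
    rw [e1, e2]
    have e3 : (r + r⁻¹) / 2 + (r - r⁻¹) / 2 = r := by ring
    have e4 : (r + r⁻¹) / 2 - (r - r⁻¹) / 2 = r⁻¹ := by ring
    rw [e3, e4, div_inv_eq_mul, ← sq, hsq]

/-! ### the diagonal line -/

theorem diag_norm {s v : ℝ} (hv : 0 ≤ v) (hs : v ≤ s) :
    ‖((((s + v) / 2 : ℝ) : ℂ))‖ = (s + v) / 2 ∧ ‖((((s - v) / 2 : ℝ) : ℂ))‖ = (s - v) / 2 := by
  constructor
  · rw [Complex.norm_real, Real.norm_of_nonneg (by linarith)]
  · rw [Complex.norm_real, Real.norm_of_nonneg (by linarith)]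

theorem diag_val {s v : ℝ} (hv : 0 < v) (hs : v ≤ s) :
    Pos ((((s + v) / 2 : ℝ) : ℂ), (((s - v) / 2 : ℝ) : ℂ)) ∧
    Rt ((((s + v) / 2 : ℝ) : ℂ), (((s - v) / 2 : ℝ) : ℂ)) = s / v ∧
    Dt ((((s + v) / 2 : ℝ) : ℂ), (((s - v) / 2 : ℝ) : ℂ)) = s * v := by
  obtain ⟨h1, h2⟩ := diag_norm hv.le hs
  refine ⟨?_, ?_, ?_⟩
  · change ‖_‖ < ‖_‖
    simp only
    rw [h1, h2]
    linarith
  · unfold Rt
    simp only
    rw [h1, h2]
    congr 1 <;> ring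
  · unfold Dt
    simp only
    rw [h1, h2]
    ring

/-- convexity in the largest singular value -/
theorem diag_conv {w : ℂ × ℂ → ℝ} (hR : RC w) {v : ℝ} (hv : 0 < v) :
    ConvexOn ℝ (Ici v) (fun s : ℝ => w ((((s + v) / 2 : ℝ) : ℂ), (((s - v) / 2 : ℝ) : ℂ))) := by
  have e : ∀ s : ℝ, (((((s + v) / 2 : ℝ) : ℂ), (((s - v) / 2 : ℝ) : ℂ)) : ℂ × ℂ)
      = (((v / 2 : ℝ) : ℂ), ((-(v / 2) : ℝ) : ℂ)) + s • (((1 / 2 : ℝ) : ℂ), ((1 / 2 : ℝ) : ℂ)) := by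
    intro s
    apply Prod.ext
    · simp only [Prod.fst_add, Prod.smul_fst, Complex.real_smul]
      push_cast
      ring
    · simp only [Prod.snd_add, Prod.smul_snd, Complex.real_smul]
      push_cast
      ring
  simp only [e]
  refine conv_line hR _ _ rfl (convex_Ici v) fun s hs => ?_
  rw [← e]
  exact (diag_val hv hs).1

/-! ### a maximum principle -/

theorem max_princ {ψ : ℝ → ℝ} (hc : ContinuousOn ψ (Icc 0 1)) (h0 : ψ 0 ≤ 0) (h1 : ψ 1 ≤ 0)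
    (hm : ∀ t, 0 < t → t < 1 → ∃ r, 0 < r ∧ 0 ≤ t - r ∧ t + r ≤ 1 ∧
      2 * ψ t ≤ ψ (t - r) + ψ (t + r)) : ∀ t ∈ Icc (0 : ℝ) 1, ψ t ≤ 0 := by
  by_contra hcon
  push Not at hcon
  obtain ⟨a, ha, hpos⟩ := hcon
  obtain ⟨b, hb, hmax⟩ := isCompact_Icc.exists_isMaxOn (⟨a, ha⟩ : (Icc (0 : ℝ) 1).Nonempty) hc
  set M := ψ b with hM
  have hM0 : 0 < M := hpos.trans_le (hmax ha)
  set E : Set ℝ := Icc 0 1 ∩ ψ ⁻¹' {M} with hE
  have hEc : IsCompact E := by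
    have : IsClosed E := hc.preimage_isClosed_of_isClosed isClosed_Icc isClosed_singleton
    exact isCompact_Icc.of_isClosed_subset this inter_subset_left
  have hEn : E.Nonempty := ⟨b, hb, rfl⟩
  have hs := hEc.sInf_mem hEn
  set t := sInf E with ht
  have htM : ψ t = M := hs.2
  have ht0 : 0 < t := by
    rcases eq_or_lt_of_le hs.1.1 with h | h
    · rw [← h] at htM; linarith
    · exact h
  have ht1 : t < 1 := by
    rcases eq_or_lt_of_le hs.1.2 with h | h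
    · rw [h] at htM; linarith
    · exact h
  obtain ⟨r, hr0, hr1, hr2, hr3⟩ := hm t ht0 ht1
  have h2 : ψ (t + r) ≤ M := hmax (show t + r ∈ Icc (0 : ℝ) 1 from ⟨by linarith, hr2⟩)
  have h3 : ψ (t - r) ≤ M := hmax (show t - r ∈ Icc (0 : ℝ) 1 from ⟨hr1, by linarith⟩)
  have h4 : ψ (t - r) ≠ M := by
    intro h
    have : t - r ∈ E := ⟨⟨hr1, by linarith⟩, h⟩
    have := csInf_le hEc.bddBelow this
    linarith
  have h5 := lt_of_le_of_ne h3 h4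
  linarith



theorem mid {w : ℂ × ℂ → ℝ} (hR : RC w) {F H : ℂ × ℂ} (hH : ‖H.1‖ = ‖H.2‖) (h1 : Pos (F - H))
    (h2 : Pos (F + H)) : 2 * w F ≤ w (F - H) + w (F + H) := by
  have e : F - H + (2 : ℝ) • H = F + H := by rw [two_smul]; abel
  have e2 : F - H + (1 / 2 : ℝ) • ((2 : ℝ) • H) = F := by rw [smul_smul]; norm_num
  have h := hR (F - H) ((2 : ℝ) • H) (by simp only [Prod.smul_fst, Prod.smul_snd, norm_smul, hH])
    h1 (by rw [e]; exact h2) (1 / 2) (by norm_num) (by norm_num)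
  rw [e, e2] at h
  linarith

theorem val_of_norm {F : ℂ × ℂ} {s v : ℝ} (h1 : ‖F.1‖ = (s + v) / 2) (h2 : ‖F.2‖ = (s - v) / 2) :
    Rt F = s / v ∧ Dt F = s * v := by
  constructor
  · unfold Rt
    rw [h1, h2]
    congr 1 <;> ring
  · unfold Dt
    rw [h1, h2]
    ring

/-- the special segment -/
theorem seg_ex {s0 v0 s1 v1 : ℝ} (hv0 : 0 < v0) (hs0 : v0 ≤ s0) (hv1 : 0 < v1) (hs1 : v1 ≤ s1)
    (hopp : (s1 - s0) * (v1 - v0) ≤ 0) : ∃ H : ℂ × ℂ, ‖H.1‖ = ‖H.2‖ ∧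
      H.2 = ((((s1 - v1) / 2 - (s0 - v0) / 2 : ℝ)) : ℂ) ∧
      ‖(((s0 + v0) / 2 : ℝ) : ℂ) + H.1‖ = (s1 + v1) / 2 := by
  set x0 := (s0 + v0) / 2 with hx0
  set y0 := (s0 - v0) / 2 with hy0
  set x1 := (s1 + v1) / 2 with hx1
  set y1 := (s1 - v1) / 2 with hy1
  have hx0p : 0 < x0 := by rw [hx0]; linarith
  have hx1p : 0 < x1 := by rw [hx1]; linarith
  have hy0n : 0 ≤ y0 := by rw [hy0]; linarith
  have hy1n : 0 ≤ y1 := by rw [hy1]; linarith
  set d := y1 - y0 with hd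
  set p := (x1 ^ 2 + x0 ^ 2 - d ^ 2) / (2 * x0) with hp
  have hp2 : 2 * x0 * p = x1 ^ 2 + x0 ^ 2 - d ^ 2 := by
    rw [hp]; field_simp
  have hA : (x1 - x0) ^ 2 ≤ d ^ 2 := by
    have : (x1 - x0) ^ 2 - d ^ 2 = (s1 - s0) * (v1 - v0) := by
      rw [hd, hx0, hx1, hy0, hy1]; ring
    linarith
  have hB : d ^ 2 ≤ (x1 + x0) ^ 2 := by
    have h1 : |d| ≤ x1 + x0 := by
      rw [abs_le]
      constructor
      · rw [hd, hy0, hy1, hx0, hx1]; linarith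
      · rw [hd, hy0, hy1, hx0, hx1]; linarith
    have := pow_le_pow_left₀ (abs_nonneg d) h1 2
    rwa [sq_abs] at this
  have hpx : p ^ 2 ≤ x1 ^ 2 := by
    have h1 : p ≤ x1 := by nlinarith
    have h2 : -x1 ≤ p := by nlinarith
    nlinarith
  set q := Real.sqrt (x1 ^ 2 - p ^ 2) with hq
  have hq2 : q ^ 2 = x1 ^ 2 - p ^ 2 := Real.sq_sqrt (by linarith)
  refine ⟨(⟨p - x0, q⟩, ((d : ℝ) : ℂ)), ?_, rfl, ?_⟩
  · simp only
    rw [Complex.norm_real, Real.norm_eq_abs, Complex.norm_def, Complex.normSq_mk,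
      ← Real.sqrt_sq_eq_abs]
    congr 1
    nlinarith
  · rw [Complex.norm_def, Complex.normSq_apply]
    simp only [Complex.add_re, Complex.ofReal_re, Complex.add_im, Complex.ofReal_im]
    rw [Real.sqrt_eq_iff_mul_self_eq (by nlinarith [mul_self_nonneg (x0 + (p - x0)), mul_self_nonneg (0 + q)])
      hx1p.le]
    nlinarith

/-! ### convex functions -/

theorem sub_grad_on {S : Set ℝ} {α : ℝ → ℝ} (hα : ConvexOn ℝ S α) (hS : IsOpen S) {v : ℝ}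
    (hv : v ∈ S) : ∃ k, ∀ u ∈ S, α v + k * (u - v) ≤ α u := by
  refine ⟨derivWithin α (Ioi v) v, fun u hu => ?_⟩
  have hv' : v ∈ interior S := by rwa [hS.interior_eq]
  rcases lt_trichotomy u v with h | h | h
  · have h1 := hα.slope_le_leftDeriv_of_mem_interior hu hv' h
    have h2 := hα.leftDeriv_le_rightDeriv_of_mem_interior hv'
    have h3 := h1.trans h2
    rw [slope_def_field, div_le_iff₀ (by linarith)] at h3
    linarith
  · subst h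
    simp
  · have h1 := hα.rightDeriv_le_slope_of_mem_interior hv' hu h
    rw [slope_def_field, le_div_iff₀ (by linarith)] at h1
    linarith

theorem subg {u : ℝ → ℝ} (hu : ConvexOn ℝ (Ici 1) u) {K0 : ℝ} (hK : 1 < K0) :
    ∃ a, ∀ K, 1 ≤ K → u K0 + a * (K - K0) ≤ u K := by
  obtain ⟨a, ha⟩ := sub_grad_on (hu.subset Ioi_subset_Ici_self (convex_Ioi 1)) isOpen_Ioi
    (mem_Ioi.2 hK)
  refine ⟨a, fun K hK1 => ?_⟩
  rcases eq_or_lt_of_le hK1 with h1 | h1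
  · subst h1
    have h2 := ha ((1 + K0) / 2) (mem_Ioi.2 (by linarith))
    have h3 := hu.2 (mem_Ici.2 (le_refl (1 : ℝ))) (mem_Ici.2 hK.le)
      (show (0 : ℝ) ≤ 1 / 2 by norm_num) (show (0 : ℝ) ≤ 1 / 2 by norm_num) (by norm_num)
    have e : (1 / 2 : ℝ) • (1 : ℝ) + (1 / 2 : ℝ) • K0 = (1 + K0) / 2 := by
      simp only [smul_eq_mul]; ring
    rw [e] at h3
    simp only [smul_eq_mul] at h3
    linarith
  · exact ha K (mem_Ioi.2 h1)

theorem deriv_nonneg' {Φ : ℝ → ℝ} {m : ℝ} (h : HasDerivAt Φ m 0) (h0 : Φ 0 = 0)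
    (hp : ∀ᶠ δ in 𝓝[>] (0 : ℝ), 0 ≤ Φ δ) : 0 ≤ m := by
  have h1 := h.tendsto_slope_zero_right
  refine ge_of_tendsto h1 ?_
  filter_upwards [hp, self_mem_nhdsWithin] with δ hδ hδ'
  have hδ0 : (0 : ℝ) < δ := hδ'
  rw [zero_add, h0, sub_zero, smul_eq_mul]
  exact mul_nonneg (inv_nonneg.2 hδ0.le) hδ

end Pool.Agent.R222.GH
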