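import Pool.Agent.R222.GH.Stm4
import Pool.Agent.R222.GH.Asm

/-! # Isotropic homogeneous functions plus a function of the determinant: complex notation -/

set_option autoImplicit false

namespace Pool.Agent.R222.GH

open MeasureTheory Set Filter Topology

/-- the situation -/
structure Sit (p : ℝ) (w : ℂ × ℂ → ℝ) (f : ℝ → ℝ) : Prop where
  hom : ∀ l : ℝ, 0 < l → ∀ F, w (l • F) = l ^ p * w F
  iso : ∀ F, w F = w (((‖F.1‖ : ℝ) : ℂ), ((‖F.2‖ : ℝ) : ℂ))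
  roc : RCa (fun F => w F + f (Dt F))

/-- the exchange of the two variables -/
def sw (F : ℂ × ℂ) : ℂ × ℂ := (F.2, F.1)

theorem Dt_sw (F : ℂ × ℂ) : Dt (sw F) = -Dt F := by unfold Dt sw; ring

theorem sw_line (F H : ℂ × ℂ) (t : ℝ) : sw (F + t • H) = sw F + t • sw H := by
  unfold sw; rfl

theorem sw_sw (F : ℂ × ℂ) : sw (sw F) = F := rfl

theorem Sit.swap {p : ℝ} {w : ℂ × ℂ → ℝ} {f : ℝ → ℝ} (h : Sit p w f) :
    Sit p (fun F => w (sw F)) (fun z => f (-z)) := by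
  refine ⟨fun l hl F => ?_, fun F => ?_, fun F H hH => ?_⟩
  · exact h.hom l hl (sw F)
  · exact h.iso (sw F)
  · have h1 := h.roc (sw F) (sw H) (show ‖H.2‖ = ‖H.1‖ from hH.symm)
    refine h1.congr fun t _ => ?_
    simp only
    rw [← sw_line, Dt_sw]

/-- the profile -/
noncomputable def prof (w : ℂ × ℂ → ℝ) (K : ℝ) : ℝ :=
  w ((((Real.sqrt K + (Real.sqrt K)⁻¹) / 2 : ℝ) : ℂ), (((Real.sqrt K - (Real.sqrt K)⁻¹) / 2 : ℝ) : ℂ))

theorem Sit.val {q : ℝ} {w : ℂ × ℂ → ℝ} {f : ℝ → ℝ} (h : Sit (2 * q) w f) {F : ℂ × ℂ}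
    (hF : Pos F) : w F = Dt F ^ q * prof w (Rt F) := by
  have hD := Dt_pos.1 hF
  have hK := Rt_ge hF
  have hK0 : 0 < Rt F := by linarith
  obtain ⟨hv, hs⟩ := sv_pos hF
  have hs0 : 0 < ‖F.1‖ + ‖F.2‖ := by linarith
  set δ := Dt F with hδ
  set K := Rt F with hKd
  have hsd : 0 < Real.sqrt δ := Real.sqrt_pos.2 hD
  have hsk : 0 < Real.sqrt K := Real.sqrt_pos.2 hK0
  have hpow : Real.sqrt δ ^ (2 * q) = δ ^ q := by
    rw [Real.rpow_mul hsd.le, Real.rpow_two, Real.sq_sqrt hD.le]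
  -- the singular values
  have e1 : ‖F.1‖ + ‖F.2‖ = Real.sqrt δ * Real.sqrt K := by
    rw [← Real.sqrt_mul hD.le, hδ, hKd]
    have : Dt F * Rt F = (‖F.1‖ + ‖F.2‖) ^ 2 := by
      rw [← sv_Dt]; unfold Rt; field_simp
    rw [this, Real.sqrt_sq hs0.le]
  have e2 : ‖F.1‖ - ‖F.2‖ = Real.sqrt δ * (Real.sqrt K)⁻¹ := by
    have h1 : (‖F.1‖ + ‖F.2‖) * (‖F.1‖ - ‖F.2‖) = δ := sv_Dt F
    have h2 : Real.sqrt δ * Real.sqrt δ = δ := Real.mul_self_sqrt hD.le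
    rw [e1] at h1
    have h3 : Real.sqrt δ * Real.sqrt K * (‖F.1‖ - ‖F.2‖)
        = Real.sqrt δ * Real.sqrt K * (Real.sqrt δ * (Real.sqrt K)⁻¹) := by
      rw [h1]
      field_simp
      linarith
    exact mul_left_cancel₀ (by positivity) h3
  have e3 : ‖F.1‖ = Real.sqrt δ * ((Real.sqrt K + (Real.sqrt K)⁻¹) / 2) := by linarith
  have e4 : ‖F.2‖ = Real.sqrt δ * ((Real.sqrt K - (Real.sqrt K)⁻¹) / 2) := by linarith
  rw [h.iso F, e3, e4]
  have e5 : (((Real.sqrt δ * ((Real.sqrt K + (Real.sqrt K)⁻¹) / 2) : ℝ) : ℂ),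
      ((Real.sqrt δ * ((Real.sqrt K - (Real.sqrt K)⁻¹) / 2) : ℝ) : ℂ))
      = Real.sqrt δ • ((((Real.sqrt K + (Real.sqrt K)⁻¹) / 2 : ℝ) : ℂ),
        (((Real.sqrt K - (Real.sqrt K)⁻¹) / 2 : ℝ) : ℂ)) := by
    apply Prod.ext
    · simp only [Prod.smul_fst, Complex.real_smul]
      push_cast
      ring
    · simp only [Prod.smul_snd, Complex.real_smul]
      push_cast
      ring
  rw [e5, h.hom _ hsd, hpow]
  rfl

theorem RCa.toRC {w : ℂ × ℂ → ℝ} (h : RCa w) : RC w := by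
  intro F H hH _ _ t h0 h1
  have h2 := (h F H hH).2 (mem_univ 0) (mem_univ 1) (show 0 ≤ 1 - t by linarith) h0 (by ring)
  simp only [smul_eq_mul, mul_zero, zero_add, mul_one, zero_smul, add_zero, one_smul] at h2
  exact h2

theorem Sit.ew {q : ℝ} {w : ℂ × ℂ → ℝ} {f : ℝ → ℝ} (h : Sit (2 * q) w f) :
    RC (GH.iso (ew q (prof w) f)) := by
  refine RC_congr (fun F hF => ?_) h.roc.toRC
  unfold GH.iso GH.ew
  rw [sv_Dt, h.val hF]
  rfl

/-- the side of positive determinants -/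
theorem Sit.side {q : ℝ} {w : ℂ × ℂ → ℝ} {f : ℝ → ℝ} (h : Sit (2 * q) w f) (hq : q ≠ 0)
    (hq1 : q ≠ 1) : ∃ c : ℝ, ConvexOn ℝ (Ioi 0) (fun z => f z - c * z ^ q) ∧
      RC (fun F => w F + c * Dt F ^ q) := by
  obtain ⟨c, h1, h2⟩ := Spl.main Ctg.main q (prof w) f hq hq1 h.ew
  refine ⟨c, h1, RC_congr (fun F hF => ?_) h2⟩
  unfold GH.iso gw
  rw [sv_Dt, h.val hF]
  change Dt F ^ q * (prof w (Rt F) + c) = _
  ring

theorem Dt_lin (F H : ℂ × ℂ) (hH : ‖H.1‖ = ‖H.2‖) (t : ℝ) :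
    Dt (F + t • H) = Dt F + t * (Dt (F + H) - Dt F) := by
  rw [Dt_line F H hH]; ring

/-- reduction to the lines `det = κ t` -/
theorem RCa_of {w : ℂ × ℂ → ℝ} (h0 : ∀ F H : ℂ × ℂ, ‖H.1‖ = ‖H.2‖ → (∀ t : ℝ, Dt (F + t • H) = Dt F) →
      ConvexOn ℝ univ (fun t : ℝ => w (F + t • H)))
    (h1 : ∀ F H : ℂ × ℂ, ‖H.1‖ = ‖H.2‖ → ∀ κ : ℝ, 0 < κ → (∀ t : ℝ, Dt (F + t • H) = κ * t) →
      ConvexOn ℝ univ (fun t : ℝ => w (F + t • H))) : RCa w := by
  intro F H hH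
  have key : ∀ H : ℂ × ℂ, ‖H.1‖ = ‖H.2‖ → 0 < Dt (F + H) - Dt F →
      ConvexOn ℝ univ (fun t : ℝ => w (F + t • H)) := by
    intro H hH hb
    set κ := Dt (F + H) - Dt F with hκ
    set t0 := -(Dt F) / κ with ht0
    have e0 : t0 * κ = -(Dt F) := div_mul_cancel₀ _ hb.ne'
    have e1 : ∀ t : ℝ, (F + t0 • H) + t • H = F + (t0 + t) • H := by
      intro t; rw [add_smul, add_assoc]
    have h2 := h1 (F + t0 • H) H hH κ hb (fun t => by
      rw [e1, Dt_lin F H hH, ← hκ]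
      linear_combination e0)
    simp only [e1] at h2
    refine ⟨convex_univ, fun x _ y _ a b ha hb' hab => ?_⟩
    have h3 := h2.2 (mem_univ (x - t0)) (mem_univ (y - t0)) ha hb' hab
    simp only [smul_eq_mul] at h3 ⊢
    have e2 : t0 + (a * (x - t0) + b * (y - t0)) = a * x + b * y := by
      have : b = 1 - a := by linarith
      subst this
      ring
    have e3 : t0 + (x - t0) = x := by ring
    have e4 : t0 + (y - t0) = y := by ring
    rw [e2, e3, e4] at h3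
    exact h3
  rcases lt_trichotomy 0 (Dt (F + H) - Dt F) with h2 | h2 | h2
  · exact key H hH h2
  · exact h0 F H hH (fun t => by rw [Dt_lin F H hH, ← h2]; ring)
  · have e : Dt (F + -H) - Dt F = -(Dt (F + H) - Dt F) := by
      have := Dt_lin F H hH (-1)
      rw [neg_one_smul] at this
      rw [this]; ring
    have h3 := key (-H) (by simpa using hH) (by rw [e]; linarith)
    refine ⟨convex_univ, fun x _ y _ a b ha hb' hab => ?_⟩
    have h4 := h3.2 (mem_univ (-x)) (mem_univ (-y)) ha hb' hab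
    simp only [smul_eq_mul] at h4 ⊢
    have e2 : a * -x + b * -y = -(a * x + b * y) := by ring
    rw [e2] at h4
    simpa only [neg_smul_neg] using h4

/-- the function of the determinant, `q ≠ 1` -/
noncomputable def Fc (q c1 c2 z : ℝ) : ℝ := if 0 < z then c1 * z ^ q else if z < 0 then c2 * (-z) ^ q else 0

theorem Fc_pos {q c1 c2 z : ℝ} (h : 0 < z) : Fc q c1 c2 z = c1 * z ^ q := by
  unfold Fc; rw [if_pos h]

theorem Fc_neg {q c1 c2 z : ℝ} (h : z < 0) : Fc q c1 c2 z = c2 * (-z) ^ q := by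
  unfold Fc; rw [if_neg (by linarith), if_pos h]

theorem Fc_zero {q c1 c2 : ℝ} : Fc q c1 c2 0 = 0 := by
  unfold Fc; rw [if_neg (by simp), if_neg (by simp)]

theorem Fc_mul {q c1 c2 l : ℝ} (hl : 0 < l) (z : ℝ) : Fc q c1 c2 (l * z) = l ^ q * Fc q c1 c2 z := by
  rcases lt_trichotomy 0 z with h | h | h
  · rw [Fc_pos h, Fc_pos (mul_pos hl h), Real.mul_rpow hl.le h.le]; ring
  · rw [← h, mul_zero, Fc_zero, mul_zero]
  · rw [Fc_neg h, Fc_neg (mul_neg_of_pos_of_neg hl h), ← mul_neg,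
      Real.mul_rpow hl.le (by linarith)]
    ring

/-- convexity of a scaled line -/
theorem Sit.line {q : ℝ} {w : ℂ × ℂ → ℝ} {f : ℝ → ℝ} (h : Sit (2 * q) w f) {F H : ℂ × ℂ}
    (hH : ‖H.1‖ = ‖H.2‖) {κ : ℝ} (hκ : 0 < κ) (hD : ∀ t : ℝ, Dt (F + t • H) = κ * t) {l : ℝ}
    (hl : 0 < l) : ConvexOn ℝ univ (fun t : ℝ => w (F + t • H) + κ ^ q * l ^ (-q) * f (l * t)) := by
  set μ := Real.sqrt (l / κ) with hμ
  have hμ0 : 0 < μ := Real.sqrt_pos.2 (div_pos hl hκ)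
  have hμ2 : μ ^ 2 = l / κ := Real.sq_sqrt (div_pos hl hκ).le
  have hpow : μ ^ (2 * q) = l ^ q * κ ^ (-q) := by
    rw [Real.rpow_mul hμ0.le, Real.rpow_two, hμ2, Real.div_rpow hl.le hκ.le, Real.rpow_neg hκ.le]
    rfl
  have h1 := h.roc (μ • F) (μ • H) (by
    simp only [Prod.smul_fst, Prod.smul_snd, norm_smul, hH])
  have hlq : 0 < l ^ q := Real.rpow_pos_of_pos hl q
  have hκq : 0 < κ ^ q := Real.rpow_pos_of_pos hκ q
  have h2 := h1.smul (show 0 ≤ κ ^ q * l ^ (-q) by positivity)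
  refine h2.congr fun t _ => ?_
  simp only [smul_eq_mul]
  have e1 : μ • F + t • μ • H = μ • (F + t • H) := by
    rw [smul_add, smul_comm]
  rw [e1, h.hom μ hμ0, Dt_smul, hD, hμ2, hpow]
  have e2 : l / κ * (κ * t) = l * t := by field_simp
  rw [e2, mul_add]
  congr 1
  rw [Real.rpow_neg hl.le, Real.rpow_neg hκ.le]
  field_simp

/-- the decomposition for `q ≠ 1` -/
theorem Sit.dec (hK : S_KNK) {q : ℝ} {w : ℂ × ℂ → ℝ} {f : ℝ → ℝ} (h : Sit (2 * q) w f)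
    (hq : q ≠ 0) (hq1 : q ≠ 1) : ∃ c1 c2 : ℝ, RCa (fun F => w F + Fc q c1 c2 (Dt F)) ∧
      ConvexOn ℝ univ (fun z => f z - Fc q c1 c2 z) := by
  obtain ⟨c1, hf1, hw1⟩ := h.side hq hq1
  obtain ⟨c2, hf2, hw2⟩ := h.swap.side hq hq1
  refine ⟨c1, c2, ?_⟩
  have hk1 : ConvexOn ℝ (Ioi 0) (fun z => f z - Fc q c1 c2 z) :=
    hf1.congr fun z hz => by
      simp only
      rw [Fc_pos (mem_Ioi.1 hz)]
  have hk2 : ConvexOn ℝ (Iio 0) (fun z => f z - Fc q c1 c2 z) := by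
    refine ⟨convex_Iio 0, fun x hx y hy a b ha hb hab => ?_⟩
    have hx' : x < 0 := hx
    have hy' : y < 0 := hy
    have hz : a • x + b • y < 0 := (convex_Iio 0) hx hy ha hb hab
    have h1 := hf2.2 (mem_Ioi.2 (show 0 < -x by linarith)) (mem_Ioi.2 (show 0 < -y by linarith))
      ha hb hab
    have e : a • -x + b • -y = -(a • x + b • y) := by simp only [smul_eq_mul]; ring
    rw [e] at h1
    simp only [neg_neg] at h1
    simp only
    rw [Fc_neg hx', Fc_neg hy', Fc_neg hz]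
    exact h1
  -- the lines
  have key : ∀ F H : ℂ × ℂ, ‖H.1‖ = ‖H.2‖ → ∀ κ : ℝ, 0 < κ → (∀ t : ℝ, Dt (F + t • H) = κ * t) →
      ConvexOn ℝ univ (fun t : ℝ => w (F + t • H) + Fc q c1 c2 (Dt (F + t • H))) ∧
      ConvexOn ℝ univ (fun z => f z - Fc q c1 c2 z) := by
    intro F H hH κ hκ hD
    have hP1 : ConvexOn ℝ (Ioi 0) (fun t : ℝ => w (F + t • H) + Fc q c1 c2 (Dt (F + t • H))) := by
      refine (conv_line hw1 F H hH (convex_Ioi 0) (fun t ht => ?_)).congr fun t ht => ?_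
      · rw [Dt_pos, hD]; exact mul_pos hκ ht
      · simp only
        rw [hD, Fc_pos (mul_pos hκ ht)]
    have hP2 : ConvexOn ℝ (Iio 0) (fun t : ℝ => w (F + t • H) + Fc q c1 c2 (Dt (F + t • H))) := by
      refine (conv_line hw2 (sw F) (sw H) (show ‖H.2‖ = ‖H.1‖ from hH.symm) (convex_Iio 0)
        (fun t ht => ?_)).congr fun t ht => ?_
      · rw [Dt_pos, ← sw_line, Dt_sw, hD]
        have ht' : t < 0 := ht
        have := mul_neg_of_pos_of_neg hκ ht'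
        linarith
      · have ht' : t < 0 := ht
        simp only
        rw [← sw_line, Dt_sw, sw_sw, hD, Fc_neg (mul_neg_of_pos_of_neg hκ ht')]
    refine hK q (κ ^ q) _ _ hq hq1 (Real.rpow_pos_of_pos hκ q) hP1 hP2 hk1 hk2 fun l hl => ?_
    refine (h.line hH hκ hD hl).congr fun t _ => ?_
    simp only
    rw [hD, Fc_mul hκ, Fc_mul hl]
    have hlq : l ^ (-q) * l ^ q = 1 := by rw [← Real.rpow_add hl]; simp
    linear_combination (κ ^ q * Fc q c1 c2 t) * hlq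
  refine ⟨RCa_of (fun F H hH hD => ?_) (fun F H hH κ hκ hD => (key F H hH κ hκ hD).1), ?_⟩
  · refine ((h.roc F H hH).add_const (-(f (Dt F)) + Fc q c1 c2 (Dt F))).congr fun t _ => ?_
    simp only [Pi.add_apply]
    rw [hD]
    ring
  · refine (key ((1 / 2 : ℝ), (-(1 / 2) : ℝ)) ((1 / 2 : ℝ), (1 / 2 : ℝ)) rfl 1 one_pos
      (fun t => ?_)).2
    have e1 : ((((1 / 2 : ℝ) : ℂ), ((-(1 / 2) : ℝ) : ℂ)) + t • (((1 / 2 : ℝ) : ℂ), ((1 / 2 : ℝ) : ℂ))
        : ℂ × ℂ) = ((((1 + t) / 2 : ℝ) : ℂ), (((t - 1) / 2 : ℝ) : ℂ)) := by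
      apply Prod.ext
      · simp only [Prod.fst_add, Prod.smul_fst, Complex.real_smul]
        push_cast
        ring
      · simp only [Prod.snd_add, Prod.smul_snd, Complex.real_smul]
        push_cast
        ring
    rw [e1]
    unfold Dt
    simp only [Complex.norm_real, Real.norm_eq_abs, sq_abs]
    ring

end Pool.Agent.R222.GH
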