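import Pool.Agent.R222.GH.Hd

/-! # Isotropic homogeneous functions plus a function of the determinant: degree two -/

set_option autoImplicit false

namespace Pool.Agent.R222.GH

open MeasureTheory Set Filter Topology

/-- the side of positive determinants -/
theorem Sit.side1 (hP : S_SP1) {w : ℂ × ℂ → ℝ} {f : ℝ → ℝ} (h : Sit (2 * 1) w f) :
    ∃ c : ℝ, ConvexOn ℝ (Ioi 0) (fun z => f z - c * (z * Real.log z)) ∧
      RC (fun F => w F + c * (Dt F * Real.log (Dt F))) := by
  obtain ⟨c, h1, h2⟩ := hP (prof w) f h.ew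
  refine ⟨c, h1, RC_congr (fun F hF => ?_) h2⟩
  unfold GH.iso
  beta_reduce
  rw [sv_Dt, h.val hF, Real.rpow_one]
  rfl

/-- the function of the determinant -/
noncomputable def F2 (c1 c2 z : ℝ) : ℝ := (c1 * max z 0 + c2 * max (-z) 0) * Real.log z

theorem F2_pos {c1 c2 z : ℝ} (h : 0 < z) : F2 c1 c2 z = c1 * (z * Real.log z) := by
  unfold F2; rw [max_eq_left h.le, max_eq_right (by linarith)]; ring

theorem F2_neg {c1 c2 z : ℝ} (h : z < 0) : F2 c1 c2 z = c2 * (-z * Real.log (-z)) := by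
  unfold F2; rw [max_eq_right h.le, max_eq_left (by linarith), Real.log_neg_eq_log]; ring

theorem F2_mul {c1 c2 l : ℝ} (hl : 0 < l) (z : ℝ) : F2 c1 c2 (l * z)
    = l * ((c1 * max z 0 + c2 * max (-z) 0) * (Real.log l + Real.log z)) := by
  unfold F2
  rcases lt_trichotomy 0 z with h | h | h
  · rw [Real.log_mul hl.ne' h.ne', max_eq_left h.le, max_eq_right (show -z ≤ 0 by linarith),
      max_eq_left (mul_pos hl h).le, max_eq_right (by have := mul_pos hl h; linarith)]
    ring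
  · rw [← h]; simp
  · rw [Real.log_mul hl.ne' h.ne, max_eq_right h.le, max_eq_left (show 0 ≤ -z by linarith),
      max_eq_right (mul_neg_of_pos_of_neg hl h).le,
      max_eq_left (by have := mul_neg_of_pos_of_neg hl h; linarith)]
    ring

theorem F2_odd (c z : ℝ) : F2 c (-c) z = c * (z * Real.log z) := by
  unfold F2
  rcases le_total 0 z with h | h
  · rw [max_eq_left h, max_eq_right (by linarith)]; ring
  · rw [max_eq_right h, max_eq_left (by linarith)]; ring

/-- the decomposition in degree two -/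
theorem Sit.dec1 (hK : S_KN1) (hP : S_SP1) {w : ℂ × ℂ → ℝ} {f : ℝ → ℝ} (h : Sit (2 * 1) w f) :
    ∃ c c' : ℝ, RCa (fun F => w F + (c * (Dt F * Real.log (Dt F)) + c' * |Dt F|)) ∧
      ConvexOn ℝ univ (fun z => f z - (c * (z * Real.log z) + c' * |z|)) := by
  obtain ⟨c1, hf1, hw1⟩ := h.side1 hP
  obtain ⟨c2, hf2, hw2⟩ := Sit.side1 hP h.swap
  have hk1 : ConvexOn ℝ (Ioi 0) (fun z => f z - F2 c1 c2 z) :=
    hf1.congr fun z hz => by
      simp only
      rw [F2_pos (mem_Ioi.1 hz)]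
  have hk2 : ConvexOn ℝ (Iio 0) (fun z => f z - F2 c1 c2 z) := by
    refine ⟨convex_Iio 0, fun x hx y hy a b ha hb hab => ?_⟩
    have hx' : x < 0 := hx
    have hy' : y < 0 := hy
    have hz : a • x + b • y < 0 := (convex_Iio 0) hx hy ha hb hab
    have h1 := hf2.2 (mem_Ioi.2 (show 0 < -x by linarith)) (mem_Ioi.2 (show 0 < -y by linarith))
      ha hb hab
    have e : a • -x + b • -y = -(a • x + b • y) := by simp only [smul_eq_mul]; ring
    rw [e] at h1
    simp only [neg_neg] at h1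
    simp only
    rw [F2_neg hx', F2_neg hy', F2_neg hz]
    exact h1
  -- the lines
  have key : ∀ F H : ℂ × ℂ, ‖H.1‖ = ‖H.2‖ → ∀ κ : ℝ, 0 < κ → (∀ t : ℝ, Dt (F + t • H) = κ * t) →
      KHyp c1 c2 (fun z => f z - F2 c1 c2 z) κ
        (fun t : ℝ => w (F + t • H) + F2 c1 c2 (Dt (F + t • H))) := by
    intro F H hH κ hκ hD
    refine ⟨hκ, ?_, ?_, fun l hl => ?_⟩
    · refine (conv_line hw1 F H hH (convex_Ioi 0) (fun t ht => ?_)).congr fun t ht => ?_
      · rw [Dt_pos, hD]; exact mul_pos hκ ht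
      · simp only
        rw [hD, F2_pos (mul_pos hκ ht)]
    · refine (conv_line hw2 (sw F) (sw H) (show ‖H.2‖ = ‖H.1‖ from hH.symm) (convex_Iio 0)
        (fun t ht => ?_)).congr fun t ht => ?_
      · rw [Dt_pos, ← sw_line, Dt_sw, hD]
        have ht' : t < 0 := ht
        have := mul_neg_of_pos_of_neg hκ ht'
        linarith
      · have ht' : t < 0 := ht
        simp only
        rw [← sw_line, Dt_sw, sw_sw, hD, F2_neg (mul_neg_of_pos_of_neg hκ ht')]
    · refine (h.line hH hκ hD hl).congr fun t _ => ?_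
      simp only
      rw [hD, F2_mul hκ, F2_mul hl, Real.rpow_one, Real.rpow_neg_one,
        Real.log_div hl.ne' hκ.ne']
      have hll : l⁻¹ * l = 1 := inv_mul_cancel₀ hl.ne'
      linear_combination (κ * ((c1 * max t 0 + c2 * max (-t) 0) * (Real.log l + Real.log t))) * hll
  have hline : ∀ t : ℝ, Dt (((((1 / 2 : ℝ) : ℂ), ((-(1 / 2) : ℝ) : ℂ)) : ℂ × ℂ)
      + t • ((((1 / 2 : ℝ) : ℂ), ((1 / 2 : ℝ) : ℂ)) : ℂ × ℂ)) = 1 * t := by
    intro t
    have e1 : ((((1 / 2 : ℝ) : ℂ), ((-(1 / 2) : ℝ) : ℂ)) + t • (((1 / 2 : ℝ) : ℂ), ((1 / 2 : ℝ) : ℂ))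
        : ℂ × ℂ) = ((((1 + t) / 2 : ℝ) : ℂ), (((t - 1) / 2 : ℝ) : ℂ)) := by
      apply Prod.ext
      · simp only [Prod.fst_add, Prod.smul_fst, Complex.real_smul]
        push_cast
        ring
      · simp only [Prod.snd_add, Prod.smul_snd, Complex.real_smul]
        push_cast
        ring
    rw [e1]
    unfold Dt
    simp only [Complex.norm_real, Real.norm_eq_abs, sq_abs]
    ring
  obtain ⟨hc, c', hkc, hall⟩ := hK (fun z => f z - F2 c1 c2 z) c1 c2 hk1 hk2
    ⟨_, _, key _ _ rfl 1 one_pos hline⟩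
  have hc2 : c2 = -c1 := by linarith
  subst hc2
  refine ⟨c1, c', RCa_of (fun F H hH hD => ?_) (fun F H hH κ hκ hD => ?_), ?_⟩
  · refine ((h.roc F H hH).add_const (-(f (Dt F)) + (c1 * (Dt F * Real.log (Dt F))
      + c' * |Dt F|))).congr fun t _ => ?_
    simp only [Pi.add_apply]
    rw [hD]
    ring
  · refine (hall κ _ (key F H hH κ hκ hD)).congr fun t _ => ?_
    simp only
    rw [F2_odd, hD, abs_mul, abs_of_pos hκ]
    ring
  · refine hkc.congr fun z _ => ?_
    simp only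
    rw [F2_odd]
    ring

end Pool.Agent.R222.GH
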