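import Pool.Agent.R222.GH.Knk

/-!
# The passage through the determinant zero, `q = 1`
-/

set_option autoImplicit false

namespace Pool.Agent.R222.GH.Kn1

open Set Pool.Agent.R222.GH.Knk

/-- convexity on the right half-line of both functions -/
lemma right {c1 c2 κ : ℝ} {k ψ : ℝ → ℝ} (hk : ConvexOn ℝ (Ioi 0) k) (hκ : 0 < κ)
    (hψ : ConvexOn ℝ (Ioi 0) ψ)
    (h : ∀ l, 0 < l → ConvexOn ℝ univ (fun t : ℝ => ψ t + κ * (l⁻¹ * k (l * t)
      + Real.log (l / κ) * (c1 * max t 0 + c2 * max (-t) 0)))) :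
    ConvexOn ℝ (Ici 0) ψ ∧ ConvexOn ℝ (Ici 0) k := by
  have hpos : ∀ l : ℝ, 0 < l → 0 < κ * l⁻¹ := fun l hl => mul_pos hκ (inv_pos.2 hl)
  have hD : ∀ l, 0 < l → ∀ z y, 0 < z → z < y →
      0 ≤ D (fun t => ψ t + (κ * l⁻¹) * k (l * t)) 0 z y := by
    intro l hl z y hz hzy
    have h1 := D_nonneg (h l hl) (mem_univ 0) (mem_univ y) hz hzy
    have hy := hz.trans hzy
    unfold D at h1 ⊢
    simp only [max_eq_left hz.le, max_eq_left hy.le, max_eq_right (neg_nonpos.2 hz.le),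
      max_eq_right (neg_nonpos.2 hy.le), max_self, neg_zero] at h1
    linarith
  constructor
  · refine half hk hψ (fun m => (κ * (m⁻¹)⁻¹)⁻¹)
      (fun l hl => inv_pos.2 (hpos _ (inv_pos.2 hl))) ?_
      (D_swap (ρ := fun l => κ * l⁻¹) hpos hD)
    intro M
    obtain ⟨l, hl, hM⟩ := unb (p := -1) (κ := κ⁻¹) (by norm_num) (inv_pos.2 hκ) M
    refine ⟨l, hl, hM.trans_le (le_of_eq ?_)⟩
    show _ = (κ * (l⁻¹)⁻¹)⁻¹
    rw [inv_inv, mul_inv, Real.rpow_neg hl.le, Real.rpow_one]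
  · refine half hψ hk (fun l => κ * l⁻¹) hpos ?_ hD
    intro M
    obtain ⟨l, hl, hM⟩ := unb (p := -1) (κ := κ) (by norm_num) hκ M
    refine ⟨l, hl, hM.trans_le (le_of_eq ?_)⟩
    rw [Real.rpow_neg hl.le, Real.rpow_one]

/-- the information from `KHyp` -/
lemma info {c1 c2 κ : ℝ} {k ψ : ℝ → ℝ} (hk1 : ConvexOn ℝ (Ioi 0) k)
    (hk2 : ConvexOn ℝ (Iio 0) k) (h : KHyp c1 c2 k κ ψ) :
    ConvexOn ℝ (Ici 0) ψ ∧ ConvexOn ℝ (Iic 0) ψ ∧ ConvexOn ℝ (Ici 0) k ∧ ConvexOn ℝ (Iic 0) k ∧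
    ∀ l t, 0 < l → 0 < t → 0 ≤ S ψ t + κ * S k (l * t) + κ * Real.log (l / κ) * (c1 + c2) := by
  obtain ⟨hκ, hψ1, hψ2, h⟩ := h
  obtain ⟨hψ3, hk3⟩ := right hk1 hκ hψ1 h
  have hn : ∀ x ∈ Ioi (0 : ℝ), -x ∈ Iio (0 : ℝ) := fun x hx =>
    mem_Iio.2 (neg_lt_zero.2 (mem_Ioi.1 hx))
  have hn2 : ∀ x ∈ Iic (0 : ℝ), -x ∈ Ici (0 : ℝ) := fun x hx =>
    mem_Ici.2 (neg_nonneg.2 (mem_Iic.1 hx))
  obtain ⟨hψ4', hk4'⟩ := right (ψ := fun t => ψ (-t)) (k := fun t => k (-t)) (c1 := c2)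
    (c2 := c1) (neg_conv (convex_Ioi 0) hn hk2) hκ (neg_conv (convex_Ioi 0) hn hψ2) (by
      intro l hl
      have := neg_conv convex_univ (fun x _ => mem_univ _) (h l hl)
      simp only [mul_neg, neg_neg] at this
      refine this.congr fun t _ => ?_
      ring)
  have hψ4 : ConvexOn ℝ (Iic 0) ψ := by
    have := neg_conv (convex_Iic 0) hn2 hψ4'
    simpa only [neg_neg] using this
  have hk4 : ConvexOn ℝ (Iic 0) k := by
    have := neg_conv (convex_Iic 0) hn2 hk4'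
    simpa only [neg_neg] using this
  refine ⟨hψ3, hψ4, hk3, hk4, ?_⟩
  intro l t hl ht
  have h3 := D_nonneg (h l hl) (mem_univ (-t)) (mem_univ t) (by linarith : -t < 0) ht
  unfold D at h3
  simp only [max_eq_left ht.le, max_eq_right (neg_nonpos.2 ht.le), neg_neg, max_self,
    neg_zero, mul_zero, mul_neg] at h3
  have e : S ψ t + κ * S k (l * t) + κ * Real.log (l / κ) * (c1 + c2) =
      (ψ t + κ * (l⁻¹ * k (l * t) + Real.log (l / κ) * (c1 * t))
        + (ψ (-t) + κ * (l⁻¹ * k (-(l * t)) + Real.log (l / κ) * (c2 * t)))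
        - 2 * (ψ 0 + κ * (l⁻¹ * k 0))) / t := by
    unfold S
    have := hl.ne'
    have := ht.ne'
    field_simp
    ring
  rw [e]
  apply div_nonneg _ ht.le
  have h4 : 0 ≤ t * (ψ t + κ * (l⁻¹ * k (l * t) + Real.log (l / κ) * (c1 * t))
        + (ψ (-t) + κ * (l⁻¹ * k (-(l * t)) + Real.log (l / κ) * (c2 * t)))
        - 2 * (ψ 0 + κ * (l⁻¹ * k 0))) := by
    nlinarith
  exact nonneg_of_mul_nonneg_right h4 ht

lemma S_abs (φ : ℝ → ℝ) (c : ℝ) {t : ℝ} (ht : 0 < t) :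
    S (fun t => φ t + c * |t|) t = S φ t + 2 * c := by
  unfold S
  simp only [abs_neg, abs_of_pos ht, abs_zero]
  have := ht.ne'
  field_simp
  ring

lemma abs_right {φ : ℝ → ℝ} (c : ℝ) (h : ConvexOn ℝ (Ici 0) φ) :
    ConvexOn ℝ (Ici 0) (fun t => φ t + c * |t|) := by
  refine conv_of_D (convex_Ici 0) ?_
  intro x z y hx hy hxz hzy
  have h1 := D_nonneg h hx hy hxz hzy
  have hx' : 0 ≤ x := hx
  unfold D at h1 ⊢
  simp only [abs_of_nonneg hx', abs_of_nonneg (hx'.trans hxz.le),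
    abs_of_nonneg (hx'.trans (hxz.trans hzy).le)]
  linarith

lemma abs_left {φ : ℝ → ℝ} (c : ℝ) (h : ConvexOn ℝ (Iic 0) φ) :
    ConvexOn ℝ (Iic 0) (fun t => φ t + c * |t|) := by
  refine conv_of_D (convex_Iic 0) ?_
  intro x z y hx hy hxz hzy
  have h1 := D_nonneg h hx hy hxz hzy
  have hy' : y ≤ 0 := hy
  unfold D at h1 ⊢
  simp only [abs_of_nonpos hy', abs_of_nonpos (hzy.le.trans hy'),
    abs_of_nonpos ((hxz.trans hzy).le.trans hy')]
  linarith

theorem main : S_KN1 := by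
  intro k c1 c2 hk1 hk2 hex
  obtain ⟨κ0, ψ0, h0⟩ := hex
  obtain ⟨a1, a2, hk3, hk4, a5⟩ := info hk1 hk2 h0
  have hκ0 := h0.1
  have hc : c1 + c2 = 0 := by
    by_contra hne
    -- the logarithm takes the value which makes the inequality fail
    set A : ℝ := S ψ0 1 + κ0 * S k 1 with hA
    set L : ℝ := -(A + 1) / (κ0 * (c1 + c2)) with hL
    set l : ℝ := κ0 * Real.exp L with hl
    have hl0 : 0 < l := mul_pos hκ0 (Real.exp_pos _)
    have hlog : Real.log (l / κ0) = L := by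
      rw [hl, mul_div_cancel_left₀ _ hκ0.ne', Real.log_exp]
    set s : ℝ := min 1 (1 / l) with hsdef
    have hs : 0 < s := lt_min one_pos (by positivity)
    have hs1 : s ≤ 1 := min_le_left _ _
    have hs2 : l * s ≤ 1 := by
      have := min_le_right (1 : ℝ) (1 / l)
      calc l * s ≤ l * (1 / l) := mul_le_mul_of_nonneg_left this hl0.le
        _ = 1 := by field_simp
    have h1 := a5 l s hl0 hs
    have h2 := S_mono a1 a2 hs hs1
    have h3 := S_mono hk3 hk4 (mul_pos hl0 hs) hs2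
    have h4 := mul_le_mul_of_nonneg_left h3 hκ0.le
    have h5 : κ0 * Real.log (l / κ0) * (c1 + c2) = -(A + 1) := by
      rw [hlog, hL]
      have := hκ0.ne'
      field_simp
    linarith
  refine ⟨hc, ?_⟩
  -- the pairwise inequality
  have pair : ∀ κ ψ, KHyp c1 c2 k κ ψ → ∀ s t, 0 < s → 0 < t → 0 ≤ S ψ s + κ * S k t := by
    intro κ ψ h s t hs ht
    have h1 := (info hk1 hk2 h).2.2.2.2 (t / s) s (div_pos ht hs) hs
    rw [hc, mul_zero, add_zero, div_mul_cancel₀ _ hs.ne'] at h1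
    exact h1
  set I : ℝ := sInf (S k '' Ioi 0) with hI
  have hbdd : BddBelow (S k '' Ioi 0) := by
    refine ⟨-(S ψ0 1) / κ0, ?_⟩
    rintro _ ⟨t, ht, rfl⟩
    rw [div_le_iff₀ hκ0]
    have := pair κ0 ψ0 h0 1 t one_pos ht
    linarith
  have hne : (S k '' Ioi 0).Nonempty := ⟨S k 1, 1, mem_Ioi.2 one_pos, rfl⟩
  have hle : ∀ t, 0 < t → I ≤ S k t := fun t ht => csInf_le hbdd ⟨t, ht, rfl⟩
  refine ⟨I / 2, ?_, ?_⟩
  · have h1 : (fun t => k t - I / 2 * |t|) = fun t => k t + (-(I / 2)) * |t| := by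
      funext t
      ring
    rw [h1]
    refine glue (abs_right _ hk3) (abs_left _ hk4) ?_
    intro t ht
    rw [S_abs _ _ ht]
    have := hle t ht
    linarith
  · intro κ ψ h
    obtain ⟨b1, b2, -, -, -⟩ := info hk1 hk2 h
    refine glue (φ := fun t => ψ t + κ * (I / 2) * |t|) (abs_right _ b1) (abs_left _ b2) ?_
    intro t ht
    rw [S_abs _ _ ht]
    have hκ := h.1
    have h2 : -(S ψ t) / κ ≤ I := by
      apply le_csInf hne
      rintro _ ⟨s, hs, rfl⟩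
      rw [div_le_iff₀ hκ]
      have := pair κ ψ h t s ht hs
      linarith
    rw [div_le_iff₀ hκ] at h2
    linarith

end Pool.Agent.R222.GH.Kn1
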