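import Pool.Agent.R222.GH.Stm3

/-!
# The passage through the determinant zero, `q ≠ 1`
-/

set_option autoImplicit false

namespace Pool.Agent.R222.GH.Knk

open Set

/-- the three point expression of convexity -/
def D (φ : ℝ → ℝ) (x z y : ℝ) : ℝ := (y - z) * φ x + (z - x) * φ y - (y - x) * φ z

lemma D_nonneg {s : Set ℝ} {φ : ℝ → ℝ} (h : ConvexOn ℝ s φ) {x z y : ℝ} (hx : x ∈ s)
    (hy : y ∈ s) (hxz : x < z) (hzy : z < y) : 0 ≤ D φ x z y := by
  have h1 := h.slope_mono_adjacent hx hy hxz hzy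
  rw [div_le_div_iff₀ (by linarith) (by linarith)] at h1
  unfold D
  nlinarith

lemma conv_of_D {s : Set ℝ} (hs : Convex ℝ s) {φ : ℝ → ℝ}
    (h : ∀ x z y, x ∈ s → y ∈ s → x < z → z < y → 0 ≤ D φ x z y) : ConvexOn ℝ s φ := by
  refine convexOn_of_slope_mono_adjacent hs ?_
  intro x z y hx hy hxz hzy
  rw [div_le_div_iff₀ (by linarith) (by linarith)]
  have := h x z y hx hy hxz hzy
  unfold D at this
  nlinarith

/-- minus the value at `0` of the chord over `[z,y]`, plus the value of the function -/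
noncomputable def J (φ : ℝ → ℝ) (z y : ℝ) : ℝ := φ 0 - (φ z - z * ((φ y - φ z) / (y - z)))

lemma J_mono {φ : ℝ → ℝ} (h : ConvexOn ℝ (Ioi 0) φ) {z y s : ℝ} (hz : 0 < z) (hzy : z < y)
    (hs : 0 < s) (hs1 : s ≤ 1) : J φ (s * z) (s * y) ≤ J φ z y := by
  have hy : 0 < y := hz.trans hzy
  rcases hs1.eq_or_lt with rfl | hs1
  · simp
  have hsz : 0 < s * z := mul_pos hs hz
  have hsy : 0 < s * y := mul_pos hs hy
  have h1 : s * z < s * y := mul_lt_mul_of_pos_left hzy hs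
  have h2 : s * y < y := by nlinarith
  have h3 : s * z < z := by nlinarith
  have a1 : (φ (s * y) - φ (s * z)) / (s * y - s * z) ≤ (φ y - φ (s * z)) / (y - s * z) :=
    h.secant_mono hsz hsy hy h1.ne' (h1.trans h2).ne' h2.le
  have a2 : (φ (s * z) - φ y) / (s * z - y) ≤ (φ z - φ y) / (z - y) :=
    h.secant_mono hy hsz hz (h1.trans h2).ne hzy.ne h3.le
  have e1 : φ (s * z) - (s * z) * ((φ y - φ (s * z)) / (y - s * z)) =
      φ y - y * ((φ (s * z) - φ y) / (s * z - y)) := by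
    have : y - s * z ≠ 0 := by linarith
    have : s * z - y ≠ 0 := by linarith
    field_simp
    ring
  have e2 : φ z - z * ((φ y - φ z) / (y - z)) = φ y - y * ((φ z - φ y) / (z - y)) := by
    have : y - z ≠ 0 := by linarith
    have : z - y ≠ 0 := by linarith
    field_simp
    ring
  have b1 : (s * z) * ((φ (s * y) - φ (s * z)) / (s * y - s * z)) ≤
      (s * z) * ((φ y - φ (s * z)) / (y - s * z)) := mul_le_mul_of_nonneg_left a1 hsz.le
  have b2 : y * ((φ (s * z) - φ y) / (s * z - y)) ≤ y * ((φ z - φ y) / (z - y)) :=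
    mul_le_mul_of_nonneg_left a2 hy.le
  unfold J
  linarith

lemma J_D (φ : ℝ → ℝ) {z y : ℝ} (hzy : z < y) : D φ 0 z y = (y - z) * J φ z y := by
  have : y - z ≠ 0 := by linarith
  unfold D J
  field_simp
  ring

lemma J_sum (ψ k : ℝ → ℝ) (ρ l : ℝ) (hl : 0 < l) {z y : ℝ} (hzy : z < y) :
    D (fun t => ψ t + ρ * k (l * t)) 0 z y =
      (y - z) * (J ψ z y + ρ * J k (l * z) (l * y)) := by
  have h1 : y - z ≠ 0 := by linarith
  have h2 : l * y - l * z ≠ 0 := by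
    have : l * z < l * y := mul_lt_mul_of_pos_left hzy hl
    linarith
  have h3 : l ≠ 0 := hl.ne'
  have h4 : (k (l * y) - k (l * z)) / (l * y - l * z) =
      (k (l * y) - k (l * z)) / (y - z) / l := by
    rw [div_div, mul_comm (y - z) l, mul_sub]
  unfold D J
  rw [h4]
  simp only [mul_zero]
  field_simp
  ring

/-- No downward jump at zero. -/
lemma half {ψ k : ℝ → ℝ} (hψ : ConvexOn ℝ (Ioi 0) ψ) (hk : ConvexOn ℝ (Ioi 0) k) (ρ : ℝ → ℝ)
    (hρ0 : ∀ l, 0 < l → 0 < ρ l) (hρ : ∀ M : ℝ, ∃ l, 0 < l ∧ M < ρ l)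
    (h : ∀ l, 0 < l → ∀ z y, 0 < z → z < y →
      0 ≤ D (fun t => ψ t + ρ l * k (l * t)) 0 z y) :
    ConvexOn ℝ (Ici 0) k := by
  have key : ∀ z y, 0 < z → z < y → 0 ≤ J k z y := by
    intro z y hz hzy
    by_contra hneg
    push Not at hneg
    obtain ⟨l, hl, hM⟩ := hρ (J ψ z y / (-J k z y))
    have hneg' : 0 < -J k z y := by linarith
    rw [div_lt_iff₀ hneg'] at hM
    -- choose `s` with `s ≤ 1` and `l * s ≤ 1`
    set s : ℝ := min 1 (1 / l) with hsdef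
    have hs : 0 < s := lt_min one_pos (by positivity)
    have hs1 : s ≤ 1 := min_le_left _ _
    have hs2 : l * s ≤ 1 := by
      have := min_le_right (1 : ℝ) (1 / l)
      calc l * s ≤ l * (1 / l) := mul_le_mul_of_nonneg_left this hl.le
        _ = 1 := by field_simp
    have hzy' : s * z < s * y := mul_lt_mul_of_pos_left hzy hs
    have h1 := h l hl (s * z) (s * y) (mul_pos hs hz) hzy'
    rw [J_sum ψ k (ρ l) l hl hzy'] at h1
    have h2 : 0 ≤ J ψ (s * z) (s * y) + ρ l * J k (l * (s * z)) (l * (s * y)) := by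
      have : 0 < s * y - s * z := by linarith
      exact nonneg_of_mul_nonneg_right h1 this
    have h3 := J_mono hψ hz hzy hs hs1
    have h4 := J_mono hk hz hzy (mul_pos hl hs) hs2
    rw [mul_assoc, mul_assoc] at h4
    have h5 := mul_le_mul_of_nonneg_left h4 (hρ0 l hl).le
    nlinarith
  refine conv_of_D (convex_Ici 0) ?_
  intro x z y hx hy hxz hzy
  rcases (mem_Ici.1 hx).eq_or_lt with rfl | hx'
  · rw [J_D k hzy]
    exact mul_nonneg (by linarith) (key z y hxz hzy)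
  · exact D_nonneg hk hx' (hx'.trans (hxz.trans hzy)) hxz hzy

/-- the kink -/
noncomputable def S (φ : ℝ → ℝ) (t : ℝ) : ℝ := (φ t + φ (-t) - 2 * φ 0) / t

lemma S_mono {φ : ℝ → ℝ} (h1 : ConvexOn ℝ (Ici 0) φ) (h2 : ConvexOn ℝ (Iic 0) φ) {s t : ℝ}
    (hs : 0 < s) (hst : s ≤ t) : S φ s ≤ S φ t := by
  have ht : 0 < t := hs.trans_le hst
  have a1 : (φ s - φ 0) / (s - 0) ≤ (φ t - φ 0) / (t - 0) :=
    h1.secant_mono (mem_Ici.2 le_rfl) (mem_Ici.2 hs.le) (mem_Ici.2 ht.le) hs.ne' ht.ne' hst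
  have a2 : (φ (-t) - φ 0) / (-t - 0) ≤ (φ (-s) - φ 0) / (-s - 0) :=
    h2.secant_mono (mem_Iic.2 le_rfl) (mem_Iic.2 (by linarith)) (mem_Iic.2 (by linarith))
      (by linarith) (by linarith) (by linarith)
  have e1 : S φ s = (φ s - φ 0) / (s - 0) - (φ (-s) - φ 0) / (-s - 0) := by
    unfold S
    have : s ≠ 0 := hs.ne'
    have : -s - 0 ≠ 0 := by simpa using this
    field_simp
    ring
  have e2 : S φ t = (φ t - φ 0) / (t - 0) - (φ (-t) - φ 0) / (-t - 0) := by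
    unfold S
    have : t ≠ 0 := ht.ne'
    have : -t - 0 ≠ 0 := by simpa using this
    field_simp
    ring
  rw [e1, e2]
  linarith

/-- gluing -/
lemma glue {φ : ℝ → ℝ} (h1 : ConvexOn ℝ (Ici 0) φ) (h2 : ConvexOn ℝ (Iic 0) φ)
    (h : ∀ t, 0 < t → 0 ≤ S φ t) : ConvexOn ℝ univ φ := by
  have key : ∀ x y, x < 0 → 0 < y → (φ x - φ 0) / x ≤ (φ y - φ 0) / y := by
    intro x y hx hy
    set m := min y (-x) with hm
    have hm0 : 0 < m := lt_min hy (by linarith)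
    have a1 : (φ m - φ 0) / (m - 0) ≤ (φ y - φ 0) / (y - 0) :=
      h1.secant_mono (mem_Ici.2 le_rfl) (mem_Ici.2 hm0.le) (mem_Ici.2 hy.le) hm0.ne' hy.ne'
        (min_le_left _ _)
    have a2 : (φ x - φ 0) / (x - 0) ≤ (φ (-m) - φ 0) / (-m - 0) :=
      h2.secant_mono (mem_Iic.2 le_rfl) (mem_Iic.2 (by linarith)) (mem_Iic.2 (by linarith))
        (by linarith) (by linarith) (by have := min_le_right y (-x); linarith)
    have a3 := h m hm0
    have e1 : S φ m = (φ m - φ 0) / (m - 0) - (φ (-m) - φ 0) / (-m - 0) := by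
      unfold S
      have : m ≠ 0 := hm0.ne'
      have : -m - 0 ≠ 0 := by simpa using this
      field_simp
      ring
    rw [e1] at a3
    simp only [sub_zero] at a1 a2 a3
    linarith
  have key2 : ∀ x y, x < 0 → 0 < y → 0 ≤ y * (φ x - φ 0) - x * (φ y - φ 0) := by
    intro x y hx hy
    have h1 := key x y hx hy
    have h2 : (φ x - φ 0) / x * x = φ x - φ 0 := div_mul_cancel₀ _ hx.ne
    have h3 : (φ y - φ 0) / y * y = φ y - φ 0 := div_mul_cancel₀ _ hy.ne'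
    have h4 : 0 ≤ -x * y * ((φ y - φ 0) / y - (φ x - φ 0) / x) :=
      mul_nonneg (by nlinarith) (by linarith)
    calc (0:ℝ) ≤ -x * y * ((φ y - φ 0) / y - (φ x - φ 0) / x) := h4
      _ = -x * ((φ y - φ 0) / y * y) + y * ((φ x - φ 0) / x * x) := by ring
      _ = _ := by rw [h2, h3]; ring
  refine conv_of_D convex_univ ?_
  intro x z y _ _ hxz hzy
  rcases le_or_gt 0 x with hx | hx
  · exact D_nonneg h1 (mem_Ici.2 hx) (mem_Ici.2 (by linarith)) hxz hzy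
  rcases le_or_gt y 0 with hy | hy
  · exact D_nonneg h2 (mem_Iic.2 (by linarith)) (mem_Iic.2 hy) hxz hzy
  have c1 := key2 x y hx hy
  rcases lt_trichotomy z 0 with hz | rfl | hz
  · -- x < z < 0 < y
    have c2 := key2 z y hz hy
    have c3 := D_nonneg h2 (mem_Iic.2 hx.le) (mem_Iic.2 le_rfl) hxz hz
    unfold D at c3 ⊢
    -- D(x,z,y) combination
    have : 0 ≤ (-z) * ((y - z) * φ x + (z - x) * φ y - (y - x) * φ z) := by
      nlinarith
    exact nonneg_of_mul_nonneg_right this (by linarith)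
  · unfold D
    nlinarith
  · have c2 := key2 x z hx hz
    have c3 := D_nonneg h1 (mem_Ici.2 le_rfl) (mem_Ici.2 hy.le) hz hzy
    unfold D at c3 ⊢
    have : 0 ≤ z * ((y - z) * φ x + (z - x) * φ y - (y - x) * φ z) := by
      nlinarith
    exact nonneg_of_mul_nonneg_right this hz

/-- exchange of the two functions -/
lemma D_swap {ψ k : ℝ → ℝ} {ρ : ℝ → ℝ} (hρ0 : ∀ l, 0 < l → 0 < ρ l)
    (h : ∀ l, 0 < l → ∀ z y, 0 < z → z < y →
      0 ≤ D (fun t => ψ t + ρ l * k (l * t)) 0 z y) :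
    ∀ m, 0 < m → ∀ z y, 0 < z → z < y →
      0 ≤ D (fun t => k t + (ρ m⁻¹)⁻¹ * ψ (m * t)) 0 z y := by
  intro m hm z y hz hzy
  have hm' : 0 < m⁻¹ := inv_pos.2 hm
  have h1 := h m⁻¹ hm' (m * z) (m * y) (mul_pos hm hz) (mul_lt_mul_of_pos_left hzy hm)
  have hr := hρ0 m⁻¹ hm'
  have e : D (fun t => ψ t + ρ m⁻¹ * k (m⁻¹ * t)) 0 (m * z) (m * y) =
      (m * ρ m⁻¹) * D (fun t => k t + (ρ m⁻¹)⁻¹ * ψ (m * t)) 0 z y := by
    unfold D
    simp only [mul_zero, inv_mul_cancel_left₀ hm.ne']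
    have h2 := hr.ne'
    generalize ρ m⁻¹ = r at h2 ⊢
    field_simp
    ring
  rw [e] at h1
  exact nonneg_of_mul_nonneg_right h1 (mul_pos hm hr)

lemma S_sum (ψ k : ℝ → ℝ) (ρ l : ℝ) (hl : 0 < l) {t : ℝ} (ht : 0 < t) :
    S (fun t => ψ t + ρ * k (l * t)) t = S ψ t + ρ * l * S k (l * t) := by
  unfold S
  simp only [mul_zero, mul_neg]
  have := hl.ne'
  have := ht.ne'
  field_simp
  ring

lemma kink {ψ k : ℝ → ℝ} (hψ1 : ConvexOn ℝ (Ici 0) ψ) (hψ2 : ConvexOn ℝ (Iic 0) ψ)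
    (hk1 : ConvexOn ℝ (Ici 0) k) (hk2 : ConvexOn ℝ (Iic 0) k) (r : ℝ → ℝ)
    (hr0 : ∀ l, 0 < l → 0 < r l) (hr : ∀ M : ℝ, ∃ l, 0 < l ∧ M < r l)
    (h : ∀ l t, 0 < l → 0 < t → 0 ≤ S ψ t + r l * S k (l * t)) :
    ∀ t, 0 < t → 0 ≤ S k t := by
  intro t ht
  by_contra hneg
  push Not at hneg
  obtain ⟨l, hl, hM⟩ := hr (S ψ 1 / (-S k t))
  have hneg' : 0 < -S k t := by linarith
  rw [div_lt_iff₀ hneg'] at hM
  set s : ℝ := min 1 (t / l) with hsdef
  have hs : 0 < s := lt_min one_pos (by positivity)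
  have hs1 : s ≤ 1 := min_le_left _ _
  have hs2 : l * s ≤ t := by
    have := min_le_right (1 : ℝ) (t / l)
    calc l * s ≤ l * (t / l) := mul_le_mul_of_nonneg_left this hl.le
      _ = t := by field_simp
  have h1 := h l s hl hs
  have h2 := S_mono hψ1 hψ2 hs hs1
  have h3 := S_mono hk1 hk2 (mul_pos hl hs) hs2
  have h4 := mul_le_mul_of_nonneg_left h3 (hr0 l hl).le
  nlinarith

lemma neg_conv {s s' : Set ℝ} {φ : ℝ → ℝ} (hs' : Convex ℝ s') (hss : ∀ x ∈ s', -x ∈ s)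
    (h : ConvexOn ℝ s φ) : ConvexOn ℝ s' (fun t => φ (-t)) := by
  refine conv_of_D hs' ?_
  intro x z y hx hy hxz hzy
  have h1 := D_nonneg h (hss y hy) (hss x hx) (neg_lt_neg hzy) (neg_lt_neg hxz)
  unfold D at h1 ⊢
  linarith

lemma unb {p κ : ℝ} (hp : p ≠ 0) (hκ : 0 < κ) (M : ℝ) : ∃ l, 0 < l ∧ M < κ * l ^ p := by
  have h0 : 0 < |M| / κ + 1 := by positivity
  refine ⟨(|M| / κ + 1) ^ (1 / p), by positivity, ?_⟩
  rw [← Real.rpow_mul h0.le, one_div_mul_cancel hp, Real.rpow_one]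
  have h1 : κ * (|M| / κ + 1) = |M| + κ := by
    field_simp
  rw [h1]
  linarith [le_abs_self M]

lemma oneside {q κ : ℝ} {ψ k : ℝ → ℝ} (hq : q ≠ 0) (hκ : 0 < κ) (hψ : ConvexOn ℝ (Ioi 0) ψ)
    (hk : ConvexOn ℝ (Ioi 0) k)
    (h : ∀ l, 0 < l → ConvexOn ℝ univ (fun t : ℝ => ψ t + κ * l ^ (-q) * k (l * t))) :
    ConvexOn ℝ (Ici 0) ψ ∧ ConvexOn ℝ (Ici 0) k := by
  have hD : ∀ l, 0 < l → ∀ z y, 0 < z → z < y →
      0 ≤ D (fun t => ψ t + (κ * l ^ (-q)) * k (l * t)) 0 z y :=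
    fun l hl z y hz hzy => D_nonneg (h l hl) (mem_univ _) (mem_univ _) hz hzy
  have hpos : ∀ l : ℝ, 0 < l → 0 < κ * l ^ (-q) := fun l hl =>
    mul_pos hκ (Real.rpow_pos_of_pos hl _)
  constructor
  · refine half hk hψ (fun m => (κ * (m⁻¹) ^ (-q))⁻¹)
      (fun l hl => inv_pos.2 (hpos _ (inv_pos.2 hl))) ?_
      (D_swap (ρ := fun l => κ * l ^ (-q)) hpos hD)
    intro M
    obtain ⟨l, hl, hM⟩ := unb (p := -q) (κ := κ⁻¹) (neg_ne_zero.2 hq) (inv_pos.2 hκ) M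
    refine ⟨l, hl, hM.trans_le (le_of_eq ?_)⟩
    show _ = (κ * (l⁻¹) ^ (-q))⁻¹
    rw [Real.inv_rpow hl.le, mul_inv, inv_inv]
  · exact half hψ hk (fun l => κ * l ^ (-q)) hpos (unb (neg_ne_zero.2 hq) hκ) hD

theorem main : S_KNK := by
  intro q κ ψ k hq hq1 hκ hψ1 hψ2 hk1 hk2 h
  obtain ⟨hψ3, hk3⟩ := oneside hq hκ hψ1 hk1 h
  have hn : ∀ x ∈ Ioi (0 : ℝ), -x ∈ Iio (0 : ℝ) := fun x hx => mem_Iio.2 (neg_lt_zero.2 (mem_Ioi.1 hx))
  have hn2 : ∀ x ∈ Iic (0 : ℝ), -x ∈ Ici (0 : ℝ) := fun x hx => mem_Ici.2 (neg_nonneg.2 (mem_Iic.1 hx))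
  obtain ⟨hψ4', hk4'⟩ := oneside (ψ := fun t => ψ (-t)) (k := fun t => k (-t)) hq hκ
    (neg_conv (convex_Ioi 0) hn hψ2) (neg_conv (convex_Ioi 0) hn hk2) (by
      intro l hl
      have := neg_conv convex_univ (fun x _ => mem_univ _) (h l hl)
      simpa only [mul_neg] using this)
  have hψ4 : ConvexOn ℝ (Iic 0) ψ := by
    have := neg_conv (convex_Iic 0) hn2 hψ4'
    simpa only [neg_neg] using this
  have hk4 : ConvexOn ℝ (Iic 0) k := by
    have := neg_conv (convex_Iic 0) hn2 hk4'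
    simpa only [neg_neg] using this
  have hr0 : ∀ l : ℝ, 0 < l → 0 < κ * l ^ (1 - q) := fun l hl =>
    mul_pos hκ (Real.rpow_pos_of_pos hl _)
  have hS : ∀ l t, 0 < l → 0 < t → 0 ≤ S ψ t + (κ * l ^ (1 - q)) * S k (l * t) := by
    intro l t hl ht
    have h1 := S_sum ψ k (κ * l ^ (-q)) l hl ht
    have h2 : 0 ≤ S (fun t => ψ t + κ * l ^ (-q) * k (l * t)) t := by
      have h3 := D_nonneg (h l hl) (mem_univ (-t)) (mem_univ t) (by linarith : -t < 0) ht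
      unfold S
      apply div_nonneg _ ht.le
      unfold D at h3
      have : 0 ≤ t * ((ψ t + κ * l ^ (-q) * k (l * t)) + (ψ (-t) + κ * l ^ (-q) * k (l * -t))
          - 2 * (ψ 0 + κ * l ^ (-q) * k (l * 0))) := by linarith
      exact nonneg_of_mul_nonneg_right this ht
    rw [h1] at h2
    have h4 : κ * l ^ (-q) * l = κ * l ^ (1 - q) := by
      rw [sub_eq_add_neg, Real.rpow_add hl, Real.rpow_one]
      ring
    rwa [h4] at h2
  have hSk := kink hψ3 hψ4 hk3 hk4 (fun l => κ * l ^ (1 - q)) hr0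
    (unb (sub_ne_zero.2 (Ne.symm hq1)) hκ) hS
  have hSψ := kink hk3 hk4 hψ3 hψ4 (fun m => (κ * (m⁻¹) ^ (1 - q))⁻¹)
    (fun l hl => inv_pos.2 (hr0 _ (inv_pos.2 hl))) (by
      intro M
      obtain ⟨l, hl, hM⟩ := unb (p := 1 - q) (κ := κ⁻¹) (sub_ne_zero.2 (Ne.symm hq1))
        (inv_pos.2 hκ) M
      refine ⟨l, hl, hM.trans_le (le_of_eq ?_)⟩
      show _ = (κ * (l⁻¹) ^ (1 - q))⁻¹
      rw [Real.inv_rpow hl.le, mul_inv, inv_inv]) (by
      intro m t hm ht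
      have h1 := hS m⁻¹ (m * t) (inv_pos.2 hm) (mul_pos hm ht)
      rw [inv_mul_cancel_left₀ hm.ne'] at h1
      have h2 := hr0 m⁻¹ (inv_pos.2 hm)
      have h3 : 0 ≤ (κ * (m⁻¹) ^ (1 - q))⁻¹ * (S ψ (m * t) + κ * (m⁻¹) ^ (1 - q) * S k t) :=
        mul_nonneg (inv_pos.2 h2).le h1
      rw [mul_add, inv_mul_cancel_left₀ h2.ne'] at h3
      show 0 ≤ S k t + (κ * (m⁻¹) ^ (1 - q))⁻¹ * S ψ (m * t)
      linarith)
  exact ⟨glue hψ3 hψ4 hSψ, glue hk3 hk4 hSk⟩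

end Pool.Agent.R222.GH.Knk
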