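import Pool.Agent.R222.GH.Stm3

/-!
# Approximation of functions which are homogeneous of degree two up to a logarithm
-/

set_option autoImplicit false

namespace Pool.Agent.R222.GH.Lga

open MeasureTheory Set Filter Topology

/-! ### one variable -/

theorem support {y : ℝ → ℝ} (hy : ConvexOn ℝ univ y) (t1 : ℝ) :
    ∃ m, ∀ t, y t1 + m * (t - t1) ≤ y t := by
  refine ⟨derivWithin y (Ioi t1) t1, fun t => ?_⟩
  have hint : ∀ x : ℝ, x ∈ interior (univ : Set ℝ) := fun x => by simp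
  rcases lt_trichotomy t t1 with h | h | h
  · have h1 := hy.slope_le_leftDeriv_of_mem_interior (mem_univ t) (hint t1) h
    have h2 := hy.leftDeriv_le_rightDeriv_of_mem_interior (hint t1)
    have h3 := h1.trans h2
    rw [slope_def_field, div_le_iff₀ (by linarith)] at h3
    linarith
  · rw [h]
    simp
  · have h1 := hy.rightDeriv_le_slope_of_mem_interior (hint t1) (mem_univ t) h
    rw [slope_def_field, le_div_iff₀ (by linarith)] at h1
    linarith

theorem amul {x y X Y : ℝ} (hx : |x| ≤ X) (hy : |y| ≤ Y) : |x * y| ≤ X * Y := by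
  rw [abs_mul]
  exact mul_le_mul hx hy (abs_nonneg _) ((abs_nonneg _).trans hx)

theorem algebra {α c C M n P L n' ℓ m a a1 : ℝ} (hα : 0 < α) (hα2 : α < 1 / 2)
    (hn : 3 / 10 ≤ n) (_hn2 : n ≤ 2) (hP1 : 1 / 2 ≤ P) (hP2 : P ≤ 2)
    (hL : |L| ≤ 3) (hn' : |n'| ≤ 4) (hℓ : |ℓ| ≤ 3 * M) (hm : |m| ≤ 4 * M)
    (ha : |a| ≤ 3) (ha1 : |a1| ≤ 7) (hM : 0 ≤ M) (hC : 400 * M + 1500 * |c| ≤ C) :
    0 ≤ 4 * α * (P / n) * ℓ + n' * α * (n' * (α - 1) * (P / n / n)) * ℓ + n' * α * (P / n) * m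
      + n' * α * (P / n) * m
      + c * a1 * (-α * (L * (n' * (P / n))))
      + (c * a1 * (-α * (L * (n' * (P / n))))
        + c * a * (-α * (n' / n * (n' * (P / n)) + L * (4 * (P / n)
          + n' * (n' * (α - 1) * (P / n / n))))))
      + C * (2 * α) * ((1 + α) * (4 * P + n' * (n' * α * (P / n)))) := by
  have hn0 : 0 < n := by linarith
  set A := P / n with hA
  set B := P / n / n with hB
  have hA0 : 0 ≤ A := by positivity
  have hA1 : A ≤ 20 / 3 := by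
    rw [hA, div_le_iff₀ hn0]
    linarith
  have hB0 : 0 ≤ B := by positivity
  have hB1 : B ≤ 200 / 9 := by
    rw [hB, div_le_iff₀ hn0]
    linarith
  have e1 : n' / n * (n' * A) = n' * n' * B := by
    rw [hB, hA]
    field_simp
  rw [e1]
  have aA : |A| ≤ 20 / 3 := by rwa [abs_of_nonneg hA0]
  have aB : |B| ≤ 200 / 9 := by rwa [abs_of_nonneg hB0]
  have aα : |α - 1| ≤ 1 := by
    rw [abs_le]
    constructor <;> linarith
  have ac : |c| ≤ |c| := le_rfl
  have ann : |n' * n'| ≤ 4 * 4 := amul hn' hn'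
  have b1 : |n' * n' * (α - 1) * B * ℓ| ≤ 4 * 4 * 1 * (200 / 9) * (3 * M) :=
    amul (amul (amul ann aα) aB) hℓ
  have b2 : |A * ℓ| ≤ 20 / 3 * (3 * M) := amul aA hℓ
  have b3 : |n' * A * m| ≤ 4 * (20 / 3) * (4 * M) := amul (amul hn' aA) hm
  have b4 : |c * a1 * (L * (n' * A))| ≤ |c| * 7 * (3 * (4 * (20 / 3))) :=
    amul (amul ac ha1) (amul hL (amul hn' aA))
  have b5 : |c * a * (n' * n' * B)| ≤ |c| * 3 * (4 * 4 * (200 / 9)) :=
    amul (amul ac ha) (amul ann aB)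
  have b6 : |c * a * (L * A)| ≤ |c| * 3 * (3 * (20 / 3)) := amul (amul ac ha) (amul hL aA)
  have b7 : |c * a * (L * (n' * n' * (α - 1) * B))| ≤ |c| * 3 * (3 * (4 * 4 * 1 * (200 / 9))) :=
    amul (amul ac ha) (amul hL (amul (amul ann aα) aB))
  have hc0 := abs_nonneg c
  have hC0 : 0 ≤ C := by linarith
  have hpos : 4 * C ≤ 2 * C * ((1 + α) * (4 * P + n' * n' * α * A)) := by
    have h1 : 2 ≤ (1 + α) * (4 * P + n' * n' * α * A) := by
      have h2 : 0 ≤ n' * n' * α * A := by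
        have := mul_self_nonneg n'
        positivity
      have h3 : 2 ≤ 4 * P + n' * n' * α * A := by linarith
      nlinarith
    nlinarith
  rw [abs_le] at b1 b2 b3 b4 b5 b6 b7
  have e2 : 4 * α * A * ℓ + n' * α * (n' * (α - 1) * B) * ℓ + n' * α * A * m
      + n' * α * A * m
      + c * a1 * (-α * (L * (n' * A)))
      + (c * a1 * (-α * (L * (n' * A)))
        + c * a * (-α * (n' * n' * B + L * (4 * A + n' * (n' * (α - 1) * B)))))
      + C * (2 * α) * ((1 + α) * (4 * P + n' * (n' * α * A)))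
      = α * (4 * (A * ℓ) + n' * n' * (α - 1) * B * ℓ + 2 * (n' * A * m)
        - 2 * (c * a1 * (L * (n' * A))) - c * a * (n' * n' * B) - 4 * (c * a * (L * A))
        - c * a * (L * (n' * n' * (α - 1) * B))
        + 2 * C * ((1 + α) * (4 * P + n' * n' * α * A))) := by ring
  rw [e2]
  apply mul_nonneg hα.le
  linarith [b1.1, b2.1, b3.1, b4.2, b5.2, b6.2, b7.2]

theorem hasDeriv_n (n1 t : ℝ) :
    HasDerivAt (fun t : ℝ => 1 + n1 * t + 2 * t ^ 2) (n1 + 4 * t) t := by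
  have h1 := ((hasDerivAt_id t).const_mul n1).const_add 1
  have h2 := (hasDerivAt_pow 2 t).const_mul 2
  have h3 := h1.add h2
  refine h3.congr_deriv ?_
  norm_num
  ring

theorem n_bounds {n1 t : ℝ} (hn1 : |n1| ≤ 3) (ht : t ∈ Ioo (-(1 / 4) : ℝ) (1 / 4)) :
    3 / 10 ≤ 1 + n1 * t + 2 * t ^ 2 ∧ 1 + n1 * t + 2 * t ^ 2 ≤ 2 ∧ |n1 + 4 * t| ≤ 4 := by
  rw [abs_le] at hn1
  obtain ⟨h1, h2⟩ := hn1
  obtain ⟨h3, h4⟩ := ht
  refine ⟨?_, ?_, ?_⟩
  · rcases le_total 0 t with h | h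
    · nlinarith [mul_nonneg (sub_nonneg.2 h4.le) h, mul_nonneg (sub_nonneg.2 h4.le) (sub_nonneg.2 h4.le)]
    · nlinarith [mul_nonneg (neg_nonneg.2 h) (show 0 ≤ t + 1 / 4 by linarith),
        mul_nonneg (show 0 ≤ t + 1 / 4 by linarith) (show 0 ≤ t + 1 / 4 by linarith)]
  · rcases le_total 0 t with h | h
    · nlinarith
    · nlinarith
  · rw [abs_le]
    constructor <;> linarith

theorem core {ε c C M n1 a0 a1 : ℝ} (hε : 0 < ε) (hε1 : ε < 1) (hn1 : |n1| ≤ 3)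
    (ha0 : |a0| ≤ 1) (ha1 : |a1| ≤ 7) {y : ℝ → ℝ} (hy : ConvexOn ℝ univ y)
    (hM : ∀ t, |t| ≤ 1 → |y t| ≤ M) (hC : 400 * M + 1500 * |c| ≤ C) {t1 : ℝ}
    (ht1 : t1 ∈ Ioo (-(1 / 4) : ℝ) (1 / 4)) :
    ∃ s, ∀ t ∈ Ioo (-(1 / 4) : ℝ) (1 / 4),
      ((1 + n1 * t1 + 2 * t1 ^ 2) ^ (ε / 2) * y t1
        + c * (a0 + a1 * t1) * ((2 / ε - Real.log (1 + n1 * t1 + 2 * t1 ^ 2))
          * (1 + n1 * t1 + 2 * t1 ^ 2) ^ (ε / 2))
        + C * ε * (1 + n1 * t1 + 2 * t1 ^ 2) ^ (1 + ε / 2)) + s * (t - t1)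
      ≤ (1 + n1 * t + 2 * t ^ 2) ^ (ε / 2) * y t
        + c * (a0 + a1 * t) * ((2 / ε - Real.log (1 + n1 * t + 2 * t ^ 2))
          * (1 + n1 * t + 2 * t ^ 2) ^ (ε / 2))
        + C * ε * (1 + n1 * t + 2 * t ^ 2) ^ (1 + ε / 2) := by
  have hM0 : 0 ≤ M := (abs_nonneg _).trans (hM 0 (by simp))
  obtain ⟨m, hm⟩ := support hy t1
  have ht1a : |t1| ≤ 1 := by
    rw [abs_le]
    constructor <;> linarith [ht1.1, ht1.2]
  have hy1 := hM t1 ht1a
  have hm4 : |m| ≤ 4 * M := by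
    have h1 := hm 1
    have h2 := hm (-1)
    have h3 := hM 1 (by simp)
    have h4 := hM (-1) (by simp)
    rw [abs_le] at h3 h4 hy1 ⊢
    obtain ⟨h5, h6⟩ := ht1
    constructor
    · by_contra hc
      rw [not_le] at hc
      nlinarith
    · by_contra hc
      rw [not_le] at hc
      nlinarith
  set n : ℝ → ℝ := fun t => 1 + n1 * t + 2 * t ^ 2 with hn
  set R : ℝ → ℝ := fun t => n t ^ (ε / 2) * (y t1 + m * (t - t1))
    + c * (a0 + a1 * t) * ((2 / ε - Real.log (n t)) * n t ^ (ε / 2))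
    + C * ε * n t ^ (1 + ε / 2) with hR
  set R1 : ℝ → ℝ := fun t => (n1 + 4 * t) * (ε / 2) * n t ^ (ε / 2 - 1) * (y t1 + m * (t - t1))
    + n t ^ (ε / 2) * m
    + c * a1 * ((2 / ε - Real.log (n t)) * n t ^ (ε / 2))
    + c * (a0 + a1 * t) * (-(ε / 2) * (Real.log (n t) * ((n1 + 4 * t) * n t ^ (ε / 2 - 1))))
    + C * ε * ((1 + ε / 2) * ((n1 + 4 * t) * n t ^ (ε / 2))) with hR1
  set R2 : ℝ → ℝ := fun t => 4 * (ε / 2) * (n t ^ (ε / 2) / n t) * (y t1 + m * (t - t1))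
      + (n1 + 4 * t) * (ε / 2) * ((n1 + 4 * t) * (ε / 2 - 1) * (n t ^ (ε / 2) / n t / n t))
        * (y t1 + m * (t - t1))
      + (n1 + 4 * t) * (ε / 2) * (n t ^ (ε / 2) / n t) * m
      + (n1 + 4 * t) * (ε / 2) * (n t ^ (ε / 2) / n t) * m
      + c * a1 * (-(ε / 2) * (Real.log (n t) * ((n1 + 4 * t) * (n t ^ (ε / 2) / n t))))
      + (c * a1 * (-(ε / 2) * (Real.log (n t) * ((n1 + 4 * t) * (n t ^ (ε / 2) / n t))))
        + c * (a0 + a1 * t) * (-(ε / 2) * ((n1 + 4 * t) / n t * ((n1 + 4 * t)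
          * (n t ^ (ε / 2) / n t)) + Real.log (n t) * (4 * (n t ^ (ε / 2) / n t)
          + (n1 + 4 * t) * ((n1 + 4 * t) * (ε / 2 - 1) * (n t ^ (ε / 2) / n t / n t))))))
      + C * (2 * (ε / 2)) * ((1 + ε / 2) * (4 * n t ^ (ε / 2)
        + (n1 + 4 * t) * ((n1 + 4 * t) * (ε / 2) * (n t ^ (ε / 2) / n t)))) with hR2
  have hnpos : ∀ t ∈ Ioo (-(1 / 4) : ℝ) (1 / 4), 0 < n t := fun t ht => by
    have := (n_bounds hn1 ht).1
    show 0 < 1 + n1 * t + 2 * t ^ 2
    linarith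
  have hd : ∀ t, HasDerivAt n (n1 + 4 * t) t := fun t => hasDeriv_n n1 t
  have hpow : ∀ (β : ℝ), ∀ t ∈ Ioo (-(1 / 4) : ℝ) (1 / 4),
      HasDerivAt (fun t => n t ^ β) ((n1 + 4 * t) * β * n t ^ (β - 1)) t := fun β t ht =>
    (hd t).rpow_const (Or.inl (hnpos t ht).ne')
  have hlog : ∀ t ∈ Ioo (-(1 / 4) : ℝ) (1 / 4),
      HasDerivAt (fun t => Real.log (n t)) ((n1 + 4 * t) / n t) t := fun t ht =>
    (hd t).log (hnpos t ht).ne'
  have hlin : ∀ t, HasDerivAt (fun t => y t1 + m * (t - t1)) m t := fun t => by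
    have := (((hasDerivAt_id t).sub_const t1).const_mul m).const_add (y t1)
    simpa using this
  have haff : ∀ t, HasDerivAt (fun t => c * (a0 + a1 * t)) (c * a1) t := fun t => by
    have := (((hasDerivAt_id t).const_mul a1).const_add a0).const_mul c
    simpa using this
  have hd4 : ∀ t, HasDerivAt (fun t : ℝ => n1 + 4 * t) 4 t := fun t => by
    have := ((hasDerivAt_id t).const_mul 4).const_add n1
    simpa using this
  have hsub1 : ∀ t ∈ Ioo (-(1 / 4) : ℝ) (1 / 4), ∀ β : ℝ, n t ^ (β - 1) = n t ^ β / n t :=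
    fun t ht β => Real.rpow_sub_one (hnpos t ht).ne' β
  have D1 : ∀ t ∈ Ioo (-(1 / 4) : ℝ) (1 / 4), HasDerivAt R (R1 t) t := by
    intro t ht
    have k1 := (hpow (ε / 2) t ht).mul (hlin t)
    have k2 := (haff t).mul (((hlog t ht).const_sub (2 / ε)).mul (hpow (ε / 2) t ht))
    have k3 := (hpow (1 + ε / 2) t ht).const_mul (C * ε)
    refine ((k1.add k2).add k3).congr_deriv ?_
    have e1 : 1 + ε / 2 - 1 = ε / 2 := by ring
    rw [hR1]
    simp only [Pi.mul_apply]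
    rw [e1, hsub1 t ht]
    have := (hnpos t ht).ne'
    field_simp
    ring
  have D2 : ∀ t ∈ Ioo (-(1 / 4) : ℝ) (1 / 4), HasDerivAt R1 (R2 t) t := by
    intro t ht
    have k0 := (((hd4 t).mul_const (ε / 2)).mul (hpow (ε / 2 - 1) t ht)).mul (hlin t)
    have k1 := (hpow (ε / 2) t ht).mul_const m
    have k2 := (((hlog t ht).const_sub (2 / ε)).mul (hpow (ε / 2) t ht)).const_mul (c * a1)
    have k3 := (haff t).mul (((hlog t ht).mul ((hd4 t).mul
      (hpow (ε / 2 - 1) t ht))).const_mul (-(ε / 2)))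
    have k4 := (((hd4 t).mul (hpow (ε / 2) t ht)).const_mul (1 + ε / 2)).const_mul (C * ε)
    refine ((((k0.add k1).add k2).add k3).add k4).congr_deriv ?_
    rw [hR2]
    simp only [Pi.mul_apply]
    rw [hsub1 t ht (ε / 2 - 1), hsub1 t ht (ε / 2)]
    have := (hnpos t ht).ne'
    field_simp
    ring
  have D3 : ∀ t ∈ Ioo (-(1 / 4) : ℝ) (1 / 4), 0 ≤ R2 t := by
    intro t ht
    obtain ⟨b1, b2, b3⟩ := n_bounds hn1 ht
    have hnt : n t = 1 + n1 * t + 2 * t ^ 2 := rfl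
    rw [← hnt] at b1 b2
    have hnp := hnpos t ht
    have htt : |t| ≤ 1 / 4 := by
      rw [abs_le]
      constructor <;> linarith [ht.1, ht.2]
    have p2 : n t ^ (ε / 2) ≤ 2 := by
      calc n t ^ (ε / 2) ≤ 2 ^ (ε / 2) := Real.rpow_le_rpow hnp.le b2 (by linarith)
        _ ≤ 2 ^ (1 : ℝ) := Real.rpow_le_rpow_of_exponent_le (by norm_num) (by linarith)
        _ = 2 := Real.rpow_one 2
    have p1 : 1 / 2 ≤ n t ^ (ε / 2) := by
      calc (1 / 2 : ℝ) = (1 / 4) ^ (1 / 2 : ℝ) := by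
            have : (1 / 4 : ℝ) = (1 / 2) ^ (2 : ℝ) := by norm_num
            rw [this, ← Real.rpow_mul (by norm_num)]
            norm_num
        _ ≤ (1 / 4) ^ (ε / 2) :=
            Real.rpow_le_rpow_of_exponent_ge (by norm_num) (by norm_num) (by linarith)
        _ ≤ n t ^ (ε / 2) := Real.rpow_le_rpow (by norm_num) (by linarith) (by linarith)
    have hL : |Real.log (n t)| ≤ 3 := by
      rw [abs_le]
      constructor
      · have h1 := Real.one_sub_inv_le_log_of_pos hnp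
        have h2 : (n t)⁻¹ ≤ 10 / 3 := by
          rw [inv_le_comm₀ hnp (by norm_num)]
          linarith
        linarith
      · have h1 := Real.log_le_sub_one_of_pos hnp
        linarith
    have hℓ : |y t1 + m * (t - t1)| ≤ 3 * M := by
      have h1 : |t - t1| ≤ 1 / 2 := by
        rw [abs_le]
        constructor <;> linarith [ht.1, ht.2, ht1.1, ht1.2]
      have h2 : |m * (t - t1)| ≤ 4 * M * (1 / 2) := amul hm4 h1
      calc |y t1 + m * (t - t1)| ≤ |y t1| + |m * (t - t1)| := abs_add_le _ _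
        _ ≤ M + 4 * M * (1 / 2) := add_le_add hy1 h2
        _ = 3 * M := by ring
    have ha : |a0 + a1 * t| ≤ 3 := by
      have h2 : |a1 * t| ≤ 7 * (1 / 4) := amul ha1 htt
      calc |a0 + a1 * t| ≤ |a0| + |a1 * t| := abs_add_le _ _
        _ ≤ 1 + 7 * (1 / 4) := add_le_add ha0 h2
        _ ≤ 3 := by norm_num
    exact algebra (by linarith) (by linarith) b1 b2 p1 p2 hL b3 hℓ hm4 ha ha1 hM0 hC
  have hconv : ConvexOn ℝ (Ioo (-(1 / 4) : ℝ) (1 / 4)) R := by
    apply convexOn_of_hasDerivWithinAt2_nonneg (convex_Ioo _ _) (f' := R1) (f'' := R2)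
    · intro t ht
      exact (D1 t ht).continuousAt.continuousWithinAt
    · intro t ht
      rw [interior_Ioo] at ht
      exact (D1 t ht).hasDerivWithinAt
    · intro t ht
      rw [interior_Ioo] at ht
      exact (D2 t ht).hasDerivWithinAt
    · intro t ht
      rw [interior_Ioo] at ht
      exact D3 t ht
  refine ⟨R1 t1, fun t ht => ?_⟩
  have hle : R t ≤ n t ^ (ε / 2) * y t
        + c * (a0 + a1 * t) * ((2 / ε - Real.log (n t)) * n t ^ (ε / 2))
        + C * ε * n t ^ (1 + ε / 2) := by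
    rw [hR]
    beta_reduce
    have h1 : 0 ≤ n t ^ (ε / 2) := Real.rpow_nonneg (hnpos t ht).le _
    have h2 := mul_le_mul_of_nonneg_left (hm t) h1
    linarith
  have heq : R t1 = n t1 ^ (ε / 2) * y t1
        + c * (a0 + a1 * t1) * ((2 / ε - Real.log (n t1)) * n t1 ^ (ε / 2))
        + C * ε * n t1 ^ (1 + ε / 2) := by
    rw [hR]
    beta_reduce
    rw [sub_self, mul_zero, add_zero]
  have htan : R t1 + R1 t1 * (t - t1) ≤ R t := by
    rcases lt_trichotomy t t1 with h | h | h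
    · have h1 := hconv.slope_le_of_hasDerivAt ht ht1 h (D1 t1 ht1)
      rw [slope_def_field, div_le_iff₀ (by linarith)] at h1
      linarith
    · rw [h]
      simp
    · have h1 := hconv.le_slope_of_hasDerivAt ht1 ht h (D1 t1 ht1)
      rw [slope_def_field, le_div_iff₀ (by linarith)] at h1
      linarith
  rw [heq] at htan
  exact htan.trans hle

/-! ### the unit situation -/

theorem convex_of_support {s : Set ℝ} (hs : Convex ℝ s) {h : ℝ → ℝ}
    (hh : ∀ t1 ∈ s, ∃ m, ∀ t ∈ s, h t1 + m * (t - t1) ≤ h t) : ConvexOn ℝ s h := by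
  refine ⟨hs, fun x hx y hy a b ha hb hab => ?_⟩
  obtain ⟨m, hm⟩ := hh (a • x + b • y) (hs hx hy ha hb hab)
  have h1 := mul_le_mul_of_nonneg_left (hm x hx) ha
  have h2 := mul_le_mul_of_nonneg_left (hm y hy) hb
  simp only [smul_eq_mul] at h1 h2 ⊢
  have e : a * (h (a * x + b * y) + m * (x - (a * x + b * y)))
      + b * (h (a * x + b * y) + m * (y - (a * x + b * y))) = h (a * x + b * y) := by
    have : b = 1 - a := by linarith
    rw [this]
    ring
  linarith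

noncomputable def Nn (F : ℂ × ℂ) : ℝ := ‖F.1‖ ^ 2 + ‖F.2‖ ^ 2

noncomputable def n1 (F H : ℂ × ℂ) : ℝ :=
  2 * (F.1.re * H.1.re + F.1.im * H.1.im + F.2.re * H.2.re + F.2.im * H.2.im)

noncomputable def a1 (F H : ℂ × ℂ) : ℝ :=
  2 * (F.1.re * H.1.re + F.1.im * H.1.im - F.2.re * H.2.re - F.2.im * H.2.im)

theorem Nn_line (F H : ℂ × ℂ) (t : ℝ) :
    Nn (F + t • H) = Nn F + n1 F H * t + Nn H * t ^ 2 := by
  unfold Nn n1
  simp only [← Complex.normSq_eq_norm_sq, Complex.normSq_apply]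
  simp only [Prod.fst_add, Prod.snd_add, Prod.smul_fst, Prod.smul_snd, Complex.add_re,
    Complex.add_im, Complex.real_smul, Complex.mul_re, Complex.mul_im, Complex.ofReal_re,
    Complex.ofReal_im, zero_mul, sub_zero, add_zero]
  ring

theorem Dt_line' (F H : ℂ × ℂ) (h : ‖H.1‖ = ‖H.2‖) (t : ℝ) :
    Dt (F + t • H) = Dt F + a1 F H * t := by
  have e : ‖H.1‖ ^ 2 = ‖H.2‖ ^ 2 := by rw [h]
  unfold Dt a1
  simp only [← Complex.normSq_eq_norm_sq, Complex.normSq_apply] at e ⊢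
  simp only [Prod.fst_add, Prod.snd_add, Prod.smul_fst, Prod.smul_snd, Complex.add_re,
    Complex.add_im, Complex.real_smul, Complex.mul_re, Complex.mul_im, Complex.ofReal_re,
    Complex.ofReal_im, zero_mul, sub_zero, add_zero]
  linear_combination t ^ 2 * e

theorem n1_le {F H : ℂ × ℂ} (hF : Nn F = 1) (h1 : ‖H.1‖ = 1) (h2 : ‖H.2‖ = 1) :
    |n1 F H| ≤ 3 := by
  have e1 : ‖H.1‖ ^ 2 = 1 := by rw [h1]; norm_num
  have e2 : ‖H.2‖ ^ 2 = 1 := by rw [h2]; norm_num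
  unfold Nn at hF
  simp only [← Complex.normSq_eq_norm_sq, Complex.normSq_apply] at hF e1 e2
  unfold n1
  rw [abs_le]
  constructor
  · nlinarith [sq_nonneg (F.1.re * 3 + H.1.re * 2), sq_nonneg (F.1.im * 3 + H.1.im * 2),
      sq_nonneg (F.2.re * 3 + H.2.re * 2), sq_nonneg (F.2.im * 3 + H.2.im * 2)]
  · nlinarith [sq_nonneg (F.1.re * 3 - H.1.re * 2), sq_nonneg (F.1.im * 3 - H.1.im * 2),
      sq_nonneg (F.2.re * 3 - H.2.re * 2), sq_nonneg (F.2.im * 3 - H.2.im * 2)]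

theorem a1_le {F H : ℂ × ℂ} (hF : Nn F = 1) (h1 : ‖H.1‖ = 1) (h2 : ‖H.2‖ = 1) :
    |a1 F H| ≤ 7 := by
  have e1 : ‖H.1‖ ^ 2 = 1 := by rw [h1]; norm_num
  have e2 : ‖H.2‖ ^ 2 = 1 := by rw [h2]; norm_num
  unfold Nn at hF
  simp only [← Complex.normSq_eq_norm_sq, Complex.normSq_apply] at hF e1 e2
  unfold a1
  rw [abs_le]
  constructor
  · nlinarith [sq_nonneg (F.1.re + H.1.re), sq_nonneg (F.1.im + H.1.im),
      sq_nonneg (F.2.re - H.2.re), sq_nonneg (F.2.im - H.2.im)]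
  · nlinarith [sq_nonneg (F.1.re - H.1.re), sq_nonneg (F.1.im - H.1.im),
      sq_nonneg (F.2.re + H.2.re), sq_nonneg (F.2.im + H.2.im)]

theorem local_unit {c : ℝ} {w : ℂ × ℂ → ℝ} (hR : RCa w) (hc : Continuous w) :
    ∃ C : ℝ, ∀ ε, 0 < ε → ε < 1 → ∀ F H : ℂ × ℂ, Nn F = 1 → ‖H.1‖ = 1 → ‖H.2‖ = 1 →
      ConvexOn ℝ (Ioo (-(1 / 4) : ℝ) (1 / 4)) (fun t => Qe c C ε w (F + t • H)) := by
  obtain ⟨M, hM⟩ := (isCompact_closedBall (0 : ℂ × ℂ) 2).exists_bound_of_continuousOn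
    hc.continuousOn
  refine ⟨400 * M + 1500 * |c|, fun ε hε hε1 F H hF h1 h2 => ?_⟩
  have hNH : Nn H = 2 := by
    unfold Nn
    rw [h1, h2]
    norm_num
  have hline : ∀ t : ℝ, Nn (F + t • H) = 1 + n1 F H * t + 2 * t ^ 2 := by
    intro t
    rw [Nn_line, hF, hNH]
  have hdt : ∀ t : ℝ, Dt (F + t • H) = Dt F + a1 F H * t := fun t =>
    Dt_line' F H (by rw [h1, h2]) t
  have hy : ConvexOn ℝ univ (fun t : ℝ => w (F + t • H)) := hR F H (by rw [h1, h2])
  have hb : ∀ t : ℝ, |t| ≤ 1 → |w (F + t • H)| ≤ M := by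
    intro t ht
    apply hM
    rw [mem_closedBall_zero_iff]
    have hF1 : ‖F.1‖ ≤ 1 := by
      unfold Nn at hF
      nlinarith [sq_nonneg ‖F.2‖, norm_nonneg F.1]
    have hF2 : ‖F.2‖ ≤ 1 := by
      unfold Nn at hF
      nlinarith [sq_nonneg ‖F.1‖, norm_nonneg F.2]
    have hFn : ‖F‖ ≤ 1 := by
      rw [Prod.norm_def]
      exact max_le hF1 hF2
    have hHn : ‖H‖ ≤ 1 := by
      rw [Prod.norm_def, h1, h2]
      simp
    calc ‖F + t • H‖ ≤ ‖F‖ + ‖t • H‖ := norm_add_le _ _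
      _ ≤ 1 + 1 := by
          refine add_le_add hFn ?_
          rw [norm_smul, Real.norm_eq_abs]
          exact mul_le_one₀ ht (norm_nonneg _) hHn
      _ = 2 := by norm_num
  have hD0 : |Dt F| ≤ 1 := by
    unfold Nn at hF
    unfold Dt
    rw [abs_le]
    constructor <;> nlinarith [sq_nonneg ‖F.1‖, sq_nonneg ‖F.2‖]
  apply convex_of_support (convex_Ioo _ _)
  intro t1 ht1
  obtain ⟨s, hs⟩ := core (c := c) (C := 400 * M + 1500 * |c|) (M := M) hε hε1 (n1_le hF h1 h2) hD0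
    (a1_le hF h1 h2) hy hb le_rfl ht1
  refine ⟨s, fun t ht => ?_⟩
  have h3 := hs t ht
  have hQ : ∀ t : ℝ, Qe c (400 * M + 1500 * |c|) ε w (F + t • H)
      = (1 + n1 F H * t + 2 * t ^ 2) ^ (ε / 2) * w (F + t • H)
        + c * (Dt F + a1 F H * t) * ((2 / ε - Real.log (1 + n1 F H * t + 2 * t ^ 2))
          * (1 + n1 F H * t + 2 * t ^ 2) ^ (ε / 2))
        + (400 * M + 1500 * |c|) * ε * (1 + n1 F H * t + 2 * t ^ 2) ^ (1 + ε / 2) := by
    intro t
    unfold Qe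
    have := hline t
    unfold Nn at this
    rw [this, hdt t]
  rw [hQ, hQ]
  exact h3

/-! ### homogeneity -/

theorem Nn_smul (l : ℝ) (F : ℂ × ℂ) : Nn (l • F) = l ^ 2 * Nn F := by
  unfold Nn
  simp only [Prod.smul_fst, Prod.smul_snd, norm_smul, Real.norm_eq_abs, mul_pow, sq_abs]
  ring

theorem Nn_pos {F : ℂ × ℂ} (h : F ≠ 0) : 0 < Nn F := by
  unfold Nn
  by_contra hc
  rw [not_lt] at hc
  apply h
  have h1 : ‖F.1‖ ^ 2 = 0 := by nlinarith [sq_nonneg ‖F.1‖, sq_nonneg ‖F.2‖]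
  have h2 : ‖F.2‖ ^ 2 = 0 := by nlinarith [sq_nonneg ‖F.1‖, sq_nonneg ‖F.2‖]
  have h3 : F.1 = 0 := by simpa using h1
  have h4 : F.2 = 0 := by simpa using h2
  exact Prod.ext h3 h4

theorem Qe_eq (c C ε : ℝ) (w : ℂ × ℂ → ℝ) (F : ℂ × ℂ) :
    Qe c C ε w F = Nn F ^ (ε / 2) * w F
      + c * Dt F * ((2 / ε - Real.log (Nn F)) * Nn F ^ (ε / 2)) + C * ε * Nn F ^ (1 + ε / 2) := rfl

theorem Qe_smul {c C ε : ℝ} {w : ℂ × ℂ → ℝ}
    (hw : ∀ l : ℝ, 0 < l → ∀ F, w (l • F) = l ^ 2 * w F + 2 * c * l ^ 2 * Real.log l * Dt F)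
    {l : ℝ} (hl : 0 < l) {F : ℂ × ℂ} (hF : 0 < Nn F) :
    Qe c C ε w (l • F) = l ^ (2 + ε) * Qe c C ε w F := by
  rw [Qe_eq, Qe_eq, Nn_smul, Dt_smul, hw l hl F]
  have e1 : (l ^ 2 * Nn F) ^ (ε / 2) = l ^ ε * Nn F ^ (ε / 2) := by
    rw [Real.mul_rpow (by positivity) hF.le]
    congr 1
    rw [← Real.rpow_natCast, ← Real.rpow_mul hl.le]
    congr 1
    push_cast
    ring
  have e2 : (l ^ 2 * Nn F) ^ (1 + ε / 2) = l ^ 2 * l ^ ε * Nn F ^ (1 + ε / 2) := by
    rw [Real.mul_rpow (by positivity) hF.le, Real.rpow_add (by positivity), Real.rpow_one]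
    congr 2
    rw [← Real.rpow_natCast, ← Real.rpow_mul hl.le]
    congr 1
    push_cast
    ring
  have e3 : Real.log (l ^ 2 * Nn F) = 2 * Real.log l + Real.log (Nn F) := by
    rw [Real.log_mul (by positivity) hF.ne', Real.log_pow]
    push_cast
    ring
  have e4 : l ^ (2 + ε) = l ^ 2 * l ^ ε := by
    rw [Real.rpow_add hl]
    congr 1
    rw [← Real.rpow_natCast]
    norm_num
  rw [e1, e2, e3, e4]
  ring

theorem midpoint {c C ε : ℝ} {w : ℂ × ℂ → ℝ}
    (hw : ∀ l : ℝ, 0 < l → ∀ F, w (l • F) = l ^ 2 * w F + 2 * c * l ^ 2 * Real.log l * Dt F)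
    (hC : ∀ F H : ℂ × ℂ, Nn F = 1 → ‖H.1‖ = 1 → ‖H.2‖ = 1 →
      ConvexOn ℝ (Ioo (-(1 / 4) : ℝ) (1 / 4)) (fun t => Qe c C ε w (F + t • H)))
    {F H : ℂ × ℂ} (hF : F ≠ 0) (hH : ‖H.1‖ = ‖H.2‖) :
    ∃ δ : ℝ, 0 < δ ∧ ∀ r, 0 < r → r < δ →
      2 * Qe c C ε w F ≤ Qe c C ε w (F + (-r) • H) + Qe c C ε w (F + r • H) := by
  rcases eq_or_ne H 0 with h0 | h0
  · refine ⟨1, one_pos, fun r _ _ => ?_⟩
    rw [h0]
    simp only [smul_zero, add_zero]
    linarith
  · have hk : 0 < ‖H.1‖ := by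
      rcases eq_or_lt_of_le (norm_nonneg H.1) with h | h
      · exfalso
        apply h0
        have h1 : H.1 = 0 := norm_eq_zero.1 h.symm
        have h2 : H.2 = 0 := norm_eq_zero.1 (by rw [← hH]; exact h.symm)
        exact Prod.ext h1 h2
      · exact h
    set k := ‖H.1‖ with hkdef
    have hN := Nn_pos hF
    set l := Real.sqrt (Nn F) with hl
    have hl0 : 0 < l := Real.sqrt_pos.2 hN
    have hl2 : l ^ 2 = Nn F := Real.sq_sqrt hN.le
    set F' := l⁻¹ • F with hF'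
    set H' := k⁻¹ • H with hH'
    have hF'1 : Nn F' = 1 := by
      rw [hF', Nn_smul, ← hl2]
      field_simp
    have hH1 : ‖H'.1‖ = 1 := by
      rw [hH', Prod.smul_fst, norm_smul, Real.norm_eq_abs, abs_of_pos (by positivity), ← hkdef]
      field_simp
    have hH2 : ‖H'.2‖ = 1 := by
      rw [hH', Prod.smul_snd, norm_smul, Real.norm_eq_abs, abs_of_pos (by positivity), ← hH]
      field_simp
    have hconv := hC F' H' hF'1 hH1 hH2
    have hrep : ∀ r : ℝ, F + r • H = l • (F' + (r * k / l) • H') := by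
      intro r
      rw [hF', hH', smul_add, smul_smul, smul_smul, smul_smul, mul_inv_cancel₀ hl0.ne', one_smul]
      congr 2
      field_simp
    refine ⟨l / (4 * k), by positivity, fun r hr hr2 => ?_⟩
    have hrk : r * k / l < 1 / 4 := by
      rw [lt_div_iff₀ (by positivity)] at hr2
      rw [div_lt_iff₀ hl0]
      linarith
    have hrk0 : 0 < r * k / l := by positivity
    have hpos : ∀ s ∈ Ioo (-(1 / 4) : ℝ) (1 / 4), 0 < Nn (F' + s • H') := by
      intro s hs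
      rw [Nn_line, hF'1]
      have : Nn H' = 2 := by
        unfold Nn
        rw [hH1, hH2]
        norm_num
      rw [this]
      linarith [(n_bounds (n1_le hF'1 hH1 hH2) hs).1]
    have m1 : (-(r * k / l)) ∈ Ioo (-(1 / 4) : ℝ) (1 / 4) := ⟨by linarith, by linarith⟩
    have m2 : (r * k / l) ∈ Ioo (-(1 / 4) : ℝ) (1 / 4) := ⟨by linarith, by linarith⟩
    have m0 : (0 : ℝ) ∈ Ioo (-(1 / 4) : ℝ) (1 / 4) := ⟨by norm_num, by norm_num⟩
    have h1 := hconv.2 m1 m2 (show (0 : ℝ) ≤ 1 / 2 by norm_num) (show (0 : ℝ) ≤ 1 / 2 by norm_num)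
      (by norm_num)
    simp only [smul_eq_mul] at h1
    have e0 : 1 / 2 * -(r * k / l) + 1 / 2 * (r * k / l) = 0 := by ring
    rw [e0] at h1
    have r0 : F = l • (F' + (0 : ℝ) • H') := by
      have := hrep 0
      simpa using this
    have r1 := hrep (-r)
    have r2 := hrep r
    have e1 : -r * k / l = -(r * k / l) := by ring
    rw [e1] at r1
    rw [r1, r2]
    have q0 : Qe c C ε w F = l ^ (2 + ε) * Qe c C ε w (F' + (0 : ℝ) • H') := by
      rw [← Qe_smul hw hl0 (hpos 0 m0), ← r0]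
    rw [q0, Qe_smul hw hl0 (hpos _ m1), Qe_smul hw hl0 (hpos _ m2)]
    have hlp : 0 < l ^ (2 + ε) := Real.rpow_pos_of_pos hl0 _
    nlinarith

theorem Qe_cont {c C ε : ℝ} {w : ℂ × ℂ → ℝ} (hε : 0 < ε) (hw : Continuous w) :
    Continuous (Qe c C ε w) := by
  have hN : Continuous Nn := by
    unfold Nn
    fun_prop
  have hD : Continuous Dt := by
    unfold Dt
    fun_prop
  have hp : Continuous (fun F => Nn F ^ (ε / 2)) :=
    hN.rpow_const (fun _ => Or.inr (by linarith))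
  have hp2 : Continuous (fun F => Nn F ^ (1 + ε / 2)) :=
    hN.rpow_const (fun _ => Or.inr (by linarith))
  have hN0 : ∀ F, 0 ≤ Nn F := fun F => by
    unfold Nn
    positivity
  have hlog : Continuous (fun F => Real.log (Nn F) * Nn F ^ (ε / 2)) := by
    have h1 : (fun F => Real.log (Nn F) * Nn F ^ (ε / 2))
        = fun F => (2 / ε) * (Nn F ^ (ε / 2) * Real.log (Nn F ^ (ε / 2))) := by
      funext F
      rcases eq_or_lt_of_le (hN0 F) with h | h
      · rw [← h, Real.zero_rpow (by linarith)]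
        simp
      · rw [Real.log_rpow h]
        field_simp
    rw [h1]
    exact (Real.continuous_mul_log.comp hp).const_mul _
  have h2 : Qe c C ε w = fun F => Nn F ^ (ε / 2) * w F
      + c * Dt F * ((2 / ε) * Nn F ^ (ε / 2) - Real.log (Nn F) * Nn F ^ (ε / 2))
      + C * ε * Nn F ^ (1 + ε / 2) := by
    funext F
    rw [Qe_eq]
    ring
  rw [h2]
  fun_prop

theorem chord {c C ε : ℝ} {w : ℂ × ℂ → ℝ} (hcont : Continuous (Qe c C ε w))
    (hm : ∀ F H : ℂ × ℂ, F ≠ 0 → ‖H.1‖ = ‖H.2‖ → ∃ δ : ℝ, 0 < δ ∧ ∀ r, 0 < r → r < δ →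
      2 * Qe c C ε w F ≤ Qe c C ε w (F + (-r) • H) + Qe c C ε w (F + r • H))
    {F K : ℂ × ℂ} (hK : ‖K.1‖ = ‖K.2‖) (hne : ∀ t : ℝ, F + t • K ≠ 0) :
    ∀ t ∈ Icc (0 : ℝ) 1,
      Qe c C ε w (F + t • K) ≤ (1 - t) * Qe c C ε w F + t * Qe c C ε w (F + K) := by
  set Q := Qe c C ε w with hQ
  have hline : Continuous (fun t : ℝ => Q (F + t • K)) := hcont.comp (by fun_prop)
  have key := max_princ (ψ := fun t : ℝ => Q (F + t • K) - ((1 - t) * Q F + t * Q (F + K)))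
    (by
      apply Continuous.continuousOn
      exact hline.sub (by fun_prop))
    (by simp) (by simp)
    (by
      intro t h0 h1
      obtain ⟨δ, hδ, hδ2⟩ := hm (F + t • K) K (hne t) hK
      refine ⟨min (δ / 2) (min t (1 - t)), ?_, ?_, ?_, ?_⟩
      · exact lt_min (by linarith) (lt_min h0 (by linarith))
      · have := (min_le_right (δ / 2) (min t (1 - t))).trans (min_le_left _ _)
        linarith
      · have := (min_le_right (δ / 2) (min t (1 - t))).trans (min_le_right _ _)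
        linarith
      · set r := min (δ / 2) (min t (1 - t)) with hr
        have hr0 : 0 < r := lt_min (by linarith) (lt_min h0 (by linarith))
        have hrδ : r < δ := lt_of_le_of_lt (min_le_left _ _) (by linarith)
        have h2 := hδ2 r hr0 hrδ
        have e1 : F + t • K + (-r) • K = F + (t - r) • K := by
          rw [add_assoc, ← add_smul]
          congr 2
        have e2 : F + t • K + r • K = F + (t + r) • K := by
          rw [add_assoc, ← add_smul]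
        rw [e1, e2] at h2
        linarith)
  intro t ht
  have := key t ht
  beta_reduce at this
  linarith

theorem chord_all {c C ε : ℝ} {w : ℂ × ℂ → ℝ} (hcont : Continuous (Qe c C ε w))
    (hm : ∀ F H : ℂ × ℂ, F ≠ 0 → ‖H.1‖ = ‖H.2‖ → ∃ δ : ℝ, 0 < δ ∧ ∀ r, 0 < r → r < δ →
      2 * Qe c C ε w F ≤ Qe c C ε w (F + (-r) • H) + Qe c C ε w (F + r • H))
    {F K : ℂ × ℂ} (hK : ‖K.1‖ = ‖K.2‖) {t : ℝ} (ht : t ∈ Icc (0 : ℝ) 1) :
      Qe c C ε w (F + t • K) ≤ (1 - t) * Qe c C ε w F + t * Qe c C ε w (F + K) := by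
  rcases eq_or_ne K 0 with h0 | h0
  · rw [h0]
    simp only [smul_zero, add_zero]
    linarith
  by_cases hne : ∀ t : ℝ, F + t • K ≠ 0
  · exact chord hcont hm hK hne t ht
  · push Not at hne
    obtain ⟨t0, ht0⟩ := hne
    have hK2 : K.2 ≠ 0 := by
      intro hc
      apply h0
      have : ‖K.1‖ = 0 := by rw [hK, hc, norm_zero]
      exact Prod.ext (norm_eq_zero.1 this) hc
    set E : ℂ × ℂ := ((1 : ℂ), (0 : ℂ)) with hE
    have hstep : ∀ k : ℕ, Qe c C ε w (F + (1 / ((k : ℝ) + 1)) • E + t • K)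
        ≤ (1 - t) * Qe c C ε w (F + (1 / ((k : ℝ) + 1)) • E)
          + t * Qe c C ε w (F + (1 / ((k : ℝ) + 1)) • E + K) := by
      intro k
      apply chord hcont hm hK _ t ht
      intro s hs
      have hη : (0 : ℝ) < 1 / ((k : ℝ) + 1) := by positivity
      have h1 : F = -(t0 • K) := eq_neg_of_add_eq_zero_left ht0
      rw [h1] at hs
      have h2 : (-(t0 • K) + (1 / ((k : ℝ) + 1)) • E + s • K).2 = ((s - t0 : ℝ) : ℂ) * K.2 := by
        simp only [hE, Prod.snd_add, Prod.snd_neg, Prod.smul_snd, smul_zero, add_zero,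
          Complex.real_smul]
        push_cast
        ring
      have h3 : (((s - t0 : ℝ) : ℂ)) * K.2 = 0 := by
        rw [← h2, hs]
        rfl
      have h4 : s = t0 := by
        have := (mul_eq_zero.1 h3).resolve_right hK2
        have h5 : s - t0 = 0 := by exact_mod_cast this
        linarith
      rw [h4] at hs
      have h6 : (-(t0 • K) + (1 / ((k : ℝ) + 1)) • E + t0 • K) = (1 / ((k : ℝ) + 1)) • E := by
        abel
      rw [h6] at hs
      have h7 := congrArg Prod.fst hs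
      simp only [hE, Prod.smul_fst, Prod.fst_zero, Complex.real_smul, mul_one] at h7
      have h8 : (1 / ((k : ℝ) + 1)) = 0 := by exact_mod_cast h7
      linarith
    have hlim : Tendsto (fun k : ℕ => (1 / ((k : ℝ) + 1))) atTop (𝓝 0) :=
      tendsto_one_div_add_atTop_nhds_zero_nat
    have hL : ∀ G : ℂ × ℂ, Tendsto (fun k : ℕ => Qe c C ε w (F + (1 / ((k : ℝ) + 1)) • E + G))
        atTop (𝓝 (Qe c C ε w (F + G))) := by
      intro G
      have h1 : Continuous (fun η : ℝ => Qe c C ε w (F + η • E + G)) := hcont.comp (by fun_prop)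
      have h2 := (h1.tendsto 0).comp hlim
      simp only [zero_smul, add_zero] at h2
      exact h2
    have hL0 : Tendsto (fun k : ℕ => Qe c C ε w (F + (1 / ((k : ℝ) + 1)) • E))
        atTop (𝓝 (Qe c C ε w F)) := by
      have := hL 0
      simpa using this
    exact le_of_tendsto_of_tendsto' (hL (t • K)) ((hL0.const_mul _).add ((hL K).const_mul _)) hstep

theorem main : S_LGA := by
  intro c w hR hc hw
  obtain ⟨C, hC⟩ := local_unit (c := c) hR hc
  refine ⟨C, fun ε hε hε1 F H hH => ?_⟩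
  have hcont := Qe_cont (c := c) (C := C) hε hc
  have hm : ∀ F H : ℂ × ℂ, F ≠ 0 → ‖H.1‖ = ‖H.2‖ → ∃ δ : ℝ, 0 < δ ∧ ∀ r, 0 < r → r < δ →
      2 * Qe c C ε w F ≤ Qe c C ε w (F + (-r) • H) + Qe c C ε w (F + r • H) :=
    fun F H hF hH => midpoint hw (hC ε hε hε1) hF hH
  refine ⟨convex_univ, fun x _ y _ a b ha hb hab => ?_⟩
  have hK : ‖((y - x) • H).1‖ = ‖((y - x) • H).2‖ := by
    simp only [Prod.smul_fst, Prod.smul_snd, norm_smul, hH]
  have h1 := chord_all hcont hm (F := F + x • H) (K := (y - x) • H) hK (t := b)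
    ⟨hb, by linarith⟩
  have e1 : F + x • H + b • (y - x) • H = F + (a • x + b • y) • H := by
    rw [add_assoc, smul_smul, ← add_smul]
    congr 2
    simp only [smul_eq_mul]
    have : a = 1 - b := by linarith
    rw [this]
    ring
  have e2 : F + x • H + (y - x) • H = F + y • H := by
    rw [add_assoc, ← add_smul]
    congr 2
    ring
  rw [e1, e2] at h1
  have e3 : 1 - b = a := by linarith
  rw [e3] at h1
  simpa only [smul_eq_mul] using h1

end Pool.Agent.R222.GH.Lga
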