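import Pool.Agent.R222.GH.Stm2
import Pool.Agent.R222.VI.Fin
import Pool.Agent.W360.MQ.All

/-! # The Morrey inequality at one point -/

set_option autoImplicit false

namespace Pool.Agent.R222.GH

open MeasureTheory Set Filter Topology
open Pool.Agent.Y273.VI (Dat Tm T_meas meas_W pt_int pt_bd det_cab)
open Pool.Agent.W360.MQ (cab)
open Pool.Agent.TH937.ZC (gf)
open Pool.Agent.W523.MQ.OM (T)
open Pool.Agent.W978.MQ (G)

/-- the Morrey inequality at `F₀` -/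
def MP (S : ℂ × ℂ → ℝ) (F₀ : Matrix (Fin 2) (Fin 2) ℝ) : Prop :=
  ∀ (Ω : Set (Fin 2 → ℝ)) (ϑ : (Fin 2 → ℝ) → (Fin 2 → ℝ)), Tm Ω ϑ →
    (∀ᵐ x ∂(volume.restrict Ω), ‖(T F₀ (fderiv ℝ ϑ x)).2‖ < ‖(T F₀ (fderiv ℝ ϑ x)).1‖) →
    ∫⁻ x in Ω, ENNReal.ofReal (S (T F₀ (fderiv ℝ ϑ x))) ≠ ⊤ →
    IntegrableOn (fun x => S (T F₀ (fderiv ℝ ϑ x))) Ω ∧
      S (cab F₀) * (volume Ω).toReal ≤ ∫ x in Ω, S (T F₀ (fderiv ℝ ϑ x))

theorem G_ineq {w : ℂ × ℂ → ℝ} (hw : G w) (F₀ : Matrix (Fin 2) (Fin 2) ℝ)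
    {Ω : Set (Fin 2 → ℝ)} {ϑ : (Fin 2 → ℝ) → (Fin 2 → ℝ)} (h : Tm Ω ϑ) :
    w (cab F₀) * (volume Ω).toReal ≤ ∫ x in Ω, w (T F₀ (fderiv ℝ ϑ x)) :=
  Pool.Agent.W360.MQ.All.om w hw.1 hw.2 F₀ Ω h.op h.bd ϑ h.lip h.zero

/-- quasiconvex functions -/
theorem MP_G {w : ℂ × ℂ → ℝ} (hw : G w) (F₀ : Matrix (Fin 2) (Fin 2) ℝ) : MP w F₀ :=
  fun _ _ h _ _ => ⟨pt_int hw.1 F₀ h, G_ineq hw F₀ h⟩

theorem Dt_cont : Continuous Dt := by unfold Dt; fun_prop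

theorem Dt_G (c : ℝ) : G (fun F => c * Dt F) :=
  ⟨continuous_const.mul Dt_cont, Pool.Agent.W925.MQ.Det.main c⟩

theorem Dt_int (F₀ : Matrix (Fin 2) (Fin 2) ℝ) {Ω : Set (Fin 2 → ℝ)}
    {ϑ : (Fin 2 → ℝ) → (Fin 2 → ℝ)} (h : Tm Ω ϑ) :
    ∫ x in Ω, Dt (T F₀ (fderiv ℝ ϑ x)) = Dt (cab F₀) * (volume Ω).toReal := by
  have h1 := G_ineq (Dt_G 1) F₀ h
  have h2 := G_ineq (Dt_G (-1)) F₀ h
  simp only [one_mul, neg_mul, integral_neg] at h1 h2
  linarith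

/-- addition of a null Lagrangian -/
theorem MP_add {S : ℂ × ℂ → ℝ} {F₀ : Matrix (Fin 2) (Fin 2) ℝ} (hS : MP S F₀) (β γ : ℝ) :
    MP (fun F => S F + (β * Dt F + γ)) F₀ := by
  intro Ω ϑ h hpos hfin
  have hc : Continuous (fun F : ℂ × ℂ => β * Dt F + γ) :=
    (continuous_const.mul Dt_cont).add continuous_const
  obtain ⟨C, hC⟩ := pt_bd hc F₀ h
  have hconst : ∫⁻ _ in Ω, ENNReal.ofReal C ≠ ⊤ := by
    rw [setLIntegral_const]
    exact ENNReal.mul_ne_top ENNReal.ofReal_ne_top h.fin.ne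
  have hfin2 : ∫⁻ x in Ω, ENNReal.ofReal (S (T F₀ (fderiv ℝ ϑ x))) ≠ ⊤ := by
    have h1 : ∫⁻ x in Ω, ENNReal.ofReal (S (T F₀ (fderiv ℝ ϑ x)))
        ≤ ∫⁻ x in Ω, (ENNReal.ofReal (S (T F₀ (fderiv ℝ ϑ x))
          + (β * Dt (T F₀ (fderiv ℝ ϑ x)) + γ)) + ENNReal.ofReal C) := by
      refine lintegral_mono fun x => ?_
      refine (ENNReal.ofReal_le_ofReal ?_).trans ENNReal.ofReal_add_le
      have h2 := hC x
      rw [Real.norm_eq_abs, abs_le] at h2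
      linarith [h2.1]
    rw [lintegral_add_right _ measurable_const] at h1
    exact ne_top_of_le_ne_top (ENNReal.add_ne_top.2 ⟨hfin, hconst⟩) h1
  obtain ⟨i1, i2⟩ := hS Ω ϑ h hpos hfin2
  have i3 : IntegrableOn (fun x => β * Dt (T F₀ (fderiv ℝ ϑ x)) + γ) Ω := pt_int hc F₀ h
  have i4 : IntegrableOn (fun x => β * Dt (T F₀ (fderiv ℝ ϑ x))) Ω :=
    pt_int (continuous_const.mul Dt_cont) F₀ h
  have i5 : IntegrableOn (fun _ : Fin 2 → ℝ => γ) Ω := integrableOn_const h.fin.ne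
  refine ⟨i1.add i3, ?_⟩
  have e : ∫ x in Ω, (S (T F₀ (fderiv ℝ ϑ x)) + (β * Dt (T F₀ (fderiv ℝ ϑ x)) + γ))
      = (∫ x in Ω, S (T F₀ (fderiv ℝ ϑ x))) + (β * (Dt (cab F₀) * (volume Ω).toReal)
        + (volume Ω).toReal * γ) := by
    rw [integral_add i1 i3, integral_add i4 i5, integral_const_mul, Dt_int F₀ h,
      setIntegral_const, smul_eq_mul, Measure.real]
  rw [e]
  linarith

/-- the supports `a(v) s + b(v)` -/
theorem MP_dat {a b : ℝ → ℝ} {F₀ : Matrix (Fin 2) (Fin 2) ℝ}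
    (hcv : ∀ s, ConvexOn ℝ (Ioc 0 s) (fun v => a v * s + b v)) {r : ℝ} (hr : 0 < r)
    (hr0 : r < ‖(cab F₀).1‖ - ‖(cab F₀).2‖)
    (hd : ∀ ρ, r < ρ → ρ ≤ ‖(cab F₀).1‖ - ‖(cab F₀).2‖ →
      ∃ A B, HasDerivAt a A ρ ∧ HasDerivAt b B ρ ∧ |B| ≤ a ρ - ρ * A) : MP (gf a b) F₀ := by
  intro Ω ϑ h hpos hfin
  have hm := meas_W hcv F₀ hpos
  set v0 : ℝ := ‖(cab F₀).1‖ - ‖(cab F₀).2‖ with hv0
  set s0 : ℝ := ‖(cab F₀).1‖ + ‖(cab F₀).2‖ with hs0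
  have hv0p : 0 < v0 := by linarith
  have hvs : v0 ≤ s0 := by rw [hv0, hs0]; linarith [norm_nonneg (cab F₀).2]
  have hdat : ∀ ρ, r < ρ → ρ < v0 → ∃ A B, Dat a b ρ A B := by
    intro ρ h1 h2
    obtain ⟨A, B, d1, d2, d3⟩ := hd ρ h1 h2.le
    exact ⟨A, B, hcv, by linarith, d1, d2, d3⟩
  have key : ∀ ρ A B, ρ < v0 → Dat a b ρ A B →
      IntegrableOn (fun x => gf a b (T F₀ (fderiv ℝ ϑ x))) Ω ∧
      ((a ρ + A * (v0 - ρ)) * s0 + (b ρ + B * (v0 - ρ))) * (volume Ω).toReal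
        ≤ ∫ x in Ω, gf a b (T F₀ (fderiv ℝ ϑ x)) := fun ρ A B h1 D => D.main h h1 hpos hfin hm
  set r1 : ℝ := (r + v0) / 2 with hr1
  obtain ⟨A1, B1, D1⟩ := hdat r1 (by linarith) (by linarith)
  refine ⟨(key r1 A1 B1 (by linarith) D1).1, ?_⟩
  set I : ℝ := ∫ x in Ω, gf a b (T F₀ (fderiv ℝ ϑ x)) with hI
  set f : ℝ → ℝ := fun v => a v * s0 + b v with hf
  have hfc : ContinuousAt f v0 := by
    obtain ⟨A, B, d1, d2, -⟩ := hd v0 hr0 le_rfl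
    exact ((d1.mul_const s0).add d2).continuousAt
  set L : ℝ → ℝ := fun ρ => f ρ + (v0 - ρ) * ((f ρ - f r1) / (ρ - r1)) with hL
  have hLc : ContinuousAt L v0 := by
    have h1 : ContinuousAt (fun ρ : ℝ => ρ - r1) v0 := by fun_prop
    have h2 : ContinuousAt (fun ρ : ℝ => v0 - ρ) v0 := by fun_prop
    exact hfc.add (h2.mul ((hfc.sub continuousAt_const).div h1 (by rw [hr1]; linarith)))
  have hL0 : L v0 = f v0 := by simp [hL]
  have hLle : ∀ ρ A B, r1 < ρ → ρ < v0 → Dat a b ρ A B →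
      L ρ ≤ (a ρ + A * (v0 - ρ)) * s0 + (b ρ + B * (v0 - ρ)) := by
    intro ρ A B h1 h2 D
    have hd : HasDerivAt f (A * s0 + B) ρ := (D.dA.mul_const s0).add D.dB
    have h3 := (hcv s0).slope_le_of_hasDerivAt (x := r1) (y := ρ)
      ⟨by linarith, by linarith⟩ ⟨D.ρ0, by linarith⟩ h1 hd
    rw [slope_def_field] at h3
    have h4 := mul_le_mul_of_nonneg_left h3 (by linarith : 0 ≤ v0 - ρ)
    simp only [hL]
    refine (add_le_add le_rfl h4).trans (le_of_eq ?_)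
    simp only [hf]
    ring
  have hvol : 0 ≤ (volume Ω).toReal := ENNReal.toReal_nonneg
  have hgoal : f v0 * (volume Ω).toReal ≤ I := by
    refine le_of_forall_pos_le_add fun ε hε => ?_
    set η : ℝ := ε / ((volume Ω).toReal + 1) with hη
    have hη0 : 0 < η := by positivity
    have h1 : ∀ᶠ ρ in 𝓝 v0, L v0 - η < L ρ := hLc.eventually (lt_mem_nhds (by linarith))
    obtain ⟨δ, hδ, h2⟩ := Metric.eventually_nhds_iff.1 h1
    obtain ⟨ρ, h3, h4⟩ := exists_between (show max r1 (v0 - δ) < v0 from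
      max_lt (by linarith) (by linarith))
    have h33 : r1 < ρ := lt_of_le_of_lt (le_max_left _ _) h3
    obtain ⟨A, B, D⟩ := hdat ρ (by linarith) h4
    have h5 := h2 (y := ρ) (by
      rw [Real.dist_eq, abs_of_nonpos (by linarith)]
      have := (le_max_right r1 (v0 - δ)).trans_lt h3
      linarith)
    have h6 := hLle ρ A B h33 h4 D
    have h7 := (key ρ A B h4 D).2
    have h8 := mul_le_mul_of_nonneg_right (h5.le.trans h6) hvol
    rw [hL0] at h8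
    have h9 : η * (volume Ω).toReal ≤ ε := by
      rw [hη, div_mul_eq_mul_div, div_le_iff₀ (by positivity)]
      nlinarith
    linarith
  exact hgoal

/-- from a support to the function -/
theorem MP_le {w S : ℂ × ℂ → ℝ} {F₀ : Matrix (Fin 2) (Fin 2) ℝ} (hS : MP S F₀)
    (hw : ContinuousOn w {F : ℂ × ℂ | ‖F.2‖ < ‖F.1‖}) (hle : ∀ F, Pos F → S F ≤ w F)
    (heq : S (cab F₀) = w (cab F₀)) : MP w F₀ := by
  intro Ω ϑ ht hpos hfin
  have hP : IsOpen {F : ℂ × ℂ | ‖F.2‖ < ‖F.1‖} := isOpen_lt (by fun_prop) (by fun_prop)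
  have hm : AEStronglyMeasurable (fun x => w (T F₀ (fderiv ℝ ϑ x))) (volume.restrict Ω) := by
    classical
    have hm := ContinuousOn.measurable_piecewise hw
      (continuousOn_const (c := (0 : ℝ)) (s := {F : ℂ × ℂ | ‖F.2‖ < ‖F.1‖}ᶜ)) hP.measurableSet
    have hm2 := (hm.comp (T_meas F₀ ϑ)).aestronglyMeasurable (μ := volume.restrict Ω)
    refine hm2.congr ?_
    filter_upwards [hpos] with x hx
    have hx' : T F₀ (fderiv ℝ ϑ x) ∈ {F : ℂ × ℂ | ‖F.2‖ < ‖F.1‖} := hx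
    simp only [Function.comp]
    rw [Set.piecewise_eq_of_mem _ _ _ hx']
  have hfin2 : ∫⁻ x in Ω, ENNReal.ofReal (S (T F₀ (fderiv ℝ ϑ x))) ≠ ⊤ := by
    have h1 : ∫⁻ x in Ω, ENNReal.ofReal (S (T F₀ (fderiv ℝ ϑ x)))
        ≤ ∫⁻ x in Ω, ENNReal.ofReal (w (T F₀ (fderiv ℝ ϑ x))) := by
      refine lintegral_mono_ae ?_
      filter_upwards [hpos] with x hx
      exact ENNReal.ofReal_le_ofReal (hle _ hx)
    exact ne_top_of_le_ne_top hfin h1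
  obtain ⟨i1, i2⟩ := hS Ω ϑ ht hpos hfin2
  have hWp : Integrable (fun x => max (w (T F₀ (fderiv ℝ ϑ x))) 0) (volume.restrict Ω) := by
    refine ⟨hm.sup aestronglyMeasurable_const, ?_⟩
    have hp0 : 0 ≤ᵐ[volume.restrict Ω] fun x => max (w (T F₀ (fderiv ℝ ϑ x))) 0 :=
      Eventually.of_forall fun x => le_max_right _ _
    rw [hasFiniteIntegral_iff_ofReal hp0]
    have e : ∀ x, ENNReal.ofReal (max (w (T F₀ (fderiv ℝ ϑ x))) 0)
        = ENNReal.ofReal (w (T F₀ (fderiv ℝ ϑ x))) := by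
      intro x
      rcases le_total (w (T F₀ (fderiv ℝ ϑ x))) 0 with h1 | h1
      · rw [max_eq_right h1, ENNReal.ofReal_of_nonpos h1, ENNReal.ofReal_zero]
      · rw [max_eq_left h1]
    simp only [e]
    exact lt_top_iff_ne_top.2 hfin
  have hWi : Integrable (fun x => w (T F₀ (fderiv ℝ ϑ x))) (volume.restrict Ω) := by
    refine Integrable.mono' (hWp.add i1.abs) hm ?_
    filter_upwards [hpos] with x hx
    have h0 := hle _ hx
    rw [Real.norm_eq_abs, Pi.add_apply]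
    rcases le_total 0 (w (T F₀ (fderiv ℝ ϑ x))) with h1 | h1
    · rw [abs_of_nonneg h1]
      have := le_max_left (w (T F₀ (fderiv ℝ ϑ x))) 0
      have := abs_nonneg (S (T F₀ (fderiv ℝ ϑ x)))
      linarith
    · rw [abs_of_nonpos h1]
      have := le_max_right (w (T F₀ (fderiv ℝ ϑ x))) 0
      have := neg_abs_le (S (T F₀ (fderiv ℝ ϑ x)))
      linarith
  refine ⟨hWi, ?_⟩
  rw [← heq]
  refine i2.trans (integral_mono_ae i1 hWi ?_)
  filter_upwards [hpos] with x hx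
  exact hle _ hx

end Pool.Agent.R222.GH
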