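import Pool.Agent.R222.GH.Stm4
import Pool.Agent.R222.GH.Mp
import Pool.Agent.W707.HM.All
import Pool.Agent.Helper188.Morrey.Basic
import Pool.Agent.Y273.VI.Rc
import Pool.Agent.W74.MQ.OPN
import Pool.Agent.R860.LG.Real

/-!
# Isotropic functions on real `2 × 2` matrices which are homogeneous of degree two up to a logarithm

They are limits of functions homogeneous of degree `2 + ε`, up to multiples of the determinant.
-/

set_option autoImplicit false

namespace Pool.Agent.R222.GH.Logm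

open MeasureTheory Set Filter Topology
open Pool.Agent.Y273.VI (Tm T_meas pt_int pt_bd det_bac rank_bac)
open Pool.Agent.W360.MQ (cab RankOneConvex Quasiconvex)
open Pool.Agent.W707.HM (Isotropic Homog)
open Pool.Agent.TH937.TF (bac cab_bac cont_bac)
open Pool.Agent.TH937.ZC (bac_add bac_smul)
open Pool.Agent.W523.MQ.OM (T)
open Pool.Agent.R860.LG

theorem bac_cab (A : Matrix (Fin 2) (Fin 2) ℝ) : bac (cab A) = A := by
  obtain ⟨e00, e11, e10, e01⟩ := Pool.Agent.W22.HM.entries A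
  unfold bac
  rw [Complex.add_re, Complex.sub_im, Complex.add_im, Complex.sub_re, ← e00, ← e10, ← e11]
  ext i j
  fin_cases i <;> fin_cases j <;> simp
  rw [e01]

theorem cab_smul (l : ℝ) (A : Matrix (Fin 2) (Fin 2) ℝ) : cab (l • A) = l • cab A := by
  have h : bac (l • cab A) = l • A := by rw [bac_smul, bac_cab]
  rw [← h, cab_bac]

theorem cab_add' (A B : Matrix (Fin 2) (Fin 2) ℝ) : cab (A + B) = cab A + cab B := by
  have h : bac (cab A + cab B) = A + B := by rw [bac_add, bac_cab, bac_cab]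
  rw [← h, cab_bac]

theorem Dt_cab (A : Matrix (Fin 2) (Fin 2) ℝ) : Dt (cab A) = A.det := by
  have := det_bac (cab A)
  rw [bac_cab] at this
  exact this.symm

theorem N_cab (A : Matrix (Fin 2) (Fin 2) ℝ) :
    ‖(cab A).1‖ ^ 2 + ‖(cab A).2‖ ^ 2 = (A * A.transpose).trace / 2 := by
  obtain ⟨e00, e11, e10, e01⟩ := Pool.Agent.W22.HM.entries A
  rw [← Complex.normSq_eq_norm_sq, ← Complex.normSq_eq_norm_sq, Complex.normSq_apply,
    Complex.normSq_apply, Matrix.trace_fin_two, Matrix.mul_apply, Matrix.mul_apply,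
    Fin.sum_univ_two, Fin.sum_univ_two]
  simp only [Matrix.transpose_apply]
  rw [e00, e11, e10, e01]
  ring

theorem N_iso (R Q A : Matrix (Fin 2) (Fin 2) ℝ)
    (hR : R ∈ Matrix.specialOrthogonalGroup (Fin 2) ℝ)
    (hQ : Q ∈ Matrix.specialOrthogonalGroup (Fin 2) ℝ) :
    ‖(cab (R * A * Q)).1‖ ^ 2 + ‖(cab (R * A * Q)).2‖ ^ 2
      = ‖(cab A).1‖ ^ 2 + ‖(cab A).2‖ ^ 2 := by
  rw [Matrix.mem_specialOrthogonalGroup_iff] at hR hQ
  have hR' : R.transpose * R = 1 := by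
    have := (Matrix.mem_orthogonalGroup_iff' (Fin 2) ℝ).1 hR.1
    simpa [Matrix.star_eq_conjTranspose] using this
  have hQ' : Q * Q.transpose = 1 := by
    have := (Matrix.mem_orthogonalGroup_iff (Fin 2) ℝ).1 hQ.1
    simpa [Matrix.star_eq_conjTranspose] using this
  rw [N_cab, N_cab]
  congr 1
  have e : R * A * Q * (R * A * Q).transpose = R * (A * A.transpose) * R.transpose := by
    rw [Matrix.transpose_mul, Matrix.transpose_mul]
    calc R * A * Q * (Q.transpose * (A.transpose * R.transpose))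
        = R * A * (Q * Q.transpose) * (A.transpose * R.transpose) := by
          simp only [Matrix.mul_assoc]
      _ = _ := by rw [hQ', Matrix.mul_one]; simp only [Matrix.mul_assoc]
  rw [e, Matrix.trace_mul_comm, ← Matrix.mul_assoc, hR', Matrix.one_mul]

theorem det_iso (R Q A : Matrix (Fin 2) (Fin 2) ℝ)
    (hR : R ∈ Matrix.specialOrthogonalGroup (Fin 2) ℝ)
    (hQ : Q ∈ Matrix.specialOrthogonalGroup (Fin 2) ℝ) : (R * A * Q).det = A.det := by
  rw [Matrix.mem_specialOrthogonalGroup_iff] at hR hQ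
  rw [Matrix.det_mul, Matrix.det_mul, hR.2, hQ.2, one_mul, mul_one]

theorem abs_Dt_le (F : ℂ × ℂ) : |Dt F| ≤ ‖F.1‖ ^ 2 + ‖F.2‖ ^ 2 := by
  unfold Dt
  rw [abs_le]
  constructor <;> nlinarith [sq_nonneg ‖F.1‖, sq_nonneg ‖F.2‖]

theorem Qe_ge (c C : ℝ) {ε : ℝ} (h : ε ≠ 0) (w : ℂ × ℂ → ℝ) (F : ℂ × ℂ) :
    Qe c C ε w F - 2 * c / ε * Dt F = ge c C ε (‖F.1‖ ^ 2 + ‖F.2‖ ^ 2) (w F) (Dt F) := by
  unfold Qe ge
  field_simp
  ring

variable {c : ℝ} {W : Matrix (Fin 2) (Fin 2) ℝ → ℝ}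

theorem rca (hR : RankOneConvex W) : RCa (fun F => W (bac F)) := by
  intro F H hH
  have hRh : Pool.Agent.Helper188.Morrey.RankOneConvex W := hR
  have hd : (bac H).det = 0 := by rw [det_bac, hH, sub_self]
  have h := hRh.line (bac F) (bac H) hd
  have e : (fun t : ℝ => W (bac (F + t • H))) = fun t : ℝ => W (bac F + t • bac H) := by
    funext t
    rw [bac_add, bac_smul]
  show ConvexOn ℝ univ (fun t : ℝ => W (bac (F + t • H)))
  rw [e]
  exact h

theorem roc {v : ℂ × ℂ → ℝ} (h : RCa v) : RankOneConvex (fun A => v (cab A)) := by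
  intro F H hH t h0 h1
  have hd : H.det = 0 := Pool.Agent.Helper188.Morrey.det_eq_zero_of_rank hH.le
  have hn : ‖(cab H).1‖ = ‖(cab H).2‖ := by
    have := Dt_cab H
    rw [hd] at this
    unfold Dt at this
    have h2 : ‖(cab H).1‖ ^ 2 = ‖(cab H).2‖ ^ 2 := by linarith
    exact (sq_eq_sq₀ (norm_nonneg _) (norm_nonneg _)).1 h2
  have h3 := (h (cab F) (cab H) hn).2 (mem_univ (0 : ℝ)) (mem_univ (1 : ℝ))
    (sub_nonneg.2 h1) h0 (by ring)
  simp only [smul_eq_mul, mul_zero, mul_one, zero_add, zero_smul, one_smul, add_zero] at h3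
  have e : (1 - t) • F + t • (F + H) = F + t • H := by
    rw [smul_add, sub_smul, one_smul]; abel
  show v (cab ((1 - t) • F + t • (F + H))) ≤ (1 - t) * v (cab F) + t * v (cab (F + H))
  rw [e, cab_add', cab_smul, cab_add']
  exact h3

theorem iso_Qe (C ε : ℝ) (hI : Isotropic W) :
    Isotropic (fun A => Qe c C ε (fun F => W (bac F)) (cab A)) := by
  intro R hR Q hQ A
  show Qe c C ε (fun F => W (bac F)) (cab (R * A * Q)) = Qe c C ε (fun F => W (bac F)) (cab A)
  unfold Qe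
  beta_reduce
  rw [N_iso R Q A hR hQ, Dt_cab, Dt_cab, det_iso R Q A hR hQ, bac_cab, bac_cab, hI R hR Q hQ A]

theorem hom_Qe (C : ℝ) {ε : ℝ} (hε : 0 < ε)
    (hH : ∀ l : ℝ, 0 < l → ∀ A, W (l • A) = l ^ 2 * W A + 2 * c * l ^ 2 * Real.log l * A.det) :
    Homog (2 + ε) (fun A => Qe c C ε (fun F => W (bac F)) (cab A)) := by
  intro l hl A
  show Qe c C ε (fun F => W (bac F)) (cab (l • A))
    = l ^ (2 + ε) * Qe c C ε (fun F => W (bac F)) (cab A)
  have hN0 : 0 ≤ ‖(cab A).1‖ ^ 2 + ‖(cab A).2‖ ^ 2 := by positivity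
  have e1 : ‖(cab (l • A)).1‖ ^ 2 + ‖(cab (l • A)).2‖ ^ 2
      = l ^ 2 * (‖(cab A).1‖ ^ 2 + ‖(cab A).2‖ ^ 2) := by
    rw [N_cab, N_cab, Matrix.transpose_smul, Matrix.smul_mul, Matrix.mul_smul, Matrix.trace_smul,
      Matrix.trace_smul]
    simp only [smul_eq_mul]
    ring
  have e2 : (l • A).det = l ^ 2 * A.det := by
    rw [Matrix.det_smul, Fintype.card_fin]
  unfold Qe
  beta_reduce
  rw [e1, Dt_cab, Dt_cab, e2, bac_cab, bac_cab, hH l hl A]
  have hl2 : l ^ (2 + ε) = l ^ 2 * l ^ ε := by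
    rw [Real.rpow_add hl, Real.rpow_two]
  have hD := abs_Dt_le (cab A)
  rw [Dt_cab] at hD
  generalize ‖(cab A).1‖ ^ 2 + ‖(cab A).2‖ ^ 2 = N at hN0 hD
  rcases hN0.eq_or_lt with h | h
  · rw [← h, mul_zero, Real.zero_rpow (by positivity), Real.zero_rpow (by positivity)]
    ring
  have p1 : (l ^ 2 * N) ^ (ε / 2) = l ^ ε * N ^ (ε / 2) := by
    rw [Real.mul_rpow (by positivity) h.le, ← Real.rpow_natCast, ← Real.rpow_mul hl.le]
    congr 2
    push_cast
    ring
  have p2 : (l ^ 2 * N) ^ (1 + ε / 2) = l ^ 2 * l ^ ε * N ^ (1 + ε / 2) := by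
    rw [Real.rpow_add (by positivity), Real.rpow_one, p1, Real.rpow_add h, Real.rpow_one]
    ring
  have p3 : Real.log (l ^ 2 * N) = 2 * Real.log l + Real.log N := by
    rw [Real.log_mul (by positivity) h.ne', Real.log_pow]
    push_cast
    ring
  rw [p1, p2, p3, hl2]
  ring

theorem main (hA : S_LGA) : S_LOGM := by
  intro c W hI hH hR F₀ Ω hop hbd ϑ hlip hzero
  have ht : Tm Ω ϑ := ⟨hop, hbd, hlip, hzero⟩
  have hRh : Pool.Agent.Helper188.Morrey.RankOneConvex W := hR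
  have hWc : Continuous W := hRh.continuous
  have hwc : Continuous (fun F : ℂ × ℂ => W (bac F)) := hWc.comp cont_bac
  obtain ⟨C, hC⟩ := hA c (fun F => W (bac F)) (rca hR) hwc (by
    intro l hl F
    show W (bac (l • F)) = _
    rw [bac_smul, hH l hl, det_bac]
    rfl)
  have hW0 : W 0 = 0 := by
    have h := hH 2 (by norm_num) 0
    rw [smul_zero, Matrix.det_zero] at h
    linarith
  set w : ℂ × ℂ → ℝ := fun F => W (bac F) with hw
  -- continuity of the approximations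
  have hQc : ∀ ε, 0 < ε → ε < 1 → Continuous (Qe c C ε w) := by
    intro ε h0 h1
    have h2 : Pool.Agent.Helper188.Morrey.RankOneConvex (fun A => Qe c C ε w (cab A)) :=
      roc (hC ε h0 h1)
    have h3 := h2.continuous.comp cont_bac
    have e : (fun A => Qe c C ε w (cab A)) ∘ bac = Qe c C ε w := by
      funext F
      simp only [Function.comp, cab_bac]
    rwa [e] at h3
  have hGc : ∀ ε, 0 < ε → ε < 1 → Continuous (fun F => Qe c C ε w F - 2 * c / ε * Dt F) :=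
    fun ε h0 h1 => (hQc ε h0 h1).sub (continuous_const.mul Dt_cont)
  -- the inequality for the approximations
  have hG : ∀ ε, 0 < ε → ε < 1 →
      (Qe c C ε w (cab F₀) - 2 * c / ε * Dt (cab F₀)) * (volume Ω).toReal
        ≤ ∫ x in Ω, (Qe c C ε w (T F₀ (fderiv ℝ ϑ x)) - 2 * c / ε * Dt (T F₀ (fderiv ℝ ϑ x))) := by
    intro ε h0 h1
    have h2 : Quasiconvex (fun A => Qe c C ε w (cab A)) :=
      Pool.Agent.W707.HM.hm_main (2 + ε) _ (iso_Qe C ε hI) (hom_Qe C h0 hH) (roc (hC ε h0 h1))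
    have h3 : Qe c C ε w (cab F₀) * (volume Ω).toReal
        ≤ ∫ x in Ω, Qe c C ε w (T F₀ (fderiv ℝ ϑ x)) := h2 F₀ Ω hop hbd ϑ hlip hzero
    have h4 := Dt_int F₀ ht
    rw [integral_sub (pt_int (hQc ε h0 h1) F₀ ht)
      ((pt_int Dt_cont F₀ ht).const_mul _), integral_const_mul, h4]
    linarith
  -- the limit
  set e : ℕ → ℝ := fun n => 1 / ((n : ℝ) + 2) with he
  have he0 : ∀ n, 0 < e n := fun n => by rw [he]; positivity
  have he1 : ∀ n, e n < 1 := fun n => by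
    simp only [he]
    rw [div_lt_one (by positivity)]
    have : (0 : ℝ) ≤ n := Nat.cast_nonneg n
    linarith
  have het : Tendsto e atTop (𝓝 0) := by
    have h := tendsto_one_div_add_atTop_nhds_zero_nat (𝕜 := ℝ)
    have h2 := h.comp (tendsto_add_atTop_nat 1)
    refine h2.congr fun n => ?_
    simp only [Function.comp, he]
    push_cast
    congr 1
    ring
  have hz : ∀ F : ℂ × ℂ, ‖F.1‖ ^ 2 + ‖F.2‖ ^ 2 = 0 → w F = 0 := by
    intro F hF
    have h1 : ‖F.1‖ ^ 2 = 0 := by nlinarith [sq_nonneg ‖F.1‖, sq_nonneg ‖F.2‖]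
    have h2 : ‖F.2‖ ^ 2 = 0 := by nlinarith [sq_nonneg ‖F.1‖, sq_nonneg ‖F.2‖]
    have h3 : F = 0 := by
      refine Prod.ext ?_ ?_
      · exact norm_eq_zero.1 (pow_eq_zero_iff (two_ne_zero)|>.1 h1)
      · exact norm_eq_zero.1 (pow_eq_zero_iff (two_ne_zero)|>.1 h2)
    rw [hw, h3]
    have h4 : bac (0 : ℂ × ℂ) = 0 := by
      have := bac_smul 0 (0 : ℂ × ℂ)
      simpa using this
    show W (bac 0) = 0
    rw [h4, hW0]
  have hlim : ∀ F : ℂ × ℂ,
      Tendsto (fun n => Qe c C (e n) w F - 2 * c / e n * Dt F) atTop (𝓝 (w F)) := by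
    intro F
    have h := ge_tend c C (N := ‖F.1‖ ^ 2 + ‖F.2‖ ^ 2) (w := w F) (D := Dt F) (by positivity)
      (hz F) (abs_Dt_le F) het he0
    exact h.congr fun n => (Qe_ge c C (he0 n).ne' w F).symm
  set B : ℂ × ℂ → ℝ := fun F => (1 + (‖F.1‖ ^ 2 + ‖F.2‖ ^ 2)) * |w F|
    + |c| * (2 * (1 + (‖F.1‖ ^ 2 + ‖F.2‖ ^ 2) ^ 2) * (1 + (‖F.1‖ ^ 2 + ‖F.2‖ ^ 2)))
    + |C| * ((‖F.1‖ ^ 2 + ‖F.2‖ ^ 2) * (1 + (‖F.1‖ ^ 2 + ‖F.2‖ ^ 2))) with hB
  have hBc : Continuous B := by
    have : Continuous w := hwc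
    fun_prop
  have hbound : ∀ n (F : ℂ × ℂ), ‖Qe c C (e n) w F - 2 * c / e n * Dt F‖ ≤ B F := by
    intro n F
    rw [Real.norm_eq_abs, Qe_ge c C (he0 n).ne' w F]
    exact ge_bd c C (he0 n) (he1 n) (by positivity) (abs_Dt_le F)
  have hint : Tendsto (fun n => ∫ x in Ω, (Qe c C (e n) w (T F₀ (fderiv ℝ ϑ x))
      - 2 * c / e n * Dt (T F₀ (fderiv ℝ ϑ x)))) atTop
      (𝓝 (∫ x in Ω, w (T F₀ (fderiv ℝ ϑ x)))) := by
    refine tendsto_integral_of_dominated_convergence (fun x => B (T F₀ (fderiv ℝ ϑ x)))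
      (fun n => ?_) (pt_int hBc F₀ ht) (fun n => ?_) ?_
    · exact ((hGc _ (he0 n) (he1 n)).measurable.comp (T_meas F₀ ϑ)).aestronglyMeasurable
    · exact Eventually.of_forall fun x => hbound n _
    · exact Eventually.of_forall fun x => hlim _
  have hfin := le_of_tendsto_of_tendsto' ((hlim (cab F₀)).mul_const ((volume Ω).toReal)) hint
    (fun n => hG (e n) (he0 n) (he1 n))
  have e3 : ∀ A, w (cab A) = W A := fun A => by
    show W (bac (cab A)) = W A
    rw [bac_cab]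
  rw [e3 F₀] at hfin
  refine hfin.trans (le_of_eq ?_)
  refine integral_congr_ae (Eventually.of_forall fun x => ?_)
  exact e3 _

end Pool.Agent.R222.GH.Logm
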