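import Pool.Agent.R222.GH.Stm

/-!
# Isotropic homogeneous functions plus a function of the determinant, on all matrices: statements
-/

set_option autoImplicit false

namespace Pool.Agent.R222.GH

open MeasureTheory Set Filter Topology

/-- rank-one convexity on all matrices -/
def RCa (w : ℂ × ℂ → ℝ) : Prop :=
  ∀ F H : ℂ × ℂ, ‖H.1‖ = ‖H.2‖ → ConvexOn ℝ univ (fun t : ℝ => w (F + t • H))

/-- the passage through the determinant zero, `q ≠ 1` -/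
def S_KNK : Prop := ∀ (q κ : ℝ) (ψ k : ℝ → ℝ), q ≠ 0 → q ≠ 1 → 0 < κ →
  ConvexOn ℝ (Ioi 0) ψ → ConvexOn ℝ (Iio 0) ψ → ConvexOn ℝ (Ioi 0) k → ConvexOn ℝ (Iio 0) k →
  (∀ l, 0 < l → ConvexOn ℝ univ (fun t : ℝ => ψ t + κ * l ^ (-q) * k (l * t))) →
  ConvexOn ℝ univ ψ ∧ ConvexOn ℝ univ k

/-- the situation for `q = 1` -/
def KHyp (c1 c2 : ℝ) (k : ℝ → ℝ) (κ : ℝ) (ψ : ℝ → ℝ) : Prop :=
  0 < κ ∧ ConvexOn ℝ (Ioi 0) ψ ∧ ConvexOn ℝ (Iio 0) ψ ∧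
  ∀ l, 0 < l → ConvexOn ℝ univ (fun t : ℝ => ψ t + κ * (l⁻¹ * k (l * t)
    + Real.log (l / κ) * (c1 * max t 0 + c2 * max (-t) 0)))

/-- the passage through the determinant zero, `q = 1` -/
def S_KN1 : Prop := ∀ (k : ℝ → ℝ) (c1 c2 : ℝ), ConvexOn ℝ (Ioi 0) k → ConvexOn ℝ (Iio 0) k →
  (∃ κ ψ, KHyp c1 c2 k κ ψ) →
  c1 + c2 = 0 ∧ ∃ c' : ℝ, ConvexOn ℝ univ (fun t => k t - c' * |t|) ∧
    ∀ κ ψ, KHyp c1 c2 k κ ψ → ConvexOn ℝ univ (fun t => ψ t + κ * c' * |t|)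

/-- splitting for `q = 1` -/
def S_SP1 : Prop := ∀ g f : ℝ → ℝ, RC (iso (ew 1 g f)) →
  ∃ c : ℝ, ConvexOn ℝ (Ioi 0) (fun z => f z - c * (z * Real.log z)) ∧
    RC (iso (fun s v => s * v * g (s / v) + c * (s * v * Real.log (s * v))))

/-- the approximation of functions which are homogeneous of degree two up to a logarithm -/
noncomputable def Qe (c C ε : ℝ) (w : ℂ × ℂ → ℝ) (F : ℂ × ℂ) : ℝ :=
  (‖F.1‖ ^ 2 + ‖F.2‖ ^ 2) ^ (ε / 2) * w F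
    + c * Dt F * ((2 / ε - Real.log (‖F.1‖ ^ 2 + ‖F.2‖ ^ 2)) * (‖F.1‖ ^ 2 + ‖F.2‖ ^ 2) ^ (ε / 2))
    + C * ε * (‖F.1‖ ^ 2 + ‖F.2‖ ^ 2) ^ (1 + ε / 2)

def S_LGA : Prop := ∀ (c : ℝ) (w : ℂ × ℂ → ℝ), RCa w → Continuous w →
  (∀ l : ℝ, 0 < l → ∀ F, w (l • F) = l ^ 2 * w F + 2 * c * l ^ 2 * Real.log l * Dt F) →
  ∃ C : ℝ, ∀ ε, 0 < ε → ε < 1 → RCa (Qe c C ε w)

end Pool.Agent.R222.GH
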