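import Pool.Agent.R222.GH.Dua
import Pool.Agent.R222.GH.Stm3
import Pool.Agent.R222.VI.Dic

/-! # Splitting for `q = 1` (helper91) -/

set_option autoImplicit false

namespace Pool.Agent.R222.GH.Sp1

open MeasureTheory Set Filter Topology
open Pool.Agent.Y273.VI (RCp)

theorem RC_congr1 {w w' : ℂ × ℂ → ℝ} (h : ∀ F, Pos F → w F = w' F) (hR : RC w) : RC w' := by
  intro F H hH hF hFH t h0 h1
  have hp : Pos (F + t • H) := by
    rw [Dt_pos, Dt_line F H hH]
    have h2 := Dt_pos.1 (show Pos F from hF)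
    have h3 := Dt_pos.1 (show Pos (F + H) from hFH)
    rcases eq_or_lt_of_le h0 with h4 | h4
    · rw [← h4]; linarith
    · have := mul_pos h4 h3
      have := mul_nonneg (sub_nonneg.2 h1) h2.le
      linarith
  rw [← h _ hp, ← h F hF, ← h (F + H) hFH]
  exact hR F H hH hF hFH t h0 h1

theorem sv_pos1 {F : ℂ × ℂ} (h : Pos F) :
    0 < ‖F.1‖ - ‖F.2‖ ∧ ‖F.1‖ - ‖F.2‖ ≤ ‖F.1‖ + ‖F.2‖ := by
  have h' : ‖F.2‖ < ‖F.1‖ := h
  exact ⟨by linarith, by linarith [norm_nonneg F.2]⟩

theorem wv_sv1 (h f : ℝ → ℝ) (F : ℂ × ℂ) :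
    Pool.Agent.R222.VI.wv h f F = h ((‖F.1‖ + ‖F.2‖) / (‖F.1‖ - ‖F.2‖))
      + f ((‖F.1‖ + ‖F.2‖) * (‖F.1‖ - ‖F.2‖)) := by
  unfold Pool.Agent.R222.VI.wv Pool.Agent.R222.VI.Rt Pool.Agent.R222.VI.Dt
  congr 2
  ring

theorem persp {k : ℝ → ℝ} (hk : ConvexOn ℝ (Ioi 0) k) :
    ConvexOn ℝ (Ioi 0) (fun z => z * k (1 / z)) := by
  refine ⟨convex_Ioi 0, fun x hx y hy a b ha hb hab => ?_⟩
  have hx0 : (0 : ℝ) < x := hx
  have hy0 : (0 : ℝ) < y := hy
  simp only [smul_eq_mul]
  have hz : 0 < a * x + b * y := by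
    rcases ha.eq_or_lt with h | h
    · have : b = 1 := by linarith
      rw [← h, this]; linarith
    · have := mul_pos h hx0
      have := mul_nonneg hb hy0.le
      linarith
  set z := a * x + b * y with hzd
  have h1 := hk.2 (mem_Ioi.2 (show 0 < 1 / x by positivity))
    (mem_Ioi.2 (show 0 < 1 / y by positivity))
    (show 0 ≤ a * x / z by positivity) (show 0 ≤ b * y / z by positivity)
    (by rw [← add_div, ← hzd, div_self hz.ne'])
  simp only [smul_eq_mul] at h1
  have e1 : a * x / z * (1 / x) + b * y / z * (1 / y) = 1 / z := by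
    have e2 : a * x / z * (1 / x) = a / z := by field_simp
    have e3 : b * y / z * (1 / y) = b / z := by field_simp
    rw [e2, e3, ← add_div, hab]
  rw [e1] at h1
  have h2 := mul_le_mul_of_nonneg_left h1 hz.le
  refine h2.trans (le_of_eq ?_)
  have e4 : z * (a * x / z * k (1 / x) + b * y / z * k (1 / y)) =
      (z / z) * (a * x * k (1 / x) + b * y * k (1 / y)) := by ring
  rw [e4, div_self hz.ne']
  ring

theorem main : S_SP1 := by
  intro g f hR
  have hd1 := Dua.main _ hR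
  set f' : ℝ → ℝ := fun z => z * f (1 / z) with hf'
  have hgh : ∀ F, Pos F → iso (fun s v => s * v * ew 1 g f (1 / v) (1 / s)) F
      = Pool.Agent.R222.VI.wv g f' F := by
    intro F hFp
    rw [wv_sv1]
    unfold iso ew
    obtain ⟨h1, h2⟩ := sv_pos1 hFp
    set s := ‖F.1‖ + ‖F.2‖ with hs
    set v := ‖F.1‖ - ‖F.2‖ with hv
    have hs0 : 0 < s := by linarith
    have e1 : 1 / v * (1 / s) = 1 / (s * v) := by field_simp
    have e2 : 1 / v / (1 / s) = s / v := by field_simp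
    beta_reduce
    rw [e1, e2, Real.rpow_one]
    simp only [hf']
    field_simp
  have hRv : RCp (Pool.Agent.R222.VI.wv g f') := RC_congr1 hgh hd1
  obtain ⟨c0, hk, hRc⟩ := Pool.Agent.R222.VI.split hRv
  refine ⟨-c0, ?_, ?_⟩
  · refine (persp hk).congr fun z hz => ?_
    have hz0 : (0 : ℝ) < z := hz
    simp only [hf', one_div_one_div]
    rw [one_div, Real.log_inv]
    field_simp
  · have hRc' : RC (iso (fun s v => g (s / v) + c0 * Real.log (s * v))) := by
      refine RC_congr1 (fun F _ => ?_) hRc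
      rw [wv_sv1]
      rfl
    refine RC_congr1 (fun F hF => ?_) (Dua.main _ hRc')
    obtain ⟨h1, h2⟩ := sv_pos1 hF
    unfold iso
    set s := ‖F.1‖ + ‖F.2‖ with hs
    set v := ‖F.1‖ - ‖F.2‖ with hv
    have hs0 : 0 < s := by linarith
    beta_reduce
    have e1 : 1 / v * (1 / s) = (s * v)⁻¹ := by field_simp
    have e2 : 1 / v / (1 / s) = s / v := by field_simp
    rw [e1, e2, Real.log_inv]
    ring

end Pool.Agent.R222.GH.Sp1
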