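import Pool.Agent.R222.GH.HdM
import Pool.Agent.R222.GH.Knk
import Pool.Agent.R222.GH.Kn1
import Pool.Agent.R222.GH.Sp1
import Pool.Agent.R222.GH.Lga
import Pool.Agent.R222.GH.Logm

/-! # Project HD: all parts together -/

set_option autoImplicit false

namespace Pool.Agent.R222.GH

open Pool.Agent.W360.MQ (RankOneConvex Quasiconvex)
open Pool.Agent.W707.HM (Isotropic Homog)

/-- the theorem -/
theorem hd_all {p : ℝ} {w W : Matrix (Fin 2) (Fin 2) ℝ → ℝ} {f : ℝ → ℝ} (hI : Isotropic w)
    (hH : Homog p w) (hW : ∀ A, W A = w A + f A.det) (hR : RankOneConvex W) : Quasiconvex W :=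
  hd Knk.main Kn1.main Sp1.main (Logm.main Lga.main) hI hH hW hR

end Pool.Agent.R222.GH
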