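import Pool.Agent.R222.GH.Hd1
import Pool.Agent.W707.HM.All
import Pool.Agent.Helper188.Morrey.Basic

/-! # Isotropic homogeneous functions plus a function of the determinant: matrices -/

set_option autoImplicit false

namespace Pool.Agent.R222.GH

open MeasureTheory Set Filter Topology Matrix
open Pool.Agent.Y273.VI (det_bac rank_bac Tm pt_int pt_bd)
open Pool.Agent.W360.MQ (cab RankOneConvex Quasiconvex)
open Pool.Agent.W707.HM (Isotropic Homog)
open Pool.Agent.TH937.TF (bac cab_bac)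
open Pool.Agent.TH937.ZC (bac_add bac_smul)
open Pool.Agent.W523.MQ.OM (T)

theorem bac_cab (A : Matrix (Fin 2) (Fin 2) ℝ) : bac (cab A) = A := by
  obtain ⟨h1, h2, h3, h4⟩ := Pool.Agent.W22.HM.entries A
  unfold bac
  ext i j
  fin_cases i <;> fin_cases j <;>
    simp only [Complex.add_re, Complex.add_im, Complex.sub_re, Complex.sub_im, Matrix.of_apply,
      Matrix.cons_val', Matrix.cons_val_zero, Matrix.cons_val_one, Fin.zero_eta, Fin.mk_one,
      Matrix.cons_val_fin_one, Fin.isValue] <;> linarith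

theorem det_eq (A : Matrix (Fin 2) (Fin 2) ℝ) : A.det = Dt (cab A) := by
  conv_lhs => rw [← bac_cab A]
  exact det_bac _

/-- rank-one convexity in complex notation -/
theorem RCa_of_mat {W : Matrix (Fin 2) (Fin 2) ℝ → ℝ} (hW : RankOneConvex W) :
    RCa (fun F => W (bac F)) := by
  intro F H hH
  have hd : (bac H).det = 0 := by rw [det_bac, hH, sub_self]
  have h := Pool.Agent.Helper188.Morrey.RankOneConvex.line (W := W) hW (bac F) (bac H) hd
  refine h.congr fun t _ => ?_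
  simp only
  rw [bac_add, bac_smul]

theorem mat_of_RCa {w : ℂ × ℂ → ℝ} (hw : RCa w) : RankOneConvex (fun A => w (cab A)) := by
  intro F H hH t h0 h1
  have hd : H.det = 0 := Pool.Agent.Helper188.Morrey.det_eq_zero_of_rank hH.le
  have hn : ‖(cab H).1‖ = ‖(cab H).2‖ := by
    rw [det_eq] at hd
    unfold Dt at hd
    have : ‖(cab H).1‖ ^ 2 = ‖(cab H).2‖ ^ 2 := by linarith
    exact (sq_eq_sq₀ (norm_nonneg _) (norm_nonneg _)).1 this
  have h2 := (hw (cab F) (cab H) hn).2 (mem_univ 0) (mem_univ 1) (show 0 ≤ 1 - t by linarith) h0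
    (by ring)
  simp only [smul_eq_mul, mul_zero, zero_add, mul_one, zero_smul, add_zero, one_smul] at h2
  have e1 : cab ((1 - t) • F + t • (F + H)) = cab F + t • cab H := by
    have : (1 - t) • F + t • (F + H) = bac (cab F + t • cab H) := by
      rw [bac_add, bac_smul, bac_cab, bac_cab, smul_add, sub_smul, one_smul]
      abel
    rw [this, cab_bac]
  have e2 : cab (F + H) = cab F + cab H := by
    have : F + H = bac (cab F + cab H) := by rw [bac_add, bac_cab, bac_cab]
    conv_lhs => rw [this, cab_bac]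
  beta_reduce
  rw [e1, e2]
  exact h2

/-- the value of an isotropic function -/
theorem iso_val {W : Matrix (Fin 2) (Fin 2) ℝ → ℝ} (hI : Isotropic W) (F : ℂ × ℂ) :
    W (bac F) = W (bac (((‖F.1‖ : ℝ) : ℂ), ((‖F.2‖ : ℝ) : ℂ))) := by
  obtain ⟨a, b, hab⟩ := Pool.Agent.W22.HM.normal_form (bac F)
  rw [cab_bac] at hab
  have h1 : W (bac F) = W !![‖F.1‖ + ‖F.2‖, 0; 0, ‖F.1‖ - ‖F.2‖] := by
    rw [← hab, hI _ (Pool.Agent.W22.HM.rot_mem a) _ (Pool.Agent.W22.HM.rot_mem b)]
  rw [h1]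
  congr 1
  unfold bac
  ext i j
  fin_cases i <;> fin_cases j <;> simp

/-- the situation for matrices -/
theorem Sit_of {p : ℝ} {w W : Matrix (Fin 2) (Fin 2) ℝ → ℝ} {f : ℝ → ℝ} (hI : Isotropic w)
    (hH : Homog p w) (hW : ∀ A, W A = w A + f A.det) (hR : RankOneConvex W) :
    Sit p (fun F => w (bac F)) f := by
  refine ⟨fun l hl F => ?_, fun F => iso_val hI F, ?_⟩
  · rw [bac_smul, hH l hl]
  · have h := RCa_of_mat hR
    intro F H hFH
    refine (h F H hFH).congr fun t _ => ?_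
    simp only
    rw [hW, det_bac]
    rfl

/-! ### quasiconvexity -/

theorem qc_add {W1 W2 : Matrix (Fin 2) (Fin 2) ℝ → ℝ} (c1 : Continuous W1) (c2 : Continuous W2)
    (h1 : Quasiconvex W1) (h2 : Quasiconvex W2) : Quasiconvex (fun A => W1 A + W2 A) := by
  intro F₀ Ω hΩ hb ϑ hϑ hz
  have ht : Tm Ω ϑ := ⟨hΩ, hb, hϑ, hz⟩
  have hi : ∀ W : Matrix (Fin 2) (Fin 2) ℝ → ℝ, Continuous W →
      IntegrableOn (fun x => W (F₀ + LinearMap.toMatrix'
        ((fderiv ℝ ϑ x : (Fin 2 → ℝ) →L[ℝ] (Fin 2 → ℝ)) :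
          (Fin 2 → ℝ) →ₗ[ℝ] (Fin 2 → ℝ)))) Ω := by
    intro W hW
    have h3 := pt_int (w := fun F => W (bac F)) (hW.comp Pool.Agent.TH937.TF.cont_bac) F₀ ht
    unfold T at h3
    simpa only [bac_cab] using h3
  have h3 := h1 F₀ Ω hΩ hb ϑ hϑ hz
  have h4 := h2 F₀ Ω hΩ hb ϑ hϑ hz
  rw [integral_add (hi W1 c1) (hi W2 c2), add_mul]
  exact add_le_add h3 h4

theorem cont_det : Continuous (fun A : Matrix (Fin 2) (Fin 2) ℝ => A.det) :=
  Continuous.matrix_det continuous_id

theorem cont_conv {k : ℝ → ℝ} (hk : ConvexOn ℝ univ k) : Continuous k :=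
  continuousOn_univ.1 (hk.continuousOn isOpen_univ)

/-- convex functions of the determinant -/
theorem qc_det {k : ℝ → ℝ} (hk : ConvexOn ℝ univ k) : Quasiconvex (fun A => k A.det) := by
  intro F₀ Ω hΩ hb ϑ hϑ hz
  have ht : Tm Ω ϑ := ⟨hΩ, hb, hϑ, hz⟩
  obtain ⟨β, hβ⟩ := sub_grad_on hk isOpen_univ (mem_univ F₀.det)
  have hi : IntegrableOn (fun x => k (Dt (T F₀ (fderiv ℝ ϑ x)))) Ω :=
    pt_int ((cont_conv hk).comp Dt_cont) F₀ ht
  have hi2 : IntegrableOn (fun x => β * Dt (T F₀ (fderiv ℝ ϑ x)) + (k F₀.det - β * F₀.det)) Ω :=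
    pt_int (w := fun F => β * Dt F + (k F₀.det - β * F₀.det))
      ((continuous_const.mul Dt_cont).add continuous_const) F₀ ht
  have i4 : IntegrableOn (fun x => β * Dt (T F₀ (fderiv ℝ ϑ x))) Ω :=
    pt_int (continuous_const.mul Dt_cont) F₀ ht
  have i5 : IntegrableOn (fun _ : Fin 2 → ℝ => k F₀.det - β * F₀.det) Ω :=
    integrableOn_const ht.fin.ne
  have h1 := integral_mono hi2 hi (fun x => by
    have := hβ (Dt (T F₀ (fderiv ℝ ϑ x))) (mem_univ _)
    simp only
    linarith)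
  rw [integral_add i4 i5, integral_const_mul, Dt_int F₀ ht, setIntegral_const, smul_eq_mul,
    Measure.real, ← det_eq] at h1
  have e : ∀ x, (F₀ + LinearMap.toMatrix' ((fderiv ℝ ϑ x : (Fin 2 → ℝ) →L[ℝ] (Fin 2 → ℝ)) :
      (Fin 2 → ℝ) →ₗ[ℝ] (Fin 2 → ℝ))).det = Dt (T F₀ (fderiv ℝ ϑ x)) := fun x => det_eq _
  simp only [e]
  linarith

theorem det_so {R Q : Matrix (Fin 2) (Fin 2) ℝ}
    (hR : R ∈ Matrix.specialOrthogonalGroup (Fin 2) ℝ)
    (hQ : Q ∈ Matrix.specialOrthogonalGroup (Fin 2) ℝ) (A : Matrix (Fin 2) (Fin 2) ℝ) :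
    (R * A * Q).det = A.det := by
  rw [Matrix.det_mul, Matrix.det_mul, (Matrix.mem_specialOrthogonalGroup_iff.1 hR).2,
    (Matrix.mem_specialOrthogonalGroup_iff.1 hQ).2]
  ring

theorem Quasiconvex_congr {W W' : Matrix (Fin 2) (Fin 2) ℝ → ℝ} (h : ∀ A, W A = W' A)
    (hW : Quasiconvex W) : Quasiconvex W' := by
  have : W = W' := funext h
  rwa [← this]

/-- `p ≠ 0`, `p ≠ 2` -/
theorem hd_ne (hK : S_KNK) {p : ℝ} (hp : p ≠ 0) (hp2 : p ≠ 2)
    {w W : Matrix (Fin 2) (Fin 2) ℝ → ℝ} {f : ℝ → ℝ} (hI : Isotropic w)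
    (hH : Homog p w) (hW : ∀ A, W A = w A + f A.det) (hR : RankOneConvex W) : Quasiconvex W := by
  obtain ⟨q, rfl⟩ : ∃ q, p = 2 * q := ⟨p / 2, by ring⟩
  have hq : q ≠ 0 := fun h => hp (by rw [h]; ring)
  have hq1 : q ≠ 1 := fun h => hp2 (by rw [h]; ring)
  obtain ⟨c1, c2, h1, h2⟩ := (Sit_of hI hH hW hR).dec hK hq hq1
  have h3 := mat_of_RCa h1
  simp only [bac_cab, ← det_eq] at h3
  have hqc : Quasiconvex (fun A => w A + Fc q c1 c2 A.det) := by
    refine Pool.Agent.W707.HM.hm_main (2 * q) _ ?_ ?_ h3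
    · intro R hR' Q hQ A
      simp only
      rw [hI R hR' Q hQ, det_so hR' hQ]
    · intro c hc A
      beta_reduce
      rw [hH c hc, Matrix.det_smul, Fintype.card_fin, Fc_mul (by positivity)]
      have e : (c ^ 2 : ℝ) ^ q = c ^ (2 * q) := by
        rw [Real.rpow_mul hc.le, Real.rpow_two]
      rw [e]
      ring
  have hc1 : Continuous (fun A => w A + Fc q c1 c2 A.det) :=
    Pool.Agent.Helper188.Morrey.RankOneConvex.continuous h3
  refine Quasiconvex_congr (fun A => ?_) (qc_add hc1 ((cont_conv h2).comp cont_det) hqc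
    (qc_det h2))
  simp only [Function.comp]
  rw [hW]
  ring

/-- `p = 2` -/
theorem hd_two (hK : S_KN1) (hP : S_SP1) (hL : S_LOGM)
    {w W : Matrix (Fin 2) (Fin 2) ℝ → ℝ} {f : ℝ → ℝ} (hI : Isotropic w)
    (hH : Homog 2 w) (hW : ∀ A, W A = w A + f A.det) (hR : RankOneConvex W) : Quasiconvex W := by
  have hs := Sit_of hI hH hW hR
  have hs' : Sit (2 * 1) (fun F => w (bac F)) f := by rw [mul_one]; exact hs
  obtain ⟨c, c', h1, h2⟩ := hs'.dec1 hK hP
  have h3 := mat_of_RCa h1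
  simp only [bac_cab, ← det_eq] at h3
  have hqc : Quasiconvex (fun A => w A + (c * (A.det * Real.log A.det) + c' * |A.det|)) := by
    refine hL c _ ?_ ?_ h3
    · intro R hR' Q hQ A
      simp only
      rw [hI R hR' Q hQ, det_so hR' hQ]
    · intro l hl A
      rw [hH l hl, Matrix.det_smul, Fintype.card_fin, abs_mul, abs_of_pos (by positivity : 0 < l ^ 2),
        Real.rpow_two]
      rcases eq_or_ne A.det 0 with h | h
      · rw [h]; simp
      · rw [Real.log_mul (by positivity) h, Real.log_pow]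
        push_cast
        ring
  have hc1 : Continuous (fun A => w A + (c * (A.det * Real.log A.det) + c' * |A.det|)) :=
    Pool.Agent.Helper188.Morrey.RankOneConvex.continuous h3
  refine Quasiconvex_congr (fun A => ?_) (qc_add hc1 ((cont_conv h2).comp cont_det) hqc
    (qc_det h2))
  simp only [Function.comp]
  rw [hW]
  ring

/-- `p = 0` -/
theorem hd_zero {w W : Matrix (Fin 2) (Fin 2) ℝ → ℝ} {f : ℝ → ℝ}
    (hH : Homog 0 w) (hW : ∀ A, W A = w A + f A.det) (hR : RankOneConvex W) : Quasiconvex W := by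
  have hc : Continuous W := Pool.Agent.Helper188.Morrey.RankOneConvex.continuous hR
  have hH' : ∀ l : ℝ, 0 < l → ∀ A, w (l • A) = w A := by
    intro l hl A
    rw [hH l hl, Real.rpow_zero, one_mul]
  -- two matrices with the same determinant have the same value of `w`
  have hlim : ∀ A B : Matrix (Fin 2) (Fin 2) ℝ, A.det = B.det → w A = w B := by
    intro A B hAB
    have h1 : ∀ l : ℝ, 0 < l → W (l • A) - W (l • B) = w A - w B := by
      intro l hl
      rw [hW, hW, hH' l hl, hH' l hl, Matrix.det_smul, Matrix.det_smul, hAB]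
      ring
    have h2 : Continuous (fun l : ℝ => W (l • A) - W (l • B)) := by
      have cA : Continuous (fun l : ℝ => l • A) := by fun_prop
      have cB : Continuous (fun l : ℝ => l • B) := by fun_prop
      exact (hc.comp cA).sub (hc.comp cB)
    have h3 : Tendsto (fun l : ℝ => W (l • A) - W (l • B)) (𝓝[>] 0) (𝓝 0) := by
      have h4 := h2.tendsto 0
      simp only [zero_smul, sub_self] at h4
      exact h4.mono_left nhdsWithin_le_nhds
    have h5 : Tendsto (fun l : ℝ => W (l • A) - W (l • B)) (𝓝[>] 0) (𝓝 (w A - w B)) := by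
      refine tendsto_const_nhds.congr' ?_
      filter_upwards [self_mem_nhdsWithin] with l hl
      exact (h1 l hl).symm
    have := tendsto_nhds_unique h3 h5
    linarith
  have hdiag : ∀ t : ℝ, (!![t, 0; 0, 1] : Matrix (Fin 2) (Fin 2) ℝ).det = t := by
    intro t; simp [Matrix.det_fin_two]
  set k : ℝ → ℝ := fun t => W !![t, 0; 0, 1] with hk
  have hk2 : ConvexOn ℝ univ k := by
    have h := Pool.Agent.Helper188.Morrey.RankOneConvex.line (W := W) hR !![0, 0; 0, 1]
      !![1, 0; 0, 0] (by simp [Matrix.det_fin_two])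
    refine h.congr fun t _ => ?_
    simp only [hk]
    congr 1
    ext i j
    fin_cases i <;> fin_cases j <;> simp
  refine Quasiconvex_congr (fun A => ?_) (qc_det hk2)
  simp only [hk]
  rw [hW, hW, hdiag, hlim !![A.det, 0; 0, 1] A (hdiag _)]

/-- the theorem -/
theorem hd (hK : S_KNK) (hK1 : S_KN1) (hP : S_SP1) (hL : S_LOGM) {p : ℝ}
    {w W : Matrix (Fin 2) (Fin 2) ℝ → ℝ} {f : ℝ → ℝ} (hI : Isotropic w)
    (hH : Homog p w) (hW : ∀ A, W A = w A + f A.det) (hR : RankOneConvex W) : Quasiconvex W := by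
  by_cases hp : p = 0
  · subst hp
    exact hd_zero hH hW hR
  by_cases hp2 : p = 2
  · subst hp2
    exact hd_two hK1 hP hL hI hH hW hR
  · exact hd_ne hK hp hp2 hI hH hW hR

end Pool.Agent.R222.GH
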