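import Pool.Agent.R222.GH.Asm

/-! # The theorem for matrices -/

set_option autoImplicit false

namespace Pool.Agent.R222.GH

open MeasureTheory Set Filter Topology
open Pool.Agent.Y273.VI (Rp RCp_of Tm det_cab)
open Pool.Agent.W360.MQ (cab)
open Pool.Agent.W523.MQ.OM (T)

open scoped Matrix.Norms.L2Operator in
theorem W_eq3 (q : ℝ) (g f : ℝ → ℝ) (A : Matrix (Fin 2) (Fin 2) ℝ) (hA : 0 < A.det) :
    A.det ^ q * g (‖A‖ ^ 2 / A.det) + f A.det = iso (ew q g f) (cab A) := by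
  obtain ⟨h1, h2⟩ := Pool.Agent.W74.MQ.OPN.main A
  have hc := (det_cab A).1 hA
  rw [h1, h2]
  unfold iso ew
  rw [sv_Dt]
  have h3 : Dt (cab A) = ‖(cab A).1‖ ^ 2 - ‖(cab A).2‖ ^ 2 := rfl
  rw [← h3]
  congr 3
  have n2 := norm_nonneg (cab A).2
  have h4 : ‖(cab A).1‖ - ‖(cab A).2‖ ≠ 0 := by linarith
  have h5 : ‖(cab A).1‖ + ‖(cab A).2‖ ≠ 0 := by linarith
  rw [← sv_Dt, sq, mul_div_mul_left _ _ h5]

open scoped Matrix.Norms.L2Operator in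
/-- the theorem for matrices -/
theorem gh_main (hDUL : S_DUL) (hL : S_RCL) (hP : S_SPE) (q : ℝ) (hq : q ≠ 0) (g f : ℝ → ℝ)
    (W : Matrix (Fin 2) (Fin 2) ℝ → ℝ)
    (hW : ∀ A : Matrix (Fin 2) (Fin 2) ℝ, 0 < A.det →
      W A = A.det ^ q * g (‖A‖ ^ 2 / A.det) + f A.det)
    (hR : Rp W) (F₀ : Matrix (Fin 2) (Fin 2) ℝ) (h0 : 0 < F₀.det) {Ω : Set (Fin 2 → ℝ)}
    {ϑ : (Fin 2 → ℝ) → (Fin 2 → ℝ)} (ht : Tm Ω ϑ)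
    (hpos : ∀ᵐ x ∂(volume.restrict Ω), 0 < (F₀ + LinearMap.toMatrix'
      ((fderiv ℝ ϑ x : (Fin 2 → ℝ) →L[ℝ] (Fin 2 → ℝ)) :
        (Fin 2 → ℝ) →ₗ[ℝ] (Fin 2 → ℝ))).det)
    (hfin : ∫⁻ x in Ω, ENNReal.ofReal (W (F₀ + LinearMap.toMatrix'
      ((fderiv ℝ ϑ x : (Fin 2 → ℝ) →L[ℝ] (Fin 2 → ℝ)) :
        (Fin 2 → ℝ) →ₗ[ℝ] (Fin 2 → ℝ)))) ≠ ⊤) :
    IntegrableOn (fun x => W (F₀ + LinearMap.toMatrix'
      ((fderiv ℝ ϑ x : (Fin 2 → ℝ) →L[ℝ] (Fin 2 → ℝ)) :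
        (Fin 2 → ℝ) →ₗ[ℝ] (Fin 2 → ℝ)))) Ω ∧
    W F₀ * (volume Ω).toReal ≤ ∫ x in Ω, W (F₀ + LinearMap.toMatrix'
      ((fderiv ℝ ϑ x : (Fin 2 → ℝ) →L[ℝ] (Fin 2 → ℝ)) :
        (Fin 2 → ℝ) →ₗ[ℝ] (Fin 2 → ℝ))) := by
  have hW' : ∀ A : Matrix (Fin 2) (Fin 2) ℝ, 0 < A.det → W A = iso (ew q g f) (cab A) := by
    intro A hA
    rw [hW A hA, W_eq3 q g f A hA]
  have hRc : RC (iso (ew q g f)) := RCp_of hW' hR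
  have hpos' : ∀ᵐ x ∂(volume.restrict Ω),
      ‖(T F₀ (fderiv ℝ ϑ x)).2‖ < ‖(T F₀ (fderiv ℝ ϑ x)).1‖ := by
    filter_upwards [hpos] with x hx
    exact (det_cab _).1 hx
  have hev : (fun x => W (F₀ + LinearMap.toMatrix'
      ((fderiv ℝ ϑ x : (Fin 2 → ℝ) →L[ℝ] (Fin 2 → ℝ)) :
        (Fin 2 → ℝ) →ₗ[ℝ] (Fin 2 → ℝ)))) =ᵐ[volume.restrict Ω]
      fun x => iso (ew q g f) (T F₀ (fderiv ℝ ϑ x)) := by
    filter_upwards [hpos] with x hx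
    exact hW' _ hx
  have hfin' : ∫⁻ x in Ω, ENNReal.ofReal (iso (ew q g f) (T F₀ (fderiv ℝ ϑ x))) ≠ ⊤ := by
    have e := lintegral_congr_ae (hev.fun_comp ENNReal.ofReal)
    simp only [Function.comp] at e
    rw [← e]
    exact hfin
  obtain ⟨h1, h2⟩ := main_c hDUL hL hP hq hRc ((det_cab F₀).1 h0) Ω ϑ ht hpos' hfin'
  refine ⟨h1.congr_fun_ae hev.symm, ?_⟩
  rw [integral_congr_ae hev, hW' F₀ h0]
  exact h2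

end Pool.Agent.R222.GH
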