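import Pool.Agent.R222.GH.Stm5

/-!
# Normalization of additive energies (helper806)
-/

set_option autoImplicit false

namespace Pool.Agent.R222.GH.Nrm

open MeasureTheory Set Filter Topology
open Pool.Agent.R222.GH

/-- a function which is not convex has a point with strictly negative second differences -/
theorem exists_neg {f : ℝ → ℝ} (hf : ContinuousOn f (Ioi 0)) (hn : ¬ ConvexOn ℝ (Ioi 0) f) :
    ∃ t e d1 : ℝ, 0 < t ∧ 0 < e ∧ 0 < d1 ∧ ∀ d, 0 < d → d < d1 →
      f (t * (1 + d)) + f (t * (1 - d)) - 2 * f t ≤ -(e * d ^ 2) := by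
  by_contra hcon
  apply hn
  refine LinearOrder.convexOn_of_lt (convex_Ioi 0) fun x hx y hy hxy a b ha hb hab => ?_
  by_contra hlt
  push Not at hlt
  apply hcon
  simp only [smul_eq_mul] at hlt
  have hx0 : (0 : ℝ) < x := hx
  set m : ℝ := a * x + b * y with hm
  set k : ℝ := (f y - f x) / (y - x) with hk
  have hyx : 0 < y - x := by linarith
  have hkyx : k * (y - x) = f y - f x := by
    rw [hk]
    field_simp
  have ha' : a = 1 - b := by linarith
  have hmx : m - x = b * (y - x) := by
    rw [hm, ha']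
    ring
  have hym : y - m = a * (y - x) := by
    rw [hm, ha']
    ring
  have hmx0 : 0 < m - x := by
    rw [hmx]
    positivity
  have hym0 : 0 < y - m := by
    rw [hym]
    positivity
  have hLm : f x + k * (m - x) = a * f x + b * f y := by
    have h1 : k * (m - x) = b * (f y - f x) := by
      rw [hmx, ← hkyx]
      ring
    rw [h1, ha']
    ring
  set G : ℝ := f m - (f x + k * (m - x)) with hG
  have hG0 : 0 < G := by
    rw [hG, hLm]
    linarith
  set eps : ℝ := G / (2 * ((m - x) * (y - m))) with heps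
  have heps0 : 0 < eps := by positivity
  set q : ℝ → ℝ := fun t => f t - (f x + k * (t - x)) - eps * ((t - x) * (y - t)) with hq
  have hqm : q m = G / 2 := by
    change f m - (f x + k * (m - x)) - eps * ((m - x) * (y - m)) = G / 2
    rw [← hG, heps]
    field_simp
    ring
  have hqx : q x = 0 := by
    change f x - (f x + k * (x - x)) - eps * ((x - x) * (y - x)) = 0
    ring
  have hqy : q y = 0 := by
    change f y - (f x + k * (y - x)) - eps * ((y - x) * (y - y)) = 0
    rw [hkyx]
    ring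
  have hsub : Icc x y ⊆ Ioi 0 := fun t ht => lt_of_lt_of_le hx0 ht.1
  have hqc : ContinuousOn q (Icc x y) := by
    refine ContinuousOn.sub (ContinuousOn.sub (hf.mono hsub) ?_) ?_
    · exact Continuous.continuousOn (by fun_prop)
    · exact Continuous.continuousOn (by fun_prop)
  obtain ⟨t, ht, hmax⟩ := isCompact_Icc.exists_isMaxOn (nonempty_Icc.2 hxy.le) hqc
  have hmax' : ∀ s ∈ Icc x y, q s ≤ q t := fun s hs => hmax hs
  have hqt : 0 < q t := by
    have h1 := hmax' m ⟨by linarith, by linarith⟩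
    rw [hqm] at h1
    linarith
  have htx : x < t := by
    rcases lt_or_eq_of_le ht.1 with h | h
    · exact h
    · rw [← h, hqx] at hqt
      exact absurd hqt (lt_irrefl 0)
  have hty : t < y := by
    rcases lt_or_eq_of_le ht.2 with h | h
    · exact h
    · rw [h, hqy] at hqt
      exact absurd hqt (lt_irrefl 0)
  have ht0 : 0 < t := hx0.trans htx
  refine ⟨t, 2 * eps * t ^ 2, min (t - x) (y - t) / t, ht0, by positivity,
    div_pos (lt_min (by linarith) (by linarith)) ht0, fun d hd0 hd => ?_⟩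
  rw [lt_div_iff₀ ht0] at hd
  have h1 : d * t < t - x := hd.trans_le (min_le_left _ _)
  have h2 : d * t < y - t := hd.trans_le (min_le_right _ _)
  have h3 : 0 < d * t := mul_pos hd0 ht0
  have h4 := hmax' (t * (1 + d)) ⟨by nlinarith, by nlinarith⟩
  have h5 := hmax' (t * (1 - d)) ⟨by nlinarith, by nlinarith⟩
  change f (t * (1 + d)) - (f x + k * (t * (1 + d) - x)) -
    eps * ((t * (1 + d) - x) * (y - t * (1 + d))) ≤
    f t - (f x + k * (t - x)) - eps * ((t - x) * (y - t)) at h4
  change f (t * (1 - d)) - (f x + k * (t * (1 - d) - x)) -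
    eps * ((t * (1 - d) - x) * (y - t * (1 - d))) ≤
    f t - (f x + k * (t - x)) - eps * ((t - x) * (y - t)) at h5
  have h6 : eps * ((t * (1 + d) - x) * (y - t * (1 + d))) +
      eps * ((t * (1 - d) - x) * (y - t * (1 - d))) - 2 * (eps * ((t - x) * (y - t))) =
      -(2 * eps * t ^ 2 * d ^ 2) := by ring
  have h7 : k * (t * (1 + d) - x) + k * (t * (1 - d) - x) - 2 * (k * (t - x)) = 0 := by ring
  linarith

theorem mid {f : ℝ → ℝ} (hf : ConvexOn ℝ (Ioi 0) f) {x y : ℝ} (hx : 0 < x) (hy : 0 < y) :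
    f (1 / 2 * x + 1 / 2 * y) ≤ 1 / 2 * f x + 1 / 2 * f y := by
  have h := hf.2 (mem_Ioi.2 hx) (mem_Ioi.2 hy) (show (0 : ℝ) ≤ 1 / 2 by norm_num)
    (show (0 : ℝ) ≤ 1 / 2 by norm_num) (by norm_num)
  simpa only [smul_eq_mul] using h

/-- one of the two functions is convex -/
theorem step0 {φ h : ℝ → ℝ} (hφ : ContinuousOn φ (Ioi 0)) (hh : ContinuousOn h (Ioi 0))
    (H : ∀ v, 0 < v → ConvexOn ℝ (Ioi 0) (fun s => φ s + h (s * v))) :
    ConvexOn ℝ (Ioi 0) φ ∨ ConvexOn ℝ (Ioi 0) h := by
  by_contra hcon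
  rw [not_or] at hcon
  obtain ⟨t, e1, d1, ht, he1, hd1, h1⟩ := exists_neg hφ hcon.1
  obtain ⟨z, e2, d2, hz, he2, hd2, h2⟩ := exists_neg hh hcon.2
  set d : ℝ := min (min d1 d2) 1 / 2 with hd
  have hmin0 : 0 < min (min d1 d2) 1 := lt_min (lt_min hd1 hd2) one_pos
  have hd0 : 0 < d := by positivity
  have hdd1 : d < d1 := by
    have : min (min d1 d2) 1 ≤ d1 := (min_le_left _ _).trans (min_le_left _ _)
    rw [hd]
    linarith
  have hdd2 : d < d2 := by
    have : min (min d1 d2) 1 ≤ d2 := (min_le_left _ _).trans (min_le_right _ _)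
    rw [hd]
    linarith
  have hd1' : d < 1 := by
    have : min (min d1 d2) 1 ≤ 1 := min_le_right _ _
    rw [hd]
    linarith
  have hA := h1 d hd0 hdd1
  have hB := h2 d hd0 hdd2
  have hv : 0 < z / t := by positivity
  have hc := mid (H (z / t) hv) (x := t * (1 + d)) (y := t * (1 - d)) (by positivity)
    (mul_pos ht (by linarith))
  have e0 : 1 / 2 * (t * (1 + d)) + 1 / 2 * (t * (1 - d)) = t := by ring
  have ep : t * (1 + d) * (z / t) = z * (1 + d) := by field_simp
  have em : t * (1 - d) * (z / t) = z * (1 - d) := by field_simp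
  have ez : t * (z / t) = z := by field_simp
  rw [e0, ep, em, ez] at hc
  have h3 : 0 < e1 * d ^ 2 := by positivity
  have h4 : 0 < e2 * d ^ 2 := by positivity
  linarith

/-- the coefficients for which a combination is convex are a closed set -/
theorem closed_conv (f g : ℝ → ℝ) :
    IsClosed {c : ℝ | ConvexOn ℝ (Ioi 0) fun t => f t + c * g t} := by
  apply isClosed_of_closure_subset
  intro c hc
  refine ⟨convex_Ioi 0, fun x hx y hy a b ha hb hab => ?_⟩
  have hcl : IsClosed {c : ℝ | f (a • x + b • y) + c * g (a • x + b • y) ≤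
      a • (f x + c * g x) + b • (f y + c * g y)} := by
    refine isClosed_le (by fun_prop) ?_
    simp only [smul_eq_mul]
    fun_prop
  exact closure_minimal (fun c' hc' => hc'.2 hx hy ha hb hab) hcl hc

theorem main : S_NRM := by
  intro φ h hφ hh H
  have hlog : ContinuousOn Real.log (Ioi 0) :=
    Real.continuousOn_log.mono fun x hx => by
      simpa using (ne_of_gt hx)
  set S1 : Set ℝ := {c : ℝ | ConvexOn ℝ (Ioi 0) fun t => φ t + c * -Real.log t} with hS1
  set S2 : Set ℝ := {c : ℝ | ConvexOn ℝ (Ioi 0) fun t => h t + c * Real.log t} with hS2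
  have hor : ∀ c, c ∈ S1 ∨ c ∈ S2 := by
    intro c
    refine step0 (φ := fun t => φ t + c * -Real.log t) (h := fun t => h t + c * Real.log t)
      (hφ.add (hlog.neg.const_smul c)) (hh.add (hlog.const_smul c)) fun v hv => ?_
    refine ((H v hv).add_const (c * Real.log v - φ v)).congr ?_
    intro s hs
    have hs0 : (0 : ℝ) < s := hs
    change φ s + φ v + h (s * v) + (c * Real.log v - φ v) =
      φ s + c * -Real.log s + (h (s * v) + c * Real.log (s * v))
    rw [Real.log_mul hs0.ne' hv.ne']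
    ring
  have hneg : ConvexOn ℝ (Ioi (0 : ℝ)) (fun t => -Real.log t) :=
    strictConcaveOn_log_Ioi.concaveOn.neg
  have hdown : ∀ c ∈ S2, ∀ c', c' ≤ c → c' ∈ S2 := by
    intro c hc c' hcc
    have h1 : ConvexOn ℝ (Ioi (0 : ℝ)) (fun t => (c - c') • -Real.log t) :=
      hneg.smul (sub_nonneg.2 hcc)
    have hc0 : ConvexOn ℝ (Ioi 0) fun t => h t + c * Real.log t := hc
    change ConvexOn ℝ (Ioi 0) fun t => h t + c' * Real.log t
    refine (hc0.add h1).congr fun t _ => ?_
    change h t + c * Real.log t + (c - c') • -Real.log t = h t + c' * Real.log t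
    rw [smul_eq_mul]
    ring
  have hL : 0 < 2 * Real.log 2 - Real.log 3 := by
    have h1 : Real.log 3 < Real.log 4 := Real.log_lt_log (by norm_num) (by norm_num)
    have h2 : Real.log 4 = 2 * Real.log 2 := by
      rw [show (4 : ℝ) = 2 ^ 2 by norm_num, Real.log_pow]
      push_cast
      ring
    linarith
  have hb2 : BddAbove S2 := by
    refine ⟨(h 1 + h 3 - 2 * h 2) / (2 * Real.log 2 - Real.log 3), fun c hc => ?_⟩
    rw [le_div_iff₀ hL]
    have hc0 : ConvexOn ℝ (Ioi 0) fun t => h t + c * Real.log t := hc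
    have h1 := mid hc0 (x := 1) (y := 3) (by norm_num) (by norm_num)
    rw [show (1 : ℝ) / 2 * 1 + 1 / 2 * 3 = 2 by norm_num, Real.log_one] at h1
    linarith
  have hb1 : ∃ c, c ∉ S1 := by
    refine ⟨-((φ 1 + φ 3 - 2 * φ 2) / (2 * Real.log 2 - Real.log 3)) - 1, fun hc => ?_⟩
    have hc0 : ConvexOn ℝ (Ioi 0) fun t => φ t +
      (-((φ 1 + φ 3 - 2 * φ 2) / (2 * Real.log 2 - Real.log 3)) - 1) * -Real.log t := hc
    have h1 := mid hc0 (x := 1) (y := 3) (by norm_num) (by norm_num)
    rw [show (1 : ℝ) / 2 * 1 + 1 / 2 * 3 = 2 by norm_num, Real.log_one] at h1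
    set Q := (φ 1 + φ 3 - 2 * φ 2) / (2 * Real.log 2 - Real.log 3) with hQ
    have h2 : Q * (2 * Real.log 2 - Real.log 3) = φ 1 + φ 3 - 2 * φ 2 := by
      rw [hQ]
      field_simp
    nlinarith
  have hne2 : S2.Nonempty := by
    obtain ⟨c, hc⟩ := hb1
    exact ⟨c, (hor c).resolve_left hc⟩
  refine ⟨sSup S2, ?_, ?_⟩
  · have h1 : Ioi (sSup S2) ⊆ S1 := by
      intro c hc
      refine (hor c).resolve_right fun h2 => ?_
      exact absurd (le_csSup hb2 h2) (not_le.2 hc)
    have h2 : sSup S2 ∈ S1 := by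
      have h3 := closure_minimal h1 (closed_conv φ fun t => -Real.log t)
      apply h3
      rw [closure_Ioi]
      exact self_mem_Ici
    have h2' : ConvexOn ℝ (Ioi 0) fun t => φ t + sSup S2 * -Real.log t := h2
    refine h2'.congr fun t _ => ?_
    change φ t + sSup S2 * -Real.log t = φ t - sSup S2 * Real.log t
    ring
  · exact (closed_conv h Real.log).closure_subset (csSup_mem_closure hne2 hb2)

end Pool.Agent.R222.GH.Nrm
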