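import Pool.Agent.R222.GH.Stm5

/-!
# The functions may be chosen continuous
-/

set_option autoImplicit false

namespace Pool.Agent.R222.GH.Reg

open MeasureTheory Set Filter Topology

variable {φ h : ℝ → ℝ}

lemma aw_symm (φ h : ℝ → ℝ) (s v : ℝ) : aw φ h s v = aw φ h v s := by
  unfold aw
  rw [mul_comm s v]
  ring

lemma cont_s (H : ∀ v, 0 < v → ConvexOn ℝ (Ioi 0) (fun s => aw φ h s v)) {v : ℝ} (hv : 0 < v) :
    ContinuousOn (fun s => aw φ h s v) (Ioi 0) := (H v hv).continuousOn isOpen_Ioi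

lemma cont_exp (H : ∀ v, 0 < v → ConvexOn ℝ (Ioi 0) (fun s => aw φ h s v)) {v : ℝ} (hv : 0 < v)
    (f : ℝ → ℝ) (hf : Continuous f) : Continuous (fun r => aw φ h (Real.exp (f r)) v) :=
  (cont_s H hv).comp_continuous (Real.continuous_exp.comp hf) fun _ => Real.exp_pos _

lemma cont_exp' (H : ∀ v, 0 < v → ConvexOn ℝ (Ioi 0) (fun s => aw φ h s v)) {s : ℝ} (hs : 0 < s)
    (f : ℝ → ℝ) (hf : Continuous f) : Continuous (fun r => aw φ h s (Real.exp (f r))) := by
  have := cont_exp H hs f hf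
  simpa only [aw_symm φ h _ s] using this

/-- the cocycle -/
noncomputable def cc (φ : ℝ → ℝ) (x y : ℝ) : ℝ :=
  φ (Real.exp (x + y)) + φ 1 - φ (Real.exp x) - φ (Real.exp y)

lemma cc_eq (φ h : ℝ → ℝ) (x y : ℝ) :
    cc φ x y = aw φ h (Real.exp (x + y)) 1 - aw φ h (Real.exp x) (Real.exp y) := by
  unfold cc aw
  rw [mul_one, ← Real.exp_add]
  ring

lemma cocycle (φ : ℝ → ℝ) (x y r : ℝ) :
    cc φ x y + cc φ (x + y) r = cc φ x (y + r) + cc φ y r := by
  unfold cc
  rw [← add_assoc]
  ring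

lemma cont_cc (H : ∀ v, 0 < v → ConvexOn ℝ (Ioi 0) (fun s => aw φ h s v)) (x : ℝ) (f : ℝ → ℝ)
    (hf : Continuous f) : Continuous (fun r => cc φ x (f r)) := by
  simp only [cc_eq φ h]
  exact (cont_exp H one_pos (fun r => x + f r) (by fun_prop)).sub
    (cont_exp' H (Real.exp_pos x) f hf)

lemma cont_cc1 (H : ∀ v, 0 < v → ConvexOn ℝ (Ioi 0) (fun s => aw φ h s v)) (y : ℝ) (f : ℝ → ℝ)
    (hf : Continuous f) : Continuous (fun r => cc φ (f r) y) := by
  simp only [cc_eq φ h]
  exact (cont_exp H one_pos (fun r => f r + y) (by fun_prop)).sub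
    (cont_exp H (Real.exp_pos y) f hf)

/-- the average -/
noncomputable def GG (φ : ℝ → ℝ) (x : ℝ) : ℝ := ∫ r in (0 : ℝ)..1, cc φ x r

/-- the primitive -/
noncomputable def EE (φ : ℝ → ℝ) (x : ℝ) : ℝ := ∫ r in (0 : ℝ)..x, cc φ r 1

lemma cob (H : ∀ v, 0 < v → ConvexOn ℝ (Ioi 0) (fun s => aw φ h s v)) (x y : ℝ) :
    cc φ x y = (EE φ (x + y) - GG φ (x + y)) - (EE φ x - GG φ x) - (EE φ y - GG φ y) := by
  -- integrate the cocycle identity
  have i1 : cc φ x y + GG φ (x + y) = (∫ r in (0 : ℝ)..1, cc φ x (y + r)) + GG φ y := by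
    have e1 : ∫ r in (0 : ℝ)..1, (cc φ x y + cc φ (x + y) r) =
        ∫ r in (0 : ℝ)..1, (cc φ x (y + r) + cc φ y r) :=
      intervalIntegral.integral_congr fun r _ => cocycle φ x y r
    rw [intervalIntegral.integral_add (by simp)
      ((cont_cc H (x + y) (fun r => r) continuous_id).intervalIntegrable _ _),
      intervalIntegral.integral_add
      ((cont_cc H x (fun r => y + r) (by fun_prop)).intervalIntegrable _ _)
      ((cont_cc H y (fun r => r) continuous_id).intervalIntegrable _ _),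
      intervalIntegral.integral_const] at e1
    simp only [sub_zero, one_smul] at e1
    exact e1
  have hc := cont_cc H x (fun r => r) continuous_id
  have i2 : (∫ r in (0 : ℝ)..1, cc φ x (y + r)) = ∫ r in y..(y + 1), cc φ x r := by
    rw [intervalIntegral.integral_comp_add_left (fun r => cc φ x r) y, add_zero]
  have i3 : (∫ r in y..(y + 1), cc φ x r) =
      GG φ x + ((∫ r in (0 : ℝ)..y, cc φ x (r + 1)) - ∫ r in (0 : ℝ)..y, cc φ x r) := by
    have e1 : (∫ r in (0 : ℝ)..y, cc φ x (r + 1)) = ∫ r in (1 : ℝ)..(y + 1), cc φ x r := by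
      rw [intervalIntegral.integral_comp_add_right (fun r => cc φ x r) 1, zero_add]
    have e2 : (∫ r in (0 : ℝ)..y, cc φ x r) + (∫ r in y..(y + 1), cc φ x r) =
        ∫ r in (0 : ℝ)..(y + 1), cc φ x r :=
      intervalIntegral.integral_add_adjacent_intervals (hc.intervalIntegrable _ _)
        (hc.intervalIntegrable _ _)
    have e3 : (∫ r in (0 : ℝ)..1, cc φ x r) + (∫ r in (1 : ℝ)..(y + 1), cc φ x r) =
        ∫ r in (0 : ℝ)..(y + 1), cc φ x r :=
      intervalIntegral.integral_add_adjacent_intervals (hc.intervalIntegrable _ _)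
        (hc.intervalIntegrable _ _)
    rw [e1]
    unfold GG
    linarith
  have i4 : (∫ r in (0 : ℝ)..y, cc φ x (r + 1)) - (∫ r in (0 : ℝ)..y, cc φ x r) =
      (∫ r in (0 : ℝ)..y, cc φ (x + r) 1) - ∫ r in (0 : ℝ)..y, cc φ r 1 := by
    rw [← intervalIntegral.integral_sub
      ((cont_cc H x (fun r => r + 1) (by fun_prop)).intervalIntegrable _ _)
      (hc.intervalIntegrable _ _),
      ← intervalIntegral.integral_sub
      ((cont_cc1 H 1 (fun r => x + r) (by fun_prop)).intervalIntegrable _ _)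
      ((cont_cc1 H 1 (fun r => r) continuous_id).intervalIntegrable _ _)]
    refine intervalIntegral.integral_congr fun r _ => ?_
    have := cocycle φ x r 1
    linarith
  have i5 : (∫ r in (0 : ℝ)..y, cc φ (x + r) 1) = EE φ (x + y) - EE φ x := by
    have hc1 := cont_cc1 H 1 (fun r => r) continuous_id
    have e1 : (∫ r in (0 : ℝ)..y, cc φ (x + r) 1) = ∫ r in x..(x + y), cc φ r 1 := by
      rw [intervalIntegral.integral_comp_add_left (fun r => cc φ r 1) x, add_zero]
    have e2 : (∫ r in (0 : ℝ)..x, cc φ r 1) + (∫ r in x..(x + y), cc φ r 1) =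
        ∫ r in (0 : ℝ)..(x + y), cc φ r 1 :=
      intervalIntegral.integral_add_adjacent_intervals (hc1.intervalIntegrable _ _)
        (hc1.intervalIntegrable _ _)
    rw [e1]
    unfold EE
    linarith
  have i6 : (∫ r in (0 : ℝ)..y, cc φ r 1) = EE φ y := rfl
  linarith

lemma cont_prim {f : ℝ → ℝ} (hf : Continuous f) : Continuous (fun x => ∫ r in (0 : ℝ)..x, f r) :=
  intervalIntegral.continuous_primitive (fun a b => hf.intervalIntegrable a b) 0

lemma cont_J (H : ∀ v, 0 < v → ConvexOn ℝ (Ioi 0) (fun s => aw φ h s v)) :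
    ContinuousOn (fun s => ∫ r in (0 : ℝ)..1, aw φ h s (Real.exp r)) (Ioi 0) := by
  have hi : ∀ s, 0 < s → IntervalIntegrable (fun r => aw φ h s (Real.exp r)) volume 0 1 :=
    fun s hs => (cont_exp' H hs (fun r => r) continuous_id).intervalIntegrable _ _
  have hconv : ConvexOn ℝ (Ioi 0) (fun s => ∫ r in (0 : ℝ)..1, aw φ h s (Real.exp r)) := by
    refine ⟨convex_Ioi 0, ?_⟩
    intro s hs t ht a b ha hb hab
    have hst : 0 < a • s + b • t := (convex_Ioi (0 : ℝ)) hs ht ha hb hab
    dsimp only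
    rw [smul_eq_mul a (∫ r in (0 : ℝ)..1, aw φ h s (Real.exp r)),
      smul_eq_mul b (∫ r in (0 : ℝ)..1, aw φ h t (Real.exp r)),
      ← intervalIntegral.integral_const_mul, ← intervalIntegral.integral_const_mul,
      ← intervalIntegral.integral_add ((hi s hs).const_mul a) ((hi t ht).const_mul b)]
    refine intervalIntegral.integral_mono_on zero_le_one (hi _ hst)
      (((hi s hs).const_mul a).add ((hi t ht).const_mul b)) fun r _ => ?_
    exact (H (Real.exp r) (Real.exp_pos r)).2 hs ht ha hb hab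
  exact hconv.continuousOn isOpen_Ioi

lemma cont_GG (H : ∀ v, 0 < v → ConvexOn ℝ (Ioi 0) (fun s => aw φ h s v)) :
    Continuous (GG φ) := by
  have hk : Continuous (fun r => aw φ h (Real.exp r) 1) :=
    cont_exp H one_pos (fun r => r) continuous_id
  have e : ∀ x, GG φ x = ((∫ r in (0 : ℝ)..(x + 1), aw φ h (Real.exp r) 1) -
      ∫ r in (0 : ℝ)..x, aw φ h (Real.exp r) 1) -
      ∫ r in (0 : ℝ)..1, aw φ h (Real.exp x) (Real.exp r) := by
    intro x
    have e1 : GG φ x = (∫ r in (0 : ℝ)..1, aw φ h (Real.exp (x + r)) 1) -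
        ∫ r in (0 : ℝ)..1, aw φ h (Real.exp x) (Real.exp r) := by
      unfold GG
      rw [← intervalIntegral.integral_sub
        ((cont_exp H one_pos (fun r => x + r) (by fun_prop)).intervalIntegrable _ _)
        ((cont_exp' H (Real.exp_pos x) (fun r => r) continuous_id).intervalIntegrable _ _)]
      exact intervalIntegral.integral_congr fun r _ => cc_eq φ h x r
    have e2 : (∫ r in (0 : ℝ)..1, aw φ h (Real.exp (x + r)) 1) =
        ∫ r in x..(x + 1), aw φ h (Real.exp r) 1 := by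
      rw [intervalIntegral.integral_comp_add_left (fun r => aw φ h (Real.exp r) 1) x, add_zero]
    have e3 : (∫ r in (0 : ℝ)..x, aw φ h (Real.exp r) 1) +
        (∫ r in x..(x + 1), aw φ h (Real.exp r) 1) =
        ∫ r in (0 : ℝ)..(x + 1), aw φ h (Real.exp r) 1 :=
      intervalIntegral.integral_add_adjacent_intervals (hk.intervalIntegrable _ _)
        (hk.intervalIntegrable _ _)
    rw [e1, e2]
    linarith
  rw [show GG φ = fun x => ((∫ r in (0 : ℝ)..(x + 1), aw φ h (Real.exp r) 1) -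
      ∫ r in (0 : ℝ)..x, aw φ h (Real.exp r) 1) -
      ∫ r in (0 : ℝ)..1, aw φ h (Real.exp x) (Real.exp r) from funext e]
  have hK := cont_prim hk
  have hJ : Continuous (fun x => ∫ r in (0 : ℝ)..1, aw φ h (Real.exp x) (Real.exp r)) :=
    (cont_J H).comp_continuous Real.continuous_exp fun _ => Real.exp_pos _
  exact ((hK.comp (continuous_id.add continuous_const)).sub hK).sub hJ

theorem main : S_REG := by
  intro φ h H
  have hg : Continuous (fun x => EE φ x - GG φ x) :=
    (cont_prim (cont_cc1 H 1 (fun r => r) continuous_id)).sub (cont_GG H)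
  have hlog : ContinuousOn Real.log (Ioi 0) :=
    Real.continuousOn_log.mono fun x hx => (ne_of_gt hx)
  have hgl : ContinuousOn (fun t => EE φ (Real.log t) - GG φ (Real.log t)) (Ioi 0) :=
    hg.comp_continuousOn hlog
  refine ⟨fun t => EE φ (Real.log t) - GG φ (Real.log t),
    fun z => aw φ h z 1 - (EE φ (Real.log z) - GG φ (Real.log z)), hgl,
    (cont_s H one_pos).sub hgl, ?_⟩
  intro s v hs hv
  obtain ⟨x, rfl⟩ : ∃ x, Real.exp x = s := ⟨Real.log s, Real.exp_log hs⟩
  obtain ⟨y, rfl⟩ : ∃ y, Real.exp y = v := ⟨Real.log v, Real.exp_log hv⟩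
  have h1 := cob H x y
  have h2 := cc_eq φ h x y
  change aw φ h (Real.exp x) (Real.exp y) =
    (EE φ (Real.log (Real.exp x)) - GG φ (Real.log (Real.exp x))) +
    (EE φ (Real.log (Real.exp y)) - GG φ (Real.log (Real.exp y))) +
    (aw φ h (Real.exp x * Real.exp y) 1 - (EE φ (Real.log (Real.exp x * Real.exp y)) -
      GG φ (Real.log (Real.exp x * Real.exp y))))
  rw [← Real.exp_add, Real.log_exp, Real.log_exp, Real.log_exp]
  linarith

end Pool.Agent.R222.GH.Reg
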