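import Pool.Agent.R222.GH.Geo

/-!
# Planar energies `(det A)^q g(K) + f(det A)`: statements
-/

set_option autoImplicit false

namespace Pool.Agent.R222.GH

open MeasureTheory Set Filter Topology

/-! ### splitting -/

def S_CTG : Prop := ∀ (q : ℝ) (g f : ℝ → ℝ), RC (iso (ew q g f)) →
  ContinuousOn g (Ici 1) ∧ ContinuousOn f (Ioi 0)

def S_SPL : Prop := ∀ (q : ℝ) (g f : ℝ → ℝ), q ≠ 0 → q ≠ 1 → RC (iso (ew q g f)) →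
  ∃ c : ℝ, ConvexOn ℝ (Ioi 0) (fun z => f z - c * z ^ q) ∧ RC (iso (gw q (fun K => g K + c)))

/-! ### duality -/

def S_DUA : Prop := ∀ Ψ : ℝ → ℝ → ℝ, RC (iso Ψ) → RC (iso (fun s v => s * v * Ψ (1 / v) (1 / s)))

/-! ### the profile -/

/-- `a` is the slope of a supporting line of `φ` at `K0`, on `[1,∞)` -/
def SG (φ : ℝ → ℝ) (K0 a : ℝ) : Prop := ∀ K, 1 ≤ K → φ K0 + a * (K - K0) ≤ φ K

def S_FCT : Prop := ∀ (p : ℝ) (φ : ℝ → ℝ), RC (iso (hw p φ)) →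
  ConvexOn ℝ (Ici 1) φ ∧ MonotoneOn (fun K => K ^ (-(p / 2)) * φ K) (Ici 1) ∧
  (∀ K, 1 ≤ K → φ 1 + p / 2 * φ 1 * (K - 1) ≤ φ K) ∧
  (∀ K0 a, 1 < K0 → SG φ K0 a → p * φ K0 ≤ 2 * a * K0 ∧ p / 2 * φ 1 ≤ a)

/-! ### the two special rank-one lines through `(K0, 1)` -/

def S_SPC : Prop := ∀ (p : ℝ) (φ : ℝ → ℝ) (K0 a s v : ℝ), RC (iso (hw p φ)) → SG φ K0 a →
  1 ≤ K0 → 0 < v → v ≤ s → (s - K0) * (v - 1) ≤ 0 →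
  φ K0 + (2 * K0 * a - p * φ K0) / (K0 + 1) * ((s - v) - (K0 - 1))
    + (a + p * φ K0 - K0 * a) / (K0 + 1) * (s * v - K0) ≤ hw p φ s v

def S_MIR : Prop := ∀ (p : ℝ) (φ : ℝ → ℝ) (K0 a s v : ℝ), RC (iso (hw p φ)) → SG φ K0 a →
  1 < K0 → 0 < v → v ≤ s → 0 ≤ (s - K0) * (v - 1) → v ≤ K0 → 1 ≤ s →
  φ K0 + (2 * K0 * a - p * φ K0) / (K0 - 1) * ((s + v) - (K0 + 1))
    + (p * φ K0 - K0 * a - a) / (K0 - 1) * (s * v - K0) ≤ hw p φ s v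

/-- monotonicity of `l ↦ l^(-p) (M + P l + R l^2)` between `l` and `1` -/
def S_MEE : Prop := ∀ p l M P R : ℝ, 0 < l →
  (∀ t, min l 1 ≤ t → t ≤ max l 1 →
    0 ≤ (l - t) * (-(p * M) + (1 - p) * P * t + (2 - p) * R * t ^ 2)) →
  M + P + R ≤ l ^ (-p) * (M + P * l + R * l ^ 2)

/-- the first supporting inequality -/
def S_NIN : Prop := ∀ (p : ℝ) (φ : ℝ → ℝ) (K0 a : ℝ), p ≤ 1 → RC (iso (hw p φ)) → SG φ K0 a →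
  1 < K0 → (2 - p) * a + p * (φ K0 - a * K0) < 0 → 0 ≤ 2 * K0 * a - p * φ K0 →
  ∀ s v, 0 < v → v ≤ s →
  φ K0 + (2 * K0 * a - p * φ K0) / (K0 + 1) * ((s - v) - (K0 - 1))
    + (a + p * φ K0 - K0 * a) / (K0 + 1) * (s * v - K0) ≤ hw p φ s v

/-! ### the supports -/

/-- the supports at the point `(K0, 1)` -/
def Spt (p : ℝ) (φ : ℝ → ℝ) (K0 : ℝ) : Prop :=
  (∃ a b : ℝ, |p * b| ≤ (2 - p) * a ∧ a * K0 + b = φ K0 ∧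
    ∀ s v, 0 < v → v ≤ s → a * s * v ^ (p - 1) + b * v ^ p ≤ hw p φ s v) ∨
  (∃ A C D e : ℝ, 0 ≤ A ∧ (e = 1 ∨ e = -1) ∧ A * (K0 + e) + C * K0 + D = φ K0 ∧
    ∀ s v, 0 < v → v ≤ s → A * (s + e * v) + C * (s * v) + D ≤ hw p φ s v) ∨
  (p < 0 ∧ ∃ A C D θ c v1 : ℝ, 0 < v1 ∧ v1 < 1 ∧ 0 ≤ A ∧ 0 < θ ∧
    A + C * v1 = θ * (-p) * v1 ^ (p - 1) ∧ A * v1 + D = c - θ * (2 - p) * v1 ^ p ∧
    0 ≤ (1 - p) * A + (2 - p) * C * v1 ∧ A * (K0 + 1) + C * K0 + D = φ K0 ∧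
    (∀ s v, v1 ≤ v → v ≤ s → A * (s + v) + C * (s * v) + D ≤ hw p φ s v) ∧
    (∀ s v, 0 < v → v < v1 → v ≤ s →
      θ * (-p * s * v ^ (p - 1) - (2 - p) * v ^ p) + c ≤ hw p φ s v))

/-- **the supports exist** -/
def S_COR : Prop := ∀ (p : ℝ) (φ : ℝ → ℝ), p ≤ 1 → RC (iso (hw p φ)) → ∀ K0, 1 ≤ K0 → Spt p φ K0

/-- the supports in the class treated directly -/
def S_PRI : Prop := ∀ (p : ℝ) (φ : ℝ → ℝ) (K0 l : ℝ), p ≤ 1 → 1 ≤ K0 → 0 < l → Spt p φ K0 →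
  ∃ a b : ℝ → ℝ, (∀ s, ConvexOn ℝ (Ioc 0 s) (fun v => a v * s + b v)) ∧
    (∃ r, 0 < r ∧ r < l ∧ ∀ ρ, r < ρ → ρ ≤ l →
      ∃ A B, HasDerivAt a A ρ ∧ HasDerivAt b B ρ ∧ |B| ≤ a ρ - ρ * A) ∧
    a l * (l * K0) + b l = hw p φ (l * K0) l ∧
    ∀ s v, 0 < v → v ≤ s → a v * s + b v ≤ hw p φ s v

end Pool.Agent.R222.GH
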