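import Pool.Agent.R222.GH.Stm
import Pool.Agent.W978.MQ.Piece
import Pool.Agent.R222.VI.Nin

/-!
# Planar energies `(det A)^q g(K) + f(det A)`: statements, second part
-/

set_option autoImplicit false

namespace Pool.Agent.R222.GH

open MeasureTheory Set Filter Topology

/-- the supports for the dual energy -/
def S_DUL : Prop := ∀ (p : ℝ) (φ : ℝ → ℝ) (K0 l : ℝ), p ≤ 1 → 1 ≤ K0 → 0 < l → Spt p φ K0 →
  ∃ w : ℂ × ℂ → ℝ, Pool.Agent.W978.MQ.G w ∧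
    (∀ F, Pos F → w F ≤ iso (fun s v => s * v * hw p φ (1 / v) (1 / s)) F) ∧
    (∀ F, ‖F.1‖ + ‖F.2‖ = 1 / l → ‖F.1‖ - ‖F.2‖ = 1 / (l * K0) →
      w F = iso (fun s v => s * v * hw p φ (1 / v) (1 / s)) F)

/-- the logarithmic functions of the class `RC` -/
def S_RCL : Prop := ∀ a c γ : ℝ, |c| ≤ a →
  Pool.Agent.W360.MQ.RC (fun s => a * s ^ 2) (fun s => γ - 2 * c * Real.log s)

/-- the supports in the logarithmic case -/
def SptL (h : ℝ → ℝ) (c s0 v0 : ℝ) : Prop :=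
  (∃ a γ : ℝ, |c| ≤ a ∧ (∀ s v, 0 < v → v ≤ s →
      a * (s / v) + 2 * c * Real.log v + γ ≤ h (s / v) + c * Real.log (s * v)) ∧
    a * (s0 / v0) + 2 * c * Real.log v0 + γ = h (s0 / v0) + c * Real.log (s0 * v0)) ∨
  (∃ A C D : ℝ, 0 ≤ A ∧ (∀ s v, 0 < v → v ≤ s →
      A * (s - v) + C * (s * v) + D ≤ h (s / v) + c * Real.log (s * v)) ∧
    A * (s0 - v0) + C * (s0 * v0) + D = h (s0 / v0) + c * Real.log (s0 * v0))

def S_SPE : Prop := ∀ (h : ℝ → ℝ) (c s0 v0 : ℝ),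
  Pool.Agent.Y273.VI.RCp (Pool.Agent.R222.VI.wv h (fun z => c * Real.log z)) → 0 < v0 → v0 ≤ s0 →
  SptL h c s0 v0

end Pool.Agent.R222.GH
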