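import Pool.Agent.R222.GH.Stm3
import Pool.Agent.W707.HM.Stm

/-!
# Isotropic homogeneous functions plus a function of the determinant, on all matrices: statements
for matrices
-/

set_option autoImplicit false

namespace Pool.Agent.R222.GH

open MeasureTheory Set Filter Topology
open Pool.Agent.W360.MQ (cab RankOneConvex Quasiconvex)
open Pool.Agent.W707.HM (Isotropic Homog)

/-- the theorem for functions which are homogeneous of degree two up to a logarithm -/
def S_LOGM : Prop := ∀ (c : ℝ) (W : Matrix (Fin 2) (Fin 2) ℝ → ℝ), Isotropic W →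
  (∀ l : ℝ, 0 < l → ∀ A, W (l • A) = l ^ 2 * W A + 2 * c * l ^ 2 * Real.log l * A.det) →
  RankOneConvex W → Quasiconvex W

end Pool.Agent.R222.GH
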