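import Pool.Agent.R222.GH.Stm

/-!
# Additive isotropic energies plus a function of the determinant: statements
-/

set_option autoImplicit false

namespace Pool.Agent.R222.GH

open MeasureTheory Set Filter Topology

/-- the energy `φ(s) + φ(v) + h(s v)` -/
def aw (φ h : ℝ → ℝ) (s v : ℝ) : ℝ := φ s + φ v + h (s * v)

/-- the functions may be chosen continuous -/
def S_REG : Prop := ∀ φ h : ℝ → ℝ,
  (∀ v, 0 < v → ConvexOn ℝ (Ioi 0) (fun s => aw φ h s v)) →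
  ∃ φ' h' : ℝ → ℝ, ContinuousOn φ' (Ioi 0) ∧ ContinuousOn h' (Ioi 0) ∧
    ∀ s v, 0 < s → 0 < v → aw φ h s v = aw φ' h' s v

/-- normalization -/
def S_NRM : Prop := ∀ φ h : ℝ → ℝ, ContinuousOn φ (Ioi 0) → ContinuousOn h (Ioi 0) →
  (∀ v, 0 < v → ConvexOn ℝ (Ioi 0) (fun s => aw φ h s v)) →
  ∃ c : ℝ, ConvexOn ℝ (Ioi 0) (fun t => φ t - c * Real.log t) ∧
    ConvexOn ℝ (Ioi 0) (fun z => h z + c * Real.log z)

/-- the supports -/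
def S_SUPA : Prop := ∀ φ h : ℝ → ℝ, ConvexOn ℝ (Ioi 0) φ → ConvexOn ℝ (Ioi 0) h →
  RC (iso (aw φ h)) → ∀ F0 : ℂ × ℂ, Pos F0 → ∃ c1 c2 c3 c4 : ℝ, 0 ≤ c1 ∧ 0 ≤ c2 ∧
    (∀ F, Pos F → c1 * ‖F.1‖ + c2 * ‖F.2‖ + c3 * Dt F + c4 ≤ iso (aw φ h) F) ∧
    c1 * ‖F0.1‖ + c2 * ‖F0.2‖ + c3 * Dt F0 + c4 = iso (aw φ h) F0

end Pool.Agent.R222.GH
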