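import Pool.Agent.R222.GH.Stm5

/-! # The supports of an additive energy -/

set_option autoImplicit false

namespace Pool.Agent.R222.GH.Vlc

open MeasureTheory Set Filter Topology

open Pool.Agent.R222.GH

theorem iso_norm (Ψ : ℝ → ℝ → ℝ) {F G : ℂ × ℂ} (h1 : ‖F.1‖ = ‖G.1‖) (h2 : ‖F.2‖ = ‖G.2‖) :
    iso Ψ F = iso Ψ G := by
  unfold iso
  rw [h1, h2]

/-- the Baker-Ericksen inequality between a matrix and the conformal matrix with the same
determinant -/
theorem be {Ψ : ℝ → ℝ → ℝ} (hR : RC (iso Ψ)) {x0 y0 : ℝ} (hy : 0 ≤ y0) (hxy : y0 < x0) :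
    iso Ψ (((Real.sqrt (x0 ^ 2 - y0 ^ 2) : ℝ) : ℂ), ((0 : ℝ) : ℂ)) ≤ iso Ψ ((x0 : ℂ), (y0 : ℂ)) := by
  have hz : 0 < x0 ^ 2 - y0 ^ 2 := by nlinarith
  set r := Real.sqrt (x0 ^ 2 - y0 ^ 2) with hr
  have hr0 : 0 < r := Real.sqrt_pos.2 hz
  have hr2 : r ^ 2 = x0 ^ 2 - y0 ^ 2 := Real.sq_sqrt hz.le
  have hc := shear_conv hR (x := r) (y := 0) (by rw [zero_pow two_ne_zero]; positivity)
  have h := hc.2 (mem_univ (-y0)) (mem_univ y0) (show (0 : ℝ) ≤ 1 / 2 by norm_num)
    (show (0 : ℝ) ≤ 1 / 2 by norm_num) (by norm_num)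
  have e : (1 / 2 : ℝ) • (-y0) + (1 / 2 : ℝ) • y0 = 0 := by simp only [smul_eq_mul]; ring
  rw [e] at h
  beta_reduce at h
  have hx0 : 0 ≤ x0 := by linarith
  have k : ∀ t : ℝ, t ^ 2 = y0 ^ 2 → iso Ψ (((r : ℂ), ((0 : ℝ) : ℂ)) + t • ((Complex.I, Complex.I) : ℂ × ℂ))
      = iso Ψ ((x0 : ℂ), (y0 : ℂ)) := by
    intro t ht
    apply iso_norm
    · rw [(shear_norm r 0 t).1, ht, hr2]
      simp only [Complex.norm_real, Real.norm_eq_abs]
      rw [abs_of_nonneg hx0, show x0 ^ 2 - y0 ^ 2 + y0 ^ 2 = x0 ^ 2 by ring, Real.sqrt_sq hx0]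
    · rw [(shear_norm r 0 t).2, ht]
      simp only [Complex.norm_real, Real.norm_eq_abs]
      rw [abs_of_nonneg hy, zero_pow two_ne_zero, zero_add, Real.sqrt_sq hy]
  rw [k (-y0) (by ring), k y0 rfl, zero_smul, add_zero] at h
  simp only [smul_eq_mul] at h
  linarith

theorem main : S_SUPA := by
  intro φ h hφ hh hR F0 hF0
  set w := iso (aw φ h) with hw
  set x0 := ‖F0.1‖ with hx0
  set y0 := ‖F0.2‖ with hy0
  have hy0n : 0 ≤ y0 := norm_nonneg _
  have hxy : y0 < x0 := hF0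
  have hx0p : 0 < x0 := by linarith
  have hv0 : 0 < x0 - y0 := by linarith
  have hs0 : 0 < x0 + y0 := by linarith
  have hz0 : 0 < (x0 + y0) * (x0 - y0) := mul_pos hs0 hv0
  -- the slopes
  obtain ⟨σ, τ, hσ, hτ, hle, heqq⟩ : ∃ σ τ : ℝ,
      (∀ u ∈ Ioi (0 : ℝ), φ (x0 + y0) + σ * (u - (x0 + y0)) ≤ φ u) ∧
      (∀ u ∈ Ioi (0 : ℝ), φ (x0 - y0) + τ * (u - (x0 - y0)) ≤ φ u) ∧ τ ≤ σ ∧ (y0 = 0 → τ = σ) := by
    obtain ⟨σ, hσ⟩ := sub_grad_on hφ isOpen_Ioi (mem_Ioi.2 hs0)
    rcases eq_or_lt_of_le hy0n with hy | hy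
    · refine ⟨σ, σ, hσ, ?_, le_rfl, fun _ => rfl⟩
      have e : x0 - y0 = x0 + y0 := by rw [← hy]; ring
      rw [e]
      exact hσ
    · obtain ⟨τ, hτ⟩ := sub_grad_on hφ isOpen_Ioi (mem_Ioi.2 hv0)
      refine ⟨σ, τ, hσ, hτ, ?_, fun h => absurd h hy.ne'⟩
      have h1 := hσ _ (mem_Ioi.2 hv0)
      have h2 := hτ _ (mem_Ioi.2 hs0)
      nlinarith
  obtain ⟨η, hη⟩ := sub_grad_on hh isOpen_Ioi (mem_Ioi.2 hz0)
  -- the lower bound in terms of the norms
  have hlow : ∀ F : ℂ × ℂ, Pos F → w F0 + σ * (‖F.1‖ + ‖F.2‖ - (x0 + y0))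
      + τ * (‖F.1‖ - ‖F.2‖ - (x0 - y0)) + η * (Dt F - Dt F0) ≤ w F := by
    intro F hF
    have hF' : ‖F.2‖ < ‖F.1‖ := hF
    have hn := norm_nonneg F.2
    have h1 := hσ (‖F.1‖ + ‖F.2‖) (mem_Ioi.2 (by linarith))
    have h2 := hτ (‖F.1‖ - ‖F.2‖) (mem_Ioi.2 (by linarith))
    have h3 := hη ((‖F.1‖ + ‖F.2‖) * (‖F.1‖ - ‖F.2‖))
      (mem_Ioi.2 (mul_pos (by linarith) (by linarith)))
    have e1 : (‖F.1‖ + ‖F.2‖) * (‖F.1‖ - ‖F.2‖) = Dt F := by unfold Dt; ring
    have e2 : (x0 + y0) * (x0 - y0) = Dt F0 := by unfold Dt; rw [← hx0, ← hy0]; ring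
    rw [hw]
    unfold iso aw
    rw [← hx0, ← hy0, ← e1, ← e2]
    linarith
  by_cases hst : 0 ≤ σ + τ
  · refine ⟨σ + τ, σ - τ, η, w F0 - (σ + τ) * x0 - (σ - τ) * y0 - η * Dt F0, hst, by linarith,
      fun F hF => ?_, by ring⟩
    have := hlow F hF
    linarith
  · push Not at hst
    set μ := -(σ + τ) / (2 * x0) with hμ
    have hμ0 : 0 < μ := by rw [hμ]; exact div_pos (by linarith) (by linarith)
    have hμe : σ + τ = -(2 * x0 * μ) := by rw [hμ]; field_simp
    have hDt0 : Dt F0 = x0 ^ 2 - y0 ^ 2 := rfl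
    -- the inequality
    have key : ∀ F : ℂ × ℂ, Pos F →
        w F0 + (σ - τ - 2 * μ * y0) * (‖F.2‖ - y0) + (η - μ) * (Dt F - Dt F0) ≤ w F := by
      intro F hF
      have hF' : ‖F.2‖ < ‖F.1‖ := hF
      have hn := norm_nonneg F.2
      set x := ‖F.1‖ with hx
      set y := ‖F.2‖ with hy
      have hDt : Dt F = x ^ 2 - y ^ 2 := rfl
      rcases le_total 0 (((x + y) - (x0 + y0)) * ((x - y) - (x0 - y0))) with hc | hc
      · have h1 := hlow F hF
        rw [← hx, ← hy] at h1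
        have h2 : σ * (x + y - (x0 + y0)) + τ * (x - y - (x0 - y0))
            = (σ + τ) * (x - x0) + (σ - τ) * (y - y0) := by ring
        have h3 : 0 ≤ μ * (((x + y) - (x0 + y0)) * ((x - y) - (x0 - y0))) := mul_nonneg hμ0.le hc
        rw [hμe] at h2
        rw [hDt, hDt0] at h1 ⊢
        linarith
      · obtain ⟨H, hH, hH2, hH1⟩ := seg_ex (s0 := x0 + y0) (v0 := x0 - y0) (s1 := x + y)
          (v1 := x - y) hv0 (by linarith) (by linarith) (by linarith) hc
        have e0 : ((x0 + y0 + (x0 - y0)) / 2 : ℝ) = x0 := by ring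
        have e1 : (((x + y - (x - y)) / 2 - (x0 + y0 - (x0 - y0)) / 2 : ℝ)) = y - y0 := by ring
        have e2 : ((x + y + (x - y)) / 2 : ℝ) = x := by ring
        rw [e0, e2] at hH1
        rw [e1] at hH2
        set P : ℂ × ℂ := ((x0 : ℂ), (y0 : ℂ)) with hP
        have nP1 : ‖P.1‖ = x0 := by
          rw [hP]; simp only [Complex.norm_real, Real.norm_eq_abs]; exact abs_of_pos hx0p
        have nP2 : ‖P.2‖ = y0 := by
          rw [hP]; simp only [Complex.norm_real, Real.norm_eq_abs]; exact abs_of_nonneg hy0n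
        have nH1 : ‖(P + H).1‖ = x := hH1
        have nt2 : ∀ t : ℝ, 0 ≤ t → t ≤ 1 → ‖(P + t • H).2‖ = y0 + t * (y - y0) := by
          intro t h0 h1
          have : (P + t • H).2 = ((y0 + t * (y - y0) : ℝ) : ℂ) := by
            simp only [hP, Prod.snd_add, Prod.smul_snd, hH2, Complex.real_smul]
            push_cast
            ring
          rw [this, Complex.norm_real, Real.norm_of_nonneg]
          nlinarith
        have nH2 : ‖(P + H).2‖ = y := by
          have := nt2 1 zero_le_one le_rfl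
          rw [one_smul] at this
          rw [this]; ring
        have wP : w P = w F0 := iso_norm _ nP1 nP2
        have wH : w (P + H) = w F := iso_norm _ nH1 nH2
        have pP : Pos P := by change ‖P.2‖ < ‖P.1‖; rw [nP1, nP2]; exact hxy
        have pH : Pos (P + H) := by change ‖(P + H).2‖ < ‖(P + H).1‖; rw [nH1, nH2]; exact hF'
        have dP : Dt P = Dt F0 := by unfold Dt; rw [nP1, nP2]
        have dH : Dt (P + H) = Dt F := by unfold Dt; rw [nH1, nH2]
        have hstep : ∀ t : ℝ, 0 < t → t ≤ 1 →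
            (σ - τ - 2 * μ * y0) * (y - y0) + (η - μ) * (Dt F - Dt F0)
              ≤ w F - w F0 + t * (μ * (y - y0) ^ 2) := by
          intro t ht0 ht1
          have hdt := Dt_line P H hH t
          rw [dP, dH] at hdt
          have hpt : Pos (P + t • H) := by
            rw [Dt_pos, hdt]
            have h2 := Dt_pos.1 hF0
            have h3 := Dt_pos.1 hF
            have := mul_pos ht0 h3
            have := mul_nonneg (sub_nonneg.2 ht1) h2.le
            linarith
          have h1 := hR P H hH pP pH t ht0.le ht1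
          rw [wP, wH] at h1
          have h2 := hlow (P + t • H) hpt
          rw [nt2 t ht0.le ht1, hdt] at h2
          set a := ‖(P + t • H).1‖ with ha
          have ha2 : a ^ 2 = (1 - t) * Dt F0 + t * Dt F + (y0 + t * (y - y0)) ^ 2 := by
            have h3 : Dt (P + t • H) = a ^ 2 - (y0 + t * (y - y0)) ^ 2 := by
              unfold Dt
              rw [nt2 t ht0.le ht1]
            rw [hdt] at h3
            linarith
          have h3 : 2 * x0 * (a - x0) ≤ a ^ 2 - x0 ^ 2 := by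
            have := sq_nonneg (a - x0)
            linarith
          have h4 : -(2 * x0 * μ) * (a - x0) ≥ -μ * (a ^ 2 - x0 ^ 2) := by
            have := mul_le_mul_of_nonneg_left h3 hμ0.le
            linarith
          have h5 : σ * (a + (y0 + t * (y - y0)) - (x0 + y0))
              + τ * (a - (y0 + t * (y - y0)) - (x0 - y0))
              = (σ + τ) * (a - x0) + (σ - τ) * (t * (y - y0)) := by ring
          rw [hμe] at h5
          rw [ha2] at h4
          rw [hDt0] at h4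
          have h6 : t * ((σ - τ - 2 * μ * y0) * (y - y0) + (η - μ) * (Dt F - Dt F0))
              ≤ t * (w F - w F0 + t * (μ * (y - y0) ^ 2)) := by
            rw [hDt0] at h2 ⊢
            linarith
          exact le_of_mul_le_mul_left h6 ht0
        have hlim : (σ - τ - 2 * μ * y0) * (y - y0) + (η - μ) * (Dt F - Dt F0) ≤ w F - w F0 := by
          refine le_of_forall_pos_lt_add fun ε hε => ?_
          set K := μ * (y - y0) ^ 2 with hK
          have hK0 : 0 ≤ K := by positivity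
          have ht : 0 < min 1 (ε / (2 * (K + 1))) := lt_min one_pos (by positivity)
          have h1 := hstep _ ht (min_le_left _ _)
          have h2 : min 1 (ε / (2 * (K + 1))) * K ≤ ε / (2 * (K + 1)) * K :=
            mul_le_mul_of_nonneg_right (min_le_right _ _) hK0
          have h3 : ε / (2 * (K + 1)) * K < ε := by
            rw [div_mul_eq_mul_div, div_lt_iff₀ (by positivity)]
            nlinarith
          linarith
        linarith
    refine ⟨0, σ - τ - 2 * μ * y0, η - μ,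
      w F0 - (σ - τ - 2 * μ * y0) * y0 - (η - μ) * Dt F0, le_rfl, ?_, fun F hF => ?_, by ring⟩
    · rcases eq_or_lt_of_le hy0n with hy | hy
      · rw [← hy, heqq hy.symm]; simp
      · set r := Real.sqrt (x0 ^ 2 - y0 ^ 2) with hr
        have hz : 0 < x0 ^ 2 - y0 ^ 2 := by nlinarith
        have hr0 : 0 < r := Real.sqrt_pos.2 hz
        have hr2 : r ^ 2 = x0 ^ 2 - y0 ^ 2 := Real.sq_sqrt hz.le
        have n1 : ‖((r : ℂ), ((0 : ℝ) : ℂ)).1‖ = r := by
          simp only [Complex.norm_real, Real.norm_eq_abs]; exact abs_of_pos hr0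
        have n2 : ‖((r : ℂ), ((0 : ℝ) : ℂ)).2‖ = 0 := by simp
        have hp : Pos ((r : ℂ), ((0 : ℝ) : ℂ)) := by
          change ‖((r : ℂ), ((0 : ℝ) : ℂ)).2‖ < ‖((r : ℂ), ((0 : ℝ) : ℂ)).1‖
          rw [n1, n2]; exact hr0
        have h1 := key _ hp
        have h2 := be hR hy0n hxy
        rw [← hr] at h2
        have h3 : iso (aw φ h) ((x0 : ℂ), (y0 : ℂ)) = w F0 := by
          apply iso_norm
          · simp only [Complex.norm_real, Real.norm_eq_abs]; exact abs_of_pos hx0p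
          · simp only [Complex.norm_real, Real.norm_eq_abs]; exact abs_of_nonneg hy0n
        rw [h3] at h2
        have h4 : Dt ((r : ℂ), ((0 : ℝ) : ℂ)) = Dt F0 := by
          unfold Dt
          rw [n1, n2, hr2, ← hx0, ← hy0]; ring
        rw [h4, n2, sub_self, mul_zero, add_zero] at h1
        by_contra hcon
        push Not at hcon
        have : 0 < (σ - τ - 2 * μ * y0) * (0 - y0) := mul_pos_of_neg_of_neg hcon (by linarith)
        linarith
    · have := key F hF
      linarith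

end Pool.Agent.R222.GH.Vlc
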