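import Pool.Agent.R222.GH.Vla
import Pool.Agent.R222.GH.Vlc
import Pool.Agent.R222.GH.Reg
import Pool.Agent.R222.GH.Nrm

/-! # Project VL: all parts together -/

set_option autoImplicit false

namespace Pool.Agent.R222.GH.VlAll

open MeasureTheory Set Filter Topology
open Pool.Agent.Y273.VI (Rp Tm)

open scoped Matrix.Norms.L2Operator in
/-- quasiconvexity -/
theorem qc (φ h : ℝ → ℝ) (W : Matrix (Fin 2) (Fin 2) ℝ → ℝ)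
    (hW : ∀ A : Matrix (Fin 2) (Fin 2) ℝ, 0 < A.det → W A = φ ‖A‖ + φ (A.det / ‖A‖) + h A.det)
    (hR : Rp W) (F₀ : Matrix (Fin 2) (Fin 2) ℝ) (h0 : 0 < F₀.det) {Ω : Set (Fin 2 → ℝ)}
    {ϑ : (Fin 2 → ℝ) → (Fin 2 → ℝ)} (ht : Tm Ω ϑ)
    (hpos : ∀ᵐ x ∂(volume.restrict Ω), 0 < (F₀ + LinearMap.toMatrix'
      ((fderiv ℝ ϑ x : (Fin 2 → ℝ) →L[ℝ] (Fin 2 → ℝ)) :
        (Fin 2 → ℝ) →ₗ[ℝ] (Fin 2 → ℝ))).det)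
    (hfin : ∫⁻ x in Ω, ENNReal.ofReal (W (F₀ + LinearMap.toMatrix'
      ((fderiv ℝ ϑ x : (Fin 2 → ℝ) →L[ℝ] (Fin 2 → ℝ)) :
        (Fin 2 → ℝ) →ₗ[ℝ] (Fin 2 → ℝ)))) ≠ ⊤) :
    IntegrableOn (fun x => W (F₀ + LinearMap.toMatrix'
      ((fderiv ℝ ϑ x : (Fin 2 → ℝ) →L[ℝ] (Fin 2 → ℝ)) :
        (Fin 2 → ℝ) →ₗ[ℝ] (Fin 2 → ℝ)))) Ω ∧
    W F₀ * (volume Ω).toReal ≤ ∫ x in Ω, W (F₀ + LinearMap.toMatrix'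
      ((fderiv ℝ ϑ x : (Fin 2 → ℝ) →L[ℝ] (Fin 2 → ℝ)) :
        (Fin 2 → ℝ) →ₗ[ℝ] (Fin 2 → ℝ))) :=
  Vla.vl_qc Reg.main Nrm.main Vlc.main φ h W hW hR F₀ h0 ht hpos hfin

open scoped Matrix.Norms.L2Operator in
/-- polyconvexity -/
theorem pc (φ h : ℝ → ℝ) (W : Matrix (Fin 2) (Fin 2) ℝ → ℝ)
    (hW : ∀ A : Matrix (Fin 2) (Fin 2) ℝ, 0 < A.det → W A = φ ‖A‖ + φ (A.det / ‖A‖) + h A.det)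
    (hR : Rp W) (F₀ : Matrix (Fin 2) (Fin 2) ℝ) (h0 : 0 < F₀.det) :
    ∃ (L : Matrix (Fin 2) (Fin 2) ℝ →ₗ[ℝ] ℝ) (κ : ℝ), ∀ A : Matrix (Fin 2) (Fin 2) ℝ, 0 < A.det →
      W F₀ + L (A - F₀) + κ * (A.det - F₀.det) ≤ W A :=
  Vla.vl_pc Reg.main Nrm.main Vlc.main φ h W hW hR F₀ h0

end Pool.Agent.R222.GH.VlAll
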