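import Pool.Agent.R222.GH.Asm
import Pool.Agent.R222.GH.Stm5

/-! # Additive energies: assembly -/

set_option autoImplicit false

namespace Pool.Agent.R222.GH.Vla

open MeasureTheory Set Filter Topology
open Pool.Agent.R222.GH
open Pool.Agent.Y273.VI (Rp RCp_of Tm det_cab)
open Pool.Agent.W360.MQ (cab)
open Pool.Agent.W523.MQ.OM (T)
open Pool.Agent.W978.MQ (G)

theorem aw_symm (φ h : ℝ → ℝ) (s v : ℝ) : aw φ h s v = aw φ h v s := by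
  unfold aw
  rw [mul_comm v s]
  ring

/-- separate convexity -/
theorem sep {φ h : ℝ → ℝ} (hR : RC (iso (aw φ h))) {v : ℝ} (hv : 0 < v) :
    ConvexOn ℝ (Ioi 0) (fun s => aw φ h s v) := by
  set P : ℂ × ℂ := (((v / 2 : ℝ) : ℂ), ((-(v / 2) : ℝ) : ℂ)) with hP
  set H : ℂ × ℂ := (((1 / 2 : ℝ) : ℂ), ((1 / 2 : ℝ) : ℂ)) with hH
  have e : ∀ s : ℝ, P + s • H = ((((s + v) / 2 : ℝ) : ℂ), (((s - v) / 2 : ℝ) : ℂ)) := by
    intro s
    apply Prod.ext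
    · simp only [hP, hH, Prod.fst_add, Prod.smul_fst, Complex.real_smul]
      push_cast
      ring
    · simp only [hP, hH, Prod.snd_add, Prod.smul_snd, Complex.real_smul]
      push_cast
      ring
  have n1 : ∀ s : ℝ, 0 < s → ‖(P + s • H).1‖ = (s + v) / 2 := by
    intro s hs
    rw [e]
    simp only
    rw [Complex.norm_real, Real.norm_of_nonneg (by linarith)]
  have n2 : ∀ s : ℝ, ‖(P + s • H).2‖ = |s - v| / 2 := by
    intro s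
    rw [e]
    simp only
    rw [Complex.norm_real, Real.norm_eq_abs, abs_div, abs_two]
  have hc := conv_line hR P H rfl (convex_Ioi 0) (fun s hs => by
    have hs' : (0 : ℝ) < s := hs
    change ‖(P + s • H).2‖ < ‖(P + s • H).1‖
    rw [n1 s hs', n2]
    have : |s - v| < s + v := abs_lt.2 ⟨by linarith, by linarith⟩
    linarith)
  refine hc.congr fun s hs => ?_
  have hs' : (0 : ℝ) < s := hs
  unfold iso
  beta_reduce
  rw [n1 s hs', n2]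
  rcases le_total v s with h1 | h1
  · rw [abs_of_nonneg (by linarith)]
    congr 1 <;> ring
  · rw [abs_of_nonpos (by linarith), aw_symm φ h s v]
    congr 1 <;> ring

/-- the supports -/
theorem supp (hREG : S_REG) (hNRM : S_NRM) (hSUP : S_SUPA) {φ h : ℝ → ℝ}
    (hR : RC (iso (aw φ h))) {F0 : ℂ × ℂ} (hF0 : Pos F0) : ∃ c1 c2 c3 c4 : ℝ, 0 ≤ c1 ∧ 0 ≤ c2 ∧
    (∀ F, Pos F → c1 * ‖F.1‖ + c2 * ‖F.2‖ + c3 * Dt F + c4 ≤ iso (aw φ h) F) ∧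
    c1 * ‖F0.1‖ + c2 * ‖F0.2‖ + c3 * Dt F0 + c4 = iso (aw φ h) F0 := by
  obtain ⟨φ', h', hφ', hh', heq⟩ := hREG φ h fun v hv => sep hR hv
  have hR' : RC (iso (aw φ' h')) := RC_congr (fun F hF => by
    obtain ⟨h1, h2⟩ := sv_pos hF
    exact heq _ _ (lt_of_lt_of_le h1 h2) h1) hR
  obtain ⟨c, hc1, hc2⟩ := hNRM φ' h' hφ' hh' fun v hv => sep hR' hv
  have hval : ∀ s v : ℝ, 0 < s → 0 < v → aw φ' h' s v
      = aw (fun t => φ' t - c * Real.log t) (fun z => h' z + c * Real.log z) s v := by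
    intro s v hs hv
    unfold aw
    beta_reduce
    rw [Real.log_mul hs.ne' hv.ne']
    ring
  have hiso : ∀ F, Pos F → iso (aw φ h) F
      = iso (aw (fun t => φ' t - c * Real.log t) (fun z => h' z + c * Real.log z)) F := by
    intro F hF
    obtain ⟨h1, h2⟩ := sv_pos hF
    unfold iso
    rw [heq _ _ (lt_of_lt_of_le h1 h2) h1, hval _ _ (lt_of_lt_of_le h1 h2) h1]
  obtain ⟨c1, c2, c3, c4, p1, p2, p3, p4⟩ := hSUP _ _ hc1 hc2 (RC_congr hiso hR) F0 hF0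
  exact ⟨c1, c2, c3, c4, p1, p2, fun F hF => by rw [hiso F hF]; exact p3 F hF,
    by rw [hiso F0 hF0]; exact p4⟩

theorem cont (hREG : S_REG) {φ h : ℝ → ℝ} (hR : RC (iso (aw φ h))) :
    ContinuousOn (iso (aw φ h)) {F : ℂ × ℂ | ‖F.2‖ < ‖F.1‖} := by
  obtain ⟨φ', h', hφ', hh', heq⟩ := hREG φ h fun v hv => sep hR hv
  have h1 : ContinuousOn (fun F : ℂ × ℂ => φ' (‖F.1‖ + ‖F.2‖) + φ' (‖F.1‖ - ‖F.2‖)
      + h' ((‖F.1‖ + ‖F.2‖) * (‖F.1‖ - ‖F.2‖))) {F : ℂ × ℂ | ‖F.2‖ < ‖F.1‖} := by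
    have k1 : ∀ F ∈ {F : ℂ × ℂ | ‖F.2‖ < ‖F.1‖}, ‖F.1‖ + ‖F.2‖ ∈ Ioi (0 : ℝ) := by
      intro F hF
      obtain ⟨h1, h2⟩ := sv_pos hF
      exact lt_of_lt_of_le h1 h2
    have k2 : ∀ F ∈ {F : ℂ × ℂ | ‖F.2‖ < ‖F.1‖}, ‖F.1‖ - ‖F.2‖ ∈ Ioi (0 : ℝ) := by
      intro F hF
      exact (sv_pos hF).1
    apply ContinuousOn.add
    · apply ContinuousOn.add
      · exact hφ'.comp (Continuous.continuousOn (by fun_prop)) k1
      · exact hφ'.comp (Continuous.continuousOn (by fun_prop)) k2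
    · exact hh'.comp (Continuous.continuousOn (by fun_prop)) fun F hF =>
        mem_Ioi.2 (mul_pos (k1 F hF) (k2 F hF))
  refine h1.congr fun F hF => ?_
  obtain ⟨p1, p2⟩ := sv_pos hF
  exact heq _ _ (lt_of_lt_of_le p1 p2) p1

/-- the Morrey inequality -/
theorem mor (hREG : S_REG) (hNRM : S_NRM) (hSUP : S_SUPA) {φ h : ℝ → ℝ}
    (hR : RC (iso (aw φ h))) {F₀ : Matrix (Fin 2) (Fin 2) ℝ} (hF : Pos (cab F₀)) :
    MP (iso (aw φ h)) F₀ := by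
  obtain ⟨c1, c2, c3, c4, p1, p2, p3, p4⟩ := supp hREG hNRM hSUP hR hF
  have hG : G (fun F : ℂ × ℂ => c1 * ‖F.1‖ + c2 * ‖F.2‖ + c3 * Dt F + c4) := by
    have g0 : G (fun _ : ℂ × ℂ => c4) :=
      ⟨continuous_const, Pool.Agent.W465.MQ.CVX.main _ (convexOn_const c4 convex_univ)
        continuous_const⟩
    have k1 : Continuous (fun F : ℂ × ℂ => ‖F.1‖) := continuous_fst.norm
    have k2 : Continuous (fun F : ℂ × ℂ => ‖F.2‖) := continuous_snd.norm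
    have g1 : G (fun F : ℂ × ℂ => ‖F.1‖) :=
      ⟨k1, Pool.Agent.W465.MQ.CVX.main _ Pool.Agent.W978.MQ.cvx1 k1⟩
    have g2 : G (fun F : ℂ × ℂ => ‖F.2‖) :=
      ⟨k2, Pool.Agent.W465.MQ.CVX.main _ Pool.Agent.W978.MQ.cvx2 k2⟩
    exact (((g1.smul p1).add (g2.smul p2)).add (Dt_G c3)).add g0
  exact MP_le (MP_G hG F₀) (cont hREG hR) p3 p4

open scoped Matrix.Norms.L2Operator in
theorem W_eqa (φ h : ℝ → ℝ) (A : Matrix (Fin 2) (Fin 2) ℝ) (hA : 0 < A.det) :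
    φ ‖A‖ + φ (A.det / ‖A‖) + h A.det = iso (aw φ h) (cab A) := by
  obtain ⟨h1, h2⟩ := Pool.Agent.W74.MQ.OPN.main A
  have hc := (det_cab A).1 hA
  have n2 := norm_nonneg (cab A).2
  have h5 : ‖(cab A).1‖ + ‖(cab A).2‖ ≠ 0 := by linarith
  have h6 : ‖(cab A).1‖ ^ 2 - ‖(cab A).2‖ ^ 2
      = (‖(cab A).1‖ + ‖(cab A).2‖) * (‖(cab A).1‖ - ‖(cab A).2‖) := by ring
  rw [h1, h2]
  unfold iso aw
  rw [h6, mul_div_cancel_left₀ _ h5]

open scoped Matrix.Norms.L2Operator in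
/-- the Morrey inequality for matrices -/
theorem vl_qc (hREG : S_REG) (hNRM : S_NRM) (hSUP : S_SUPA) (φ h : ℝ → ℝ)
    (W : Matrix (Fin 2) (Fin 2) ℝ → ℝ)
    (hW : ∀ A : Matrix (Fin 2) (Fin 2) ℝ, 0 < A.det → W A = φ ‖A‖ + φ (A.det / ‖A‖) + h A.det)
    (hR : Rp W) (F₀ : Matrix (Fin 2) (Fin 2) ℝ) (h0 : 0 < F₀.det) {Ω : Set (Fin 2 → ℝ)}
    {ϑ : (Fin 2 → ℝ) → (Fin 2 → ℝ)} (ht : Tm Ω ϑ)
    (hpos : ∀ᵐ x ∂(volume.restrict Ω), 0 < (F₀ + LinearMap.toMatrix'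
      ((fderiv ℝ ϑ x : (Fin 2 → ℝ) →L[ℝ] (Fin 2 → ℝ)) :
        (Fin 2 → ℝ) →ₗ[ℝ] (Fin 2 → ℝ))).det)
    (hfin : ∫⁻ x in Ω, ENNReal.ofReal (W (F₀ + LinearMap.toMatrix'
      ((fderiv ℝ ϑ x : (Fin 2 → ℝ) →L[ℝ] (Fin 2 → ℝ)) :
        (Fin 2 → ℝ) →ₗ[ℝ] (Fin 2 → ℝ)))) ≠ ⊤) :
    IntegrableOn (fun x => W (F₀ + LinearMap.toMatrix'
      ((fderiv ℝ ϑ x : (Fin 2 → ℝ) →L[ℝ] (Fin 2 → ℝ)) :
        (Fin 2 → ℝ) →ₗ[ℝ] (Fin 2 → ℝ)))) Ω ∧
    W F₀ * (volume Ω).toReal ≤ ∫ x in Ω, W (F₀ + LinearMap.toMatrix'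
      ((fderiv ℝ ϑ x : (Fin 2 → ℝ) →L[ℝ] (Fin 2 → ℝ)) :
        (Fin 2 → ℝ) →ₗ[ℝ] (Fin 2 → ℝ))) := by
  have hW' : ∀ A : Matrix (Fin 2) (Fin 2) ℝ, 0 < A.det → W A = iso (aw φ h) (cab A) := by
    intro A hA
    rw [hW A hA, W_eqa φ h A hA]
  have hRc : RC (iso (aw φ h)) := RCp_of hW' hR
  have hpos' : ∀ᵐ x ∂(volume.restrict Ω),
      ‖(T F₀ (fderiv ℝ ϑ x)).2‖ < ‖(T F₀ (fderiv ℝ ϑ x)).1‖ := by
    filter_upwards [hpos] with x hx
    exact (det_cab _).1 hx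
  have hev : (fun x => W (F₀ + LinearMap.toMatrix'
      ((fderiv ℝ ϑ x : (Fin 2 → ℝ) →L[ℝ] (Fin 2 → ℝ)) :
        (Fin 2 → ℝ) →ₗ[ℝ] (Fin 2 → ℝ)))) =ᵐ[volume.restrict Ω]
      fun x => iso (aw φ h) (T F₀ (fderiv ℝ ϑ x)) := by
    filter_upwards [hpos] with x hx
    exact hW' _ hx
  have hfin' : ∫⁻ x in Ω, ENNReal.ofReal (iso (aw φ h) (T F₀ (fderiv ℝ ϑ x))) ≠ ⊤ := by
    have e := lintegral_congr_ae (hev.fun_comp ENNReal.ofReal)
    simp only [Function.comp] at e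
    rw [← e]
    exact hfin
  obtain ⟨h1, h2⟩ := mor hREG hNRM hSUP hRc ((det_cab F₀).1 h0) Ω ϑ ht hpos' hfin'
  refine ⟨h1.congr_fun_ae hev.symm, ?_⟩
  rw [integral_congr_ae hev, hW' F₀ h0]
  exact h2

/-- a linear function below a multiple of the norm -/
theorem lin_norm (c : ℝ) (hc : 0 ≤ c) (a : ℂ) : ∃ b : ℂ, (∀ z : ℂ, b.re * z.re + b.im * z.im ≤ c * ‖z‖) ∧
    b.re * a.re + b.im * a.im = c * ‖a‖ := by
  rcases eq_or_ne a 0 with ha | ha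
  · subst ha
    refine ⟨0, fun z => ?_, by simp⟩
    simp only [Complex.zero_re, Complex.zero_im, zero_mul, add_zero]
    positivity
  · have hn : 0 < ‖a‖ := norm_pos_iff.2 ha
    refine ⟨((c / ‖a‖ : ℝ) : ℂ) * a, fun z => ?_, ?_⟩
    · simp only [Complex.mul_re, Complex.mul_im, Complex.ofReal_re, Complex.ofReal_im, zero_mul,
        sub_zero, add_zero]
      have h1 : a.re * z.re + a.im * z.im ≤ ‖a‖ * ‖z‖ := by
        have h2 := Complex.abs_re_le_norm ((starRingEnd ℂ a) * z)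
        rw [norm_mul, Complex.norm_conj] at h2
        have h3 := le_trans (le_abs_self _) h2
        simp only [Complex.mul_re, Complex.conj_re, Complex.conj_im] at h3
        linarith
      have h2 : 0 ≤ c / ‖a‖ := div_nonneg hc hn.le
      calc c / ‖a‖ * a.re * z.re + c / ‖a‖ * a.im * z.im
          = c / ‖a‖ * (a.re * z.re + a.im * z.im) := by ring
        _ ≤ c / ‖a‖ * (‖a‖ * ‖z‖) := mul_le_mul_of_nonneg_left h1 h2
        _ = c * ‖z‖ := by field_simp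
    · simp only [Complex.mul_re, Complex.mul_im, Complex.ofReal_re, Complex.ofReal_im, zero_mul,
        sub_zero, add_zero]
      have h1 : ‖a‖ ^ 2 = a.re * a.re + a.im * a.im := by
        rw [← Complex.normSq_eq_norm_sq, Complex.normSq_apply]
      calc c / ‖a‖ * a.re * a.re + c / ‖a‖ * a.im * a.im
          = c / ‖a‖ * (a.re * a.re + a.im * a.im) := by ring
        _ = c / ‖a‖ * ‖a‖ ^ 2 := by rw [h1]
        _ = c * ‖a‖ := by field_simp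

open scoped Matrix.Norms.L2Operator in
/-- polyconvexity -/
theorem vl_pc (hREG : S_REG) (hNRM : S_NRM) (hSUP : S_SUPA) (φ h : ℝ → ℝ)
    (W : Matrix (Fin 2) (Fin 2) ℝ → ℝ)
    (hW : ∀ A : Matrix (Fin 2) (Fin 2) ℝ, 0 < A.det → W A = φ ‖A‖ + φ (A.det / ‖A‖) + h A.det)
    (hR : Rp W) (F₀ : Matrix (Fin 2) (Fin 2) ℝ) (h0 : 0 < F₀.det) :
    ∃ (L : Matrix (Fin 2) (Fin 2) ℝ →ₗ[ℝ] ℝ) (κ : ℝ), ∀ A : Matrix (Fin 2) (Fin 2) ℝ, 0 < A.det →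
      W F₀ + L (A - F₀) + κ * (A.det - F₀.det) ≤ W A := by
  have hW' : ∀ A : Matrix (Fin 2) (Fin 2) ℝ, 0 < A.det → W A = iso (aw φ h) (cab A) := by
    intro A hA
    rw [hW A hA, W_eqa φ h A hA]
  have hRc : RC (iso (aw φ h)) := RCp_of hW' hR
  obtain ⟨c1, c2, c3, c4, p1, p2, p3, p4⟩ := supp hREG hNRM hSUP hRc ((det_cab F₀).1 h0)
  obtain ⟨a, ha1, ha2⟩ := lin_norm c1 p1 (cab F₀).1
  obtain ⟨b, hb1, hb2⟩ := lin_norm c2 p2 (cab F₀).2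
  have hdet : ∀ A : Matrix (Fin 2) (Fin 2) ℝ, A.det = Dt (cab A) := by
    intro A
    unfold Dt
    exact (Pool.Agent.W74.MQ.OPN.main A).2
  have hcab : ∀ A : Matrix (Fin 2) (Fin 2) ℝ, (cab A).1.re = (A 0 0 + A 1 1) / 2 ∧
      (cab A).1.im = (A 1 0 - A 0 1) / 2 ∧ (cab A).2.re = (A 0 0 - A 1 1) / 2 ∧
      (cab A).2.im = (A 1 0 + A 0 1) / 2 := by
    intro A
    have e : ∀ x y : ℝ, (((x : ℂ) + (y : ℂ) * Complex.I) / 2).re = x / 2 ∧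
        (((x : ℂ) + (y : ℂ) * Complex.I) / 2).im = y / 2 := by
      intro x y
      have : ((x : ℂ) + (y : ℂ) * Complex.I) / 2 = ((x / 2 : ℝ) : ℂ) + ((y / 2 : ℝ) : ℂ) * Complex.I := by
        push_cast; ring
      rw [this]
      simp
    exact ⟨(e _ _).1, (e _ _).2, (e _ _).1, (e _ _).2⟩
  let L : Matrix (Fin 2) (Fin 2) ℝ →ₗ[ℝ] ℝ :=
    { toFun := fun A => a.re * ((A 0 0 + A 1 1) / 2) + a.im * ((A 1 0 - A 0 1) / 2)
        + (b.re * ((A 0 0 - A 1 1) / 2) + b.im * ((A 1 0 + A 0 1) / 2))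
      map_add' := fun A B => by simp only [Matrix.add_apply]; ring
      map_smul' := fun r A => by
        simp only [Matrix.smul_apply, smul_eq_mul, RingHom.id_apply]; ring }
  have hL : ∀ A, L A = a.re * (cab A).1.re + a.im * (cab A).1.im
      + (b.re * (cab A).2.re + b.im * (cab A).2.im) := by
    intro A
    obtain ⟨e1, e2, e3, e4⟩ := hcab A
    rw [e1, e2, e3, e4]
    rfl
  refine ⟨L, c3, fun A hA => ?_⟩
  have q1 := p3 (cab A) ((det_cab A).1 hA)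
  rw [hW' A hA, hW' F₀ h0, hdet A, hdet F₀, map_sub, hL, hL]
  have q2 := ha1 (cab A).1
  have q3 := hb1 (cab A).2
  linarith

end Pool.Agent.R222.GH.Vla
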